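import Pool.Agent.N133.TB.Stm

/-!
Project TB: the algebraic theorems on families of tensors.
-/

set_option autoImplicit false
set_option linter.overlappingInstances false
set_option linter.unusedSectionVars false

open MvPolynomial

namespace Pool.Agent.N133.TB

section

variable {ι : Type} {n : ℕ} {m : ι → ℕ} {R : Type} [CommRing R]

theorem act_mul (A B : Matrix (Fin n) (Fin n) R) (t : Fam m n R) :
    act (A * B) t = act A (act B t) := by
  funext i J
  simp only [act]
  have h1 : ∀ I : Fin (m i) → Fin n, (∏ s, (A * B) (J s) (I s)) =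
      ∑ I' : Fin (m i) → Fin n, (∏ s, A (J s) (I' s)) * ∏ s, B (I' s) (I s) := by
    intro I
    simp only [Matrix.mul_apply]
    rw [Finset.prod_univ_sum, Fintype.piFinset_univ]
    refine Finset.sum_congr rfl fun I' _ => ?_
    rw [Finset.prod_mul_distrib]
  simp only [h1, Finset.sum_mul, Finset.mul_sum]
  rw [Finset.sum_comm]
  refine Finset.sum_congr rfl fun I' _ => Finset.sum_congr rfl fun I _ => ?_
  rw [mul_assoc]

theorem act_one (t : Fam m n R) : act (1 : Matrix (Fin n) (Fin n) R) t = t := by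
  classical
  funext i J
  simp only [act]
  rw [Finset.sum_eq_single J]
  · simp
  · intro I _ hI
    obtain ⟨s, hs⟩ : ∃ s, I s ≠ J s := by
      by_contra h
      push Not at h
      exact hI (funext h)
    rw [Finset.prod_eq_zero (Finset.mem_univ s) (by rw [Matrix.one_apply_ne (Ne.symm hs)]), zero_mul]
  · intro h
    exact absurd (Finset.mem_univ J) h

theorem act_zero (A : Matrix (Fin n) (Fin n) R) : act A (0 : Fam m n R) = 0 := by
  funext i J
  simp [act]

theorem zero_act (hm : ∀ i, 1 ≤ m i) (t : Fam m n R) :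
    act (0 : Matrix (Fin n) (Fin n) R) t = 0 := by
  funext i J
  simp only [act]
  refine Finset.sum_eq_zero fun I _ => ?_
  rw [Finset.prod_eq_zero (Finset.mem_univ (⟨0, hm i⟩ : Fin (m i))) (by simp), zero_mul]

end

section

variable {ι : Type} {n : ℕ} {m : ι → ℕ} {L : Type} [Field L]

theorem act_inv {A : Matrix (Fin n) (Fin n) L} (hA : A.det ≠ 0) (t : Fam m n L) :
    act A⁻¹ (act A t) = t := by
  rw [← act_mul, Matrix.nonsing_inv_mul _ (isUnit_iff_ne_zero.2 hA), act_one]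

theorem act_inv' {A : Matrix (Fin n) (Fin n) L} (hA : A.det ≠ 0) (t : Fam m n L) :
    act A (act A⁻¹ t) = t := by
  rw [← act_mul, Matrix.mul_nonsing_inv _ (isUnit_iff_ne_zero.2 hA), act_one]

theorem inv_det_ne {A : Matrix (Fin n) (Fin n) L} (hA : A.det ≠ 0) : A⁻¹.det ≠ 0 := by
  rw [Matrix.det_nonsing_inv]
  simpa using hA

/-- **Stable families with the same semi-invariants are conjugate.** -/
theorem alg_stable (hSEP : S_SEP) (hHM : S_HM) {k : Type} [Field k] [CharZero k] [Algebra k L]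
    [IsAlgClosed L] [Finite ι] (hn : 1 ≤ n) {t₁ t₂ : Fam m n L} (h1 : StableFam t₁)
    (h : ∀ (W : ℕ) (Q : MvPolynomial (Ix m n) k), SemiInv k m n W Q →
      aeval (pt t₁) Q = aeval (pt t₂) Q) :
    ∃ A : Matrix (Fin n) (Fin n) L, A.det ≠ 0 ∧ t₁ = act A t₂ := by
  have hchar : CharZero L := charZero_of_injective_algebraMap (algebraMap k L).injective
  obtain ⟨z, hz1, hz2⟩ := hSEP k L ι m n hn t₁ t₂ h
  obtain ⟨A, B, w, hA, hB, hw, hJ, hw0⟩ := hHM L ι m n hn t₁ z hz1
  have h2 : w = 0 := h1.2 A hA w hw fun i J hs => (hJ i J).1 hs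
  have h3 := hw0 h2
  -- z = B⁻¹ A t₁
  have hz : z = act (B⁻¹ * A) t₁ := by
    rw [act_mul, h3, act_inv hB]
  obtain ⟨A', B', w', hA', hB', hw', hJ', hw0'⟩ := hHM L ι m n hn t₂ z hz2
  have h4 : -w' = 0 := by
    refine h1.2 (B' * (B⁻¹ * A)) ?_ (-w') ?_ fun i J hs => ?_
    · rw [Matrix.det_mul, Matrix.det_mul]
      exact mul_ne_zero hB' (mul_ne_zero (inv_det_ne hB) hA)
    · simp only [Pi.neg_apply, Finset.sum_neg_distrib, hw', neg_zero]
    · rw [act_mul, ← hz]
      refine (hJ' i J).2.1 ?_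
      simp only [Pi.neg_apply, Finset.sum_neg_distrib] at hs
      omega
  have h5 : w' = 0 := neg_eq_zero.1 h4
  have h6 := hw0' h5
  rw [hz, ← act_mul] at h6
  refine ⟨(B' * (B⁻¹ * A))⁻¹ * A', ?_, ?_⟩
  · rw [Matrix.det_mul]
    refine mul_ne_zero (inv_det_ne ?_) hA'
    rw [Matrix.det_mul, Matrix.det_mul]
    exact mul_ne_zero hB' (mul_ne_zero (inv_det_ne hB) hA)
  · rw [act_mul, h6, act_inv]
    rw [Matrix.det_mul, Matrix.det_mul]
    exact mul_ne_zero hB' (mul_ne_zero (inv_det_ne hB) hA)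

/-- **If the semi-invariants vanish, the family is unstable.** -/
theorem alg_null (hSEP : S_SEP) (hHM : S_HM) {k : Type} [Field k] [CharZero k] [Algebra k L]
    [IsAlgClosed L] [Finite ι] (hn : 1 ≤ n) (hm : ∀ i, 1 ≤ m i) {t : Fam m n L}
    (h : ∀ (W : ℕ) (Q : MvPolynomial (Ix m n) k), 1 ≤ W → SemiInv k m n W Q →
      aeval (pt t) Q = 0) :
    ∃ (A : Matrix (Fin n) (Fin n) L) (w : Fin n → ℤ), A.det ≠ 0 ∧ ∑ i, w i = 0 ∧
      ∀ i J, ∑ s, w (J s) ≤ 0 → act A t i J = 0 := by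
  have hchar : CharZero L := charZero_of_injective_algebraMap (algebraMap k L).injective
  have hdet : (0 : Matrix (Fin n) (Fin n) L).det = 0 := by
    have : Nonempty (Fin n) := ⟨⟨0, hn⟩⟩
    exact Matrix.det_zero
  obtain ⟨z, hz1, hz2⟩ := hSEP k L ι m n hn t 0 (fun W Q hQ => by
    have h1 := hQ L (0 : Matrix (Fin n) (Fin n) L) t
    rw [zero_act hm, hdet] at h1
    rcases Nat.eq_zero_or_pos W with hW | hW
    · subst hW
      rw [pow_zero, one_mul] at h1
      exact h1.symm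
    · rw [h W Q hW hQ, mul_zero] at h1
      rw [h W Q hW hQ, h1])
  have hz : z = 0 := by
    funext i J
    have h1 := hz2 (X (some ⟨i, J⟩)) (fun g => by
      rw [act_zero]
      simp [pto, pt])
    simpa [pto, pt] using h1
  subst hz
  obtain ⟨A, B, w, hA, hB, hw, hJ, -⟩ := hHM L ι m n hn t 0 hz1
  refine ⟨A, w, hA, hw, fun i J hs => ?_⟩
  rcases lt_or_eq_of_le hs with h1 | h1
  · exact (hJ i J).1 h1
  · refine ((hJ i J).2.2 h1).2 ?_
    rw [act_zero]
    rfl

end

/-- specialization of a family to a smaller algebraically closed field -/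
theorem alg_spec (hDESC : S_DESC) {E L : Type} [Field E] [Field L] [Algebra E L] [IsAlgClosed E]
    {σ : Type} [Finite σ] (Z : Set (MvPolynomial σ E)) (x : σ → L)
    (hx : ∀ Q ∈ Z, ∃ e : E, aeval x Q = algebraMap E L e) :
    ∃ x' : σ → E, ∀ Q ∈ Z, aeval x Q = algebraMap E L (eval x' Q) := by
  classical
  obtain ⟨x', h1, -⟩ := hDESC E L σ x {P | ∃ Q ∈ Z, ∃ e : E, aeval x Q = algebraMap E L e ∧
      P = Q - C e} 1 (by
    rintro P ⟨Q, -, e, he, rfl⟩
    rw [map_sub, he, aeval_C, sub_self]) (by rw [map_one]; exact one_ne_zero)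
  refine ⟨x', fun Q hQ => ?_⟩
  obtain ⟨e, he⟩ := hx Q hQ
  have h2 := h1 (Q - C e) ⟨Q, hQ, e, he, rfl⟩
  rw [map_sub, eval_C, sub_eq_zero] at h2
  rw [he, h2]

end Pool.Agent.N133.TB
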