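import Pool.Agent.N133.TB.Stm
import Mathlib.RingTheory.Nullstellensatz

/-!
Project TB, part DESC: Nullstellensatz descent (helper99).
-/

set_option autoImplicit false

namespace Pool.Agent.N133.TB

open MvPolynomial

theorem t_desc : S_DESC := by
  intro L Ω _ _ _ _ σ _ x Z q hZ hq
  set I : Ideal (MvPolynomial σ L) := RingHom.ker (aeval x : MvPolynomial σ L →ₐ[L] Ω) with hI
  have hpr : I.IsPrime := RingHom.ker_isPrime _
  by_contra hcon
  push Not at hcon
  have hq2 : q ∈ vanishingIdeal L (zeroLocus L I) := by
    rw [mem_vanishingIdeal_iff]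
    intro y hy
    rw [mem_zeroLocus_iff] at hy
    have := hcon y (fun P hP => by
      have h2 := hy P (by rw [hI, RingHom.mem_ker]; exact hZ P hP)
      simpa [aeval_eq_eval] using h2)
    simpa [aeval_eq_eval] using this
  rw [vanishingIdeal_zeroLocus_eq_radical, hpr.radical, hI, RingHom.mem_ker] at hq2
  exact hq hq2

end Pool.Agent.N133.TB
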