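import Pool.Agent.N133.TB.Stm

set_option autoImplicit false

/-!
# Task HM: the criterion of Hilbert and Mumford
-/

open MvPolynomial

namespace Pool.Agent.N133.TB

section hm_lemmas

variable {ι : Type} {n : ℕ} {m : ι → ℕ}

lemma hm_act_map {R R' : Type} [CommRing R] [CommRing R'] (f : R →+* R')
    (A : Matrix (Fin n) (Fin n) R) (t : Fam m n R) (i : ι) (J : Fin (m i) → Fin n) :
    f (act A t i J) = act (A.map f) (fun i J => f (t i J)) i J := by
  simp only [act, map_sum, map_mul, map_prod, Matrix.map_apply]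

lemma hm_act_mul {R : Type} [CommRing R] (A B : Matrix (Fin n) (Fin n) R) (t : Fam m n R) :
    act (A * B) t = act A (act B t) := by
  funext i J
  simp only [act, Matrix.mul_apply]
  have h : ∀ I : Fin (m i) → Fin n, ∏ s, ∑ l, A (J s) l * B l (I s) =
      ∑ K : Fin (m i) → Fin n, ∏ s, (A (J s) (K s) * B (K s) (I s)) := by
    intro I
    rw [Finset.prod_univ_sum, Fintype.piFinset_univ]
  simp only [h, Finset.prod_mul_distrib, Finset.sum_mul, Finset.mul_sum]
  rw [Finset.sum_comm]
  refine Finset.sum_congr rfl fun K _ => Finset.sum_congr rfl fun I _ => ?_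
  ring

lemma hm_act_diag {R : Type} [CommRing R] (d : Fin n → R) (t : Fam m n R) (i : ι)
    (J : Fin (m i) → Fin n) :
    act (Matrix.diagonal d) t i J = (∏ s, d (J s)) * t i J := by
  simp only [act]
  rw [Finset.sum_eq_single J]
  · simp
  · intro I _ hI
    obtain ⟨s, hs⟩ : ∃ s, I s ≠ J s := by
      by_contra hcon
      push Not at hcon
      exact hI (funext hcon)
    have h0 : ∏ s, Matrix.diagonal d (J s) (I s) = 0 :=
      Finset.prod_eq_zero (Finset.mem_univ s) (Matrix.diagonal_apply_ne _ (Ne.symm hs))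
    rw [h0, zero_mul]
  · intro h
    exact absurd (Finset.mem_univ _) h

lemma hm_act_one {R : Type} [CommRing R] (t : Fam m n R) :
    act (1 : Matrix (Fin n) (Fin n) R) t = t := by
  funext i J
  rw [← Matrix.diagonal_one, hm_act_diag]
  simp

lemma hm_desc (hD : S_DESC) (L Ω : Type) [Field L] [Field Ω] [Algebra L Ω] [IsAlgClosed L]
    [Finite ι] (t z : Fam m n L) (A' B' : Matrix (Fin n) (Fin n) Ω) (hA' : A'.det ≠ 0)
    (hB' : B'.det ≠ 0) :
    ∃ A B : Matrix (Fin n) (Fin n) L, A.det ≠ 0 ∧ B.det ≠ 0 ∧
      (∀ i J, act A t i J = 0 ↔ act A' (fun i J => algebraMap L Ω (t i J)) i J = 0) ∧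
      (∀ i J, act B z i J = 0 ↔ act B' (fun i J => algebraMap L Ω (z i J)) i J = 0) ∧
      (act A' (fun i J => algebraMap L Ω (t i J)) = act B' (fun i J => algebraMap L Ω (z i J)) →
        act A t = act B z) := by
  classical
  have hft : Fintype ι := Fintype.ofFinite ι
  let σ : Type := (Fin n × Fin n) ⊕ (Fin n × Fin n)
  let GA : Matrix (Fin n) (Fin n) (MvPolynomial σ L) := Matrix.of fun i j => X (Sum.inl (i, j))
  let GB : Matrix (Fin n) (Fin n) (MvPolynomial σ L) := Matrix.of fun i j => X (Sum.inr (i, j))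
  let PA : Fam m n (MvPolynomial σ L) := act GA (fun i J => C (t i J))
  let PB : Fam m n (MvPolynomial σ L) := act GB (fun i J => C (z i J))
  let x : σ → Ω := Sum.elim (fun p => A' p.1 p.2) (fun p => B' p.1 p.2)
  have eA : ∀ i J, aeval x (PA i J) = act A' (fun i J => algebraMap L Ω (t i J)) i J := by
    intro i J
    simp only [PA, act, map_sum, map_mul, map_prod, GA, Matrix.of_apply, aeval_X, aeval_C, x,
      Sum.elim_inl]
  have eB : ∀ i J, aeval x (PB i J) = act B' (fun i J => algebraMap L Ω (z i J)) i J := by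
    intro i J
    simp only [PB, act, map_sum, map_mul, map_prod, GB, Matrix.of_apply, aeval_X, aeval_C, x,
      Sum.elim_inr]
  have dA : aeval x GA.det = A'.det := by
    rw [AlgHom.map_det]
    congr 1
    ext i j
    simp [GA, x]
  have dB : aeval x GB.det = B'.det := by
    rw [AlgHom.map_det]
    congr 1
    ext i j
    simp [GB, x]
  let Z : Set (MvPolynomial σ L) := {P | (∃ i J, aeval x (PA i J) = 0 ∧ P = PA i J) ∨
    (∃ i J, aeval x (PB i J) = 0 ∧ P = PB i J) ∨
    ((∀ i J, aeval x (PA i J) = aeval x (PB i J)) ∧ ∃ i J, P = PA i J - PB i J)}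
  let q : MvPolynomial σ L := GA.det * GB.det *
    (∏ s : Ix m n, if aeval x (PA s.1 s.2) = 0 then 1 else PA s.1 s.2) *
    (∏ s : Ix m n, if aeval x (PB s.1 s.2) = 0 then 1 else PB s.1 s.2)
  have hZ : ∀ P ∈ Z, aeval x P = 0 := by
    rintro P (⟨i, J, h, rfl⟩ | ⟨i, J, h, rfl⟩ | ⟨h, i, J, rfl⟩)
    · exact h
    · exact h
    · rw [map_sub, h i J, sub_self]
  have hq : aeval x q ≠ 0 := by
    simp only [q, map_mul, map_prod, dA, dB]
    refine mul_ne_zero (mul_ne_zero (mul_ne_zero hA' hB') ?_) ?_
    · refine Finset.prod_ne_zero_iff.2 fun s _ => ?_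
      split_ifs with h
      · rw [map_one]
        exact one_ne_zero
      · exact h
    · refine Finset.prod_ne_zero_iff.2 fun s _ => ?_
      split_ifs with h
      · rw [map_one]
        exact one_ne_zero
      · exact h
  obtain ⟨x', hx', hqx⟩ := hD L Ω σ x Z q hZ hq
  let A : Matrix (Fin n) (Fin n) L := Matrix.of fun i j => x' (Sum.inl (i, j))
  let B : Matrix (Fin n) (Fin n) L := Matrix.of fun i j => x' (Sum.inr (i, j))
  have fA : ∀ i J, eval x' (PA i J) = act A t i J := by
    intro i J
    simp only [PA, act, map_sum, map_mul, map_prod, GA, Matrix.of_apply, eval_X, eval_C, A]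
  have fB : ∀ i J, eval x' (PB i J) = act B z i J := by
    intro i J
    simp only [PB, act, map_sum, map_mul, map_prod, GB, Matrix.of_apply, eval_X, eval_C, B]
  have gA : eval x' GA.det = A.det := by
    rw [RingHom.map_det]
    congr 1
    ext i j
    simp [GA, A]
  have gB : eval x' GB.det = B.det := by
    rw [RingHom.map_det]
    congr 1
    ext i j
    simp [GB, B]
  simp only [q, map_mul, map_prod, gA, gB] at hqx
  have hq4 := right_ne_zero_of_mul hqx
  have hq3 := right_ne_zero_of_mul (left_ne_zero_of_mul hqx)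
  have hq2 := right_ne_zero_of_mul (left_ne_zero_of_mul (left_ne_zero_of_mul hqx))
  have hq1 := left_ne_zero_of_mul (left_ne_zero_of_mul (left_ne_zero_of_mul hqx))
  refine ⟨A, B, hq1, hq2, fun i J => ?_, fun i J => ?_, fun h => ?_⟩
  · rw [← fA, ← eA]
    constructor
    · intro h
      by_contra hne
      have h1 := Finset.prod_ne_zero_iff.1 hq3 ⟨i, J⟩ (Finset.mem_univ _)
      rw [if_neg hne] at h1
      exact h1 h
    · intro h
      exact hx' _ (Or.inl ⟨i, J, h, rfl⟩)
  · rw [← fB, ← eB]
    constructor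
    · intro h
      by_contra hne
      have h1 := Finset.prod_ne_zero_iff.1 hq4 ⟨i, J⟩ (Finset.mem_univ _)
      rw [if_neg hne] at h1
      exact h1 h
    · intro h
      exact hx' _ (Or.inr (Or.inl ⟨i, J, h, rfl⟩))
  · funext i J
    have h1 : ∀ i J, aeval x (PA i J) = aeval x (PB i J) := by
      intro i J
      rw [eA, eB, h]
    have h2 := hx' (PA i J - PB i J) (Or.inr (Or.inr ⟨h1, i, J, rfl⟩))
    rw [map_sub, fA, fB] at h2
    exact sub_eq_zero.1 h2

/-- the weights of the monomials -/
lemma hm_wt {Γ : Type} [CommGroup Γ] [LinearOrder Γ] [IsOrderedMonoid Γ] {N : ℕ} {γ : Fin n → Γ}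
    {w : Fin n → ℤ} (hw : ∀ c : Fin n → ℤ, (∀ i, |c i| ≤ N) →
      (1 < ∏ i, γ i ^ c i → 0 < ∑ i, w i * c i) ∧ (∏ i, γ i ^ c i = 1 → ∑ i, w i * c i = 0))
    {k : ℕ} (hk : k ≤ N) (J : Fin k → Fin n) :
    (1 < ∏ s, γ (J s) → 0 < ∑ s, w (J s)) ∧ (∏ s, γ (J s) = 1 → ∑ s, w (J s) = 0) ∧
      (∏ s, γ (J s) < 1 → ∑ s, w (J s) < 0) := by
  classical
  let c : Fin n → ℤ := fun j => ((Finset.univ.filter fun s => J s = j).card : ℤ)
  have h1 : ∏ i, γ i ^ c i = ∏ s, γ (J s) := by
    rw [← Finset.prod_fiberwise (s := Finset.univ) (g := J) (f := fun s => γ (J s))]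
    refine Finset.prod_congr rfl fun j _ => ?_
    rw [Finset.prod_congr rfl (g := fun _ => γ j) (fun s hs => by rw [(Finset.mem_filter.1 hs).2]),
      Finset.prod_const, zpow_natCast]
  have h2 : ∑ i, w i * c i = ∑ s, w (J s) := by
    rw [← Finset.sum_fiberwise (s := Finset.univ) (g := J) (f := fun s => w (J s))]
    refine Finset.sum_congr rfl fun j _ => ?_
    rw [Finset.sum_congr rfl (g := fun _ => w j) (fun s hs => by rw [(Finset.mem_filter.1 hs).2]),
      Finset.sum_const, nsmul_eq_mul, mul_comm]
  have hc : ∀ i, |c i| ≤ N := by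
    intro i
    have h3 : (Finset.univ.filter fun s => J s = i).card ≤ k := by
      refine (Finset.card_filter_le _ _).trans ?_
      simp
    have h4 : |c i| = c i := abs_of_nonneg (by positivity)
    rw [h4]
    show ((Finset.univ.filter fun s => J s = i).card : ℤ) ≤ N
    exact_mod_cast h3.trans hk
  have hc' : ∀ i, |(-c) i| ≤ N := by
    intro i
    rw [Pi.neg_apply, abs_neg]
    exact hc i
  have h5 := hw c hc
  have h6 := (hw (-c) hc').1
  rw [h1, h2] at h5
  have h7 : ∏ i, γ i ^ (-c) i = (∏ s, γ (J s))⁻¹ := by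
    rw [← h1, ← Finset.prod_inv_distrib]
    exact Finset.prod_congr rfl fun i _ => by rw [Pi.neg_apply, zpow_neg]
  have h8 : ∑ i, w i * (-c) i = - ∑ s, w (J s) := by
    rw [← h2, ← Finset.sum_neg_distrib]
    exact Finset.sum_congr rfl fun i _ => by rw [Pi.neg_apply, mul_neg]
  rw [h7, h8] at h6
  refine ⟨h5.1, h5.2, fun h => ?_⟩
  have := h6 (one_lt_inv'.2 h)
  linarith

/-- the generic point specializes -/
lemma hm_incl {L : Type} [Field L] {t z : Fam m n L} (h : InCl t z)
    (F : Type) [Field F] [Algebra L F] (e : MvPolynomial (Fin n × Fin n) L →ₐ[L] F)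
    (he : Function.Injective e) (P : MvPolynomial (Option (Ix m n)) L)
    (hP : aeval (pto (act (Matrix.of fun i j => e (X (i, j))) (fun i J => algebraMap L F (t i J)))
      (Matrix.of fun i j => e (X (i, j)) : Matrix (Fin n) (Fin n) F).det) P = 0) :
    eval (pto z 1) P = 0 := by
  refine h P fun g => ?_
  let G : Matrix (Fin n) (Fin n) (MvPolynomial (Fin n × Fin n) L) := Matrix.of fun i j => X (i, j)
  let Y : Option (Ix m n) → MvPolynomial (Fin n × Fin n) L := pto (act G (fun i J => C (t i J))) G.det
  have h1 : (fun o => e (Y o)) = pto (act (Matrix.of fun i j => e (X (i, j)))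
      (fun i J => algebraMap L F (t i J)))
      (Matrix.of fun i j => e (X (i, j)) : Matrix (Fin n) (Fin n) F).det := by
    funext o
    cases o with
    | none =>
      show e G.det = _
      rw [AlgHom.map_det]
      rfl
    | some s =>
      show e (act G (fun i J => C (t i J)) s.1 s.2) =
        act (Matrix.of fun i j => e (X (i, j))) (fun i J => algebraMap L F (t i J)) s.1 s.2
      simp only [act, map_sum, map_mul, map_prod, G, Matrix.of_apply]
      refine Finset.sum_congr rfl fun I _ => ?_
      congr 1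
      exact e.commutes (t s.1 I)
  rw [← h1] at hP
  have h2 : e (aeval Y P) = 0 := by
    rw [← hP, ← AlgHom.comp_apply, comp_aeval]
  have h3 : aeval Y P = 0 := he (by rw [h2, map_zero])
  have h4 : eval (fun p : Fin n × Fin n => g p.1 p.2) (aeval Y P) = eval (pto (act g t) g.det) P := by
    have h5 : (fun o => eval (fun p : Fin n × Fin n => g p.1 p.2) (Y o)) = pto (act g t) g.det := by
      funext o
      cases o with
      | none =>
        show eval (fun p : Fin n × Fin n => g p.1 p.2) G.det = g.det
        rw [RingHom.map_det]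
        congr 1
        ext i j
        simp [G]
      | some s =>
        show eval (fun p : Fin n × Fin n => g p.1 p.2) (act G (fun i J => C (t i J)) s.1 s.2) =
          act g t s.1 s.2
        simp only [act, map_sum, map_mul, map_prod, G, Matrix.of_apply, eval_X, eval_C]
    rw [MvPolynomial.map_aeval]
    have h6 : (eval (fun p : Fin n × Fin n => g p.1 p.2)).comp
        (algebraMap L (MvPolynomial (Fin n × Fin n) L)) = RingHom.id L := by
      ext c
      simp [MvPolynomial.algebraMap_eq]
    rw [h6, h5]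
    rfl
  rw [← h4, h3, map_zero]

/-- the pair over the residue field -/
lemma hm_res {L F : Type} [Field L] [Field F] [Algebra L F] {ι : Type} [Finite ι] {m : ι → ℕ}
    {n : ℕ} (hsm : S_SMITH) (hwt : S_WT) (t z : Fam m n L) (g : Matrix (Fin n) (Fin n) F)
    (hg : g.det ≠ 0) (O : ValuationSubring F) (hO : ∀ c : L, algebraMap L F c ∈ O)
    (hdet : O.valuation (g.det - 1) < 1)
    (hact : ∀ i J, O.valuation (act g (fun i J => algebraMap L F (t i J)) i J -
      algebraMap L F (z i J)) < 1) :
    ∃ (ω : L →+* IsLocalRing.ResidueField O)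
      (A' B' : Matrix (Fin n) (Fin n) (IsLocalRing.ResidueField O)) (w : Fin n → ℤ),
      A'.det ≠ 0 ∧ B'.det ≠ 0 ∧ ∑ i, w i = 0 ∧
      (∀ i J, (∑ s, w (J s) < 0 → act A' (fun i J => ω (t i J)) i J = 0) ∧
        (0 < ∑ s, w (J s) → act B' (fun i J => ω (z i J)) i J = 0) ∧
        (∑ s, w (J s) = 0 →
          (act A' (fun i J => ω (t i J)) i J = 0 ↔ act B' (fun i J => ω (z i J)) i J = 0))) ∧
      (w = 0 → act A' (fun i J => ω (t i J)) = act B' (fun i J => ω (z i J))) := by
  classical
  have hft : Fintype ι := Fintype.ofFinite ι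
  obtain ⟨a, b, d, ha, hb, hd, hgd⟩ := hsm F O n g hg
  set v := O.valuation with hv
  let φ : L →+* O := (algebraMap L F).codRestrict O hO
  let ρ : O →+* IsLocalRing.ResidueField O := IsLocalRing.residue O
  -- the values of the elementary divisors
  have hvd : ∀ i, v (d i) ≠ 0 := fun i => (Valuation.ne_zero_iff _).2 (hd i)
  let γ : Fin n → (O.ValueGroup)ˣ := fun i => (Units.mk0 (v (d i)) (hvd i))⁻¹
  obtain ⟨N, hN1, hN⟩ : ∃ N : ℕ, 1 ≤ N ∧ ∀ i, m i ≤ N := by
    refine ⟨1 + ∑ i, m i, by omega, fun i => ?_⟩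
    have := Finset.single_le_sum (f := m) (fun j _ => Nat.zero_le _) (Finset.mem_univ i)
    omega
  obtain ⟨w, hw⟩ := hwt (O.ValueGroup)ˣ n N γ
  have hprod : ∏ i, v (d i) = 1 := by
    have h1 : v g.det = 1 := by
      have h2 := Valuation.map_one_add_of_lt v hdet
      rwa [add_sub_cancel] at h2
    have h3 : g.det = (a.det : F) * (∏ i, d i) * (b.det : F) := by
      rw [hgd, Matrix.det_mul, Matrix.det_mul, Matrix.det_diagonal]
      have e1 : (a.map O.subtype).det = (a.det : F) := by
        rw [← RingHom.mapMatrix_apply, ← RingHom.map_det]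
        rfl
      have e2 : (b.map O.subtype).det = (b.det : F) := by
        rw [← RingHom.mapMatrix_apply, ← RingHom.map_det]
        rfl
      rw [e1, e2]
    rw [h3, map_mul, map_mul, (O.valuation_eq_one_iff _).1 ha, (O.valuation_eq_one_iff _).1 hb,
      one_mul, mul_one, map_prod] at h1
    exact h1
  have hsum : ∑ i, w i = 0 := by
    have h1 := (hw (fun _ => 1) (fun i => by
      rw [abs_one]
      exact_mod_cast hN1)).2
    simp only [zpow_one, mul_one] at h1
    apply h1
    apply Units.ext
    rw [Units.coe_prod, Units.val_one]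
    have h2 : ∏ i, ((γ i : (O.ValueGroup)ˣ) : O.ValueGroup) = (∏ i, v (d i))⁻¹ := by
      rw [← Finset.prod_inv_distrib]
      refine Finset.prod_congr rfl fun i _ => ?_
      simp [γ]
    rw [h2, hprod, inv_one]
  have hVJ : ∀ (i : ι) (J : Fin (m i) → Fin n),
      ((∏ s, γ (J s) : (O.ValueGroup)ˣ) : O.ValueGroup) = (v (∏ s, d (J s)))⁻¹ := by
    intro i J
    rw [Units.coe_prod, map_prod, ← Finset.prod_inv_distrib]
    refine Finset.prod_congr rfl fun s _ => ?_
    simp [γ]
  -- the family over the valuation ring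
  have hmem : ∀ i J, act g (fun i J => algebraMap L F (t i J)) i J ∈ O := by
    intro i J
    have h1 := (O.valuation_le_one_iff _).1 (hact i J).le
    have h2 := O.add_mem _ _ h1 (hO (z i J))
    rwa [sub_add_cancel] at h2
  let x : Fam m n O := fun i J => ⟨act g (fun i J => algebraMap L F (t i J)) i J, hmem i J⟩
  let u : Fam m n O := act b (fun i J => φ (t i J))
  have hρx : ∀ i J, ρ (x i J) = ρ (φ (z i J)) := by
    intro i J
    rw [← sub_eq_zero, ← map_sub]
    refine (IsLocalRing.residue_eq_zero_iff _).2 ((O.valuation_lt_one_iff _).2 ?_)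
    exact hact i J
  have hstar : ∀ i J, ((act a⁻¹ x i J : O) : F) = (∏ s, d (J s)) * ((u i J : O) : F) := by
    have h1 : ∀ i J, ((act a⁻¹ x i J : O) : F) =
        act ((a⁻¹).map O.subtype) (fun i J => act g (fun i J => algebraMap L F (t i J)) i J) i J := by
      intro i J
      exact hm_act_map O.subtype a⁻¹ x i J
    have h2 : ∀ i J, ((u i J : O) : F) =
        act (b.map O.subtype) (fun i J => algebraMap L F (t i J)) i J := by
      intro i J
      exact hm_act_map O.subtype b (fun i J => φ (t i J)) i J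
    intro i J
    rw [h1, h2, ← hm_act_diag d]
    have h3 : act (Matrix.diagonal d) (act (b.map O.subtype) (fun i J => algebraMap L F (t i J))) =
        act ((a⁻¹).map O.subtype) (act g (fun i J => algebraMap L F (t i J))) := by
      rw [← hm_act_mul, ← hm_act_mul]
      congr 1
      rw [hgd, ← Matrix.mul_assoc, ← Matrix.mul_assoc, ← Matrix.map_mul,
        Matrix.nonsing_inv_mul a ha, Matrix.map_one _ (map_zero _) (map_one _), Matrix.one_mul]
    exact (congrFun (congrFun h3 i) J).symm
  have hu1 : ∀ i J, v ((u i J : O) : F) ≤ 1 := fun i J => O.valuation_le_one _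
  have hA1 : ∀ i J, act (b.map ρ) (fun i J => ρ (φ (t i J))) i J = ρ (u i J) := by
    intro i J
    exact (hm_act_map ρ b (fun i J => φ (t i J)) i J).symm
  have hB1 : ∀ i J, act ((a⁻¹).map ρ) (fun i J => ρ (φ (z i J))) i J = ρ (act a⁻¹ x i J) := by
    intro i J
    rw [hm_act_map ρ a⁻¹ x i J]
    have : (fun i J => ρ (x i J)) = fun i J => ρ (φ (z i J)) := by
      funext i J
      exact hρx i J
    rw [this]
  have hρ0 : ∀ y : O, ρ y = 0 ↔ v (y : F) < 1 := by
    intro y
    rw [IsLocalRing.residue_eq_zero_iff]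
    exact O.valuation_lt_one_iff y
  have hdetb : (b.map ρ).det ≠ 0 := by
    rw [← RingHom.mapMatrix_apply, ← RingHom.map_det]
    exact (hb.map ρ).ne_zero
  have hdeta : ((a⁻¹).map ρ).det ≠ 0 := by
    rw [← RingHom.mapMatrix_apply, ← RingHom.map_det]
    exact ((Matrix.isUnit_nonsing_inv_det a ha).map ρ).ne_zero
  by_cases hw0 : w = 0
  · -- trivial weights
    have hγ : ∀ i, γ i = 1 := by
      intro i
      by_contra hne
      have h1 : ∀ e : ℤ, |e| ≤ 1 → ¬ 1 < γ i ^ e := by
        intro e he hlt
        have h2 := (hw (Pi.single i e) (fun j => by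
          by_cases hj : j = i
          · subst hj
            rw [Pi.single_eq_same]
            exact he.trans (by exact_mod_cast hN1)
          · rw [Pi.single_eq_of_ne hj, abs_zero]
            positivity)).1
        have h3 : ∏ j, γ j ^ (Pi.single i e : Fin n → ℤ) j = γ i ^ e := by
          rw [Finset.prod_eq_single i]
          · rw [Pi.single_eq_same]
          · intro j _ hj
            rw [Pi.single_eq_of_ne hj, zpow_zero]
          · intro h
            exact absurd (Finset.mem_univ _) h
        rw [h3] at h2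
        have h4 := h2 hlt
        simp [hw0] at h4
      rcases lt_or_gt_of_ne hne with h | h
      · refine h1 (-1) (by simp) ?_
        rw [zpow_neg, zpow_one]
        exact one_lt_inv'.2 h
      · refine h1 1 (by simp) ?_
        rwa [zpow_one]
    have hvd1 : ∀ i, v (d i) = 1 := by
      intro i
      have h1 := congrArg (fun y : (O.ValueGroup)ˣ => (y : O.ValueGroup)) (hγ i)
      simp only [γ, Units.val_inv_eq_inv_val, Units.val_mk0, Units.val_one, inv_eq_one] at h1
      exact h1
    let dO : Fin n → O := fun i => ⟨d i, (O.valuation_le_one_iff _).1 (hvd1 i).le⟩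
    have hdO : ∀ i, IsUnit (dO i) := fun i => (O.valuation_eq_one_iff _).2 (hvd1 i)
    refine ⟨ρ.comp φ, Matrix.diagonal (fun i => ρ (dO i)) * b.map ρ, (a⁻¹).map ρ, w, ?_, hdeta, hsum,
      ?_, ?_⟩
    · rw [Matrix.det_mul, Matrix.det_diagonal]
      refine mul_ne_zero (Finset.prod_ne_zero_iff.2 fun i _ => ?_) hdetb
      exact ((hdO i).map ρ).ne_zero
    all_goals
      have key : act (Matrix.diagonal (fun i => ρ (dO i)) * b.map ρ) (fun i J => ρ (φ (t i J))) =
          act ((a⁻¹).map ρ) (fun i J => ρ (φ (z i J))) := by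
        funext i J
        rw [hm_act_mul, hm_act_diag, hA1, hB1, ← map_prod, ← map_mul]
        congr 1
        apply Subtype.ext
        rw [hstar]
        push_cast
        rfl
    · intro i J
      have h0 : ∑ s, w (J s) = 0 := by simp [hw0]
      refine ⟨fun h => absurd h (by rw [h0]; exact lt_irrefl _),
        fun h => absurd h (by rw [h0]; exact lt_irrefl _), fun _ => ?_⟩
      have := congrFun (congrFun key i) J
      simp only [RingHom.comp_apply]
      rw [this]
    · intro _
      exact key
  · refine ⟨ρ.comp φ, b.map ρ, (a⁻¹).map ρ, w, hdetb, hdeta, hsum, fun i J => ?_,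
      fun h => absurd h hw0⟩
    simp only [RingHom.comp_apply]
    rw [hA1, hB1, hρ0, hρ0]
    obtain ⟨k1, k2, k3⟩ := hm_wt hw (hN i) J
    have hV := hVJ i J
    set V : (O.ValueGroup)ˣ := ∏ s, γ (J s) with hVdef
    set D : F := ∏ s, d (J s) with hD
    have hD0 : v D ≠ 0 := (Valuation.ne_zero_iff _).2 (Finset.prod_ne_zero_iff.2 fun s _ => hd _)
    have hst : v ((act a⁻¹ x i J : O) : F) = v D * v ((u i J : O) : F) := by
      rw [hstar, map_mul]
    have hle : v D * v ((u i J : O) : F) ≤ 1 := by
      rw [← hst]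
      exact O.valuation_le_one _
    have c1 : 1 < V ↔ v D < 1 := by
      rw [← Units.val_lt_val, hV, Units.val_one]
      constructor
      · intro h
        exact (one_lt_inv₀ (zero_lt_iff.2 hD0)).1 h
      · intro h
        exact (one_lt_inv₀ (zero_lt_iff.2 hD0)).2 h
    have c3 : V < 1 ↔ 1 < v D := by
      rw [← Units.val_lt_val, hV, Units.val_one]
      exact inv_lt_one₀ (zero_lt_iff.2 hD0)
    have c2 : V = 1 ↔ v D = 1 := by
      rw [← Units.val_inj, hV, Units.val_one, inv_eq_one]
    refine ⟨fun h => ?_, fun h => ?_, fun h => ?_⟩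
    · have hV1 : V < 1 := by
        rcases lt_trichotomy V 1 with h1 | h1 | h1
        · exact h1
        · have := k2 h1
          omega
        · have := k1 h1
          omega
      have h2 := c3.1 hV1
      by_contra hcon
      push Not at hcon
      have h3 : v D * 1 ≤ v D * v ((u i J : O) : F) := by gcongr
      rw [mul_one] at h3
      exact absurd (h3.trans hle) (not_le.2 h2)
    · have hV1 : 1 < V := by
        rcases lt_trichotomy V 1 with h1 | h1 | h1
        · have := k3 h1
          omega
        · have := k2 h1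
          omega
        · exact h1
      have h2 := c1.1 hV1
      rw [hst]
      calc v D * v ((u i J : O) : F) ≤ v D * 1 := by gcongr; exact hu1 i J
        _ = v D := mul_one _
        _ < 1 := h2
    · have hV1 : V = 1 := by
        rcases lt_trichotomy V 1 with h1 | h1 | h1
        · have := k3 h1
          omega
        · exact h1
        · have := k1 h1
          omega
      rw [hst, c2.1 hV1, one_mul]

end hm_lemmas

theorem t_hm : S_SMITH → S_WT → S_VAL → S_DESC → S_HM := by
  intro hsm hwt hval hdesc L _ _ _ ι _ m n hn t z hcl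
  classical
  let F : Type := FractionRing (MvPolynomial (Fin n × Fin n) L)
  let e : MvPolynomial (Fin n × Fin n) L →ₐ[L] F := IsScalarTower.toAlgHom L _ F
  have he : Function.Injective e := IsFractionRing.injective (MvPolynomial (Fin n × Fin n) L) F
  let g : Matrix (Fin n) (Fin n) F := Matrix.of fun i j => e (X (i, j))
  have hg : g.det ≠ 0 := by
    have h1 := Matrix.det_mvPolynomialX_ne_zero (Fin n) L
    have h2 : g.det = e (Matrix.mvPolynomialX (Fin n) (Fin n) L).det := by
      rw [AlgHom.map_det]
      congr 1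
    rw [h2]
    intro h3
    exact h1 (he (by rw [h3, map_zero]))
  obtain ⟨O, hO, hv⟩ := hval L F (Option (Ix m n))
    (pto (act g (fun i J => algebraMap L F (t i J))) g.det) (pto z 1)
    (fun P hP => hm_incl hcl F e he P hP)
  have hdet : O.valuation (g.det - 1) < 1 := by
    have := hv none
    simpa [pto] using this
  have hact : ∀ i J, O.valuation (act g (fun i J => algebraMap L F (t i J)) i J -
      algebraMap L F (z i J)) < 1 := fun i J => hv (some ⟨i, J⟩)
  obtain ⟨ω, A', B', w, h1, h2, h3, h4, h5⟩ := hm_res hsm hwt t z g hg O hO hdet hact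
  let _ : Algebra L (IsLocalRing.ResidueField O) := ω.toAlgebra
  obtain ⟨A, B, k1, k2, k3, k4, k5⟩ := hm_desc hdesc L (IsLocalRing.ResidueField O) t z A' B' h1 h2
  refine ⟨A, B, w, k1, k2, h3, fun i J => ⟨fun h => ?_, fun h => ?_, fun h => ?_⟩, fun h => ?_⟩
  · exact (k3 i J).2 ((h4 i J).1 h)
  · exact (k4 i J).2 ((h4 i J).2.1 h)
  · rw [k3, k4]
    exact (h4 i J).2.2 h
  · exact k5 (h5 h)

end Pool.Agent.N133.TB
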