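import Pool.Agent.N133.TB.Stm

/-!
# TB/LAM: the invariant integral (Cayley's omega process)
-/

set_option autoImplicit false

open MvPolynomial Finset

namespace Pool.Agent.N133.TB

namespace LamAux

/-! ### Determinants -/

/-- the sign of a map, zero if the map is not bijective -/
def eps {n : ℕ} (v : Fin n → Fin n) : ℤ :=
  (Matrix.of fun c j => if v c = j then (1 : ℤ) else 0).det

/-- the product of the signs of the blocks -/
def EE {n M : ℕ} (v : Fin M × Fin n → Fin n) : ℤ := ∏ b, eps fun c => v (b, c)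

section

variable {n M : ℕ} {R : Type} [CommRing R]

theorem eps_cast (v : Fin n → Fin n) :
    ((eps v : ℤ) : R) = (Matrix.of fun c j => if v c = j then (1 : R) else 0).det := by
  unfold eps
  show (Int.castRingHom R) (Matrix.of fun c j => if v c = j then (1 : ℤ) else 0).det = _
  rw [RingHom.map_det]
  congr 1
  ext c j
  simp only [RingHom.mapMatrix_apply, Matrix.map_apply, Matrix.of_apply, Int.coe_castRingHom]
  split_ifs
  · exact Int.cast_one
  · exact Int.cast_zero

theorem det_expand (A : Matrix (Fin n) (Fin n) R) :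
    A.det = ∑ v : Fin n → Fin n, (∏ c, A c (v c)) * ((eps v : ℤ) : R) := by
  have h1 : A = fun c => ∑ i, A c i • fun j => if i = j then (1 : R) else 0 := by
    funext c
    exact pi_eq_sum_univ (A c)
  have h2 : A.det = (Matrix.detRowAlternating (R := R) (n := Fin n)).toMultilinearMap
      (fun c => ∑ i, A c i • fun j => if i = j then (1 : R) else 0) := congrArg Matrix.det h1
  rw [h2, MultilinearMap.map_sum]
  refine sum_congr rfl fun v _ => ?_
  rw [MultilinearMap.map_smul_univ, smul_eq_mul, eps_cast]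
  rfl

theorem base (h : Matrix (Fin n) (Fin n) R) (u : Fin n → Fin n) :
    ∑ v : Fin n → Fin n, (∏ c, h (v c) (u c)) * ((eps v : ℤ) : R) = (eps u : R) * h.det := by
  have h1 := det_expand (Matrix.of fun c j => h j (u c))
  have h2 : (Matrix.of fun c j => h j (u c)) =
      (Matrix.of fun c j => if u c = j then (1 : R) else 0) * h.transpose := by
    ext c j
    simp [Matrix.mul_apply]
  have h3 : (Matrix.of fun c j => h j (u c)).det = (eps u : R) * h.det := by
    rw [h2, Matrix.det_mul, Matrix.det_transpose, ← eps_cast]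
  rw [← h3, h1]
  rfl

theorem prodv (h : Matrix (Fin n) (Fin n) R) (u : Fin M × Fin n → Fin n) :
    ∑ v : Fin M × Fin n → Fin n, (∏ x, h (v x) (u x)) * ((EE v : ℤ) : R) =
      (EE u : R) * h.det ^ M := by
  have h1 : ∏ b : Fin M, ∑ v : Fin n → Fin n, (∏ c, h (v c) (u (b, c))) * ((eps v : ℤ) : R) =
      (EE u : R) * h.det ^ M := by
    rw [prod_congr rfl fun b _ => base h fun c => u (b, c), prod_mul_distrib, prod_const,
      card_univ, Fintype.card_fin]
    unfold EE
    rw [Int.cast_prod]
  rw [← h1, Finset.prod_univ_sum, Fintype.piFinset_univ]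
  refine Fintype.sum_equiv (Equiv.curry _ _ _) _ _ fun v => ?_
  rw [Fintype.prod_prod_type, prod_mul_distrib]
  unfold EE
  rw [Int.cast_prod]
  rfl

/-! ### The functional -/

/-- the value on the monomial `∏ X (p x)` -/
def val (p : Fin M × Fin n → Fin n × Fin n) : ℤ :=
  ∑ π : Equiv.Perm (Fin M × Fin n), EE (fun x => (p (π x)).1) * EE (fun x => (p (π x)).2)

/-- the exponent of the monomial `∏ X (p x)` -/
noncomputable def mon (p : Fin M × Fin n → Fin n × Fin n) : (Fin n × Fin n) →₀ ℕ :=
  ∑ x, Finsupp.single (p x) 1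

theorem val_perm (p : Fin M × Fin n → Fin n × Fin n) (σ : Equiv.Perm (Fin M × Fin n)) :
    val (fun x => p (σ x)) = val p := by
  unfold val
  exact Fintype.sum_equiv (Equiv.mulLeft σ) _ _ fun π => rfl

theorem mon_apply (p : Fin M × Fin n → Fin n × Fin n) (y : Fin n × Fin n) :
    mon p y = (univ.filter fun x => p x = y).card := by
  unfold mon
  rw [Finsupp.finsetSum_apply, card_filter]
  refine sum_congr rfl fun x _ => ?_
  rw [Finsupp.single_apply]

theorem exists_perm {p q : Fin M × Fin n → Fin n × Fin n} (h : mon p = mon q) :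
    ∃ σ : Equiv.Perm (Fin M × Fin n), ∀ x, p x = q (σ x) := by
  have e : ∀ y, Nonempty ({x // p x = y} ≃ {x // q x = y}) := fun y => by
    refine Fintype.card_eq.1 ?_
    rw [Fintype.card_subtype, Fintype.card_subtype, ← mon_apply, ← mon_apply, h]
  exact ⟨(Equiv.sigmaFiberEquiv p).symm.trans ((Equiv.sigmaCongrRight fun y => (e y).some).trans
    (Equiv.sigmaFiberEquiv q)), fun x => ((e (p x)).some ⟨x, rfl⟩).2.symm⟩

theorem val_eq {p q : Fin M × Fin n → Fin n × Fin n} (h : mon p = mon q) : val p = val q := by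
  obtain ⟨σ, hσ⟩ := exists_perm h
  rw [← val_perm q σ]
  congr 1
  exact funext hσ

open Classical in
/-- the functional -/
noncomputable def ll (n M : ℕ) (s : (Fin n × Fin n) →₀ ℕ) : ℤ :=
  if h : ∃ p : Fin M × Fin n → Fin n × Fin n, mon p = s then val h.choose else 0

theorem ll_mon (p : Fin M × Fin n → Fin n × Fin n) : ll n M (mon p) = val p := by
  unfold ll
  have h : ∃ q : Fin M × Fin n → Fin n × Fin n, mon q = mon p := ⟨p, rfl⟩
  rw [dif_pos h]
  exact val_eq h.choose_spec

theorem exists_mon (s : (Fin n × Fin n) →₀ ℕ) (hs : Multiset.card (Finsupp.toMultiset s) = n * M) :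
    ∃ p : Fin M × Fin n → Fin n × Fin n, mon p = s := by
  classical
  set m := Finsupp.toMultiset s with hm
  have hc : Fintype.card (Fin M × Fin n) = Fintype.card m.ToType := by
    rw [Fintype.card_prod, Fintype.card_fin, Fintype.card_fin, Multiset.card_coe, hs, mul_comm]
  let e := Fintype.equivOfCardEq hc
  refine ⟨fun x => (e x).1, ?_⟩
  have h1 : (univ : Finset (Fin M × Fin n)).val.map (fun x => (e x).1) = m := by
    have h2 : (univ : Finset (Fin M × Fin n)).val.map e = (univ : Finset m.ToType).val :=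
      Multiset.map_univ_val_equiv e
    have h3 := Multiset.map_univ_coe m
    rw [← h2, Multiset.map_map] at h3
    exact h3
  ext y
  rw [mon_apply, ← Finsupp.count_toMultiset, ← hm]
  refine Eq.trans ?_ (congrArg (Multiset.count y) h1)
  rw [Multiset.count_map]
  show _ = Multiset.card _
  rw [← Finset.filter_val, Finset.card_val]
  congr 1
  ext x
  simp only [mem_filter, mem_univ, true_and]
  exact eq_comm

/-! ### Linearity -/

variable (l : ((Fin n × Fin n) →₀ ℕ) → ℤ)

theorem lam_of_subset (T : Finset ((Fin n × Fin n) →₀ ℕ)) (f : MvPolynomial (Fin n × Fin n) R)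
    (hT : f.support ⊆ T) : lam l f = ∑ s ∈ T, f.coeff s * (l s : R) := by
  unfold lam
  refine sum_subset hT fun s _ hs => ?_
  rw [notMem_support_iff.1 hs, zero_mul]

theorem lam_add (f g : MvPolynomial (Fin n × Fin n) R) : lam l (f + g) = lam l f + lam l g := by
  classical
  rw [lam_of_subset l (f.support ∪ g.support) (f + g) support_add,
    lam_of_subset l (f.support ∪ g.support) f subset_union_left,
    lam_of_subset l (f.support ∪ g.support) g subset_union_right, ← sum_add_distrib]
  refine sum_congr rfl fun s _ => ?_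
  rw [coeff_add, add_mul]

theorem lam_zero : lam l (0 : MvPolynomial (Fin n × Fin n) R) = 0 := by
  unfold lam
  rw [support_zero, sum_empty]

/-- the functional as an additive map -/
noncomputable def lamH : MvPolynomial (Fin n × Fin n) R →+ R where
  toFun := lam l
  map_zero' := lam_zero l
  map_add' := lam_add l

theorem lam_sum {κ : Type} (s : Finset κ) (F : κ → MvPolynomial (Fin n × Fin n) R) :
    lam l (∑ i ∈ s, F i) = ∑ i ∈ s, lam l (F i) := map_sum (lamH l) F s

theorem lam_monomial (s : (Fin n × Fin n) →₀ ℕ) (c : R) :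
    lam l (monomial s c : MvPolynomial (Fin n × Fin n) R) = c * (l s : R) := by
  rw [lam_of_subset l {s} _ support_monomial_subset, sum_singleton, coeff_monomial, if_pos rfl]

theorem prod_X (p : Fin M × Fin n → Fin n × Fin n) (c : R) :
    C c * ∏ x, X (p x) = (monomial (mon p) c : MvPolynomial (Fin n × Fin n) R) := by
  unfold mon
  have h : ∏ x, (X (p x) : MvPolynomial (Fin n × Fin n) R) =
      monomial (∑ x, Finsupp.single (p x) 1) 1 := by
    rw [monomial_sum_one]
    rfl
  rw [h, C_mul_monomial, mul_one]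

theorem lam_prod (p : Fin M × Fin n → Fin n × Fin n) (c : R) :
    lam (ll n M) (C c * ∏ x, X (p x) : MvPolynomial (Fin n × Fin n) R) = c * (val p : R) := by
  rw [prod_X, lam_monomial, ll_mon]

/-! ### Equivariance -/

theorem key (p : Fin M × Fin n → Fin n × Fin n) (h : Matrix (Fin n) (Fin n) R) :
    ∑ K : Fin M × Fin n → Fin n, (∏ x, h (K x) (p x).2) * (val (fun x => ((p x).1, K x)) : R) =
      h.det ^ M * (val p : R) := by
  unfold val
  simp only [Int.cast_sum, Int.cast_mul, mul_sum]
  rw [sum_comm]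
  refine sum_congr rfl fun π _ => ?_
  have h1 : ∀ K : Fin M × Fin n → Fin n, (∏ x, h (K x) (p x).2) *
      (((EE fun x => (p (π x)).1 : ℤ) : R) * ((EE fun x => K (π x) : ℤ) : R)) =
      ((EE fun x => (p (π x)).1 : ℤ) : R) * ((∏ x, h (K (π x)) (p (π x)).2) *
        ((EE fun x => K (π x) : ℤ) : R)) := by
    intro K
    rw [← Equiv.prod_comp π (fun x => h (K x) (p x).2)]
    ring
  rw [sum_congr rfl fun K _ => h1 K, ← mul_sum]
  have h2 : ∑ K : Fin M × Fin n → Fin n, (∏ x, h (K (π x)) (p (π x)).2) *
        ((EE fun x => K (π x) : ℤ) : R) = ((EE fun x => (p (π x)).2 : ℤ) : R) * h.det ^ M := by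
    rw [← prodv h (fun x => (p (π x)).2)]
    exact Fintype.sum_equiv (Equiv.arrowCongr π.symm (Equiv.refl _)) _ _ fun K => rfl
  rw [h2]
  ring

theorem equiv_prod (p : Fin M × Fin n → Fin n × Fin n) (c : R) (h : Matrix (Fin n) (Fin n) R) :
    lam (ll n M) (aeval (fun x : Fin n × Fin n =>
      (∑ j, X (x.1, j) * C (h j x.2) : MvPolynomial (Fin n × Fin n) R))
        (monomial (mon p) c : MvPolynomial (Fin n × Fin n) R)) =
      h.det ^ M * lam (ll n M) (monomial (mon p) c : MvPolynomial (Fin n × Fin n) R) := by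
  have h1 : aeval (fun x : Fin n × Fin n =>
      (∑ j, X (x.1, j) * C (h j x.2) : MvPolynomial (Fin n × Fin n) R))
        (monomial (mon p) c : MvPolynomial (Fin n × Fin n) R) =
      ∑ K : Fin M × Fin n → Fin n, C (c * ∏ x, h (K x) (p x).2) * ∏ x, X ((p x).1, K x) := by
    rw [← prod_X, map_mul, map_prod]
    simp only [aeval_X]
    rw [Finset.prod_univ_sum, Fintype.piFinset_univ, mul_sum]
    refine sum_congr rfl fun K _ => ?_
    rw [prod_mul_distrib, C_mul, map_prod, aeval_C]
    show C c * _ = _
    ring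
  rw [h1, lam_sum]
  rw [sum_congr rfl fun K _ => lam_prod (fun x => ((p x).1, K x)) _, lam_monomial, ll_mon]
  have h2 := key p h
  calc ∑ K : Fin M × Fin n → Fin n, c * (∏ x, h (K x) (p x).2) *
        (val (fun x => ((p x).1, K x)) : R) =
      c * ∑ K : Fin M × Fin n → Fin n, (∏ x, h (K x) (p x).2) *
        (val (fun x => ((p x).1, K x)) : R) := by
        rw [mul_sum]
        exact sum_congr rfl fun K _ => mul_assoc _ _ _
    _ = h.det ^ M * (c * (val p : R)) := by rw [h2]; ring

theorem equivariance (f : MvPolynomial (Fin n × Fin n) R) (hf : f.IsHomogeneous (n * M))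
    (h : Matrix (Fin n) (Fin n) R) :
    lam (ll n M) (aeval (fun x : Fin n × Fin n =>
      (∑ j, X (x.1, j) * C (h j x.2) : MvPolynomial (Fin n × Fin n) R)) f) =
      h.det ^ M * lam (ll n M) f := by
  have h1 : f = ∑ s ∈ f.support, monomial s (f.coeff s) := f.as_sum
  rw [h1, map_sum, lam_sum, lam_sum, mul_sum]
  refine sum_congr rfl fun s hs => ?_
  have h2 : s.degree = n * M := by
    have := hf (mem_support_iff.1 hs)
    exact (DFunLike.congr_fun Finsupp.degree_eq_weight_one s).trans this
  obtain ⟨p, hp⟩ := exists_mon (M := M) s (by rw [Finsupp.card_toMultiset]; exact h2)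
  rw [← hp]
  exact equiv_prod p _ h

end

/-! ### Nonvanishing -/

theorem nonvan (n M : ℕ) :
    lam (ll n M) ((Matrix.of fun i j => (X (i, j) : MvPolynomial (Fin n × Fin n) ℤ)).det ^ M) ≠ 0 := by
  set D : MvPolynomial (Fin n × Fin n) ℤ :=
    (Matrix.of fun i j => (X (i, j) : MvPolynomial (Fin n × Fin n) ℤ)).det ^ M with hD
  have h1 : ∀ v : Fin M × Fin n → Fin n, EE v * lam (ll n M) D =
      ∑ u : Fin M × Fin n → Fin n, EE u * val (fun x => (u x, v x)) := by
    intro v
    have h2 := prodv (Matrix.of fun i j => (X (i, j) : MvPolynomial (Fin n × Fin n) ℤ)) v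
    rw [← hD] at h2
    have h3 : lam (ll n M) ((EE v : MvPolynomial (Fin n × Fin n) ℤ) * D) =
        EE v * lam (ll n M) D := by
      have : ((EE v : ℤ) : MvPolynomial (Fin n × Fin n) ℤ) * D = EE v • D := by
        rw [zsmul_eq_mul]
      rw [this]
      have h4 := map_zsmul (lamH (R := ℤ) (ll n M)) (EE v) D
      rw [smul_eq_mul] at h4
      exact h4
    rw [← h3, ← h2, lam_sum]
    refine sum_congr rfl fun u _ => ?_
    have h5 := lam_prod (R := ℤ) (fun x => (u x, v x)) (EE u)
    rw [Int.cast_id] at h5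
    rw [← h5]
    congr 1
    rw [mul_comm]
    rfl
  have h2 : (∑ v : Fin M × Fin n → Fin n, EE v * EE v) * lam (ll n M) D =
      ∑ π : Equiv.Perm (Fin M × Fin n),
        (∑ u : Fin M × Fin n → Fin n, EE u * EE fun x => u (π x)) ^ 2 := by
    rw [sum_mul]
    have h3 : ∀ v : Fin M × Fin n → Fin n, EE v * EE v * lam (ll n M) D =
        ∑ π : Equiv.Perm (Fin M × Fin n), (∑ u : Fin M × Fin n → Fin n,
          EE u * EE fun x => u (π x)) * (EE v * EE fun x => v (π x)) := by
      intro v
      rw [mul_assoc, h1, mul_sum]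
      unfold val
      simp only [mul_sum, sum_mul]
      rw [sum_comm]
      refine sum_congr rfl fun π _ => sum_congr rfl fun u _ => ?_
      ring
    rw [sum_congr rfl fun v _ => h3 v, sum_comm]
    refine sum_congr rfl fun π _ => ?_
    rw [← mul_sum, sq]
  have h3 : EE (fun x : Fin M × Fin n => x.2) = 1 := by
    unfold EE
    refine prod_eq_one fun b _ => ?_
    unfold eps
    have : (Matrix.of fun c j : Fin n => if c = j then (1 : ℤ) else 0) = 1 := by
      ext c j
      rw [Matrix.of_apply, Matrix.one_apply]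
    rw [this, Matrix.det_one]
  have h4 : 1 ≤ ∑ v : Fin M × Fin n → Fin n, EE v * EE v := by
    calc (1 : ℤ) = EE (fun x : Fin M × Fin n => x.2) * EE (fun x : Fin M × Fin n => x.2) := by
          rw [h3, one_mul]
      _ ≤ ∑ v : Fin M × Fin n → Fin n, EE v * EE v :=
          single_le_sum (f := fun v : Fin M × Fin n → Fin n => EE v * EE v)
            (fun v _ => mul_self_nonneg _) (mem_univ _)
  have h5 : 0 < ∑ π : Equiv.Perm (Fin M × Fin n),
        (∑ u : Fin M × Fin n → Fin n, EE u * EE fun x => u (π x)) ^ 2 := by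
    have h6 : (∑ u : Fin M × Fin n → Fin n, EE u * EE fun x => u ((1 : Equiv.Perm (Fin M × Fin n)) x))
        ^ 2 ≤ ∑ π : Equiv.Perm (Fin M × Fin n),
        (∑ u : Fin M × Fin n → Fin n, EE u * EE fun x => u (π x)) ^ 2 :=
      single_le_sum (f := fun π : Equiv.Perm (Fin M × Fin n) =>
        (∑ u : Fin M × Fin n → Fin n, EE u * EE fun x => u (π x)) ^ 2)
        (fun v _ => sq_nonneg _) (mem_univ _)
    refine lt_of_lt_of_le ?_ h6
    have h7 : 0 < ∑ u : Fin M × Fin n → Fin n, EE u * EE fun x =>
        u ((1 : Equiv.Perm (Fin M × Fin n)) x) := lt_of_lt_of_le one_pos h4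
    positivity
  intro h0
  rw [h0, mul_zero] at h2
  rw [← h2] at h5
  exact lt_irrefl _ h5

end LamAux

theorem t_lam : S_LAM := fun n M =>
  ⟨LamAux.ll n M, fun _ _ f hf h => LamAux.equivariance f hf h, LamAux.nonvan n M⟩

end Pool.Agent.N133.TB
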