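import Pool.Agent.N133.TB.Stm
import Pool.Agent.Y174.OB.O1
import Pool.Agent.Y174.OB.Iso

/-!
Project TB: semi-invariants of orbifold tensor differentials are pluricanonical sections (helper901).
-/

set_option autoImplicit false
set_option linter.overlappingInstances false
set_option linter.unusedSectionVars false

open FF MvPolynomial Pool.Agent.W619.PQ Pool.Agent.W619.PL Pool.Agent.W619.TW
  Pool.Agent.W603.LV Pool.Agent.W619.Y Pool.Agent.W824.PG

namespace Pool.Agent.N133.TB

namespace Sec

section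

variable {ι : Type} {m : ι → ℕ} {n : ℕ}

/-- the values of multilinear maps at a family of vectors -/
theorem tens_lin {K V : Type*} [Field K] [AddCommGroup V] [Module K V] {d : ℕ}
    (T : MultilinearMap K (fun _ : Fin d => V) K) (A : Matrix (Fin n) (Fin n) K) (D : Fin n → V)
    (J : Fin d → Fin n) :
    T (fun s => ∑ j, A (J s) j • D j) =
      ∑ I : Fin d → Fin n, (∏ s, A (J s) (I s)) * T (fun s => D (I s)) := by
  classical
  rw [MultilinearMap.map_sum]
  refine Finset.sum_congr rfl fun I _ => ?_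
  rw [MultilinearMap.map_smul_univ, smul_eq_mul]

/-- the action of the diagonal matrices -/
theorem act_diag {R : Type} [CommRing R] (d : Fin n → R) (t : Fam m n R) (i : ι)
    (J : Fin (m i) → Fin n) :
    act (Matrix.diagonal d) t i J = (∏ s, d (J s)) * t i J := by
  classical
  unfold act
  rw [Finset.sum_eq_single J]
  · congr 1
    exact Finset.prod_congr rfl fun s _ => Matrix.diagonal_apply_eq _ _
  · intro I _ hI
    obtain ⟨s, hs⟩ := Function.ne_iff.1 hI
    have h0 : Matrix.diagonal d (J s) (I s) = 0 := Matrix.diagonal_apply_ne _ (Ne.symm hs)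
    rw [Finset.prod_eq_zero (Finset.mem_univ s) h0, zero_mul]
  · intro h
    exact absurd (Finset.mem_univ J) h

/-- how often the index occurs -/
def cnt (i0 : Fin n) (x : Ix m n) : ℕ := (Finset.univ.filter fun s => x.2 s = i0).card

/-- the weight -/
theorem weight {k : Type} [Field k] [CharZero k] [Fintype (Ix m n)] (i0 : Fin n) {W : ℕ}
    {Q : MvPolynomial (Ix m n) k} (hQ : SemiInv k m n W Q) {μ : Ix m n →₀ ℕ}
    (hμ : μ ∈ Q.support) : ∑ x, μ x * cnt i0 x = W := by
  classical
  have hμ0 : coeff μ Q ≠ 0 := mem_support_iff.1 hμ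
  let d : Fin n → k := fun j => if j = i0 then 2 else 1
  have hdet : (Matrix.diagonal d).det = 2 := by
    rw [Matrix.det_diagonal]
    change ∏ j, (if j = i0 then (2 : k) else 1) = 2
    rw [Finset.prod_ite_eq' Finset.univ i0, if_pos (Finset.mem_univ _)]
  have hd : ∀ x : Ix m n, ∏ s, d (x.2 s) = 2 ^ cnt i0 x := by
    intro x
    change ∏ s, (if x.2 s = i0 then (2 : k) else 1) = 2 ^ cnt i0 x
    rw [Finset.prod_ite, Finset.prod_const, Finset.prod_const_one, mul_one]
    rfl
  have h1 : aeval (fun x : Ix m n => (C (2 ^ cnt i0 x) * X x : MvPolynomial (Ix m n) k)) Q =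
      C (2 ^ W) * Q := by
    refine MvPolynomial.funext fun b => ?_
    have h2 := hQ k (Matrix.diagonal d) (fun i J => b ⟨i, J⟩)
    have h3 : pt (act (Matrix.diagonal d) (fun i J => b ⟨i, J⟩)) =
        fun x : Ix m n => 2 ^ cnt i0 x * b x := by
      funext x
      unfold pt
      rw [act_diag, hd x]
    have h4 : pt (fun (i : ι) (J : Fin (m i) → Fin n) => b ⟨i, J⟩) = b := rfl
    rw [h3, hdet, h4] at h2
    rw [map_mul, eval_C]
    have h5 : eval b (aeval (fun x : Ix m n => (C (2 ^ cnt i0 x) * X x : MvPolynomial (Ix m n) k)) Q) =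
        aeval (fun x : Ix m n => 2 ^ cnt i0 x * b x) Q := by
      rw [← coe_aeval_eq_eval]
      change aeval b (aeval (fun x : Ix m n =>
        (C (2 ^ cnt i0 x) * X x : MvPolynomial (Ix m n) k)) Q) = _
      rw [comp_aeval_apply]
      congr 2
      funext x
      rw [map_mul, aeval_X, algHom_C]
      rfl
    rw [h5, h2]
    rfl
  have h2 := congrArg (coeff μ) h1
  rw [Pool.Agent.Y174.OB.aeval_scale, coeff_C_mul] at h2
  have h3 := mul_right_cancel₀ hμ0 h2
  have h4 : ∏ x, ((2 : k) ^ cnt i0 x) ^ μ x = 2 ^ ∑ x, μ x * cnt i0 x := by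
    rw [← Finset.prod_pow_eq_pow_sum]
    refine Finset.prod_congr rfl fun x _ => ?_
    rw [← pow_mul, mul_comm]
  rw [h4] at h3
  have h5 : (2 : ℕ) ^ ∑ x, μ x * cnt i0 x = 2 ^ W := by
    exact_mod_cast h3
  exact Nat.pow_right_injective le_rfl h5

end

end Sec

section

open Pool.Agent.Y174 Sec

variable {k K : Type} [Field k] [Field K] [Algebra k K] {ι : Type} {m : ι → ℕ} {n W : ℕ}

/-- a semi-invariant of tensor differentials is a pluricanonical form -/
theorem sec_pluri (T : (i : ι) → MultilinearMap K (fun _ : Fin (m i) => Derivation k K K) K)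
    {Q : MvPolynomial (Ix m n) k} (hQ : SemiInv k m n W Q) :
    IsPluriForm k K n W (fun D => aeval (fun x : Ix m n => T x.1 (fun s => D (x.2 s))) Q) := by
  intro A D
  have h1 := hQ K A (fun i J => T i (fun s => D (J s)))
  have h2 : pt (act A (fun i J => T i (fun s => D (J s)))) =
      fun x : Ix m n => T x.1 (fun s => (∑ j, A (x.2 s) j • D j)) := by
    funext x
    exact (tens_lin (T x.1) A D x.2).symm
  rw [h2] at h1
  exact h1

/-- the order of a semi-invariant of tensor differentials along one prime divisor -/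
theorem sec_at [CharZero k] [Finite ι] (hess : Algebra.EssFiniteType k K)
    (htr : Algebra.trdeg k K = n) {v : Place k K} (hv : IsDivisorial v n) {c : ℝ}
    {T : (i : ι) → MultilinearMap K (fun _ : Fin (m i) => Derivation k K K) K}
    (hT : ∀ i (D : Fin (m i) → Derivation k K K) (S : Finset (Fin (m i))),
      (∀ j f, v.Reg f → v.Reg (D j f)) → (∀ j, j ∉ S → ∀ f, v.Reg (D j f / f)) →
        T i D = 0 ∨ -(S.card * c) ≤ (v.ord (T i D) : ℝ))
    {Q : MvPolynomial (Ix m n) k} (hQ : SemiInv k m n W Q) (D : Fin n → Derivation k K K)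
    (hD : ∀ l f, v.Reg f → v.Reg (D l f)) :
    aeval (fun x : Ix m n => T x.1 (fun s => D (x.2 s))) Q = 0 ∨
      -(W * c) ≤ (v.ord (aeval (fun x : Ix m n => T x.1 (fun s => D (x.2 s))) Q) : ℝ) := by
  classical
  have : Fintype (Ix m n) := Fintype.ofFinite _
  obtain ⟨y, F, i0, hy, hF, ht, hyr, hpres⟩ := Pool.Agent.Y174.pFRAME k K n htr
    (fun y hy => fin_adj hess y hy) v hv
  have ht0 := ne_zero_of_ord ht
  have hlog : ∀ b, b ≠ i0 → ∀ f, v.Reg (F b f / f) := by
    intro b hb
    refine log_of_pres v _ (hpres b) ht0 ht ?_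
    rw [hF, if_neg hb, zero_div]
    exact Or.inl rfl
  have h1 : D = fun i => ∑ j, (Matrix.of fun a b => D a (y b)) i j • F j := by
    funext i
    exact (Pool.Agent.W73.PG.PULL.expand y hy F hF (D i)).symm
  have h2 : GeR v 0 (Matrix.of fun a b => D a (y b)).det := by
    have h3 := Ge.toR (Pool.Agent.W619.PQ.ge_det v (Matrix.of fun a b => D a (y b))
      fun a b => hD a _ (hyr b))
    simpa using h3
  have h3 : GeR v (-(W * c)) (aeval (fun x : Ix m n => T x.1 (fun s => F (x.2 s))) Q) := by
    rw [aeval_def, eval₂_eq']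
    refine Pool.Agent.Y174.OB.geR_sum _ _ _ fun μ hμ => ?_
    have hWt := weight i0 hQ hμ
    have h4 : GeR v (∑ x : Ix m n, (μ x : ℝ) * (-(cnt i0 x * c)))
        (∏ x : Ix m n, T x.1 (fun s => F (x.2 s)) ^ μ x) := by
      refine Pool.Agent.Y174.OB.geR_prod _ _ _ fun x _ => GeR.pow ?_ _
      exact hT x.1 (fun s => F (x.2 s)) (Finset.univ.filter fun s => x.2 s = i0)
        (fun s f hf => hpres _ f hf) (fun s hs f => hlog _ (fun h => hs (by simp [h])) f)
    have h5 : GeR v 0 (algebraMap k K (coeff μ Q)) := by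
      have h6 : Ge v 0 (algebraMap k K (coeff μ Q)) := Ge.const _
      have h7 := Ge.toR h6
      simpa using h7
    refine (h5.mul h4).mono (le_of_eq ?_)
    rw [← hWt, zero_add]
    push_cast
    rw [Finset.sum_mul, ← Finset.sum_neg_distrib]
    refine Finset.sum_congr rfl fun x _ => ?_
    ring
  have h5 : aeval (fun x : Ix m n => T x.1 (fun s => D (x.2 s))) Q =
      (Matrix.of fun a b => D a (y b)).det ^ W *
        aeval (fun x : Ix m n => T x.1 (fun s => F (x.2 s))) Q := by
    rw [← sec_pluri T hQ (Matrix.of fun a b => D a (y b)) F, ← h1]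
  have h6 : GeR v (-(W * c)) (aeval (fun x : Ix m n => T x.1 (fun s => D (x.2 s))) Q) := by
    rw [h5]
    refine ((GeR.pow h2 W).mul h3).mono (le_of_eq ?_)
    ring
  exact h6

end

theorem t_sec : S_SEC := by
  intro k K _ _ _ _ hess n hn1 htr δ ι _ m T hT W Q hQ hW
  refine ⟨sec_pluri T hQ, fun v hv D hD => ?_⟩
  rcases sec_at hess htr hv (fun i => hT i v hv) hQ D hD with h5 | h5
  · exact Or.inl h5
  · right
    refine ⟨1, by simp, one_ne_zero, ?_⟩
    simp only [Nat.cast_zero, zero_mul, zero_sub]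
    exact h5

end Pool.Agent.N133.TB
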