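import Pool.Agent.N133.TB.Stm

/-!
Project TB (helper133), part SEP (helper335): families with the same semi-invariants have meeting
orbit closures.
-/

set_option autoImplicit false
set_option linter.unusedSectionVars false

open MvPolynomial

namespace Pool.Agent.N133.TB

namespace SepAux

noncomputable section

/-! ### The functional -/

section lamlin

variable {n : ℕ} {R : Type} [CommRing R] (l : ((Fin n × Fin n) →₀ ℕ) → ℤ)

theorem lam_eq_sum (f : MvPolynomial (Fin n × Fin n) R) (S : Finset ((Fin n × Fin n) →₀ ℕ))
    (hS : f.support ⊆ S) : lam l f = ∑ s ∈ S, f.coeff s * (l s : R) := by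
  unfold lam
  refine Finset.sum_subset hS ?_
  intro s _ hs
  rw [notMem_support_iff.mp hs, zero_mul]

theorem lam_zero : lam l (0 : MvPolynomial (Fin n × Fin n) R) = 0 := by simp [lam]

theorem lam_add (f g : MvPolynomial (Fin n × Fin n) R) : lam l (f + g) = lam l f + lam l g := by
  classical
  rw [lam_eq_sum l (f + g) (f.support ∪ g.support) support_add,
    lam_eq_sum l f _ Finset.subset_union_left, lam_eq_sum l g _ Finset.subset_union_right,
    ← Finset.sum_add_distrib]
  refine Finset.sum_congr rfl fun s _ => ?_
  rw [coeff_add]; ring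

theorem lam_C_mul (c : R) (f : MvPolynomial (Fin n × Fin n) R) :
    lam l (C c * f) = c * lam l f := by
  rw [lam_eq_sum l (C c * f) f.support ?_]
  · unfold lam
    rw [Finset.mul_sum]
    refine Finset.sum_congr rfl fun s _ => ?_
    rw [coeff_C_mul]; ring
  · intro s hs
    rw [mem_support_iff] at hs ⊢
    intro h
    rw [coeff_C_mul, h, mul_zero] at hs
    exact hs rfl

theorem lam_sum {τ : Type} (S : Finset τ) (f : τ → MvPolynomial (Fin n × Fin n) R) :
    lam l (∑ x ∈ S, f x) = ∑ x ∈ S, lam l (f x) := by
  classical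
  induction S using Finset.induction_on with
  | empty => simp [lam_zero]
  | insert a S ha ih => rw [Finset.sum_insert ha, Finset.sum_insert ha, lam_add, ih]

theorem lam_map {R' : Type} [CommRing R'] (φ : R →+* R') (f : MvPolynomial (Fin n × Fin n) R) :
    lam l (map φ f) = φ (lam l f) := by
  rw [lam_eq_sum l (map φ f) f.support (support_map_subset _ _)]
  unfold lam
  rw [map_sum]
  refine Finset.sum_congr rfl fun s _ => ?_
  rw [coeff_map, map_mul, map_intCast]

end lamlin

/-! ### Monomials in the coefficients of a family and the determinant -/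

section mono

variable {ι : Type} {m : ι → ℕ} {n : ℕ}

/-- the monomial `μ` at `(act A t, det A)` -/
def fm {R : Type} [CommRing R] (t : Fam m n R)
    (A : Matrix (Fin n) (Fin n) R) (μ : Option (Ix m n) →₀ ℕ) : R :=
  ∏ x ∈ μ.support, pto (act A t) A.det x ^ μ x

/-- the image of a family -/
def mf {R R' : Type} (φ : R → R') (t : Fam m n R) : Fam m n R' := fun i J => φ (t i J)

variable {R R' : Type} [CommRing R] [CommRing R']

theorem act_map (φ : R →+* R') (A : Matrix (Fin n) (Fin n) R) (t : Fam m n R) :
    act (A.map φ) (mf φ t) = mf φ (act A t) := by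
  funext i J
  simp [act, mf, map_sum, map_prod, Matrix.map_apply]

theorem det_map (φ : R →+* R') (A : Matrix (Fin n) (Fin n) R) : (A.map φ).det = φ A.det :=
  (RingHom.map_det φ A).symm

theorem fm_map (φ : R →+* R') (t : Fam m n R) (A : Matrix (Fin n) (Fin n) R)
    (μ : Option (Ix m n) →₀ ℕ) : φ (fm t A μ) = fm (mf φ t) (A.map φ) μ := by
  unfold fm
  rw [map_prod]
  refine Finset.prod_congr rfl fun x _ => ?_
  rw [map_pow]
  congr 1
  cases x with
  | none => simp only [pto, Option.elim]; rw [det_map]
  | some x => simp only [pto, Option.elim, pt, act_map]; rfl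

theorem act_mul (A B : Matrix (Fin n) (Fin n) R) (t : Fam m n R) :
    act (A * B) t = act A (act B t) := by
  funext i J
  simp only [act, Matrix.mul_apply]
  simp_rw [Finset.prod_univ_sum, Fintype.piFinset_univ, Finset.sum_mul, Finset.mul_sum]
  rw [Finset.sum_comm]
  refine Finset.sum_congr rfl fun K _ => Finset.sum_congr rfl fun I _ => ?_
  rw [Finset.prod_mul_distrib]; ring

theorem fm_mul (A B : Matrix (Fin n) (Fin n) R) (t : Fam m n R) (μ : Option (Ix m n) →₀ ℕ) :
    fm t (A * B) μ = B.det ^ (μ none) * fm (act B t) A μ := by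
  classical
  unfold fm
  have h1 : ∀ x ∈ μ.support, pto (act (A * B) t) (A * B).det x ^ μ x
      = (if x = none then B.det ^ (μ x) else 1) * pto (act A (act B t)) A.det x ^ μ x := by
    intro x _
    cases x with
    | none => simp only [pto, Option.elim, Matrix.det_mul, if_true]; ring
    | some x => simp only [pto, Option.elim, act_mul, reduceCtorEq, if_false]; ring
  rw [Finset.prod_congr rfl h1, Finset.prod_mul_distrib]
  congr 1
  rw [Finset.prod_ite_eq']
  split_ifs with h
  · rfl
  · rw [Finsupp.notMem_support_iff.mp h, pow_zero]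

/-- the generic matrix -/
def gen (n : ℕ) (R : Type) [CommRing R] :
    Matrix (Fin n) (Fin n) (MvPolynomial (Fin n × Fin n) R) :=
  Matrix.of fun i j => X (i, j)

/-- weights -/
def wt (m : ι → ℕ) (n : ℕ) : Option (Ix m n) → ℕ := fun o => o.elim n (fun x => m x.1)

theorem gen_det_hom (n : ℕ) (R : Type) [CommRing R] : (gen n R).det.IsHomogeneous n := by
  rw [Matrix.det_apply]
  refine IsHomogeneous.sum _ _ _ fun s _ => ?_
  have h : (∏ i, gen n R (s i) i).IsHomogeneous n := by
    have h1 := IsHomogeneous.prod (Finset.univ : Finset (Fin n)) (fun i => gen n R (s i) i)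
      (fun _ => 1) (fun i _ => isHomogeneous_X R (s i, i))
    simpa using h1
  rcases Int.units_eq_one_or (Equiv.Perm.sign s) with h1 | h1
  · rw [h1, one_smul]; exact h
  · rw [h1, Units.neg_smul, one_smul]
    exact (mem_homogeneousSubmodule _ _).mp
      ((homogeneousSubmodule _ R n).neg_mem ((mem_homogeneousSubmodule _ _).mpr h))

theorem fm_hom (t : Fam m n R) (μ : Option (Ix m n) →₀ ℕ) :
    (fm (mf C t) (gen n R) μ).IsHomogeneous (∑ x ∈ μ.support, wt m n x * μ x) := by
  unfold fm
  refine IsHomogeneous.prod _ _ _ fun x _ => ?_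
  refine IsHomogeneous.pow ?_ _
  cases x with
  | none => exact gen_det_hom n R
  | some x =>
    change (act (gen n R) (mf C t) x.1 x.2).IsHomogeneous (m x.1)
    unfold act
    refine IsHomogeneous.sum _ _ _ fun I _ => ?_
    have h1 := IsHomogeneous.prod (Finset.univ : Finset (Fin (m x.1)))
      (fun s => gen n R (x.2 s) (I s)) (fun _ => 1) (fun s _ => isHomogeneous_X R (x.2 s, I s))
    have h2 := h1.mul (isHomogeneous_C (Fin n × Fin n) (t x.1 I))
    simpa [mf] using h2

theorem gen_map (φ : R →+* R') : (gen n R).map (map φ) = gen n R' := by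
  ext1 i j
  simp [gen, Matrix.map_apply]

/-- the functional of a monomial -/
def q (l : ((Fin n × Fin n) →₀ ℕ) → ℤ) (μ : Option (Ix m n) →₀ ℕ) (t : Fam m n R) : R :=
  lam l (fm (mf C t) (gen n R) μ)

theorem q_map (l : ((Fin n × Fin n) →₀ ℕ) → ℤ) (μ : Option (Ix m n) →₀ ℕ) (φ : R →+* R')
    (t : Fam m n R) : φ (q l μ t) = q l μ (mf φ t) := by
  unfold q
  rw [← lam_map, fm_map, gen_map]
  congr 2
  funext i J
  simp [mf]

theorem q_act {l : ((Fin n × Fin n) →₀ ℕ) → ℤ} {M : ℕ}
    (hl : ∀ (R : Type) [CommRing R] (f : MvPolynomial (Fin n × Fin n) R),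
      f.IsHomogeneous (n * M) → ∀ h : Matrix (Fin n) (Fin n) R,
        lam l (aeval (fun x : Fin n × Fin n =>
          (∑ j, X (x.1, j) * C (h j x.2) : MvPolynomial (Fin n × Fin n) R)) f) =
          h.det ^ M * lam l f) (μ : Option (Ix m n) →₀ ℕ)
    (hμ : ∑ x ∈ μ.support, wt m n x * μ x = n * M) (h : Matrix (Fin n) (Fin n) R)
    (t : Fam m n R) : h.det ^ (μ none) * q l μ (act h t) = h.det ^ M * q l μ t := by
  have h0 := hl R (fm (mf C t) (gen n R) μ) (hμ ▸ fm_hom t μ) h
  have h1 : aeval (fun x : Fin n × Fin n =>
      (∑ j, X (x.1, j) * C (h j x.2) : MvPolynomial (Fin n × Fin n) R))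
      (fm (mf C t) (gen n R) μ) = C (h.det ^ (μ none)) * fm (mf C (act h t)) (gen n R) μ := by
    set φ := (aeval (R := R) (fun x : Fin n × Fin n =>
      (∑ j, X (x.1, j) * C (h j x.2) : MvPolynomial (Fin n × Fin n) R))) with hφ
    have h2 := fm_map (φ : MvPolynomial (Fin n × Fin n) R →+* MvPolynomial (Fin n × Fin n) R)
      (mf C t) (gen n R) μ
    have h3 : (gen n R).map (φ : MvPolynomial (Fin n × Fin n) R →+*
        MvPolynomial (Fin n × Fin n) R) = gen n R * h.map C := by
      ext1 i j
      simp [gen, Matrix.map_apply, Matrix.mul_apply, hφ]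
    have h4 : mf (φ : MvPolynomial (Fin n × Fin n) R →+* MvPolynomial (Fin n × Fin n) R)
        (mf C t) = mf C t := by
      funext i J
      simp [mf, hφ]
    rw [h3, h4, fm_mul, act_map, det_map] at h2
    rw [C_pow]
    exact h2
  rw [h1, lam_C_mul] at h0
  exact h0

end mono

/-! ### The ideal of an orbit closure -/

section ideal

variable {ι : Type} {m : ι → ℕ} {n : ℕ} {L : Type} [Field L]

/-- the ideal of the closure of the orbit of `(t, 1)` -/
def Id (t : Fam m n L) : Ideal (MvPolynomial (Option (Ix m n)) L) where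
  carrier := {P | ∀ g : Matrix (Fin n) (Fin n) L, eval (pto (act g t) g.det) P = 0}
  zero_mem' := fun g => map_zero _
  add_mem' := fun {a b} ha hb g => by rw [map_add, ha g, hb g, add_zero]
  smul_mem' := fun c a ha g => by rw [smul_eq_mul, map_mul, ha g, mul_zero]

theorem mem_Id {t : Fam m n L} {P : MvPolynomial (Option (Ix m n)) L} :
    P ∈ Id t ↔ ∀ g : Matrix (Fin n) (Fin n) L, eval (pto (act g t) g.det) P = 0 := Iff.rfl

/-- components -/
def comp (m : ι → ℕ) (n : ℕ) (N : ℕ) (P : MvPolynomial (Option (Ix m n)) L) :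
    MvPolynomial (Option (Ix m n)) L := weightedHomogeneousComponent (wt m n) N P

theorem coeff_comp (N : ℕ) (P : MvPolynomial (Option (Ix m n)) L)
    (d : Option (Ix m n) →₀ ℕ) :
    coeff d (comp m n N P) = if Finsupp.weight (wt m n) d = N then coeff d P else 0 :=
  coeff_weightedHomogeneousComponent _ _ _

theorem weight_eq (d : Option (Ix m n) →₀ ℕ) :
    Finsupp.weight (wt m n) d = ∑ x ∈ d.support, wt m n x * d x := by
  rw [Finsupp.weight_apply, Finsupp.sum]
  refine Finset.sum_congr rfl fun x _ => ?_
  rw [smul_eq_mul, mul_comm]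

theorem scale (c : L) (g : Matrix (Fin n) (Fin n) L) (t : Fam m n L) (x : Option (Ix m n)) :
    pto (act (c • g) t) (c • g).det x = c ^ wt m n x * pto (act g t) g.det x := by
  cases x with
  | none => simp [pto, wt]
  | some x =>
    change act (c • g) t x.1 x.2 = c ^ m x.1 * act g t x.1 x.2
    unfold act
    rw [Finset.mul_sum]
    refine Finset.sum_congr rfl fun I _ => ?_
    simp only [Matrix.smul_apply, smul_eq_mul, Finset.prod_mul_distrib, Finset.prod_const,
      Finset.card_univ, Fintype.card_fin]
    ring

theorem comp_mem [Infinite L] {t : Fam m n L} {P : MvPolynomial (Option (Ix m n)) L}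
    (hP : P ∈ Id t) (N : ℕ) : comp m n N P ∈ Id t := by
  classical
  intro g
  set v := pto (act g t) g.det with hv
  set p : Polynomial L := ∑ d ∈ P.support,
    Polynomial.monomial (Finsupp.weight (wt m n) d) (coeff d P * ∏ x ∈ d.support, v x ^ d x)
    with hp
  have h1 : p = 0 := by
    refine Polynomial.funext fun c => ?_
    rw [Polynomial.eval_zero, hp, Polynomial.eval_finsetSum]
    have h2 := mem_Id.mp hP (c • g)
    rw [eval_eq] at h2
    rw [← h2]
    refine Finset.sum_congr rfl fun d _ => ?_
    rw [Polynomial.eval_monomial, mul_assoc]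
    congr 1
    have h3 : ∏ x ∈ d.support, pto (act (c • g) t) (c • g).det x ^ d x
        = (∏ x ∈ d.support, c ^ (wt m n x * d x)) * ∏ x ∈ d.support, v x ^ d x := by
      rw [← Finset.prod_mul_distrib]
      refine Finset.prod_congr rfl fun x _ => ?_
      rw [scale, mul_pow, ← pow_mul]
    rw [h3, Finset.prod_pow_eq_pow_sum, ← weight_eq, mul_comm]
  have h4 := congrArg (fun p => Polynomial.coeff p N) h1
  simp only [Polynomial.coeff_zero, hp, Polynomial.finsetSum_coeff,
    Polynomial.coeff_monomial] at h4
  unfold comp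
  rw [weightedHomogeneousComponent_apply, map_sum, ← h4, Finset.sum_filter]
  refine Finset.sum_congr rfl fun d _ => ?_
  split_ifs with h5
  · rw [eval_monomial]; rfl
  · rfl

theorem comp_X_mul (N : ℕ) (R : MvPolynomial (Option (Ix m n)) L) :
    comp m n (N + n) (X none * R) = X none * comp m n N R := by
  classical
  ext d
  rw [coeff_comp, coeff_X_mul', coeff_X_mul']
  by_cases h : none ∈ d.support
  · rw [if_pos h, if_pos h, coeff_comp]
    have h1 := Finsupp.weight_sub_single_add (w := wt m n) (f := d) (i := none)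
      (Finsupp.mem_support_iff.mp h)
    have h2 : wt m n none = n := rfl
    rw [h2] at h1
    have h3 : (Finsupp.weight (wt m n) d = N + n) ↔
        (Finsupp.weight (wt m n) (d - Finsupp.single none 1) = N) := by omega
    by_cases h4 : Finsupp.weight (wt m n) (d - Finsupp.single none 1) = N
    · rw [if_pos h4, if_pos (h3.mpr h4)]
    · rw [if_neg h4, if_neg (fun h' => h4 (h3.mp h'))]
  · rw [if_neg h, if_neg h, ite_self]

theorem comp_zero_X_mul (hn : 1 ≤ n) (R : MvPolynomial (Option (Ix m n)) L) :
    comp m n 0 (X none * R) = 0 := by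
  classical
  ext d
  rw [coeff_comp, coeff_X_mul', coeff_zero]
  by_cases h : none ∈ d.support
  · have h1 := Finsupp.weight_sub_single_add (w := wt m n) (f := d) (i := none)
      (Finsupp.mem_support_iff.mp h)
    have h2 : wt m n none = n := rfl
    rw [h2] at h1
    rw [if_neg (by omega)]
  · rw [if_neg h, ite_self]

theorem comp_add (N : ℕ) (P Q : MvPolynomial (Option (Ix m n)) L) :
    comp m n N (P + Q) = comp m n N P + comp m n N Q := map_add _ _ _

theorem comp_sub (N : ℕ) (P Q : MvPolynomial (Option (Ix m n)) L) :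
    comp m n N (P - Q) = comp m n N P - comp m n N Q := map_sub _ _ _

theorem comp_pow (j : ℕ) : comp m n (n * j) (X none ^ j : MvPolynomial (Option (Ix m n)) L)
    = X none ^ j := by
  unfold comp
  refine IsWeightedHomogeneous.weightedHomogeneousComponent_same ?_
  have h := (isWeightedHomogeneous_X L (wt m n) (none : Option (Ix m n))).pow j
  have h2 : j • wt m n (none : Option (Ix m n)) = n * j := by
    rw [smul_eq_mul, mul_comm]; rfl
  rwa [h2] at h

theorem comp_one (N : ℕ) : comp m n N (1 : MvPolynomial (Option (Ix m n)) L)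
    = if N = 0 then 1 else 0 := by
  unfold comp
  have h := isWeightedHomogeneous_one L (wt m n : Option (Ix m n) → ℕ)
  split_ifs with hN
  · rw [hN]; exact h.weightedHomogeneousComponent_same
  · exact h.weightedHomogeneousComponent_ne N hN

theorem comp_large (R : MvPolynomial (Option (Ix m n)) L) (hn : 1 ≤ n) :
    ∃ j, comp m n (n * j) R = 0 := by
  refine ⟨weightedTotalDegree (wt m n) R + 1, ?_⟩
  have h : weightedTotalDegree (wt m n) R < n * (weightedTotalDegree (wt m n) R + 1) := by
    nlinarith
  exact weightedHomogeneousComponent_eq_zero _ R h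

/-- graded step -/
theorem graded [Infinite L] (hn : 1 ≤ n) (t₁ t₂ : Fam m n L)
    (h : (1 : MvPolynomial (Option (Ix m n)) L) ∈
      (Id t₁ ⊔ Id t₂) ⊔ Ideal.span {X none - 1}) :
    ∃ (M : ℕ) (P₁ P₂ : MvPolynomial (Option (Ix m n)) L), P₁ ∈ Id t₁ ∧ P₂ ∈ Id t₂ ∧
      P₁ + P₂ = X none ^ M ∧
      ∀ d ∈ P₁.support, ∑ x ∈ d.support, wt m n x * d x = n * M := by
  obtain ⟨a, ha, b, hb, hab⟩ := Submodule.mem_sup.mp h
  obtain ⟨R, hR⟩ := Ideal.mem_span_singleton'.mp hb
  -- the components of `a`
  have hJ : ∀ P ∈ Id t₁ ⊔ Id t₂, ∀ N, comp m n N P ∈ Id t₁ ⊔ Id t₂ := by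
    intro P hP N
    obtain ⟨P₁, h₁, P₂, h₂, rfl⟩ := Submodule.mem_sup.mp hP
    rw [comp_add]
    exact Submodule.add_mem_sup (comp_mem h₁ N) (comp_mem h₂ N)
  have key : ∀ j, X none ^ j + comp m n (n * j) R ∈ Id t₁ ⊔ Id t₂ := by
    intro j
    induction j with
    | zero =>
      have h1 := congrArg (comp m n 0) hab
      rw [← hR, comp_add, mul_sub, mul_one, comp_sub, mul_comm R, comp_zero_X_mul hn,
        comp_one, if_pos rfl, zero_sub] at h1
      have h2 : X none ^ 0 + comp m n (n * 0) R = comp m n 0 a := by
        rw [pow_zero, mul_zero, ← h1]; ring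
      rw [h2]
      exact hJ a ha 0
    | succ j ih =>
      have h1 := congrArg (comp m n (n * j + n)) hab
      rw [← hR, comp_add, mul_sub, mul_one, comp_sub, mul_comm R, comp_X_mul,
        comp_one, if_neg (by omega)] at h1
      have h2 : X none ^ (j + 1) + comp m n (n * (j + 1)) R
          = X none * (X none ^ j + comp m n (n * j) R) + comp m n (n * j + n) a := by
        rw [mul_add n j 1, mul_one, pow_succ]
        linear_combination -h1
      rw [h2]
      exact Submodule.add_mem _ (Ideal.mul_mem_left _ _ ih) (hJ a ha _)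
  obtain ⟨M, hM⟩ := comp_large R hn
  have h3 := key M
  rw [hM, add_zero] at h3
  obtain ⟨P₁, h₁, P₂, h₂, h12⟩ := Submodule.mem_sup.mp h3
  refine ⟨M, comp m n (n * M) P₁, comp m n (n * M) P₂, comp_mem h₁ _, comp_mem h₂ _, ?_, ?_⟩
  · rw [← comp_add, h12, comp_pow]
  · intro d hd
    rw [mem_support_iff, coeff_comp] at hd
    rw [← weight_eq]
    by_contra hne
    rw [if_neg hne] at hd
    exact hd rfl

end ideal

end

end SepAux

open SepAux in
/-- Part SEP. -/
theorem t_sep : S_LAM → S_SEP := by
  intro hLAM k L _ _ _ _ _ ι _ m n hn t₁ t₂ hQ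
  classical
  have : CharZero L := charZero_of_injective_algebraMap (algebraMap k L).injective
  have : Infinite L := CharZero.infinite L
  have : Finite (Ix m n) := inferInstance
  by_cases htop : (1 : MvPolynomial (Option (Ix m n)) L) ∈
      (Id t₁ ⊔ Id t₂) ⊔ Ideal.span {X none - 1}
  · exfalso
    obtain ⟨M, P₁, P₂, h₁, h₂, h12, hw⟩ := graded hn t₁ t₂ htop
    obtain ⟨l, hl, hl0⟩ := hLAM n M
    -- the exponents of the determinant are at most `M`
    have hle : ∀ d ∈ P₁.support, d none ≤ M := by
      intro d hd
      have h3 := hw d hd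
      by_contra hlt
      push Not at hlt
      have h4 : none ∈ d.support := by
        rw [Finsupp.mem_support_iff]; omega
      have h5 : wt m n none * d none ≤ ∑ x ∈ d.support, wt m n x * d x :=
        Finset.single_le_sum (f := fun x => wt m n x * d x) (fun _ _ => Nat.zero_le _) h4
      have h6 : wt m n (none : Option (Ix m n)) = n := rfl
      rw [h3, h6] at h5
      have h7 := Nat.le_of_mul_le_mul_left h5 hn
      omega
    -- the semi-invariants
    have hq : ∀ d ∈ P₁.support, q l d t₁ = q l d t₂ := by
      intro d hd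
      set Q : MvPolynomial (Ix m n) k :=
        q (R := MvPolynomial (Ix m n) k) l d (fun i J => X ⟨i, J⟩) with hQdef
      have hev : ∀ (L' : Type) [Field L'] [Algebra k L'] (t : Fam m n L'),
          aeval (pt t) Q = q l d t := by
        intro L' _ _ t
        have h3 := q_map l d ((aeval (R := k) (pt t) : MvPolynomial (Ix m n) k →ₐ[k] L') :
          MvPolynomial (Ix m n) k →+* L') (fun i J => X ⟨i, J⟩)
        have h4 : mf ((aeval (R := k) (pt t) : MvPolynomial (Ix m n) k →ₐ[k] L') :
          MvPolynomial (Ix m n) k →+* L') (fun i J => X ⟨i, J⟩) = t := by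
          funext i J
          simp [mf, pt]
        rw [h4] at h3
        exact h3
      have hsemi : SemiInv k m n (M - d none) Q := by
        intro L' _ _ A t
        rw [hev, hev]
        have h3 := q_act hl d (hw d hd) (gen n L') (mf C t)
        have h4 : (gen n L').det ≠ 0 := Matrix.det_mvPolynomialX_ne_zero (Fin n) L'
        have h5 : (gen n L').det ^ M = (gen n L').det ^ (d none)
            * (gen n L').det ^ (M - d none) := by
          rw [← pow_add, Nat.add_sub_cancel' (hle d hd)]
        rw [h5, mul_assoc] at h3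
        have h6 := mul_left_cancel₀ (pow_ne_zero _ h4) h3
        have h7 := congrArg (eval fun x : Fin n × Fin n => A x.1 x.2) h6
        rw [map_mul, map_pow, q_map, q_map, ← act_map, ← det_map] at h7
        have h8 : (gen n L').map (eval fun x : Fin n × Fin n => A x.1 x.2) = A := by
          ext i j
          simp [gen, Matrix.map_apply]
        have h9 : mf (eval fun x : Fin n × Fin n => A x.1 x.2) (mf C t) = t := by
          funext i J
          simp [mf]
        rw [h8, h9] at h7
        exact h7
      have h3 := hQ _ Q hsemi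
      rwa [hev, hev] at h3
    -- the functional of the polynomial
    have hlam : ∀ t : Fam m n L, lam l (aeval (pto (act (gen n L) (mf C t)) (gen n L).det) P₁)
        = ∑ d ∈ P₁.support, coeff d P₁ * q l d t := by
      intro t
      rw [aeval_def, eval₂_eq, lam_sum]
      refine Finset.sum_congr rfl fun d _ => ?_
      rw [algebraMap_eq, lam_C_mul]
      rfl
    have hevg : ∀ (t : Fam m n L) (P : MvPolynomial (Option (Ix m n)) L)
        (g : Fin n × Fin n → L),
        eval g (aeval (pto (act (gen n L) (mf C t)) (gen n L).det) P)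
          = eval (pto (act (Matrix.of fun i j => g (i, j)) t)
            (Matrix.of fun i j => g (i, j)).det) P := by
      intro t P g
      have h8 : (gen n L).map (eval g) = Matrix.of fun i j => g (i, j) := by
        ext i j
        simp [gen, Matrix.map_apply]
      have h9 : mf (eval g) (mf C t) = t := by
        funext i J
        simp [mf]
      have h10 : (fun x => eval g (pto (act (gen n L) (mf C t)) (gen n L).det x))
          = pto (act (Matrix.of fun i j => g (i, j)) t)
            (Matrix.of fun i j => g (i, j)).det := by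
        funext x
        cases x with
        | none =>
          change eval g (gen n L).det = (Matrix.of fun i j => g (i, j)).det
          rw [← det_map, h8]
        | some x =>
          change eval g (act (gen n L) (mf C t) x.1 x.2)
            = act (Matrix.of fun i j => g (i, j)) t x.1 x.2
          have h11 := act_map (eval g) (gen n L) (mf C t)
          rw [h8, h9] at h11
          rw [h11]
          rfl
      rw [← h10]
      rw [aeval_def, algebraMap_eq, ← eval₂_id (g := fun x => eval g (pto (act (gen n L) (mf C t))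
        (gen n L).det x)), eval₂_comp_left]
      congr 1
      ext c
      simp
    have hz₁ : aeval (pto (act (gen n L) (mf C t₁)) (gen n L).det) P₁ = 0 := by
      refine MvPolynomial.funext fun g => ?_
      rw [hevg, map_zero]
      exact h₁ _
    have hz₂ : aeval (pto (act (gen n L) (mf C t₂)) (gen n L).det) P₁
        = (gen n L).det ^ M := by
      refine MvPolynomial.funext fun g => ?_
      rw [hevg, map_pow]
      have h3 : P₁ = X none ^ M - P₂ := by rw [← h12]; ring
      rw [h3, map_sub, h₂ _, sub_zero, map_pow, eval_X]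
      congr 1
      change (Matrix.of fun i j => g (i, j)).det = eval g (gen n L).det
      rw [← det_map]
      congr 1
      ext i j
      simp [gen, Matrix.map_apply]
    have hA := hlam t₁
    have hB := hlam t₂
    rw [hz₁, lam_zero] at hA
    have hAB : ∑ d ∈ P₁.support, coeff d P₁ * q l d t₂
        = ∑ d ∈ P₁.support, coeff d P₁ * q l d t₁ :=
      Finset.sum_congr rfl fun d hd => by rw [hq d hd]
    rw [hz₂, hAB, ← hA] at hB
    have hC : (gen n L).det ^ M = map (Int.castRingHom L)
        ((Matrix.of fun i j => (X (i, j) : MvPolynomial (Fin n × Fin n) ℤ)).det ^ M) := by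
      rw [map_pow]
      congr 1
      have h3 := det_map (map (Int.castRingHom L)) (gen n ℤ)
      rw [gen_map] at h3
      exact h3
    rw [hC, lam_map] at hB
    refine hl0 ?_
    have h3 : ((lam l ((Matrix.of fun i j =>
      (X (i, j) : MvPolynomial (Fin n × Fin n) ℤ)).det ^ M) : ℤ) : L) = 0 := by
      simpa using hB
    exact_mod_cast h3
  · -- the ideal is proper: Nullstellensatz
    have hne : (Id t₁ ⊔ Id t₂) ⊔ Ideal.span {X none - 1} ≠ ⊤ := fun h =>
      htop ((Ideal.eq_top_iff_one _).mp h)
    obtain ⟨I, hI, hle⟩ := Ideal.exists_le_maximal _ hne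
    obtain ⟨x, hx⟩ := MvPolynomial.isMaximal_iff_eq_vanishingIdeal_singleton.mp hI
    have hz : ∀ P ∈ (Id t₁ ⊔ Id t₂) ⊔ Ideal.span {X none - 1}, eval x P = 0 := by
      intro P hP
      have h3 := hle hP
      rw [hx, mem_vanishingIdeal_singleton_iff] at h3
      simpa using h3
    have h1 : x none = 1 := by
      have h3 := hz (X none - 1) (Submodule.mem_sup_right (Ideal.mem_span_singleton_self _))
      rw [map_sub, eval_X, map_one] at h3
      exact sub_eq_zero.mp h3
    refine ⟨fun i J => x (some ⟨i, J⟩), ?_, ?_⟩
    all_goals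
      intro P hP
      have h4 : (pto (fun i J => x (some ⟨i, J⟩)) 1 : Option (Ix m n) → L) = x := by
        funext o
        cases o with
        | none => exact h1.symm
        | some o => rfl
      rw [h4]
    · exact hz P (Submodule.mem_sup_left (Submodule.mem_sup_left hP))
    · exact hz P (Submodule.mem_sup_left (Submodule.mem_sup_right hP))

end Pool.Agent.N133.TB
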