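import Pool.Agent.N133.TB.Stm

/-!
Project TB: SMITH, elementary divisors over a valuation ring (helper40).
-/

set_option autoImplicit false

namespace Pool.Agent.N133.TB

namespace Smith

variable {F : Type} [Field F] (O : ValuationSubring F)

/-- the normal form -/
def NF (n : ℕ) (g : Matrix (Fin n) (Fin n) F) : Prop :=
  ∃ (a b : Matrix (Fin n) (Fin n) O) (d : Fin n → F), IsUnit a.det ∧ IsUnit b.det ∧
    g = a.map O.subtype * Matrix.diagonal d * b.map O.subtype

theorem perm {n : ℕ} {g : Matrix (Fin n) (Fin n) F} (σ τ : Equiv.Perm (Fin n))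
    (h : NF O n (g.submatrix σ τ)) : NF O n g := by
  obtain ⟨a, b, d, ha, hb, hg⟩ := h
  refine ⟨a.submatrix σ.symm id, b.submatrix id τ.symm, d, ?_, ?_, ?_⟩
  · rw [Matrix.det_permute]
    refine IsUnit.mul ?_ ha
    rcases Int.units_eq_one_or (Equiv.Perm.sign σ.symm) with h | h <;> rw [h] <;> simp
  · rw [Matrix.det_permute']
    refine IsUnit.mul ?_ hb
    rcases Int.units_eq_one_or (Equiv.Perm.sign τ.symm) with h | h <;> rw [h] <;> simp
  · ext i j
    have h1 : g i j = (g.submatrix σ τ) (σ.symm i) (τ.symm j) := by simp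
    rw [h1, hg]
    rfl

/-- a block triangular matrix -/
def lo {n : ℕ} {R : Type} [CommRing R] (c : Fin n → R) (a : Matrix (Fin n) (Fin n) R) :
    Matrix (Fin (n + 1)) (Fin (n + 1)) R :=
  Matrix.of (Fin.cons (Fin.cons 1 0) fun i => Fin.cons (c i) (a i))

theorem lo_det {n : ℕ} {R : Type} [CommRing R] (c : Fin n → R) (a : Matrix (Fin n) (Fin n) R) :
    (lo c a).det = a.det := by
  rw [Matrix.det_succ_row_zero, Fin.sum_univ_succ]
  have h1 : ∀ j : Fin n, lo c a 0 j.succ = 0 := fun j => rfl
  have h2 : lo c a 0 0 = 1 := rfl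
  simp only [h1, h2, mul_zero, zero_mul, Finset.sum_const_zero, add_zero, Fin.val_zero, pow_zero,
    one_mul]
  congr 1

theorem ind : ∀ (n : ℕ) (g : Matrix (Fin n) (Fin n) F), NF O n g := by
  intro n
  induction n with
  | zero =>
    intro g
    exact ⟨1, 1, 0, by simp, by simp, by ext i; exact i.elim0⟩
  | succ n ih =>
    intro g
    obtain ⟨⟨p, q⟩, hpq⟩ := Finite.exists_max
      (fun x : Fin (n + 1) × Fin (n + 1) => O.valuation (g x.1 x.2))
    simp only at hpq
    by_cases h0 : g p q = 0
    · refine ⟨1, 1, 0, by simp, by simp, ?_⟩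
      ext i j
      have h1 := hpq (i, j)
      rw [h0, map_zero] at h1
      have h2 : g i j = 0 := by
        rw [← map_eq_zero O.valuation]
        exact le_antisymm h1 zero_le
      rw [h2]
      simp
    · apply perm O (Equiv.swap 0 p) (Equiv.swap 0 q)
      set g' : Matrix (Fin (n + 1)) (Fin (n + 1)) F := g.submatrix (Equiv.swap 0 p) (Equiv.swap 0 q) with hg'
      have h00 : g' 0 0 = g p q := by simp [hg']
      have hne : g' 0 0 ≠ 0 := by rw [h00]; exact h0
      have hmax : ∀ i j, g' i j / g' 0 0 ∈ O := by
        intro i j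
        rw [← ValuationSubring.valuation_le_one_iff, map_div₀, h00]
        apply div_le_one_of_le₀ _ zero_le
        exact hpq (_, _)
      obtain ⟨a, b, d, ha, hb, hgab⟩ := ih (Matrix.of fun i j => g' i.succ j.succ - g' i.succ 0 * g' 0 j.succ / g' 0 0)
      refine ⟨lo (fun i => ⟨g' i.succ 0 / g' 0 0, hmax _ _⟩) a,
        (lo (fun i => ⟨g' 0 i.succ / g' 0 0, hmax _ _⟩) b.transpose).transpose,
        Fin.cons (g' 0 0) d, ?_, ?_, ?_⟩
      · rw [lo_det]
        exact ha
      · rw [Matrix.det_transpose, lo_det, Matrix.det_transpose]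
        exact hb
      · have e : ∀ i j : Fin n, ∑ l, (a i l : F) * d l * (b l j : F) =
            g' i.succ j.succ - g' i.succ 0 * g' 0 j.succ / g' 0 0 := by
          intro i j
          have h1 := congrFun (congrFun hgab i) j
          rw [Matrix.of_apply, Matrix.mul_apply] at h1
          rw [h1]
          refine Finset.sum_congr rfl fun l _ => ?_
          rw [Matrix.mul_diagonal]
          rfl
        ext i j
        rw [Matrix.mul_apply, Fin.sum_univ_succ]
        simp only [Matrix.mul_diagonal, Fin.cons_zero, Fin.cons_succ]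
        refine Fin.cases ?_ (fun i => ?_) i
        · refine Fin.cases ?_ (fun j => ?_) j
          · simp [lo]
          · simp [lo]
            field_simp
        · refine Fin.cases ?_ (fun j => ?_) j
          · simp [lo]
            field_simp
          · have h1 := e i j
            simp [lo]
            rw [h1]
            field_simp
            ring

end Smith

open Smith in
theorem t_smith : S_SMITH := by
  intro F _ O n g hdet
  obtain ⟨a, b, d, ha, hb, hg⟩ := ind O n g
  refine ⟨a, b, d, ha, hb, ?_, hg⟩
  intro i hi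
  apply hdet
  rw [hg, Matrix.det_mul, Matrix.det_mul, Matrix.det_diagonal, Finset.prod_eq_zero (Finset.mem_univ i) hi]
  simp

end Pool.Agent.N133.TB
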