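import Pool.Agent.N133.TB.Stm

/-!
Project TB: VAL, a valuation ring with given centre (helper40).
-/

set_option autoImplicit false

open MvPolynomial

namespace Pool.Agent.N133.TB

theorem t_val : S_VAL := by
  intro L F _ _ _ σ y z h
  set f : MvPolynomial σ L →+* F := (aeval y : MvPolynomial σ L →ₐ[L] F).toRingHom with hf
  have hfP : ∀ P, f P = aeval y P := fun P => rfl
  set I : Ideal f.range := Ideal.map f.rangeRestrict (RingHom.ker (eval z)) with hI
  have hmem : ∀ a : f.range, a ∈ I ↔ ∃ P, eval z P = 0 ∧ f.rangeRestrict P = a := by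
    intro a
    rw [hI, Ideal.mem_map_iff_of_surjective _ f.rangeRestrict_surjective]
    rfl
  have hIt : I ≠ ⊤ := by
    rw [Ne, Ideal.eq_top_iff_one, hmem]
    rintro ⟨P, hP, hP1⟩
    have h1 : f P = 1 := congrArg Subtype.val hP1
    have h2 := h (1 - P) (by rw [← hfP, map_sub, map_one, h1, sub_self])
    rw [map_sub, map_one, hP, sub_zero] at h2
    exact one_ne_zero h2
  obtain ⟨B, hB, hBI⟩ := I.image_subset_nonunits_valuationSubring hIt
  refine ⟨B, ?_, ?_⟩
  · intro c
    apply hB
    exact ⟨C c, by rw [hfP, aeval_C]⟩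
  · intro s
    rw [← ValuationSubring.mem_nonunits_iff]
    apply hBI
    refine ⟨f.rangeRestrict (X s - C (z s)), (hmem _).2 ⟨X s - C (z s), by simp, rfl⟩, ?_⟩
    change f (X s - C (z s)) = _
    rw [hfP, map_sub, aeval_X, aeval_C]

end Pool.Agent.N133.TB
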