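import Pool.Agent.N133.TB.Stm

/-!
Project TB, part WT: integral weights for the elements of an ordered abelian group. The Farkas lemma is
the rational version of the lemma of helper575 (Pool.Agent.H575R2.Farkas).
-/

set_option autoImplicit false

namespace Pool.Agent.N133.TB

/-- Algebraic Farkas lemma (Bartl's induction). -/
theorem farkas_lin {U : Type*} [AddCommGroup U] [Module ℚ U] :
    ∀ (m : ℕ) (ℓ : Fin m → (U →ₗ[ℚ] ℚ)) (f : U →ₗ[ℚ] ℚ),
      (∀ x, (∀ i, ℓ i x ≤ 0) → f x ≤ 0) →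
      ∃ w : Fin m → ℚ, (∀ i, 0 ≤ w i) ∧ ∀ x, f x = ∑ i, w i * ℓ i x := by
  intro m
  induction m with
  | zero =>
    intro ℓ f h
    refine ⟨fun i => 0, fun i => le_refl _, fun x => ?_⟩
    have h1 := h x (fun i => i.elim0)
    have h2 := h (-x) (fun i => i.elim0)
    rw [map_neg] at h2
    simp
    linarith
  | succ m ih =>
    intro ℓ f h
    by_cases hA : ∀ x, (∀ i : Fin m, ℓ i.castSucc x ≤ 0) → f x ≤ 0
    · obtain ⟨w, hw, hf⟩ := ih (fun i => ℓ i.castSucc) f hA
      refine ⟨Fin.snoc w 0, ?_, ?_⟩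
      · intro i
        refine Fin.lastCases ?_ (fun j => ?_) i
        · simp
        · simpa using hw j
      · intro x
        rw [Fin.sum_univ_castSucc]
        simp [hf x]
    · push Not at hA
      obtain ⟨x0, hx0, hfx0⟩ := hA
      have hlast : 0 < ℓ (Fin.last m) x0 := by
        by_contra hneg
        push Not at hneg
        have : f x0 ≤ 0 := h x0 (fun i => by
          refine Fin.lastCases ?_ (fun j => ?_) i
          · exact hneg
          · exact hx0 j)
        linarith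
      set t : ℚ := ℓ (Fin.last m) x0 with ht
      -- y = x - (ℓ_last x / t) x0
      obtain ⟨w, hw, hf⟩ := ih
        (fun i => ℓ i.castSucc - (ℓ i.castSucc x0 / t) • ℓ (Fin.last m))
        (f - (f x0 / t) • ℓ (Fin.last m)) (by
          intro x hx
          have key : f (x - (ℓ (Fin.last m) x / t) • x0) ≤ 0 := by
            apply h
            intro i
            refine Fin.lastCases ?_ (fun j => ?_) i
            · rw [map_sub, map_smul, smul_eq_mul, ← ht, div_mul_cancel₀ _ hlast.ne', sub_self]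
            · have := hx j
              simp only [LinearMap.sub_apply, LinearMap.smul_apply, smul_eq_mul] at this
              rw [map_sub, map_smul, smul_eq_mul]
              have e : ℓ (Fin.last m) x / t * ℓ j.castSucc x0 =
                ℓ j.castSucc x0 / t * ℓ (Fin.last m) x := by ring
              rw [e]
              exact this
          rw [map_sub, map_smul, smul_eq_mul] at key
          simp only [LinearMap.sub_apply, LinearMap.smul_apply, smul_eq_mul]
          have e : ℓ (Fin.last m) x / t * f x0 = f x0 / t * ℓ (Fin.last m) x := by ring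
          rw [e] at key
          exact key)
      refine ⟨Fin.snoc w (f x0 / t - ∑ i, w i * (ℓ i.castSucc x0 / t)), ?_, ?_⟩
      · intro i
        refine Fin.lastCases ?_ (fun j => ?_) i
        · simp only [Fin.snoc_last]
          have h1 : 0 < f x0 / t := div_pos hfx0 hlast
          have h2 : ∑ i, w i * (ℓ i.castSucc x0 / t) ≤ 0 := by
            apply Finset.sum_nonpos
            intro i _
            apply mul_nonpos_of_nonneg_of_nonpos (hw i)
            exact div_nonpos_of_nonpos_of_nonneg (hx0 i) hlast.le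
          linarith
        · simpa using hw j
      · intro x
        have hx := hf x
        simp only [LinearMap.sub_apply, LinearMap.smul_apply, smul_eq_mul] at hx
        rw [Fin.sum_univ_castSucc]
        simp only [Fin.snoc_castSucc, Fin.snoc_last]
        have e : ∑ i, w i * (ℓ i.castSucc x - ℓ i.castSucc x0 / t * ℓ (Fin.last m) x)
            = ∑ i, w i * ℓ i.castSucc x - (∑ i, w i * (ℓ i.castSucc x0 / t)) * ℓ (Fin.last m) x := by
          rw [Finset.sum_mul, ← Finset.sum_sub_distrib]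
          refine Finset.sum_congr rfl fun i _ => ?_
          ring
        rw [e] at hx
        linarith

/-- a common denominator of nonnegative rational numbers -/
theorem wt_den {m : ℕ} (w : Fin m → ℚ) (hw : ∀ i, 0 ≤ w i) :
    ∃ d : ℕ, 0 < d ∧ ∃ k : Fin m → ℕ, ∀ i, w i * d = k i := by
  classical
  refine ⟨∏ i, (w i).den, Finset.prod_pos fun i _ => (w i).den_pos, ?_⟩
  have h1 : ∀ i, ∃ k : ℕ, w i * ((∏ i, (w i).den : ℕ) : ℚ) = k := by
    intro i
    obtain ⟨e, he⟩ := Finset.dvd_prod_of_mem (fun i => (w i).den) (Finset.mem_univ i)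
    refine ⟨(w i).num.toNat * e, ?_⟩
    rw [he]
    push_cast
    rw [← mul_assoc, Rat.mul_den_eq_num]
    congr 1
    have h2 : ((w i).num.toNat : ℤ) = (w i).num := Int.toNat_of_nonneg (Rat.num_nonneg.2 (hw i))
    rw [← Int.cast_natCast, h2]
  choose k hk using h1
  exact ⟨k, hk⟩

/-- a common denominator of a rational vector -/
theorem wt_int {n : ℕ} (x : Fin n → ℚ) : ∃ d : ℕ, 0 < d ∧ ∃ z : Fin n → ℤ, ∀ i, (z i : ℚ) = x i * d := by
  classical
  refine ⟨∏ i, (x i).den, Finset.prod_pos fun i _ => (x i).den_pos, ?_⟩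
  have h1 : ∀ i, ∃ k : ℤ, (k : ℚ) = x i * ((∏ i, (x i).den : ℕ) : ℚ) := by
    intro i
    obtain ⟨e, he⟩ := Finset.dvd_prod_of_mem (fun i => (x i).den) (Finset.mem_univ i)
    refine ⟨(x i).num * e, ?_⟩
    rw [he]
    push_cast
    rw [← mul_assoc, Rat.mul_den_eq_num]
  choose k hk using h1
  exact ⟨k, hk⟩

/-- the functional given by an integral vector -/
def wtf {n : ℕ} (c : Fin n → ℤ) : (Fin n → ℚ) →ₗ[ℚ] ℚ where
  toFun x := ∑ i, (c i : ℚ) * x i
  map_add' x y := by
    rw [← Finset.sum_add_distrib]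
    exact Finset.sum_congr rfl fun i _ => by rw [Pi.add_apply]; ring
  map_smul' r x := by
    rw [RingHom.id_apply, smul_eq_mul, Finset.mul_sum]
    exact Finset.sum_congr rfl fun i _ => by rw [Pi.smul_apply, smul_eq_mul]; ring

theorem wtf_apply {n : ℕ} (c : Fin n → ℤ) (x : Fin n → ℚ) : wtf c x = ∑ i, (c i : ℚ) * x i := rfl

theorem wt_one {Γ : Type} [CommGroup Γ] [LinearOrder Γ] [IsOrderedMonoid Γ] {n : ℕ} (γ : Fin n → Γ)
    {m : ℕ} (C : Fin m → Fin n → ℤ) (hC : ∀ l, 1 ≤ ∏ i, γ i ^ C l i) (c₀ : Fin n → ℤ)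
    (h₀ : 1 < ∏ i, γ i ^ c₀ i) :
    ∃ z : Fin n → ℤ, (∀ l, 0 ≤ ∑ i, z i * C l i) ∧ 0 < ∑ i, z i * c₀ i := by
  classical
  have hex : ∃ x : Fin n → ℚ, (∀ l, (-wtf (C l)) x ≤ 0) ∧ 0 < wtf c₀ x := by
    by_contra hcon
    push Not at hcon
    obtain ⟨w, hw0, hw⟩ := farkas_lin m (fun l => -wtf (C l)) (wtf c₀) hcon
    obtain ⟨d, hd, k, hk⟩ := wt_den w hw0
    have h1 : ∀ j, (d : ℤ) * c₀ j + ∑ l, (k l : ℤ) * C l j = 0 := by
      intro j
      have h2 := hw (Pi.single j 1)
      simp only [LinearMap.neg_apply, wtf_apply, Pi.single_apply, mul_ite, mul_one, mul_zero,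
        Finset.sum_ite_eq', Finset.mem_univ, if_true] at h2
      have h3 : (d : ℚ) * (c₀ j : ℚ) + ∑ l, (k l : ℚ) * (C l j : ℚ) = 0 := by
        rw [h2, Finset.mul_sum, ← Finset.sum_add_distrib]
        refine Finset.sum_eq_zero fun l _ => ?_
        rw [← hk l]
        ring
      exact_mod_cast h3
    have h4 : (∏ i, γ i ^ c₀ i) ^ d * ∏ l, (∏ i, γ i ^ C l i) ^ k l = 1 := by
      have e1 : ∀ j, γ j ^ ((d : ℤ) * c₀ j + ∑ l, (k l : ℤ) * C l j) =
          (γ j ^ c₀ j) ^ d * ∏ l, (γ j ^ C l j) ^ k l := by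
        intro j
        rw [zpow_add, mul_comm (d : ℤ), zpow_mul, zpow_natCast]
        congr 1
        have e2 : ∀ s : Finset (Fin m), γ j ^ (∑ l ∈ s, (k l : ℤ) * C l j) =
            ∏ l ∈ s, (γ j ^ C l j) ^ k l := by
          intro s
          induction s using Finset.induction_on with
          | empty => simp
          | insert a s ha ih =>
            rw [Finset.sum_insert ha, Finset.prod_insert ha, zpow_add, ih, mul_comm (k a : ℤ),
              zpow_mul, zpow_natCast]
        exact e2 Finset.univ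
      have e3 : ∏ j, γ j ^ ((d : ℤ) * c₀ j + ∑ l, (k l : ℤ) * C l j) = 1 :=
        Finset.prod_eq_one fun j _ => by rw [h1 j, zpow_zero]
      rw [Finset.prod_congr rfl fun j _ => e1 j, Finset.prod_mul_distrib, Finset.prod_pow,
        Finset.prod_comm] at e3
      rw [← e3]
      congr 1
      exact Finset.prod_congr rfl fun l _ => (Finset.prod_pow _ _ _).symm
    have h5 : 1 < (∏ i, γ i ^ c₀ i) ^ d := one_lt_pow' h₀ hd.ne'
    have h6 : 1 ≤ ∏ l, (∏ i, γ i ^ C l i) ^ k l :=
      Finset.one_le_prod' fun l _ => one_le_pow_of_one_le' (hC l) _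
    have h7 := one_lt_mul_of_lt_of_le' h5 h6
    rw [h4] at h7
    exact lt_irrefl _ h7
  obtain ⟨x, hx1, hx2⟩ := hex
  obtain ⟨d, hd, z, hz⟩ := wt_int x
  have hd' : (0 : ℚ) < d := by exact_mod_cast hd
  have key : ∀ c : Fin n → ℤ, ((∑ i, z i * c i : ℤ) : ℚ) = wtf c x * d := by
    intro c
    rw [wtf_apply, Finset.sum_mul]
    push_cast
    refine Finset.sum_congr rfl fun i _ => ?_
    rw [hz i]
    ring
  refine ⟨z, fun l => ?_, ?_⟩
  · have h1 := hx1 l
    rw [LinearMap.neg_apply] at h1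
    have h2 : (0 : ℚ) ≤ ((∑ i, z i * C l i : ℤ) : ℚ) := by
      rw [key]
      exact mul_nonneg (by linarith) hd'.le
    exact_mod_cast h2
  · have h2 : (0 : ℚ) < ((∑ i, z i * c₀ i : ℤ) : ℚ) := by
      rw [key]
      exact mul_pos hx2 hd'
    exact_mod_cast h2

theorem t_wt : S_WT := by
  classical
  intro Γ _ _ _ n N γ
  set Box : Finset (Fin n → ℤ) := Fintype.piFinset fun _ : Fin n => Finset.Icc (-(N : ℤ)) N with hBox
  have hbox : ∀ c : Fin n → ℤ, c ∈ Box ↔ ∀ i, |c i| ≤ N := by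
    intro c
    rw [hBox, Fintype.mem_piFinset]
    refine forall_congr' fun i => ?_
    rw [Finset.mem_Icc, abs_le]
  set S : Finset (Fin n → ℤ) := Box.filter fun c => 1 ≤ ∏ i, γ i ^ c i with hS
  set P : Finset (Fin n → ℤ) := Box.filter fun c => 1 < ∏ i, γ i ^ c i with hP
  set e := S.equivFin with he
  have hex : ∀ c₀ : Fin n → ℤ, ∃ z : Fin n → ℤ, c₀ ∈ P →
      (∀ c ∈ S, 0 ≤ ∑ i, z i * c i) ∧ 0 < ∑ i, z i * c₀ i := by
    intro c₀
    by_cases hc : c₀ ∈ P
    · obtain ⟨z, hz1, hz2⟩ := wt_one γ (fun l => ((e.symm l : S) : Fin n → ℤ))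
        (fun l => (Finset.mem_filter.1 (e.symm l).2).2) c₀ (Finset.mem_filter.1 hc).2
      refine ⟨z, fun _ => ⟨fun c hcS => ?_, hz2⟩⟩
      have h1 := hz1 (e ⟨c, hcS⟩)
      simpa using h1
    · exact ⟨0, fun h => absurd h hc⟩
  choose z hz using hex
  refine ⟨∑ c₀ ∈ P, z c₀, fun c hc => ?_⟩
  have hsum : ∑ i, (∑ c₀ ∈ P, z c₀) i * c i = ∑ c₀ ∈ P, ∑ i, z c₀ i * c i := by
    rw [Finset.sum_comm]
    refine Finset.sum_congr rfl fun i _ => ?_
    rw [Finset.sum_apply, Finset.sum_mul]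
  rw [hsum]
  constructor
  · intro h1
    have hcP : c ∈ P := Finset.mem_filter.2 ⟨(hbox c).2 hc, h1⟩
    have hcS : c ∈ S := Finset.mem_filter.2 ⟨(hbox c).2 hc, h1.le⟩
    exact Finset.sum_pos' (fun c₀ hc₀ => (hz c₀ hc₀).1 c hcS) ⟨c, hcP, (hz c hcP).2⟩
  · intro h1
    have hcS : c ∈ S := Finset.mem_filter.2 ⟨(hbox c).2 hc, h1.ge⟩
    have hcS' : -c ∈ S := by
      refine Finset.mem_filter.2 ⟨(hbox _).2 fun i => ?_, ?_⟩
      · rw [Pi.neg_apply, abs_neg]
        exact hc i
      · have h2 : ∏ i, γ i ^ (-c) i = 1 := by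
          simp only [Pi.neg_apply, zpow_neg]
          rw [Finset.prod_inv_distrib, h1, inv_one]
        exact h2.ge
    refine Finset.sum_eq_zero fun c₀ hc₀ => ?_
    have h2 := (hz c₀ hc₀).1 c hcS
    have h3 := (hz c₀ hc₀).1 (-c) hcS'
    simp only [Pi.neg_apply, mul_neg, Finset.sum_neg_distrib] at h3
    linarith

end Pool.Agent.N133.TB

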