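import Pool.Agent.N133.TB.Main
import Pool.Agent.N133.TB.Sec
import Pool.Agent.N133.TB.Lam
import Pool.Agent.N133.TB.Sep
import Pool.Agent.N133.TB.Smith
import Pool.Agent.N133.TB.Wt
import Pool.Agent.N133.TB.Val
import Pool.Agent.N133.TB.Desc
import Pool.Agent.N133.TB.HM

/-!
Project TB: the hypotheses of the main theorems.
-/

set_option autoImplicit false
set_option linter.overlappingInstances false

open MvPolynomial FF Pool.Agent.Y174

namespace Pool.Agent.N133.TB

theorem t_at : S_AT := by
  intro k K _ _ _ _ hess n hn1 htr ι _ m T W Q hQ hW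
  exact ⟨sec_pluri T hQ, fun v hv c hT D hD => sec_at hess htr hv hT hQ D hD⟩

theorem t_sep' : S_SEP := t_sep t_lam

theorem t_hm' : S_HM := t_hm t_smith t_wt t_val t_desc

end Pool.Agent.N133.TB
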