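import Pool.Agent.N133.TB.Stm3

/-!
Project TB, third part: BD1 (helper441), the product of a relative and a base form at a place which
is trivial on the base.
-/

set_option autoImplicit false
set_option linter.overlappingInstances false
set_option linter.unusedSectionVars false

open MvPolynomial FF Pool.Agent.W619.PQ Pool.Agent.Y174 Pool.Agent.N133.OB Pool.Agent.W603.LV

namespace Pool.Agent.N133.TB

theorem t_bd1 : S_BD1 := by
  classical
  intro L K _ _ _ _ _ _ hess d r hr hL hK t ht x hx G hG E hE W s ρ θ hρ hθ P hP c hPL hF D hD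
  obtain ⟨r, rfl⟩ : ∃ r', r = r' + 1 := ⟨r - 1, by omega⟩
  have hL0 : CharZero L := charZero_of_injective_algebraMap (algebraMap ℂ L).injective
  obtain ⟨u, hu⟩ : ∃ u : Fin r → K, ResInd (trivPl P hPL) u := div_triv hL hP hPL
  obtain ⟨s0, hs00, hs0⟩ := P.surj
  have hs0' : (trivPl P hPL).ord s0 = 1 := hs0
  obtain ⟨E0, hreg, hbas, hE0, hPres⟩ := frame_fib (k := ℂ) hess hK ht.1 hu hs0'
  have hLK := trdeg_LK (L := L) hL hK
  have hessL : Algebra.EssFiniteType L K := Algebra.EssFiniteType.of_comp ℂ L K
  obtain ⟨hb, F, hFd, hFP⟩ := Pool.Agent.Y173.QA.frame_of (k := L) (K := K) (m := r) hLK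
    (fun y hy => Pool.Agent.W824.PG.fin_adj hessL y hy) (trivPl P hPL) (s := s0) hs0' hu
  -- the relative form at the frame `F`
  have h1 : ρ F = (Matrix.of fun a b => F a (x b)).det ^ W * ρ E := by
    have h2 := hρ (Matrix.of fun a b => F a (x b)) E
    rw [← h2]
    congr 1
    funext a
    exact (Pool.Agent.W73.PG.PULL.expand _ hx E hE (F a)).symm
  -- the frame `F` is a part of the frame `E0`
  have h2 : ∀ a f, F a f = E0 (Fin.natAdd d a) f := by
    intro a f
    have h4 := congrArg (fun D : Derivation ℂ K K => D f)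
      (Pool.Agent.W73.PG.PULL.expand _ hbas E0 hE0 ((F a).restrictScalars ℂ))
    have h5 : (∑ b, ((F a).restrictScalars ℂ)
        ((Fin.append (algebraMap L K ∘ t) (Fin.cons s0 u) : Fin (d + (r + 1)) → K) b) • E0 b) f =
        ∑ b, F a ((Fin.append (algebraMap L K ∘ t) (Fin.cons s0 u) : Fin (d + (r + 1)) → K) b) *
          E0 b f := by
      rw [Pool.Agent.W721.PG.EFF2.der_sum]
      rfl
    have h6 : F a f = ∑ b, F a
        ((Fin.append (algebraMap L K ∘ t) (Fin.cons s0 u) : Fin (d + (r + 1)) → K) b) *
          E0 b f := by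
      rw [← h5]
      exact h4.symm
    rw [h6, Fin.sum_univ_add, Finset.sum_eq_zero, zero_add, Finset.sum_eq_single a]
    · rw [Fin.append_right, hFd, if_pos rfl, one_mul]
    · intro e _ he
      rw [Fin.append_right, hFd, if_neg (Ne.symm he), zero_mul]
    · intro h
      exact absurd (Finset.mem_univ a) h
    · intro e _
      rw [Fin.append_left]
      change F a (algebraMap L K (t e)) * _ = 0
      rw [Derivation.map_algebraMap, zero_mul]
  -- the determinants
  have h3 : (Matrix.of fun i b => D i
      ((Fin.append (algebraMap L K ∘ t) x : Fin (d + (r + 1)) → K) b)) =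
      (Matrix.of fun i b => D i
        ((Fin.append (algebraMap L K ∘ t) (Fin.cons s0 u) : Fin (d + (r + 1)) → K) b)) *
      (Matrix.of fun i b => E0 i
        ((Fin.append (algebraMap L K ∘ t) x : Fin (d + (r + 1)) → K) b)) := by
    ext i j
    rw [Matrix.of_apply, Matrix.mul_apply]
    conv_lhs => rw [← Pool.Agent.W73.PG.PULL.expand _ hbas E0 hE0 (D i)]
    rw [Pool.Agent.W721.PG.EFF2.der_sum]
    rfl
  have h4 : (Matrix.of fun i b => E0 i
      ((Fin.append (algebraMap L K ∘ t) x : Fin (d + (r + 1)) → K) b)).det =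
      (Matrix.of fun a b => F a (x b)).det := by
    have h5 := det_append (t := algebraMap L K ∘ t) x
      (G := fun i : Fin d => E0 (Fin.castAdd (r + 1) i)) (D := fun i => E0 (Fin.natAdd d i))
      (fun i j => by
        have h6 := hE0 (Fin.castAdd (r + 1) i) (Fin.castAdd (r + 1) j)
        rw [Fin.append_left] at h6
        rw [h6]
        by_cases hij : i = j
        · rw [if_pos hij, if_pos (by rw [hij])]
        · rw [if_neg hij, if_neg fun h => hij (Fin.castAdd_injective d (r + 1) h)])
      (fun i j => by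
        have h6 := hE0 (Fin.natAdd d i) (Fin.castAdd (r + 1) j)
        rw [Fin.append_left] at h6
        rw [h6, if_neg]
        intro h
        have := congrArg Fin.val h
        simp only [Fin.val_natAdd, Fin.val_castAdd] at this
        omega)
    rw [Fin.append_castAdd_natAdd] at h5
    rw [h5]
    congr 1
    ext a b
    exact (h2 a (x b)).symm
  obtain ⟨Q, hQ⟩ : ∃ Q : K, Q = (Matrix.of fun i b => D i
      ((Fin.append (algebraMap L K ∘ t) (Fin.cons s0 u) : Fin (d + (r + 1)) → K) b)).det :=
    ⟨_, rfl⟩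
  have h5 : formOf (Fin.append (algebraMap L K ∘ t) x) (s * W)
      (ρ E ^ s * algebraMap L K (θ G) ^ W) D =
      ρ F ^ s * (algebraMap L K (θ G) ^ W * Q ^ (s * W)) := by
    unfold formOf
    rw [h3, Matrix.det_mul, h4, ← hQ, h1, mul_pow, mul_pow, ← pow_mul, mul_comm W s]
    ring
  -- the orders
  have h60 : GeR P (-(W * c)) (ρ F) := hF F fun j f hf => hFP j f hf
  have h6 : GeR P (s * -(W * c)) (ρ F ^ s) := h60.pow s
  have h7 : GeR P 0 (algebraMap L K (θ G)) := by
    by_cases h0 : θ G = 0
    · left
      rw [h0, map_zero]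
    · right
      rw [hPL _ h0]
      simp
  have h8 : GeR P (0 : ℤ) Q := by
    rw [hQ]
    refine Ge.toR (ge_det P _ fun i j => ?_)
    rw [Matrix.of_apply]
    refine hD i _ ?_
    refine Fin.addCases (fun e => ?_) (fun e => ?_) j
    · rw [Fin.append_left]
      change P.Reg (algebraMap L K (t e))
      by_cases h0 : t e = 0
      · left
        rw [h0, map_zero]
      · right
        rw [hPL _ h0]
    · rw [Fin.append_right]
      exact hreg e
  have h9 := h6.mul ((h7.pow W).mul (h8.pow (s * W)))
  rw [← h5] at h9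
  refine GeR.mono h9 (le_of_eq ?_)
  push_cast
  ring

end Pool.Agent.N133.TB
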