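import Pool.Agent.N133.TB.Bd2a
import Pool.Agent.W73.PG.PULL
import Pool.Agent.W636.PG.Trans
import Pool.Agent.N136.IS.FG

/-!
Derivations and forms for an extension of function fields with adapted coordinates.
-/

set_option autoImplicit false
set_option linter.overlappingInstances false
set_option linter.unusedSectionVars false

open FF Pool.Agent.W619.PQ Pool.Agent.W619.TW Pool.Agent.W603.LV

namespace Pool.Agent.N133.TB

/-- subfields of finitely generated fields -/
theorem bd2_ess {k L K : Type} [Field k] [Field L] [Field K] [Algebra k L] [Algebra k K]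
    [Algebra L K] [IsScalarTower k L K] (h : Algebra.EssFiniteType k K) :
    Algebra.EssFiniteType k L := by
  have h1 := Pool.Agent.N136.IS.fg_sub (k := k) (L := K) (IsScalarTower.toAlgHom k L K).fieldRange
  have h2 : Algebra.EssFiniteType k (IsScalarTower.toAlgHom k L K).fieldRange :=
    IntermediateField.essFiniteType_iff.2 h1
  let φ : L ≃ₐ[k] (IsScalarTower.toAlgHom k L K).fieldRange :=
    AlgEquiv.ofInjectiveField (IsScalarTower.toAlgHom k L K)
  exact (Algebra.EssFiniteType.iff_of_algEquiv φ).2 h2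

/-- the determinant of a block triangular matrix -/
theorem bd2_det {K : Type} [CommRing K] {d r : ℕ} (M : Matrix (Fin (d + r)) (Fin (d + r)) K)
    (A : Matrix (Fin d) (Fin d) K) (B : Matrix (Fin r) (Fin r) K)
    (hA : ∀ i j, M (Fin.castAdd r i) (Fin.castAdd r j) = A i j)
    (h0 : ∀ i j, M (Fin.natAdd d i) (Fin.castAdd r j) = 0)
    (hB : ∀ i j, M (Fin.natAdd d i) (Fin.natAdd d j) = B i j) : M.det = A.det * B.det := by
  have h1 : M = Matrix.reindex finSumFinEquiv finSumFinEquiv
      (Matrix.fromBlocks A (Matrix.of fun i j => M (Fin.castAdd r i) (Fin.natAdd d j)) 0 B) := by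
    ext a b
    refine Fin.addCases (fun a => ?_) (fun a => ?_) a
    · refine Fin.addCases (fun b => ?_) (fun b => ?_) b
      · simp [hA]
      · simp
    · refine Fin.addCases (fun b => ?_) (fun b => ?_) b
      · simp [h0]
      · simp [hB]
  rw [h1, Matrix.det_reindex_self, Matrix.det_fromBlocks_zero₂₁]

section

variable {k L K : Type} [Field k] [CharZero k] [Field L] [Field K] [Algebra k L] [Algebra k K]
  [Algebra L K] [IsScalarTower k L K]

/-- the change of the coordinates for the product of a relative form and a form of the base -/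
theorem bd2_change {d r : ℕ} {t τ : Fin d → L} {x z : Fin r → K}
    (ht : IsTranscendenceBasis k t) (hτ : IsTranscendenceBasis k τ)
    (hx : IsTranscendenceBasis L x)
    (hZ' : IsTranscendenceBasis k (Fin.append (algebraMap L K ∘ τ) z))
    {G H : Fin d → Derivation k L L} (hG : ∀ i j, G i (t j) = if i = j then 1 else 0)
    (hH : ∀ i j, H i (τ j) = if i = j then 1 else 0)
    {E F : Fin r → Derivation L K K} (hE : ∀ i j, E i (x j) = if i = j then 1 else 0)
    (hF : ∀ i j, F i (z j) = if i = j then 1 else 0) {W s : ℕ}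
    {ρ : (Fin r → Derivation L K K) → K} {θ : (Fin d → Derivation k L L) → L}
    (hρ : IsPluriForm L K r W ρ) (hθ : IsPluriForm k L d s θ)
    (D : Fin (d + r) → Derivation k K K) :
    ρ E ^ s * algebraMap L K (θ G) ^ W *
        (Matrix.of fun i b => D i ((Fin.append (algebraMap L K ∘ t) x :
          Fin (d + r) → K) b)).det ^ (s * W) =
      ρ F ^ s * algebraMap L K (θ H) ^ W *
        (Matrix.of fun i b => D i ((Fin.append (algebraMap L K ∘ τ) z :
          Fin (d + r) → K) b)).det ^ (s * W) := by
  classical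
  have hL0 : CharZero L := charZero_of_injective_algebraMap (algebraMap k L).injective
  obtain ⟨Z', hZ'def⟩ : ∃ Z' : Fin (d + r) → K, Z' = Fin.append (algebraMap L K ∘ τ) z := ⟨_, rfl⟩
  obtain ⟨Z, hZdef⟩ : ∃ Z : Fin (d + r) → K, Z = Fin.append (algebraMap L K ∘ t) x := ⟨_, rfl⟩
  rw [← hZ'def] at hZ'
  obtain ⟨Q, hQ⟩ := Pool.Agent.W636.PG.exists_duals k K (d + r) Z' hZ'
  -- the values of the forms
  have h1 : θ H = (Matrix.of fun i j => H i (t j)).det ^ s * θ G := by
    rw [← hθ (Matrix.of fun i j => H i (t j)) G]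
    congr 1
    funext i
    exact (Pool.Agent.W73.PG.PULL.expand t ht G hG (H i)).symm
  have h2 : ρ F = (Matrix.of fun i j => F i (x j)).det ^ W * ρ E := by
    rw [← hρ (Matrix.of fun i j => F i (x j)) E]
    congr 1
    funext i
    exact (Pool.Agent.W73.PG.PULL.expand x hx E hE (F i)).symm
  -- the block structure
  have hQt : ∀ (i : Fin d) (f : L), Q (Fin.castAdd r i) (algebraMap L K f) =
      algebraMap L K (H i f) := by
    intro i f
    rw [Pool.Agent.W73.PG.PULL.chain τ hτ H hH (Q (Fin.castAdd r i)) f, Finset.sum_eq_single i]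
    · have h3 := hQ (Fin.castAdd r i) (Fin.castAdd r i)
      rw [if_pos rfl, hZ'def, Fin.append_left, Function.comp_apply] at h3
      rw [h3, one_mul]
    · intro c _ hc
      have h3 := hQ (Fin.castAdd r i) (Fin.castAdd r c)
      rw [if_neg fun h => hc (Fin.castAdd_injective d r h).symm, hZ'def, Fin.append_left,
        Function.comp_apply] at h3
      rw [h3, zero_mul]
    · intro h
      exact absurd (Finset.mem_univ i) h
  have hQ0 : ∀ (i : Fin r) (f : L), Q (Fin.natAdd d i) (algebraMap L K f) = 0 := by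
    intro i f
    rw [Pool.Agent.W73.PG.PULL.chain τ hτ H hH (Q (Fin.natAdd d i)) f]
    refine Finset.sum_eq_zero fun c _ => ?_
    have h3 := hQ (Fin.natAdd d i) (Fin.castAdd r c)
    rw [if_neg (fun h => by
      have := congrArg Fin.val h
      simp only [Fin.val_natAdd, Fin.val_castAdd] at this
      omega), hZ'def, Fin.append_left, Function.comp_apply] at h3
    rw [h3, zero_mul]
  have hQF : ∀ (i : Fin r) (f : K), Q (Fin.natAdd d i) f = F i f := by
    intro i f
    have h3 := der_zero (Q (Fin.natAdd d i) - (F i).restrictScalars k) Z' hZ' (fun b => by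
      change Q (Fin.natAdd d i) (Z' b) - F i (Z' b) = 0
      rw [hQ, hZ'def]
      refine Fin.addCases (fun c => ?_) (fun c => ?_) b
      · rw [Fin.append_left, Function.comp_apply, Derivation.map_algebraMap, sub_zero, if_neg]
        intro h
        have := congrArg Fin.val h
        simp only [Fin.val_natAdd, Fin.val_castAdd] at this
        omega
      · rw [Fin.append_right, hF]
        by_cases h : i = c
        · rw [if_pos h, if_pos (by rw [h]), sub_self]
        · rw [if_neg h, if_neg fun h' => h (Fin.natAdd_injective r d h'), sub_self]) f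
    exact sub_eq_zero.1 h3
  have h3 : (Matrix.of fun a b => Q a (Z b)).det =
      algebraMap L K (Matrix.of fun i j => H i (t j)).det *
        (Matrix.of fun i j => F i (x j)).det := by
    rw [RingHom.map_det]
    refine bd2_det _ _ _ (fun i j => ?_) (fun i j => ?_) (fun i j => ?_)
    · rw [Matrix.of_apply, hZdef, Fin.append_left, Function.comp_apply, hQt]
      rfl
    · rw [Matrix.of_apply, hZdef, Fin.append_left, Function.comp_apply, hQ0]
    · rw [Matrix.of_apply, hZdef, Fin.append_right, hQF]
      rfl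
  have h4 : (Matrix.of fun i b => D i (Z b)) =
      (Matrix.of fun i c => D i (Z' c)) * (Matrix.of fun a b => Q a (Z b)) := by
    ext i b
    rw [Matrix.mul_apply, Matrix.of_apply]
    have h5 := Pool.Agent.W73.PG.PULL.chain Z' hZ' Q hQ (D i) (Z b)
    exact h5
  rw [← hZdef, ← hZ'def, h4, Matrix.det_mul, h3, h1, h2, map_mul, map_pow]
  ring

/-- **Vertical vector fields which are dual to coordinates of the fibre are regular.** -/
theorem bd2_reg {a r : ℕ} {P : Place k K} {π : K} (hπ : P.ord π = 1) {u : Fin a → L}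
    {z : Fin r → K}
    (hbas : IsTranscendenceBasis k (Fin.cons π (Fin.append (algebraMap L K ∘ u) z) :
      Fin (a + r + 1) → K))
    {B : Fin (a + r + 1) → Derivation k K K}
    (hB : ∀ i j, B i ((Fin.cons π (Fin.append (algebraMap L K ∘ u) z) :
      Fin (a + r + 1) → K) j) = if i = j then 1 else 0)
    (hBP : ∀ i, Pres P (B i)) {F : Fin r → Derivation L K K}
    (hF : ∀ i j, F i (z j) = if i = j then 1 else 0) {q : L} {e : ℕ} (he : 0 < e)
    (hq : P.ord (algebraMap L K q) = e) (i : Fin r) (f : K) (hf : P.Reg f) : P.Reg (F i f) := by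
  classical
  have hπ0 : π ≠ 0 := by
    rintro rfl
    rw [P.ord_zero] at hπ
    exact zero_ne_one hπ
  have hq0 : algebraMap L K q ≠ 0 := by
    intro h
    rw [h, P.ord_zero] at hq
    omega
  obtain ⟨y, hy⟩ : ∃ y : Fin (a + r + 1) → K,
      y = Fin.cons π (Fin.append (algebraMap L K ∘ u) z) := ⟨_, rfl⟩
  rw [← hy] at hbas
  have hB' : ∀ i j, B i (y j) = if i = j then 1 else 0 := by rw [hy]; exact hB
  have hy0 : y 0 = π := by rw [hy, Fin.cons_zero]
  -- the expansion of the field
  have hexp : ∀ g : K, F i g = F i π * B 0 g + B (Fin.natAdd a i).succ g := by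
    intro g
    have h1 := Pool.Agent.W73.PG.PULL.chain y hbas B hB' ((F i).restrictScalars k) g
    change F i g = ∑ c, F i (y c) * B c g at h1
    rw [h1, Fin.sum_univ_succ, hy0]
    congr 1
    rw [Finset.sum_eq_single (Fin.natAdd a i)]
    · rw [hy, Fin.cons_succ, Fin.append_right, hF, if_pos rfl, one_mul]
    · intro c _ hc
      rw [hy, Fin.cons_succ]
      revert hc
      refine Fin.addCases (fun c => ?_) (fun c => ?_) c
      · intro _
        rw [Fin.append_left, Function.comp_apply, Derivation.map_algebraMap, zero_mul]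
      · intro hc
        rw [Fin.append_right, hF, if_neg (fun h => hc (by rw [h])), zero_mul]
    · intro h
      exact absurd (Finset.mem_univ _) h
  -- the coefficient
  have hb0 : B 0 π = 1 := by
    rw [← hy0, hB', if_pos rfl]
  have hbi : B (Fin.natAdd a i).succ π = 0 := by
    rw [← hy0, hB', if_neg (Fin.succ_ne_zero _)]
  obtain ⟨ε, hε⟩ : ∃ ε : K, ε = algebraMap L K q / π ^ e := ⟨_, rfl⟩
  have hε0 : ε ≠ 0 := by
    rw [hε]
    exact div_ne_zero hq0 (pow_ne_zero _ hπ0)
  have hεord : P.ord ε = 0 := by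
    rw [hε, P.ord_div hq0 (pow_ne_zero _ hπ0), P.ord_pow, hq, hπ, mul_one, sub_self]
  have hqε : algebraMap L K q = π ^ e * ε := by
    rw [hε, mul_div_cancel₀ _ (pow_ne_zero _ hπ0)]
  have hFq : F i (π ^ e * ε) = 0 := by
    rw [← hqε, Derivation.map_algebraMap]
  have hF1 : (e : K) * ε * F i π + π * F i ε = 0 := by
    rw [Derivation.leibniz, Derivation.leibniz_pow] at hFq
    simp only [smul_eq_mul, nsmul_eq_mul] at hFq
    have h1 : π ^ e = π ^ (e - 1) * π := by
      rw [← pow_succ]
      congr 1
      omega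
    rw [h1] at hFq
    have h2 : π ^ (e - 1) * ((e : K) * ε * F i π + π * F i ε) = 0 := by
      rw [← hFq]
      ring
    exact (mul_eq_zero.1 h2).resolve_left (pow_ne_zero _ hπ0)
  have hF2 : F i π * ((e : K) * ε + π * B 0 ε) = -(π * B (Fin.natAdd a i).succ ε) := by
    rw [hexp ε] at hF1
    linear_combination hF1
  have hε' : P.Reg ε := Or.inr hεord.ge
  have h1 : Ge P 1 (π * B 0 ε) := by
    have h2 : Ge P 1 π := Or.inr hπ.ge
    have h3 : Ge P 0 (B 0 ε) := hBP 0 _ hε'
    exact h2.mul h3
  have h2 : Ge P 1 (π * B (Fin.natAdd a i).succ ε) := by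
    have h2 : Ge P 1 π := Or.inr hπ.ge
    have h3 : Ge P 0 (B (Fin.natAdd a i).succ ε) := hBP _ _ hε'
    exact h2.mul h3
  have heK : (e : K) ≠ 0 := by
    have hK0 : CharZero K := charZero_of_injective_algebraMap (algebraMap k K).injective
    exact Nat.cast_ne_zero.2 he.ne'
  have heord : P.ord (e : K) = 0 := by
    rw [← map_natCast (algebraMap k K)]
    exact P.ord_const (Nat.cast_ne_zero.2 he.ne')
  have h3 : P.ord ((e : K) * ε) = 0 := by
    rw [P.ord_mul heK hε0, heord, hεord, add_zero]
  have h4 : (e : K) * ε + π * B 0 ε ≠ 0 ∧ P.ord ((e : K) * ε + π * B 0 ε) = 0 := by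
    by_cases h5 : π * B 0 ε = 0
    · rw [h5, add_zero]
      exact ⟨mul_ne_zero heK hε0, h3⟩
    · have h6 := P.ord_add_eq (mul_ne_zero heK hε0) h5
        (by rw [h3]; exact lt_of_lt_of_le one_pos (h1.resolve_left h5))
      exact ⟨h6.1, by rw [h6.2, h3]⟩
  have h5 : F i π = -(π * B (Fin.natAdd a i).succ ε) * ((e : K) * ε + π * B 0 ε)⁻¹ := by
    rw [← hF2, mul_assoc, mul_inv_cancel₀ h4.1, mul_one]
  have h6 : Ge P 0 (F i π) := by
    rw [h5]
    have h7 : Ge P 0 ((e : K) * ε + π * B 0 ε)⁻¹ := Or.inr (by rw [P.ord_inv, h4.2, neg_zero])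
    exact (h2.neg.mul h7).mono (by norm_num)
  rw [hexp f]
  have h8 : Ge P 0 (B 0 f) := hBP 0 f hf
  have h9 : Ge P 0 (B (Fin.natAdd a i).succ f) := hBP _ f hf
  have h10 := h6.mul h8
  rw [zero_add] at h10
  exact h10.add h9

end

end Pool.Agent.N133.TB
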