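import Pool.Agent.N133.TB.Stm3
import Pool.Agent.N133.TB.Bd2b
import Pool.Agent.N133.OB8

/-!
BD2: the product of a relative and a base form at a place which lies over a place of the base.
-/

set_option autoImplicit false
set_option linter.overlappingInstances false
set_option linter.unusedSectionVars false

open FF IntermediateField Pool.Agent.W619.PQ Pool.Agent.W619.PL Pool.Agent.W619.TW
  Pool.Agent.W603.LV Pool.Agent.W619.Y Pool.Agent.W824.PG Pool.Agent.Y174 Pool.Agent.N133.OB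

namespace Pool.Agent.N133.TB

section

variable {k K : Type} [Field k] [Field K] [Algebra k K]

theorem bd2_trdeg (P : Place k K) {n : ℕ} (h : IsDivisorial P n) :
    ((n - 1 : ℕ) : Cardinal) ≤ Algebra.trdeg k P.RF := by
  obtain ⟨u, hu⟩ := h
  have h1 := ((resInd_iff P u).1 hu).2
  have h2 := h1.cardinalMk_le_trdeg
  rw [Cardinal.mk_fin] at h2
  exact h2

theorem bd2_cons (Q : Place k K) {s : K} (hs : Q.ord s = 1) {m : ℕ} {u : Fin m → K}
    (hu : ResInd Q u) : AlgebraicIndependent k (Fin.cons s u : Fin (m + 1) → K) := by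
  have hs0 : s ≠ 0 := by
    rintro rfl
    rw [Q.ord_zero] at hs
    norm_num at hs
  rw [algebraicIndependent_iff]
  intro P hP
  by_contra hP0
  have h1 : MvPolynomial.finSuccEquiv k m P ≠ 0 := by
    intro h2
    apply hP0
    exact (map_eq_zero_iff _ (MvPolynomial.finSuccEquiv k m).injective).1 h2
  obtain ⟨t, Q', hQ, hQ0, -⟩ := Pool.Agent.W240.PG.Frame.psi_factor Q hs hu _ h1
  rw [Pool.Agent.W240.PG.Frame.aeval_cons, hQ] at hP
  exact (mul_ne_zero (pow_ne_zero t hs0) hQ0) hP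

end

theorem t_bd2 : S_BD2 := by
  classical
  intro L K _ _ _ _ _ _ hess d r hr hL hK t ht x hx G hG E hE W s ρ θ hρ hθ P hP c b Q e hPQ hcb
    hρb hθb D hD
  rcases d with _ | a
  · exfalso
    have halg : Algebra.IsAlgebraic ℂ L := by
      have h0 : Algebra.trdeg ℂ L = 0 := by rw [hL, Nat.cast_zero]
      exact trdeg_eq_zero_iff.1 h0
    obtain ⟨f, hf0, hf⟩ := Q.surj
    obtain ⟨c', hc'⟩ := (IsAlgClosed.algebraMap_bijective_of_isIntegral (k := ℂ) (K := L)).2 f
    have hc0 : c' ≠ 0 := by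
      rintro rfl
      rw [map_zero] at hc'
      exact hf0 hc'.symm
    rw [← hc', Q.ord_const hc0] at hf
    exact zero_ne_one hf
  have hO : Over P Q e := hPQ
  have hL0 : CharZero L := charZero_of_injective_algebraMap (algebraMap ℂ L).injective
  have hLK : Algebra.trdeg L K = (r : ℕ) := trdeg_LK (k := ℂ) (L := L) hL hK
  have hessL : Algebra.EssFiniteType ℂ L := bd2_ess (K := K) hess
  obtain ⟨πQ, hπQ0, hπQ⟩ := Q.surj
  obtain ⟨π, hπ0, hπ⟩ := P.surj
  have hPt := bd2_trdeg P hP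
  obtain ⟨u, z, hu1, hz1, hu2, hz2, huz⟩ := bd2_uz hO (a := a) (r := r) (fun m u hu1 hu2 => by
    have h1 := (bd2_cons Q hπQ ((resInd_iff Q u).2 ⟨hu1, hu2⟩)).cardinalMk_le_trdeg
    rw [Cardinal.mk_fin, hL] at h1
    have h2 : m + 1 ≤ a + 1 := by exact_mod_cast h1
    omega) hLK (by
    have h1 : a + 1 + r - 1 = a + r := by omega
    rw [h1] at hPt
    exact hPt)
  have hRQ : ResInd Q u := (resInd_iff Q u).2 ⟨hu1, hu2⟩
  have huP : ∀ i, P.Reg ((Fin.append (algebraMap L K ∘ u) z : Fin (a + r) → K) i) := by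
    intro i
    refine Fin.addCases (fun c => ?_) (fun j => ?_) i
    · rw [Fin.append_left]
      exact hO.reg.2 (hu1 c)
    · rw [Fin.append_right]
      exact hz1 j
  have hRP : ResInd P (Fin.append (algebraMap L K ∘ u) z) := (resInd_iff P _).2 ⟨huP, huz⟩
  have htr : Algebra.trdeg ℂ K = (a + r + 1 : ℕ) := by
    rw [hK]
    congr 1
    omega
  obtain ⟨hbL, H, hH, hHP⟩ := Pool.Agent.Y173.QA.frame_of (k := ℂ) (K := L) (m := a) hL
    (fun y hy => fin_adj hessL y hy) Q (s := πQ) hπQ (y' := u) hRQ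
  obtain ⟨hbK, B, hB, hBP⟩ := Pool.Agent.Y173.QA.frame_of (k := ℂ) (K := K) (m := a + r) htr
    (fun y hy => fin_adj hess y hy) P (s := π) hπ (y' := Fin.append (algebraMap L K ∘ u) z) hRP
  have hzb : IsTranscendenceBasis L z := by
    apply hz2.isTranscendenceBasis_of_lift_trdeg_le_of_finite
    rw [hLK]
    simp
  obtain ⟨F, hF⟩ := Pool.Agent.W636.PG.exists_duals L K r z hzb
  have hreg : ∀ j f, P.Reg f → P.Reg (F j f) := fun j f hf =>
    bd2_reg hπ hbK hB hBP hF (q := πQ) hO.1 (by rw [hO.2, hπQ, mul_one]) j f hf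
  have hZ' := basis_append hbL hzb
  have hch := bd2_change ht hbL hx hZ' hG hH hE hF hρ hθ D
  have hdet : Ge P (e - 1) (Matrix.of fun i b => D i ((Fin.append (algebraMap L K ∘
      (Fin.cons πQ u : Fin (a + 1) → L)) z : Fin (a + 1 + r) → K) b)).det := by
    refine det_ge D hD _ (Fin.castAdd r 0) ?_ ?_ ?_
    · rw [Fin.append_left, Function.comp_apply, Fin.cons_zero, hO.2, hπQ, mul_one]
    · rw [Fin.append_left, Function.comp_apply, Fin.cons_zero]
      exact (map_ne_zero _).2 hπQ0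
    · intro i
      refine Fin.addCases (fun c => ?_) (fun j => ?_) i
      · rw [Fin.append_left, Function.comp_apply]
        refine hO.reg.2 ?_
        refine Fin.cases ?_ (fun c => ?_) c
        · rw [Fin.cons_zero]
          exact Or.inr (by rw [hπQ]; norm_num)
        · rw [Fin.cons_succ]
          exact hu1 c
      · rw [Fin.append_right]
        exact hz1 j
  have hθ' := hθb ⟨u, hRQ⟩ H (fun j f hf => hHP j f hf)
  have hρ' := hρb F hreg
  unfold formOf
  rw [hch]
  obtain ⟨J, hJ⟩ : ∃ J : K, J = (Matrix.of fun i b => D i ((Fin.append (algebraMap L K ∘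
      (Fin.cons πQ u : Fin (a + 1) → L)) z : Fin (a + 1 + r) → K) b)).det := ⟨_, rfl⟩
  rw [← hJ] at hdet ⊢
  by_cases hA : ρ F ^ s = 0
  · left
    rw [hA, zero_mul, zero_mul]
  by_cases hC : algebraMap L K (θ H) ^ W = 0
  · left
    rw [hC, mul_zero, zero_mul]
  by_cases hJ0 : J ^ (s * W) = 0
  · left
    rw [hJ0, mul_zero]
  right
  rw [P.ord_mul (mul_ne_zero hA hC) hJ0, P.ord_mul hA hC, P.ord_pow, P.ord_pow, P.ord_pow, hO.2]
  have a1 : 0 ≤ (s : ℝ) * (P.ord (ρ F) : ℝ) := by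
    rcases Nat.eq_zero_or_pos s with h0 | h0
    · rw [h0, Nat.cast_zero, zero_mul]
    · rcases hρ' with h1 | h1
      · exact absurd (by rw [h1, zero_pow h0.ne']) hA
      · exact mul_nonneg (Nat.cast_nonneg s) h1
  have a2 : -((s : ℝ) * W * b * e) ≤ (W : ℝ) * ((e : ℝ) * (Q.ord (θ H) : ℝ)) := by
    rcases Nat.eq_zero_or_pos W with h0 | h0
    · rw [h0]
      simp
    · rcases hθ' with h1 | h1
      · exact absurd (by rw [h1, map_zero, zero_pow h0.ne']) hC
      · have h2 : (0 : ℝ) ≤ (W : ℝ) * e := by positivity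
        have h3 := mul_le_mul_of_nonneg_left h1 h2
        calc -((s : ℝ) * W * b * e) = (W : ℝ) * e * -(s * b) := by ring
          _ ≤ (W : ℝ) * e * (Q.ord (θ H) : ℝ) := h3
          _ = _ := by ring
  have a3 : ((s * W : ℕ) : ℝ) * ((e : ℝ) - 1) ≤ ((s * W : ℕ) : ℝ) * (P.ord J : ℝ) := by
    rcases Nat.eq_zero_or_pos (s * W) with h0 | h0
    · rw [h0, Nat.cast_zero, zero_mul, zero_mul]
    · rcases hdet with h1 | h1
      · exact absurd (by rw [h1, zero_pow h0.ne']) hJ0
      · refine mul_le_mul_of_nonneg_left ?_ (Nat.cast_nonneg _)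
        have h2 : (((e : ℤ) - 1 : ℤ) : ℝ) ≤ (P.ord J : ℝ) := by exact_mod_cast h1
        push_cast at h2
        exact h2
  have a4 : ((s * W : ℕ) : ℝ) * (1 - c) ≤ ((s * W : ℕ) : ℝ) * (e * (1 - b)) :=
    mul_le_mul_of_nonneg_left hcb (Nat.cast_nonneg _)
  push_cast at a3 a4 ⊢
  nlinarith [a1, a2, a3, a4]

end Pool.Agent.N133.TB
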