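import Pool.Agent.Helper386.D5V.Helper399_OverDefs
import Mathlib.RingTheory.AlgebraicIndependent.TranscendenceBasis

/-!
Residue fields of a place over a place of a subfield.
-/

set_option autoImplicit false
set_option linter.overlappingInstances false
set_option linter.unusedSectionVars false

open FF

namespace Pool.Agent.N133.TB

section

variable {k L K : Type} [Field k] [Field L] [Field K] [Algebra k L] [Algebra k K] [Algebra L K]
  [IsScalarTower k L K]

theorem bd2_red_sum (P : Place k K) {ι : Type*} (s : Finset ι) (g : ι → K)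
    (h : ∀ i ∈ s, P.Reg (g i)) :
    P.Reg (∑ i ∈ s, g i) ∧ P.red (∑ i ∈ s, g i) = ∑ i ∈ s, P.red (g i) := by
  classical
  induction s using Finset.induction_on with
  | empty => exact ⟨by simp [P.reg_zero], by simp [P.red_zero]⟩
  | insert a s ha ih =>
    have h1 := ih (fun i hi => h i (Finset.mem_insert_of_mem hi))
    have h2 := h a (Finset.mem_insert_self a s)
    rw [Finset.sum_insert ha, Finset.sum_insert ha]
    exact ⟨P.reg_add h2 h1.1, by rw [P.red_add h2 h1.1, h1.2]⟩

theorem bd2_red_prod (P : Place k K) {ι : Type*} (s : Finset ι) (g : ι → K)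
    (h : ∀ i ∈ s, P.Reg (g i)) :
    P.Reg (∏ i ∈ s, g i) ∧ P.red (∏ i ∈ s, g i) = ∏ i ∈ s, P.red (g i) := by
  classical
  induction s using Finset.induction_on with
  | empty => exact ⟨by simp [P.reg_one], by simp [P.red_one]⟩
  | insert a s ha ih =>
    have h1 := ih (fun i hi => h i (Finset.mem_insert_of_mem hi))
    have h2 := h a (Finset.mem_insert_self a s)
    rw [Finset.prod_insert ha, Finset.prod_insert ha]
    exact ⟨P.reg_mul h2 h1.1, by rw [P.red_mul h2 h1.1, h1.2]⟩

theorem bd2_reg_pow (P : Place k K) {f : K} (hf : P.Reg f) (n : ℕ) : P.Reg (f ^ n) := by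
  induction n with
  | zero => rw [pow_zero]; exact P.reg_one
  | succ n ih => rw [pow_succ]; exact P.reg_mul ih hf

/-- families which are independent modulo the place are independent over the subfield -/
theorem bd2_indep_of_red {P : Place k K} {Q : Place k L} {e : ℕ} (h : Over P Q e) {m : ℕ}
    {z : Fin m → K} (hz : ∀ i, P.Reg (z i))
    (hi : @AlgebraicIndependent (Fin m) Q.RF P.RF (fun i => P.red (z i)) _ _
      h.resMap.toRingHom.toAlgebra) : AlgebraicIndependent L z := by
  classical
  let : Algebra Q.RF P.RF := h.resMap.toRingHom.toAlgebra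
  have hmap : ∀ a : Q.RF, algebraMap Q.RF P.RF a = h.resMap a := fun a => rfl
  rw [algebraicIndependent_iff]
  intro p hp
  by_contra hp0
  obtain ⟨j, hj, hmin⟩ := Finset.exists_min_image p.support (fun i => Q.ord (p.coeff i))
    (MvPolynomial.support_nonempty.2 hp0)
  have hj0 : p.coeff j ≠ 0 := MvPolynomial.mem_support_iff.1 hj
  have hq : ∀ i, Q.Reg (p.coeff i / p.coeff j) := by
    intro i
    by_cases hi : p.coeff i = 0
    · rw [hi, zero_div]; exact Q.reg_zero
    · right
      rw [Q.ord_div hi hj0]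
      have := hmin i (MvPolynomial.mem_support_iff.2 hi)
      linarith
  let R : MvPolynomial (Fin m) Q.RF :=
    ∑ i ∈ p.support, MvPolynomial.monomial i (Q.red (p.coeff i / p.coeff j))
  have hR : MvPolynomial.aeval (fun i => P.red (z i)) R = 0 := by
    have hmon : ∀ i : Fin m →₀ ℕ, P.Reg (i.prod fun a b => z a ^ b) ∧
        P.red (i.prod fun a b => z a ^ b) = i.prod fun a b => P.red (z a) ^ b := by
      intro i
      have h1 := bd2_red_prod P i.support (fun a => z a ^ i a) (fun a _ => bd2_reg_pow P (hz a) _)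
      refine ⟨h1.1, h1.2.trans ?_⟩
      exact Finset.prod_congr rfl fun a _ => P.red_pow (hz a) _
    have h2 : MvPolynomial.aeval (fun i => P.red (z i)) R = ∑ i ∈ p.support,
        P.red (algebraMap L K (p.coeff i / p.coeff j) * (i.prod fun a b => z a ^ b)) := by
      simp only [R, map_sum, MvPolynomial.aeval_monomial]
      refine Finset.sum_congr rfl fun i _ => ?_
      rw [hmap, h.resMap_red (hq i), P.red_mul (h.reg.2 (hq i)) (hmon i).1, (hmon i).2]
    have h3 := bd2_red_sum P p.support
      (fun i => algebraMap L K (p.coeff i / p.coeff j) * (i.prod fun a b => z a ^ b))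
      (fun i _ => P.reg_mul (h.reg.2 (hq i)) (hmon i).1)
    rw [h2, ← h3.2]
    have h4 : ∑ i ∈ p.support,
        algebraMap L K (p.coeff i / p.coeff j) * (i.prod fun a b => z a ^ b) = 0 := by
      have h5 : ∑ i ∈ p.support,
          algebraMap L K (p.coeff i / p.coeff j) * (i.prod fun a b => z a ^ b)
          = (algebraMap L K (p.coeff j))⁻¹ * MvPolynomial.aeval z p := by
        generalize hcj : p.coeff j = cj
        conv_rhs => rw [p.as_sum, map_sum, Finset.mul_sum]
        refine Finset.sum_congr rfl fun i _ => ?_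
        rw [MvPolynomial.aeval_monomial, map_div₀]
        ring
      rw [h5, hp, mul_zero]
    rw [h4, P.red_zero]
  have hR0 : R = 0 := (algebraicIndependent_iff.1 hi) R hR
  have h1 : R.coeff j = 1 := by
    simp only [R, MvPolynomial.coeff_sum, MvPolynomial.coeff_monomial]
    rw [Finset.sum_ite_eq' p.support j, if_pos hj, div_self hj0, Q.red_one]
  rw [hR0] at h1
  simp at h1

/-- lifts of independent families of residues -/
theorem bd2_lift_fam {R : Type} [Field R] (P : Place k K) [Algebra R P.RF] {m : ℕ}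
    (h : ((m : ℕ) : Cardinal) ≤ Algebra.trdeg R P.RF) :
    ∃ z : Fin m → K, (∀ i, P.Reg (z i)) ∧ AlgebraicIndependent R (fun i => P.red (z i)) := by
  obtain ⟨s, hs⟩ := exists_isTranscendenceBasis R P.RF
  have h3 : ((m : ℕ) : Cardinal) ≤ Cardinal.mk s := by
    rw [hs.cardinalMk_eq_trdeg]
    exact h
  have h4 : Nonempty (Fin m ↪ s) := by
    rw [← Cardinal.lift_mk_le']
    simpa using h3
  obtain ⟨g⟩ := h4
  have hd : AlgebraicIndependent R (fun i : Fin m => ((g i : s) : P.RF)) :=
    hs.1.comp g g.injective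
  choose z hz1 hz2 using fun i : Fin m => P.red_surjective ((g i : s) : P.RF)
  refine ⟨z, hz1, ?_⟩
  have h6 : (fun i => P.red (z i)) = fun i : Fin m => ((g i : s) : P.RF) := funext hz2
  rw [h6]
  exact hd

/-- coordinates adapted to a place over a place of a subfield -/
theorem bd2_uz {P : Place k K} {Q : Place k L} {e : ℕ} (h : Over P Q e) {a r : ℕ}
    (hQ : ∀ m : ℕ, ∀ u : Fin m → L, (∀ i, Q.Reg (u i)) →
      AlgebraicIndependent k (fun i => Q.red (u i)) → m ≤ a)
    (hr : Algebra.trdeg L K = (r : ℕ)) (hP : ((a + r : ℕ) : Cardinal) ≤ Algebra.trdeg k P.RF) :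
    ∃ (u : Fin a → L) (z : Fin r → K), (∀ i, Q.Reg (u i)) ∧ (∀ i, P.Reg (z i)) ∧
      AlgebraicIndependent k (fun i => Q.red (u i)) ∧ AlgebraicIndependent L z ∧
      AlgebraicIndependent k (fun i => P.red ((Fin.append (algebraMap L K ∘ u) z :
        Fin (a + r) → K) i)) := by
  classical
  let iA : Algebra Q.RF P.RF := h.resMap.toRingHom.toAlgebra
  have hmap : ∀ a : Q.RF, algebraMap Q.RF P.RF a = h.resMap a := fun a => rfl
  have : IsScalarTower k Q.RF P.RF := IsScalarTower.of_algebraMap_eq fun c => by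
    rw [hmap]
    exact (h.resMap.commutes c).symm
  have h1 : Algebra.trdeg k Q.RF ≤ (a : ℕ) := by
    by_contra hcon
    rw [not_le] at hcon
    have h2 : ((a + 1 : ℕ) : Cardinal) ≤ Algebra.trdeg k Q.RF := by
      rw [Cardinal.nat_succ]
      exact Order.succ_le_of_lt hcon
    obtain ⟨u, hu1, hu2⟩ := bd2_lift_fam Q h2
    have := hQ _ u hu1 hu2
    omega
  have h2 : Algebra.trdeg Q.RF P.RF ≤ (r : ℕ) := by
    by_contra hcon
    rw [not_le] at hcon
    have h2 : ((r + 1 : ℕ) : Cardinal) ≤ Algebra.trdeg Q.RF P.RF := by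
      rw [Cardinal.nat_succ]
      exact Order.succ_le_of_lt hcon
    obtain ⟨z, hz1, hz2⟩ := bd2_lift_fam P h2
    have h3 := (bd2_indep_of_red h hz1 hz2).cardinalMk_le_trdeg
    rw [hr, Cardinal.mk_fin] at h3
    have h4 : r + 1 ≤ r := by exact_mod_cast h3
    omega
  have h3 := trdeg_add_eq k Q.RF (A := P.RF)
  obtain ⟨a', ha'⟩ := Cardinal.lt_aleph0.1 (h1.trans_lt Cardinal.natCast_lt_aleph0)
  obtain ⟨r', hr'⟩ := Cardinal.lt_aleph0.1 (h2.trans_lt Cardinal.natCast_lt_aleph0)
  rw [ha'] at h1
  rw [hr'] at h2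
  rw [← h3, ha', hr'] at hP
  have h1' : a' ≤ a := by exact_mod_cast h1
  have h2' : r' ≤ r := by exact_mod_cast h2
  have h3' : a + r ≤ a' + r' := by exact_mod_cast hP
  have ha : a' = a := by omega
  have hrr : r' = r := by omega
  subst ha
  subst hrr
  obtain ⟨u, hu1, hu2⟩ := bd2_lift_fam (R := k) Q ha'.ge
  obtain ⟨z, hz1, hz2⟩ := bd2_lift_fam (R := Q.RF) P hr'.ge
  refine ⟨u, z, hu1, hz1, hu2, bd2_indep_of_red h hz1 hz2, ?_⟩
  have h5 := hu2.sumElim_comp hz2
  have h6 : (fun i => P.red ((Fin.append (algebraMap L K ∘ u) z : Fin (a' + r') → K) i)) =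
      Sum.elim (fun i => P.red (z i)) (algebraMap Q.RF P.RF ∘ fun i => Q.red (u i)) ∘
        (Sum.swap ∘ finSumFinEquiv.symm) := by
    funext i
    refine Fin.addCases (fun c => ?_) (fun j => ?_) i
    · rw [Fin.append_left]
      simp only [Function.comp_apply, finSumFinEquiv_symm_apply_castAdd, Sum.swap_inl,
        Sum.elim_inr]
      rw [hmap, h.resMap_red (hu1 c)]
    · rw [Fin.append_right]
      simp only [Function.comp_apply, finSumFinEquiv_symm_apply_natAdd, Sum.swap_inr,
        Sum.elim_inl]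
  rw [h6]
  exact h5.comp _ (Sum.swap_leftInverse.injective.comp (Equiv.injective _))

end

end Pool.Agent.N133.TB
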