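import Pool.Agent.N133.TB.Stm2

/-!
Project TB, part FLAG: two weighted bases have a common adapted basis (Bruhat decomposition).
-/

set_option autoImplicit false

namespace Pool.Agent.N133.TB

/-- Bruhat decomposition in terms of coordinates -/
lemma flag_aux {L V : Type} [Field L] [AddCommGroup V] [Module L V] {n : ℕ}
    (κ κ' : V →ₗ[L] (Fin n → L)) (hκ : Function.Surjective κ) (hκ' : Function.Injective κ') :
    ∃ (f : Fin n → V) (τ : Equiv.Perm (Fin n)),
      (∀ i, κ (f i) i ≠ 0 ∧ ∀ l, i < l → κ (f i) l = 0) ∧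
      ∀ i l, τ i < l → κ' (f i) l = 0 := by
  let S : Fin n → Set (Fin n) := fun i =>
    {j | ∃ v, κ v i ≠ 0 ∧ (∀ l, i < l → κ v l = 0) ∧ ∀ l, j < l → κ' v l = 0}
  have hne : ∀ i, (S i).Nonempty := by
    intro i
    obtain ⟨v, hv⟩ := hκ (Pi.single i 1)
    refine ⟨⟨n - 1, by have := i.2; omega⟩, v, ?_, ?_, ?_⟩
    · rw [hv]; simp
    · intro l hl
      rw [hv, Pi.single_eq_of_ne hl.ne']
    · intro l hl
      exfalso
      have h1 := l.2
      have h2 : n - 1 < l.1 := hl
      omega
  have hmin : ∀ i, ∃ a ∈ S i, ∀ x ∈ S i, ¬ x < a := fun i =>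
    WellFounded.has_min (wellFounded_lt (α := Fin n)) (S i) (hne i)
  choose τ hτ hτmin using hmin
  choose f hf1 hf2 hf3 using hτ
  have claim : ∀ i v, κ v i ≠ 0 → (∀ l, i < l → κ v l = 0) → (∀ l, τ i < l → κ' v l = 0) →
      κ' v (τ i) ≠ 0 := by
    intro i v h1 h2 h3 h4
    rcases Nat.eq_zero_or_pos (τ i).1 with h0 | h0
    · have hv : κ' v = 0 := by
        funext l
        rcases Nat.eq_zero_or_pos l.1 with hl | hl
        · have : l = τ i := Fin.ext (by omega)
          rw [this, h4]; rfl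
        · exact h3 l (by show (τ i).1 < l.1; omega)
      have hv0 : v = 0 := hκ' (by rw [hv, map_zero])
      apply h1
      rw [hv0, map_zero]; rfl
    · have hm : (⟨(τ i).1 - 1, by have := (τ i).2; omega⟩ : Fin n) ∈ S i := by
        refine ⟨v, h1, h2, fun l hl => ?_⟩
        have hl' : (τ i).1 - 1 < l.1 := hl
        rcases Nat.lt_or_ge (τ i).1 l.1 with h5 | h5
        · exact h3 l h5
        · have : l = τ i := Fin.ext (by omega)
          rw [this, h4]
      apply hτmin i _ hm
      show (τ i).1 - 1 < (τ i).1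
      omega
  have hlt : ∀ i i', i < i' → τ i ≠ τ i' := by
    intro i i' hii h
    have hc := claim i (f i) (hf1 i) (hf2 i) (hf3 i)
    refine claim i' (f i' - (κ' (f i') (τ i) / κ' (f i) (τ i)) • f i) ?_ ?_ ?_ ?_
    · rw [map_sub, map_smul]
      simp only [Pi.sub_apply, Pi.smul_apply, smul_eq_mul]
      rw [hf2 i i' hii, mul_zero, sub_zero]
      exact hf1 i'
    · intro l hl
      rw [map_sub, map_smul]
      simp only [Pi.sub_apply, Pi.smul_apply, smul_eq_mul]
      rw [hf2 i l (hii.trans hl), hf2 i' l hl, mul_zero, sub_zero]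
    · intro l hl
      rw [map_sub, map_smul]
      simp only [Pi.sub_apply, Pi.smul_apply, smul_eq_mul]
      rw [hf3 i l (by rw [h]; exact hl), hf3 i' l hl, mul_zero, sub_zero]
    · rw [map_sub, map_smul]
      simp only [Pi.sub_apply, Pi.smul_apply, smul_eq_mul]
      rw [← h, div_mul_cancel₀ _ hc, sub_self]
  have hinj : Function.Injective τ := by
    intro i i' h
    rcases lt_trichotomy i i' with h1 | h1 | h1
    · exact absurd h (hlt i i' h1)
    · exact h1
    · exact absurd h.symm (hlt i' i h1)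
  refine ⟨f, Equiv.ofBijective τ (Finite.injective_iff_bijective.mp hinj),
    fun i => ⟨hf1 i, hf2 i⟩, fun i l hl => hf3 i l hl⟩

/-- membership in the filtration in terms of coordinates -/
lemma flag_mem {L : Type} [Field L] {n : ℕ} (A : Matrix (Fin n) (Fin n) L) (w : Fin n → ℝ)
    (ρ : Equiv.Perm (Fin n)) (hρ : Monotone (w ∘ ρ)) (v : Fin n → L) (c : Fin n → L) (j : Fin n)
    (hv : v = Matrix.vecMul c (A.submatrix ρ id)) (hc : ∀ l, j < l → c l = 0) :
    v ∈ Filt A w (w (ρ j)) := by
  have h1 : v = ∑ l, c l • A (ρ l) := by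
    rw [hv]
    funext i
    simp [Matrix.vecMul, dotProduct]
  rw [h1]
  refine Submodule.sum_mem _ (fun l _ => ?_)
  rcases lt_or_ge j l with h | h
  · rw [hc l h, zero_smul]; exact Submodule.zero_mem _
  · exact Submodule.smul_mem _ _ (Submodule.subset_span ⟨ρ l, hρ h, rfl⟩)

/-- FLAG: two weighted bases have a common adapted basis -/
theorem t_flag : S_FLAG := by
  intro L _ n A A' w w' hA hA'
  set ρ := Tuple.sort w with hρ
  set ρ' := Tuple.sort w' with hρ'
  have hmono : Monotone (w ∘ ρ) := Tuple.monotone_sort w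
  have hmono' : Monotone (w' ∘ ρ') := Tuple.monotone_sort w'
  set M := A.submatrix ρ id with hM
  set M' := A'.submatrix ρ' id with hM'
  have hdet : IsUnit M.det := by
    rw [hM, Matrix.det_permute]
    refine IsUnit.mul ?_ (isUnit_iff_ne_zero.mpr hA)
    exact (Equiv.Perm.sign ρ).isUnit.map (Int.castRingHom L)
  have hdet' : IsUnit M'.det := by
    rw [hM', Matrix.det_permute]
    refine IsUnit.mul ?_ (isUnit_iff_ne_zero.mpr hA')
    exact (Equiv.Perm.sign ρ').isUnit.map (Int.castRingHom L)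
  have hsurj : Function.Surjective (M⁻¹.vecMulLinear) := by
    intro c
    refine ⟨Matrix.vecMul c M, ?_⟩
    rw [Matrix.vecMulLinear_apply, Matrix.vecMul_vecMul, Matrix.mul_nonsing_inv _ hdet,
      Matrix.vecMul_one]
  have hback : ∀ v, Matrix.vecMul (Matrix.vecMul v M⁻¹) M = v := by
    intro v
    rw [Matrix.vecMul_vecMul, Matrix.nonsing_inv_mul _ hdet, Matrix.vecMul_one]
  have hback' : ∀ v, Matrix.vecMul (Matrix.vecMul v M'⁻¹) M' = v := by
    intro v
    rw [Matrix.vecMul_vecMul, Matrix.nonsing_inv_mul _ hdet', Matrix.vecMul_one]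
  have hinj : Function.Injective (M'⁻¹.vecMulLinear) := by
    intro v v' h
    rw [Matrix.vecMulLinear_apply, Matrix.vecMulLinear_apply] at h
    rw [← hback' v, h, hback' v']
  obtain ⟨f, τ, hf1, hf2⟩ := flag_aux (M⁻¹.vecMulLinear) (M'⁻¹.vecMulLinear) hsurj hinj
  refine ⟨Matrix.of f, ρ, τ.trans ρ', ?_, ?_, ?_⟩
  · have hT : (Matrix.of f * M⁻¹).det = ∏ i, (Matrix.of f * M⁻¹) i i := by
      apply Matrix.det_of_isLowerTriangular
      intro i j hij
      have hij' : i < j := hij
      exact (hf1 i).2 j hij'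
    have hT2 : (Matrix.of f * M⁻¹).det ≠ 0 := by
      rw [hT]
      exact Finset.prod_ne_zero_iff.mpr (fun i _ => (hf1 i).1)
    rw [Matrix.det_mul] at hT2
    exact left_ne_zero_of_mul hT2
  · intro j
    exact flag_mem A w ρ hmono _ (Matrix.vecMul (f j) M⁻¹) j (hback (f j)).symm (hf1 j).2
  · intro j
    exact flag_mem A' w' ρ' hmono' _ (Matrix.vecMul (f j) M'⁻¹) (τ j) (hback' (f j)).symm
      (hf2 j)

end Pool.Agent.N133.TB
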