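import Pool.Agent.N133.TB.Stm2

/-!
Project TB, GAL: Galois descent of a subspace (helper747).
-/

set_option autoImplicit false

namespace Pool.Agent.N133.TB

theorem gal_fixed_mem {K L : Type} [Field K] [Field L] [Algebra K L] [CharZero K] [IsAlgClosure K L]
    {x : L} (h : ∀ σ : L ≃ₐ[K] L, σ x = x) : ∃ y : K, algebraMap K L y = x := by
  have hG : IsGalois K L := IsAlgClosure.isGalois K L
  have h1 : x ∈ (⊥ : IntermediateField K L) := (InfiniteGalois.mem_bot_iff_fixed x).2 h
  exact IntermediateField.mem_bot.1 h1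

theorem gal_aux (K L : Type) [Field K] [Field L] [Algebra K L] [CharZero K] [IsAlgClosure K L] (n : ℕ)
    (V : Submodule L (Fin n → L)) : (∀ σ : L ≃ₐ[K] L, ∀ v ∈ V, (fun j => σ (v j)) ∈ V) →
    V = Submodule.span L ((fun v : Fin n → K => fun j => algebraMap K L (v j)) ''
      {v | (fun j => algebraMap K L (v j)) ∈ V}) := by
  classical
  induction V using WellFoundedLT.induction with
  | ind V ih =>
    intro hV
    apply le_antisymm
    · by_cases h0 : V = ⊥
      · rw [h0]; exact bot_le
      -- a vector with minimal support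
      have hex : ∃ k : ℕ, ∃ v ∈ V, v ≠ 0 ∧ (Finset.univ.filter fun j => v j ≠ 0).card = k := by
        obtain ⟨v, hv, hv0⟩ := (Submodule.ne_bot_iff V).1 h0
        exact ⟨_, v, hv, hv0, rfl⟩
      obtain ⟨v1, hv1, hv10, hcard⟩ := Nat.find_spec hex
      have hmin : ∀ u ∈ V, (Finset.univ.filter fun j => u j ≠ 0).card <
          (Finset.univ.filter fun j => v1 j ≠ 0).card → u = 0 := by
        intro u hu hlt
        by_contra hu0
        rw [hcard] at hlt
        exact Nat.find_min hex hlt ⟨u, hu, hu0, rfl⟩
      obtain ⟨j0, hj0⟩ : ∃ j, v1 j ≠ 0 := by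
        by_contra hcon
        push Not at hcon
        exact hv10 (funext hcon)
      obtain ⟨v, hvdef⟩ : ∃ v, v = (v1 j0)⁻¹ • v1 := ⟨_, rfl⟩
      have hvV : v ∈ V := by rw [hvdef]; exact V.smul_mem _ hv1
      have hvj : v j0 = 1 := by
        rw [hvdef, Pi.smul_apply, smul_eq_mul, inv_mul_cancel₀ hj0]
      have hvz : ∀ j, v1 j = 0 → v j = 0 := by
        intro j hj
        rw [hvdef, Pi.smul_apply, hj, smul_zero]
      have hfix : ∀ σ : L ≃ₐ[K] L, (fun j => σ (v j)) = v := by
        intro σ
        have h1 : (fun j => σ (v j)) - v ∈ V := V.sub_mem (hV σ v hvV) hvV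
        have h2 := hmin _ h1 (by
          apply Finset.card_lt_card
          refine ⟨fun j hj => ?_, fun hsub => ?_⟩
          · rw [Finset.mem_filter] at hj ⊢
            refine ⟨Finset.mem_univ _, fun hz => hj.2 ?_⟩
            rw [Pi.sub_apply, hvz j hz, map_zero, sub_zero]
          · have h3 := hsub (Finset.mem_filter.2 ⟨Finset.mem_univ j0, hj0⟩)
            rw [Finset.mem_filter] at h3
            apply h3.2
            rw [Pi.sub_apply, hvj, map_one, sub_self])
        exact sub_eq_zero.1 h2
      have hrat : ∀ j, ∃ y : K, algebraMap K L y = v j := fun j =>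
        gal_fixed_mem fun σ => congrFun (hfix σ) j
      choose w hw using hrat
      have hwv : (fun j => algebraMap K L (w j)) = v := funext hw
      -- the vectors with zero coordinate `j0`
      obtain ⟨V', hV'⟩ : ∃ V' : Submodule L (Fin n → L), V' = V ⊓ LinearMap.ker (LinearMap.proj j0) :=
        ⟨_, rfl⟩
      have hmem : ∀ u, u ∈ V' ↔ u ∈ V ∧ u j0 = 0 := by
        intro u
        rw [hV', Submodule.mem_inf, LinearMap.mem_ker, LinearMap.proj_apply]
      have hlt : V' < V := by
        refine lt_of_le_of_ne (fun u hu => ((hmem u).1 hu).1) fun he => ?_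
        have h3 := ((hmem v).1 (he ▸ hvV)).2
        rw [hvj] at h3
        exact one_ne_zero h3
      have hind := ih V' hlt (fun σ u hu => by
        obtain ⟨h3, h4⟩ := (hmem u).1 hu
        exact (hmem _).2 ⟨hV σ u h3, by rw [h4, map_zero]⟩)
      intro u hu
      have hu' : u - u j0 • v ∈ V' := (hmem _).2 ⟨V.sub_mem hu (V.smul_mem _ hvV), by
        rw [Pi.sub_apply, Pi.smul_apply, hvj, smul_eq_mul, mul_one, sub_self]⟩
      rw [hind] at hu'
      have h5 : u = (u - u j0 • v) + u j0 • v := by rw [sub_add_cancel]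
      rw [h5]
      refine Submodule.add_mem _ (Submodule.span_mono ?_ hu') (Submodule.smul_mem _ _
        (Submodule.subset_span ⟨w, ?_, hwv⟩))
      · exact Set.image_mono fun x hx => ((hmem _).1 hx).1
      · show (fun j => algebraMap K L (w j)) ∈ V
        rw [hwv]; exact hvV
    · rw [Submodule.span_le]
      rintro _ ⟨x, hx, rfl⟩
      exact hx

/-- GAL -/
theorem t_gal : S_GAL := by
  intro K L _ _ _ _ _ n V
  exact gal_aux K L n V

end Pool.Agent.N133.TB
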