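import Pool.Agent.N133.TB.Stm2
import Pool.Agent.N133.TB.Alg

/-!
Project TB, KEMPF: the optimal filtration is defined over the base field (helper73).
-/

set_option autoImplicit false
set_option linter.overlappingInstances false
set_option linter.unusedSectionVars false

open MvPolynomial

namespace Pool.Agent.N133.TB

namespace Kempf

section

variable {ι : Type} {n : ℕ}

/-- the coordinates of an element of the filtration -/
theorem coord {L : Type} [Field L] {A : Matrix (Fin n) (Fin n) L} {w : Fin n → ℝ} {a : ℝ}
    {x : Fin n → L} (hx : x ∈ Filt A w a) :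
    ∃ c : Fin n → L, (∀ l, ¬ w l ≤ a → c l = 0) ∧ x = ∑ l, c l • A l := by
  classical
  unfold Filt at hx
  induction hx using Submodule.span_induction with
  | mem x hx =>
    obtain ⟨j, hj, rfl⟩ := hx
    refine ⟨Pi.single j 1, fun l hl => ?_, ?_⟩
    · rw [Pi.single_apply, if_neg]
      rintro rfl
      exact hl hj
    · rw [Finset.sum_eq_single j]
      · rw [Pi.single_eq_same, one_smul]
      · intro b _ hb
        rw [Pi.single_eq_of_ne hb, zero_smul]
      · intro h
        exact absurd (Finset.mem_univ j) h
  | zero => exact ⟨0, fun _ _ => rfl, by simp⟩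
  | add x y _ _ hx hy =>
    obtain ⟨c, hc, rfl⟩ := hx
    obtain ⟨c', hc', rfl⟩ := hy
    refine ⟨c + c', fun l hl => ?_, ?_⟩
    · rw [Pi.add_apply, hc l hl, hc' l hl, add_zero]
    · rw [← Finset.sum_add_distrib]
      refine Finset.sum_congr rfl fun l _ => ?_
      rw [Pi.add_apply, add_smul]
  | smul r x _ hx =>
    obtain ⟨c, hc, rfl⟩ := hx
    refine ⟨r • c, fun l hl => ?_, ?_⟩
    · rw [Pi.smul_apply, hc l hl, smul_zero]
    · rw [Finset.smul_sum]
      refine Finset.sum_congr rfl fun l _ => ?_
      rw [Pi.smul_apply, smul_eq_mul, mul_smul]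

/-- an adapted basis has the same weights -/
theorem wtGe_adapted {m : ι → ℕ} {L : Type} [Field L] {t : Fam m n L}
    {A B : Matrix (Fin n) (Fin n) L} {w : Fin n → ℝ} {μ : ℝ} (h : WtGe t A w μ)
    (hB : ∀ j, B j ∈ Filt A w (w j)) : WtGe t B w μ := by
  choose C hC hC' using fun j => coord (hB j)
  have hBC : B = Matrix.of C * A := by
    ext j k
    rw [Matrix.mul_apply]
    have h1 := congrFun (hC' j) k
    rw [Finset.sum_apply] at h1
    rw [h1]
    rfl
  intro i J hJ
  rw [hBC, act_mul]
  show ∑ I : Fin (m i) → Fin n, (∏ s, C (J s) (I s)) * act A t i I = 0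
  refine Finset.sum_eq_zero fun I _ => ?_
  by_cases hI : ∀ s, w (I s) ≤ w (J s)
  · rw [h i I (lt_of_le_of_lt (Finset.sum_le_sum fun s _ => hI s) hJ), mul_zero]
  · push Not at hI
    obtain ⟨s, hs⟩ := hI
    rw [Finset.prod_eq_zero (Finset.mem_univ s) (hC (J s) (I s) (not_le.2 hs)), zero_mul]

/-- conjugate bases -/
theorem act_map {m : ι → ℕ} {K L : Type} [Field K] [Field L] [Algebra K L] (t : Fam m n K)
    (σ : L ≃ₐ[K] L) (A : Matrix (Fin n) (Fin n) L) (i : ι) (J : Fin (m i) → Fin n) :
    act (A.map σ) (mapF t) i J = σ (act A (mapF t) i J) := by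
  simp only [act, mapF, map_sum, map_mul, map_prod, AlgEquiv.commutes, Matrix.map_apply]

theorem filt_map {K L : Type} [Field K] [Field L] [Algebra K L] (σ : L ≃ₐ[K] L)
    (A : Matrix (Fin n) (Fin n) L) (w : Fin n → ℝ) (a : ℝ) {v : Fin n → L}
    (hv : v ∈ Filt A w a) : (fun j => σ (v j)) ∈ Filt (A.map σ) w a := by
  unfold Filt at hv
  induction hv using Submodule.span_induction with
  | mem x hx =>
    obtain ⟨j, hj, rfl⟩ := hx
    exact Submodule.subset_span ⟨j, hj, rfl⟩
  | zero =>
    have : (fun j => σ ((0 : Fin n → L) j)) = 0 := by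
      funext j
      simp
    rw [this]
    exact Submodule.zero_mem _
  | add x y _ _ hx hy =>
    have : (fun j => σ ((x + y) j)) = (fun j => σ (x j)) + fun j => σ (y j) := by
      funext j
      simp
    rw [this]
    exact Submodule.add_mem _ hx hy
  | smul r x _ hx =>
    have : (fun j => σ ((r • x) j)) = σ r • fun j => σ (x j) := by
      funext j
      simp
    rw [this]
    exact Submodule.smul_mem _ _ hx

/-- a basis over `K` adapted to the filtration -/
theorem exists_basis {K L : Type} [Field K] [Field L] [Algebra K L]
    (A : Matrix (Fin n) (Fin n) L) (w : Fin n → ℝ) (hA : A.det ≠ 0)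
    (hV : ∀ a, Filt A w a = Submodule.span L ((fun v : Fin n → K => fun j => algebraMap K L (v j)) ''
      {v | (fun j => algebraMap K L (v j)) ∈ Filt A w a})) (s : Finset (Fin n)) :
    ∃ b : Fin n → Fin n → K, (∀ j ∈ s, (fun k => algebraMap K L (b j k)) ∈ Filt A w (w j)) ∧
      LinearIndepOn K b (s : Set (Fin n)) := by
  classical
  have hAi : LinearIndependent L A := by
    have h1 : IsUnit A := (Matrix.isUnit_iff_isUnit_det A).2 (isUnit_iff_ne_zero.2 hA)
    exact Matrix.linearIndependent_rows_iff_isUnit.2 h1
  induction s using Finset.induction_on_max_value w with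
  | empty => exact ⟨0, by simp, by simp⟩
  | insert a s ha hmax ih =>
    obtain ⟨b, hb1, hb2⟩ := ih
    -- a vector outside of the span
    obtain ⟨v, hv1, hv2⟩ : ∃ v : Fin n → K, (fun k => algebraMap K L (v k)) ∈ Filt A w (w a) ∧
        v ∉ Submodule.span K (b '' (s : Set (Fin n))) := by
      by_contra hcon
      push Not at hcon
      let b' : Fin n → Fin n → L := fun j k => algebraMap K L (b j k)
      have h1 : Filt A w (w a) ≤ Submodule.span L (b' '' (s : Set (Fin n))) := by
        rw [hV (w a), Submodule.span_le]
        rintro _ ⟨v, hv, rfl⟩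
        have h2 := hcon v hv
        show (fun j => algebraMap K L (v j)) ∈ Submodule.span L (b' '' (s : Set (Fin n)))
        clear hv
        induction h2 using Submodule.span_induction with
        | mem x hx =>
          obtain ⟨j, hj, rfl⟩ := hx
          exact Submodule.subset_span ⟨j, hj, rfl⟩
        | zero =>
          have : (fun j => algebraMap K L ((0 : Fin n → K) j)) = 0 := by
            funext j
            simp
          rw [this]
          exact Submodule.zero_mem _
        | add x y _ _ hx hy =>
          have : (fun j => algebraMap K L ((x + y) j)) =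
              (fun j => algebraMap K L (x j)) + fun j => algebraMap K L (y j) := by
            funext j
            simp
          rw [this]
          exact Submodule.add_mem _ hx hy
        | smul r x _ hx =>
          have : (fun j => algebraMap K L ((r • x) j)) =
              algebraMap K L r • fun j => algebraMap K L (x j) := by
            funext j
            simp
          rw [this]
          exact Submodule.smul_mem _ _ hx
      have h3 : Module.finrank L (Submodule.span L (b' '' (s : Set (Fin n)))) ≤ s.card := by
        rw [← Finset.coe_image]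
        exact (finrank_span_finset_le_card _).trans Finset.card_image_le
      have h4 : (insert a s).card ≤ Module.finrank L (Filt A w (w a)) := by
        let c : ↥(insert a s : Finset (Fin n)) → Filt A w (w a) := fun j =>
          ⟨A j.1, Submodule.subset_span ⟨j.1, by
            rcases Finset.mem_insert.1 j.2 with h | h
            · rw [h]
            · exact hmax _ h, rfl⟩⟩
        have hc : LinearIndependent L c := by
          have h5 : LinearIndependent L (fun j : (insert a s : Finset (Fin n)) => A j.1) :=
            hAi.comp _ Subtype.val_injective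
          exact LinearIndependent.of_comp (Filt A w (w a)).subtype h5
        have h6 := hc.fintype_card_le_finrank
        rwa [Fintype.card_coe] at h6
      have h7 := Submodule.finrank_mono h1
      rw [Finset.card_insert_of_notMem ha] at h4
      omega
    refine ⟨Function.update b a v, fun j hj => ?_, ?_⟩
    · rcases Finset.mem_insert.1 hj with h | h
      · rw [h, Function.update_self]
        exact hv1
      · have hja : j ≠ a := fun h' => ha (h' ▸ h)
        rw [Function.update_of_ne hja]
        exact hb1 j h
    · rw [Finset.coe_insert]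
      have h8 : LinearIndepOn K (Function.update b a v) (s : Set (Fin n)) := by
        refine (linearIndepOn_congr ?_).1 hb2
        intro j hj
        have hja : j ≠ a := fun h' => ha (h' ▸ hj)
        rw [Function.update_of_ne hja]
      refine h8.insert ?_
      rw [Function.update_self]
      have h9 : Function.update b a v '' (s : Set (Fin n)) = b '' (s : Set (Fin n)) := by
        refine Set.image_congr fun j hj => ?_
        have hja : j ≠ a := fun h' => ha (h' ▸ hj)
        rw [Function.update_of_ne hja]
      rw [h9]
      exact hv2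

end

end Kempf

open Kempf in
theorem t_kempf : S_OPT → S_UNIQ → S_GAL → S_KEMPF := by
  intro hOPT hUNIQ hGAL K L _ _ _ _ _ ι _ m n t ht hun
  have hT : (mapF t : Fam m n L) ≠ 0 := by
    intro h
    apply ht
    funext i J
    have h1 := congrFun (congrFun h i) J
    exact (algebraMap K L).injective (h1.trans (map_zero _).symm)
  obtain ⟨A, w, μ, hμ, hopt⟩ := hOPT L ι m n (mapF t) hT hun
  -- conjugates
  have hσ : ∀ σ : L ≃ₐ[K] L, Optimal (mapF t : Fam m n L) (A.map σ) w μ := by
    intro σ
    obtain ⟨h1, h2, h3, h4, h5⟩ := hopt
    refine ⟨?_, h2, h3, fun i J hJ => ?_, h5⟩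
    · have h6 : (A.map σ).det = σ A.det := by
        have := (RingHom.map_det (σ : L →+* L) A).symm
        exact this
      rw [h6]
      exact (map_ne_zero σ).2 h1
    · rw [act_map, h4 i J hJ, map_zero]
  have hst : ∀ (a : ℝ) (σ : L ≃ₐ[K] L), ∀ v ∈ Filt A w a, (fun j => σ (v j)) ∈ Filt A w a := by
    intro a σ v hv
    have h1 := filt_map σ A w a hv
    rwa [← hUNIQ L ι m n (mapF t) A (A.map σ) w w μ hμ hopt (hσ σ) a] at h1
  have hV := fun a => hGAL K L n (Filt A w a) (hst a)
  obtain ⟨b, hb1, hb2⟩ := exists_basis A w hopt.1 hV Finset.univ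
  obtain ⟨h1, h2, h3, h4, h5⟩ := hopt
  refine ⟨Matrix.of b, w, μ, hμ, ?_, h2, h3, ?_, h5⟩
  · have hb3 : LinearIndependent K b := by
      rw [Finset.coe_univ] at hb2
      exact linearIndepOn_univ_iff.1 hb2
    have hb4 : IsUnit (Matrix.of b) := Matrix.linearIndependent_rows_iff_isUnit.1 hb3
    have hb5 : (Matrix.of b).det ≠ 0 :=
      isUnit_iff_ne_zero.1 ((Matrix.isUnit_iff_isUnit_det _).1 hb4)
    have h6 : ((Matrix.of b).map (algebraMap K L)).det = algebraMap K L (Matrix.of b).det :=
      (RingHom.map_det (algebraMap K L) (Matrix.of b)).symm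
    rw [h6]
    exact (map_ne_zero (algebraMap K L)).2 hb5
  · exact wtGe_adapted h4 fun j => hb1 j (Finset.mem_univ j)

end Pool.Agent.N133.TB
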