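import Pool.Agent.N133.TB.Stm2
import Pool.Agent.N133.TB.Alg

/-!
Project TB: existence of an optimal weighted basis.
-/

set_option autoImplicit false
set_option linter.overlappingInstances false
set_option linter.unusedSectionVars false

namespace Pool.Agent.N133.TB

namespace Opt

variable {ι : Type} {m : ι → ℕ} {n : ℕ}

/-- the normalised weights -/
def CC (n : ℕ) : Set (Fin n → ℝ) := {w | ∑ i, w i = 0 ∧ ∑ i, w i ^ 2 = 1}

theorem compact_CC (n : ℕ) : IsCompact (CC n) := by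
  apply Metric.isCompact_of_isClosed_isBounded
  · apply IsClosed.inter
    · exact isClosed_eq (by fun_prop) continuous_const
    · exact isClosed_eq (by fun_prop) continuous_const
  · refine (Metric.isBounded_closedBall (x := (0 : Fin n → ℝ)) (r := 1)).subset ?_
    rintro w ⟨_, hw⟩
    rw [mem_closedBall_zero_iff, pi_norm_le_iff_of_nonneg zero_le_one]
    intro i
    have h1 : w i ^ 2 ≤ ∑ i, w i ^ 2 :=
      Finset.single_le_sum (f := fun i => w i ^ 2) (fun j _ => sq_nonneg _) (Finset.mem_univ i)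
    rw [hw] at h1
    rw [Real.norm_eq_abs]
    exact (sq_le_one_iff_abs_le_one _).1 h1

open Classical in
/-- the smallest weight -/
noncomputable def gg (S : Finset (Ix m n)) (w : Fin n → ℝ) : ℝ :=
  if h : S.Nonempty then S.inf' h (fun x => ∑ s, w (x.2 s)) else 0

theorem cont_gg (S : Finset (Ix m n)) : Continuous (gg S) := by
  unfold gg
  by_cases h : S.Nonempty
  · simp only [dif_pos h]
    exact Continuous.finset_inf'_apply h fun x _ => by fun_prop
  · simp only [dif_neg h]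
    exact continuous_const

theorem act_zero' {L : Type} [Field L] (A : Matrix (Fin n) (Fin n) L) :
    act A (0 : Fam m n L) = 0 := by
  funext i J
  simp [act]

end Opt

open Opt in
theorem t_opt : S_OPT := by
  classical
  intro L _ ι _ m n t ht ⟨A0, w0, hA0, hw0, h0⟩
  have : Fintype (Ix m n) := Fintype.ofFinite _
  let SA : Matrix (Fin n) (Fin n) L → Finset (Ix m n) := fun A =>
    Finset.univ.filter fun x => act A t x.1 x.2 ≠ 0
  have hSA : ∀ A x, x ∈ SA A ↔ act A t x.1 x.2 ≠ 0 := fun A x => by simp [SA]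
  have hne : ∀ A : Matrix (Fin n) (Fin n) L, A.det ≠ 0 → (SA A).Nonempty := by
    intro A hA
    by_contra hcon
    rw [Finset.not_nonempty_iff_eq_empty] at hcon
    have h1 : act A t = 0 := by
      funext i J
      by_contra h2
      have h3 : (⟨i, J⟩ : Ix m n) ∈ SA A := (hSA A _).2 h2
      rw [hcon] at h3
      exact absurd h3 (Finset.notMem_empty _)
    apply ht
    rw [← act_inv hA t, h1, act_zero']
  -- the weight `w0` is not zero
  have hpos : ∀ x ∈ SA A0, 0 < ∑ s, w0 (x.2 s) := by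
    intro x hx
    by_contra hcon
    exact (hSA A0 x).1 hx (h0 x.1 x.2 (not_lt.1 hcon))
  obtain ⟨x0, hx0⟩ := hne A0 hA0
  have hr0 : 0 < ∑ i, (w0 i : ℝ) ^ 2 := by
    rcases (Finset.sum_nonneg fun i _ => sq_nonneg (w0 i : ℝ) :
      (0 : ℝ) ≤ ∑ i, (w0 i : ℝ) ^ 2).lt_or_eq with h | h
    · exact h
    · exfalso
      have h1 := (Finset.sum_eq_zero_iff_of_nonneg fun i _ => sq_nonneg (w0 i : ℝ)).1 h.symm
      have h2 : ∀ i, w0 i = 0 := by
        intro i
        have := h1 i (Finset.mem_univ i)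
        rw [sq_eq_zero_iff] at this
        exact_mod_cast this
      have h3 := hpos x0 hx0
      rw [Finset.sum_eq_zero fun s _ => h2 _] at h3
      exact lt_irrefl _ h3
  set r : ℝ := Real.sqrt (∑ i, (w0 i : ℝ) ^ 2) with hr
  have hrp : 0 < r := Real.sqrt_pos.2 hr0
  have hr2 : r ^ 2 = ∑ i, (w0 i : ℝ) ^ 2 := Real.sq_sqrt hr0.le
  let u0 : Fin n → ℝ := fun i => (w0 i : ℝ) / r
  have hu0 : u0 ∈ CC n := by
    constructor
    · change ∑ i, (w0 i : ℝ) / r = 0
      rw [← Finset.sum_div]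
      have : (∑ i, (w0 i : ℝ)) = 0 := by exact_mod_cast hw0
      rw [this, zero_div]
    · change ∑ i, ((w0 i : ℝ) / r) ^ 2 = 1
      simp only [div_pow]
      rw [← Finset.sum_div, ← hr2, div_self (pow_pos hrp 2).ne']
  -- maximisers
  have hmax : ∀ S : Finset (Ix m n), ∃ w ∈ CC n, ∀ w' ∈ CC n, gg S w' ≤ gg S w := by
    intro S
    obtain ⟨w, hw, hw2⟩ := (compact_CC n).exists_isMaxOn ⟨u0, hu0⟩ (cont_gg S).continuousOn
    exact ⟨w, hw, fun w' hw' => hw2 hw'⟩
  choose W hW1 hW2 using hmax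
  obtain ⟨S, ⟨A, hA, rfl⟩, hS⟩ := Set.exists_max_image
    {S : Finset (Ix m n) | ∃ A : Matrix (Fin n) (Fin n) L, A.det ≠ 0 ∧ SA A = S}
    (fun S => gg S (W S)) (Set.toFinite _) ⟨SA A0, A0, hA0, rfl⟩
  refine ⟨A, W (SA A), gg (SA A) (W (SA A)), ?_, hA, (hW1 _).1, (hW1 _).2, ?_, ?_⟩
  · refine lt_of_lt_of_le ?_ (hS (SA A0) ⟨A0, hA0, rfl⟩)
    refine lt_of_lt_of_le ?_ (hW2 (SA A0) u0 hu0)
    unfold gg
    rw [dif_pos (hne A0 hA0), Finset.lt_inf'_iff]
    intro x hx
    change 0 < ∑ s, (w0 (x.2 s) : ℝ) / r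
    rw [← Finset.sum_div]
    have h1 : (0 : ℝ) < ∑ s, (w0 (x.2 s) : ℝ) := by exact_mod_cast hpos x hx
    positivity
  · intro i J hJ
    by_contra hcon
    have hx : (⟨i, J⟩ : Ix m n) ∈ SA A := (hSA A _).2 hcon
    have h1 : gg (SA A) (W (SA A)) ≤ ∑ s, W (SA A) (J s) := by
      unfold gg
      rw [dif_pos (hne A hA)]
      exact Finset.inf'_le (fun x : Ix m n => ∑ s, W (SA A) (x.2 s)) hx
    exact absurd hJ (not_lt.2 h1)
  · intro A' w' μ' hA' h1 h2 h3
    refine le_trans ?_ (hS (SA A') ⟨A', hA', rfl⟩)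
    refine le_trans ?_ (hW2 (SA A') w' ⟨h1, h2⟩)
    unfold gg
    rw [dif_pos (hne A' hA')]
    apply Finset.le_inf'
    intro x hx
    by_contra hcon
    exact (hSA A' x).1 hx (h3 x.1 x.2 (not_le.1 hcon))

end Pool.Agent.N133.TB
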