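import Pool.Agent.N133.TB.Stm2
import Pool.Agent.N133.TB.Alg

/-!
Project TB, second part: uniqueness of the optimal filtration (helper424).
-/

set_option autoImplicit false
set_option linter.overlappingInstances false
set_option linter.unusedSectionVars false

namespace Pool.Agent.N133.TB

section

variable {ι : Type} {n : ℕ} {m : ι → ℕ} {L : Type} [Field L]

theorem filt_eq_range (A : Matrix (Fin n) (Fin n) L) (w : Fin n → ℝ) (a : ℝ) :
    Filt A w a = Submodule.span L (Set.range fun j : {j : Fin n // w j ≤ a} => A j) := by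
  unfold Filt
  congr 1
  ext v
  constructor
  · rintro ⟨j, hj, rfl⟩
    exact ⟨⟨j, hj⟩, rfl⟩
  · rintro ⟨j, rfl⟩
    exact ⟨j.1, j.2, rfl⟩

theorem filt_mono (A : Matrix (Fin n) (Fin n) L) (w : Fin n → ℝ) {a b : ℝ} (h : a ≤ b) :
    Filt A w a ≤ Filt A w b := by
  apply Submodule.span_mono
  rintro v ⟨j, hj, rfl⟩
  exact ⟨j, hj.trans h, rfl⟩

theorem finrank_filt {A : Matrix (Fin n) (Fin n) L} (hA : A.det ≠ 0) (w : Fin n → ℝ) (a : ℝ) :
    Module.finrank L (Filt A w a) = Nat.card {j : Fin n // w j ≤ a} := by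
  have : Fintype {j : Fin n // w j ≤ a} := Fintype.ofFinite _
  have hli : LinearIndependent L (fun j : Fin n => A j) :=
    Matrix.linearIndependent_rows_of_det_ne_zero hA
  have hli2 : LinearIndependent L (fun j : {j : Fin n // w j ≤ a} => A j) :=
    hli.comp _ Subtype.val_injective
  rw [filt_eq_range, finrank_span_eq_card hli2, Nat.card_eq_fintype_card]

/-- the coefficients of a vector of the filtration -/
theorem exists_coef {A : Matrix (Fin n) (Fin n) L} {w : Fin n → ℝ} {a : ℝ} {v : Fin n → L}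
    (hv : v ∈ Filt A w a) : ∃ B : Fin n → L, (∀ l, a < w l → B l = 0) ∧
      ∀ k, v k = ∑ l, B l * A l k := by
  unfold Filt at hv
  induction hv using Submodule.span_induction with
  | mem x hx =>
    obtain ⟨j, hj, rfl⟩ := hx
    classical
    refine ⟨fun l => if l = j then 1 else 0, fun l hl => ?_, fun k => ?_⟩
    · have : l ≠ j := by
        rintro rfl
        exact absurd hj (not_le.2 hl)
      exact if_neg this
    · simp
  | zero => exact ⟨fun _ => 0, fun _ _ => rfl, fun k => by simp⟩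
  | add x y _ _ hx hy =>
    obtain ⟨B, h1, h2⟩ := hx
    obtain ⟨B', h1', h2'⟩ := hy
    refine ⟨fun l => B l + B' l, fun l hl => ?_, fun k => ?_⟩
    · show B l + B' l = 0
      rw [h1 l hl, h1' l hl, add_zero]
    rw [Pi.add_apply, h2, h2', ← Finset.sum_add_distrib]
    exact Finset.sum_congr rfl fun l _ => by ring
  | smul c x _ hx =>
    obtain ⟨B, h1, h2⟩ := hx
    refine ⟨fun l => c * B l, fun l hl => ?_, fun k => ?_⟩
    · show c * B l = 0
      rw [h1 l hl, mul_zero]
    rw [Pi.smul_apply, smul_eq_mul, h2, Finset.mul_sum]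
    exact Finset.sum_congr rfl fun l _ => by ring

/-- the weights in an adapted basis -/
theorem wtGe_adapted {t : Fam m n L} {A f : Matrix (Fin n) (Fin n) L} {w u : Fin n → ℝ} {μ : ℝ}
    (hf : ∀ j, f j ∈ Filt A w (u j)) (h : WtGe t A w μ) : WtGe t f u μ := by
  choose B hB1 hB2 using fun j => exists_coef (hf j)
  have hfB : f = (Matrix.of B) * A := by
    ext j k
    rw [Matrix.mul_apply]
    exact hB2 j k
  intro i J hJ
  rw [hfB, act_mul]
  show ∑ I : Fin (m i) → Fin n, (∏ s, Matrix.of B (J s) (I s)) * act A t i I = 0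
  refine Finset.sum_eq_zero fun I _ => ?_
  by_cases hI : ∀ s, w (I s) ≤ u (J s)
  · rw [h i I (lt_of_le_of_lt (Finset.sum_le_sum fun s _ => hI s) hJ), mul_zero]
  · push Not at hI
    obtain ⟨s, hs⟩ := hI
    rw [Finset.prod_eq_zero (Finset.mem_univ s) (hB1 _ _ hs), zero_mul]

/-- the filtration in an adapted basis -/
theorem filt_adapted {A f : Matrix (Fin n) (Fin n) L} {w : Fin n → ℝ} {σ : Equiv.Perm (Fin n)}
    (hA : A.det ≠ 0) (hfd : f.det ≠ 0) (hf : ∀ j, f j ∈ Filt A w (w (σ j))) (a : ℝ) :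
    Filt f (fun j => w (σ j)) a = Filt A w a := by
  apply Submodule.eq_of_le_of_finrank_eq
  · apply Submodule.span_le.2
    rintro v ⟨j, hj, rfl⟩
    exact filt_mono A w hj (hf j)
  · rw [finrank_filt hfd, finrank_filt hA]
    exact Nat.card_congr (σ.subtypeEquiv fun j => Iff.rfl)

end

theorem t_uniq : S_FLAG → S_UNIQ := by
  intro hflag L _ ι m n t A A' w w' μ hμ h h' a
  obtain ⟨hA, hw0, hw2, hWt, hopt⟩ := h
  obtain ⟨hA', hw0', hw2', hWt', hopt'⟩ := h'
  obtain ⟨f, σ, σ', hf, hfA, hfA'⟩ := hflag L n A A' w w' hA hA'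
  obtain ⟨u, hu⟩ : ∃ u : Fin n → ℝ, u = fun j => w (σ j) := ⟨_, rfl⟩
  obtain ⟨u', hu'⟩ : ∃ u' : Fin n → ℝ, u' = fun j => w' (σ' j) := ⟨_, rfl⟩
  have ht : t ≠ 0 := by
    rintro rfl
    have := hopt A w (μ + 1) hA hw0 hw2 (fun i J _ => by rw [act_zero]; rfl)
    linarith
  have hu0 : ∑ i, u i = 0 := by
    rw [hu, Equiv.sum_comp σ w]
    exact hw0
  have hu0' : ∑ i, u' i = 0 := by
    rw [hu', Equiv.sum_comp σ' w']
    exact hw0'
  have hu2 : ∑ i, u i ^ 2 = 1 := by
    rw [hu, Equiv.sum_comp σ fun i => w i ^ 2]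
    exact hw2
  have hu2' : ∑ i, u' i ^ 2 = 1 := by
    rw [hu', Equiv.sum_comp σ' fun i => w' i ^ 2]
    exact hw2'
  have hWu : WtGe t f u μ := wtGe_adapted (A := A) (w := w) (by rw [hu]; exact hfA) hWt
  have hWu' : WtGe t f u' μ := wtGe_adapted (A := A') (w := w') (by rw [hu']; exact hfA') hWt'
  have hsum : ∀ i (J : Fin (m i) → Fin n), ∑ s, (u (J s) + u' (J s)) < 2 * μ →
      act f t i J = 0 := by
    intro i J hJ
    rw [Finset.sum_add_distrib] at hJ
    rcases lt_or_ge (∑ s, u (J s)) μ with h1 | h1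
    · exact hWu i J h1
    · exact hWu' i J (by linarith)
  have huu : u = u' := by
    by_contra hne
    obtain ⟨S, hS⟩ : ∃ S, S = ∑ i, (u i + u' i) ^ 2 := ⟨_, rfl⟩
    have hS0 : 0 ≤ S := by
      rw [hS]
      exact Finset.sum_nonneg fun i _ => sq_nonneg _
    have hD : 0 < ∑ i, (u i - u' i) ^ 2 := by
      obtain ⟨i, hi⟩ := Function.ne_iff.1 hne
      refine Finset.sum_pos' (fun i _ => sq_nonneg _) ⟨i, Finset.mem_univ i, ?_⟩
      exact lt_of_le_of_ne (sq_nonneg _) (Ne.symm (pow_ne_zero 2 (sub_ne_zero.2 hi)))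
    have hSD : S + ∑ i, (u i - u' i) ^ 2 = 4 := by
      rw [hS, ← Finset.sum_add_distrib]
      have : ∀ i ∈ Finset.univ, (u i + u' i) ^ 2 + (u i - u' i) ^ 2 =
          2 * u i ^ 2 + 2 * u' i ^ 2 := fun i _ => by ring
      rw [Finset.sum_congr rfl this, Finset.sum_add_distrib, ← Finset.mul_sum, ← Finset.mul_sum,
        hu2, hu2']
      norm_num
    rcases hS0.eq_or_lt with h0 | h0
    · -- `u + u' = 0`
      apply ht
      have h1 : ∀ i, u i + u' i = 0 := by
        intro i
        rw [hS] at h0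
        have h2 := (Finset.sum_eq_zero_iff_of_nonneg fun i _ => sq_nonneg (u i + u' i)).1 h0.symm i
          (Finset.mem_univ i)
        exact pow_eq_zero_iff (two_ne_zero) |>.1 h2
      have h3 : act f t = 0 := by
        funext i J
        apply hsum
        rw [Finset.sum_eq_zero fun s _ => h1 (J s)]
        linarith
      rw [← act_inv hf t, h3, act_zero]
    · have hc : 0 < Real.sqrt S := Real.sqrt_pos.2 h0
      have hc2 : Real.sqrt S < 2 := by
        rw [Real.sqrt_lt' two_pos]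
        linarith
      have hcs : Real.sqrt S ^ 2 = S := Real.sq_sqrt hS0
      have h1 := hopt f (fun i => (u i + u' i) / Real.sqrt S) (2 * μ / Real.sqrt S) hf ?_ ?_ ?_
      · rw [div_le_iff₀ hc] at h1
        nlinarith
      · rw [← Finset.sum_div, Finset.sum_add_distrib, hu0, hu0', add_zero, zero_div]
      · have : ∀ i ∈ Finset.univ, ((u i + u' i) / Real.sqrt S) ^ 2 = (u i + u' i) ^ 2 / S :=
          fun i _ => by rw [div_pow, hcs]
        rw [Finset.sum_congr rfl this, ← Finset.sum_div, ← hS, div_self h0.ne']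
      · intro i J hJ
        apply hsum
        rw [← Finset.sum_div, div_lt_div_iff_of_pos_right hc] at hJ
        exact hJ
  rw [← filt_adapted hA hf hfA a, ← filt_adapted hA' hf hfA' a, ← hu, ← hu', huu]

end Pool.Agent.N133.TB
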