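import Pool.Agent.N133.TB.At
import Pool.Agent.N133.TB.Kempf
import Pool.Agent.N133.TB.Uniq
import Pool.Agent.N133.TB.Flag
import Pool.Agent.N133.TB.Gal
import Pool.Agent.N133.TB.Opt

/-!
Project TB: the canonical filtration of an unstable family of multilinear forms.
-/

set_option autoImplicit false
set_option linter.overlappingInstances false
set_option linter.unusedSectionVars false

open MvPolynomial

namespace Pool.Agent.N133.TB

section

variable {K V : Type} [Field K] [AddCommGroup V] [Module K V] {ι : Type} {m : ι → ℕ} {n : ℕ}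

/-- `f` is a basis with weights `w`, `∑ w = 0`, `∑ w ^ 2 = 1`, and the coefficients of the
multilinear forms `T i` of weight less than `μ` vanish. -/
def WtBasis (T : (i : ι) → MultilinearMap K (fun _ : Fin (m i) => V) K) (f : Fin n → V)
    (w : Fin n → ℝ) (μ : ℝ) : Prop :=
  LinearIndependent K f ∧ ∑ j, w j = 0 ∧ ∑ j, w j ^ 2 = 1 ∧
    ∀ (i : ι) (J : Fin (m i) → Fin n), ∑ s, w (J s) < μ → T i (fun s => f (J s)) = 0

/-- the span of the vectors of the basis of weight at most `a` -/
def lvl (K : Type) [Field K] {V : Type} [AddCommGroup V] [Module K V] {n : ℕ} (f : Fin n → V)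
    (w : Fin n → ℝ) (a : ℝ) : Submodule K V := Submodule.span K {v | ∃ j, w j ≤ a ∧ v = f j}

/-- the coefficients of the multilinear forms -/
def co (T : (i : ι) → MultilinearMap K (fun _ : Fin (m i) => V) K) (E : Fin n → V) : Fam m n K :=
  fun i J => T i fun s => E (J s)

theorem act_co (T : (i : ι) → MultilinearMap K (fun _ : Fin (m i) => V) K) (E : Fin n → V)
    (B : Matrix (Fin n) (Fin n) K) (i : ι) (J : Fin (m i) → Fin n) :
    act B (co T E) i J = T i (fun s => ∑ l, B (J s) l • E l) :=
  (Sec.tens_lin (T i) B E J).symm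

/-- the coordinates -/
noncomputable def crd {E : Fin n → V} (hE : LinearIndependent K E)
    (hs : Submodule.span K (Set.range E) = ⊤) : Module.Basis (Fin n) K V :=
  Module.Basis.mk hE hs.ge

theorem wt_iff {E : Fin n → V} (hE : LinearIndependent K E)
    (hs : Submodule.span K (Set.range E) = ⊤)
    (T : (i : ι) → MultilinearMap K (fun _ : Fin (m i) => V) K) (f : Fin n → V)
    (w : Fin n → ℝ) (μ : ℝ) : WtBasis T f w μ ↔
      (Matrix.of fun j => (crd hE hs).equivFun (f j)).det ≠ 0 ∧ ∑ j, w j = 0 ∧ ∑ j, w j ^ 2 = 1 ∧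
        WtGe (co T E) (Matrix.of fun j => (crd hE hs).equivFun (f j)) w μ := by
  classical
  have h1 : LinearIndependent K f ↔
      (Matrix.of fun j => (crd hE hs).equivFun (f j)).det ≠ 0 := by
    have e1 : LinearIndependent K (fun j => (crd hE hs).equivFun (f j)) ↔
        LinearIndependent K f := by
      have := LinearMap.linearIndependent_iff (v := f)
        ((crd hE hs).equivFun : V →ₗ[K] (Fin n → K)) (LinearEquiv.ker _)
      exact this
    rw [← e1]
    have e2 : (LinearIndependent K (Matrix.of fun j => (crd hE hs).equivFun (f j)).row) ↔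
        IsUnit (Matrix.of fun j => (crd hE hs).equivFun (f j)) :=
      Matrix.linearIndependent_rows_iff_isUnit
    rw [Matrix.isUnit_iff_isUnit_det, isUnit_iff_ne_zero] at e2
    exact e2
  have h2 : ∀ j, f j = ∑ l, (Matrix.of fun j => (crd hE hs).equivFun (f j)) j l • E l := by
    intro j
    have := (crd hE hs).sum_equivFun (f j)
    rw [eq_comm] at this
    refine this.trans ?_
    refine Finset.sum_congr rfl fun l _ => ?_
    simp [crd]
  unfold WtBasis WtGe
  rw [h1]
  have h3 : ∀ i (J : Fin (m i) → Fin n), act (Matrix.of fun j => (crd hE hs).equivFun (f j))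
      (co T E) i J = T i (fun s => f (J s)) := by
    intro i J
    rw [act_co]
    congr 1
    funext s
    exact (h2 (J s)).symm
  simp only [h3]

theorem lvl_filt {E : Fin n → V} (hE : LinearIndependent K E)
    (hs : Submodule.span K (Set.range E) = ⊤) (f : Fin n → V) (w : Fin n → ℝ) (a : ℝ) :
    (lvl K f w a).map ((crd hE hs).equivFun : V →ₗ[K] (Fin n → K)) =
      Filt (Matrix.of fun j => (crd hE hs).equivFun (f j)) w a := by
  unfold lvl Filt
  rw [Submodule.map_span]
  congr 1
  ext v
  constructor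
  · rintro ⟨u, ⟨j, hj, rfl⟩, rfl⟩
    exact ⟨j, hj, rfl⟩
  · rintro ⟨j, hj, rfl⟩
    exact ⟨f j, ⟨j, hj, rfl⟩, rfl⟩

/-- **The canonical filtration.** -/
theorem canon [CharZero K] [Finite ι] {E : Fin n → V} (hE : LinearIndependent K E)
    (hs : Submodule.span K (Set.range E) = ⊤)
    (T : (i : ι) → MultilinearMap K (fun _ : Fin (m i) => V) K) (hT0 : ∃ i, T i ≠ 0)
    (hnull : ∃ (A : Matrix (Fin n) (Fin n) (AlgebraicClosure K)) (w : Fin n → ℤ), A.det ≠ 0 ∧
      ∑ i, w i = 0 ∧ ∀ i J, ∑ s, w (J s) ≤ 0 → act A (mapF (co T E)) i J = 0) :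
    ∃ (f : Fin n → V) (w : Fin n → ℝ) (μ : ℝ), 0 < μ ∧ WtBasis T f w μ ∧
      ∀ (f' : Fin n → V) (w' : Fin n → ℝ) (μ' : ℝ), WtBasis T f' w' μ' → μ' ≤ μ ∧
        (μ' = μ → ∀ a, lvl K f' w' a = lvl K f w a) := by
  classical
  have ht0 : co T E ≠ 0 := by
    intro h0
    obtain ⟨i, hi⟩ := hT0
    apply hi
    refine Module.Basis.ext_multilinear (fun _ => crd hE hs) fun J => ?_
    have h1 := congrFun (congrFun h0 i) J
    have h2 : (fun s => (crd hE hs) (J s)) = fun s => E (J s) := by
      funext s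
      simp [crd]
    rw [h2]
    exact h1
  obtain ⟨B, w, μ, hμ, hopt⟩ := t_kempf t_opt (t_uniq t_flag) t_gal K (AlgebraicClosure K) ι m n
    (co T E) ht0 hnull
  -- the matrix over `K` is optimal over `K`
  have hmap : ∀ (B : Matrix (Fin n) (Fin n) K) (w : Fin n → ℝ) (μ : ℝ),
      WtGe (mapF (co T E) : Fam m n (AlgebraicClosure K)) (B.map (algebraMap K _)) w μ ↔
        WtGe (co T E) B w μ := by
    intro B w μ
    have e : ∀ i J, act (B.map (algebraMap K (AlgebraicClosure K)))
        (mapF (co T E) : Fam m n (AlgebraicClosure K)) i J =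
        algebraMap K (AlgebraicClosure K) (act B (co T E) i J) := by
      intro i J
      simp only [act, mapF, map_sum, map_mul, map_prod, Matrix.map_apply]
    unfold WtGe
    constructor
    · intro h i J hJ
      have := h i J hJ
      rw [e] at this
      exact (map_eq_zero _).1 this
    · intro h i J hJ
      rw [e, h i J hJ, map_zero]
  have hdet : ∀ B : Matrix (Fin n) (Fin n) K,
      (B.map (algebraMap K (AlgebraicClosure K))).det = algebraMap K _ B.det := fun B =>
    (RingHom.map_det _ B).symm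
  have hoptK : ∀ (B : Matrix (Fin n) (Fin n) K) (w : Fin n → ℝ) (μ : ℝ),
      Optimal (mapF (co T E) : Fam m n (AlgebraicClosure K)) (B.map (algebraMap K _)) w μ →
      Optimal (co T E) B w μ := by
    rintro B w μ ⟨h1, h2, h3, h4, h5⟩
    refine ⟨fun h => h1 (by rw [hdet, h, map_zero]), h2, h3, (hmap _ _ _).1 h4, ?_⟩
    intro A' w' μ' hA' hw' hw2 hge
    refine h5 (A'.map (algebraMap K _)) w' μ' ?_ hw' hw2 ((hmap _ _ _).2 hge)
    rw [hdet]
    exact (map_ne_zero _).2 hA'
  have hB := hoptK B w μ hopt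
  -- the basis
  let f : Fin n → V := fun j => (crd hE hs).equivFun.symm (B j)
  have hfB : (Matrix.of fun j => (crd hE hs).equivFun (f j)) = B := by
    ext j l
    exact congrFun ((crd hE hs).equivFun.apply_symm_apply (B j)) l
  have hwf : WtBasis T f w μ := by
    rw [wt_iff hE hs, hfB]
    exact ⟨hB.1, hB.2.1, hB.2.2.1, hB.2.2.2.1⟩
  refine ⟨f, w, μ, hμ, hwf, fun f' w' μ' h' => ?_⟩
  rw [wt_iff hE hs] at h'
  obtain ⟨h1, h2, h3, h4⟩ := h'
  refine ⟨hB.2.2.2.2 _ w' μ' h1 h2 h3 h4, ?_⟩
  rintro rfl a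
  have hB' : Optimal (co T E) (Matrix.of fun j => (crd hE hs).equivFun (f' j)) w' μ' :=
    ⟨h1, h2, h3, h4, hB.2.2.2.2⟩
  have h5 := t_uniq t_flag K ι m n (co T E) _ _ w' w μ' hμ hB' hB a
  have h6 := lvl_filt hE hs f' w' a
  have h7 := lvl_filt hE hs f w a
  rw [hfB] at h7
  rw [h5, ← h7] at h6
  exact Submodule.map_injective_of_injective (crd hE hs).equivFun.injective h6

end

end Pool.Agent.N133.TB
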