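import Pool.Agent.N133.TB.TwE

set_option autoImplicit false
set_option linter.overlappingInstances false
set_option linter.unusedSectionVars false

open MvPolynomial FF Pool.Agent.W619.PQ Pool.Agent.Y174

namespace Pool.Agent.N133.TB

theorem my_homd : S_HOMD := by
  classical
  intro k _ _ ι _ m n W Q a e hQ L _ _ A t
  have hcL : CharZero L := charZero_of_injective_algebraMap (algebraMap k L).injective
  have hfin : (Function.support fun e =>
      weightedHomogeneousComponent (fun x : Ix m n => a x.1) e Q).Finite :=
    weightedHomogeneousComponent_finsupp Q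
  obtain ⟨S, hS⟩ : ∃ S : Finset ℕ, S = hfin.toFinset := ⟨_, rfl⟩
  have hsum : Q = ∑ e ∈ S, weightedHomogeneousComponent (fun x : Ix m n => a x.1) e Q := by
    rw [hS, ← finsum_eq_sum_of_support_subset _ (s := hfin.toFinset) (by simp)]
    exact (sum_weightedHomogeneousComponent _ Q).symm
  have hev : ∀ (c : L) (t : Fam m n L), aeval (pt (fun i J => c ^ a i * t i J : Fam m n L)) Q =
      ∑ e ∈ S, c ^ e * aeval (pt t)
        (weightedHomogeneousComponent (fun x : Ix m n => a x.1) e Q) := by
    intro c t
    conv_lhs => rw [hsum]
    rw [map_sum]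
    exact Finset.sum_congr rfl fun e _ => aeval_scale a c t
      (weightedHomogeneousComponent_isWeightedHomogeneous e Q)
  obtain ⟨p, hp⟩ : ∃ p : Polynomial L, p = ∑ e ∈ S, Polynomial.C (aeval (pt (act A t))
      (weightedHomogeneousComponent (fun x : Ix m n => a x.1) e Q) - A.det ^ W * aeval (pt t)
      (weightedHomogeneousComponent (fun x : Ix m n => a x.1) e Q)) * Polynomial.X ^ e := ⟨_, rfl⟩
  have hp0 : p = 0 := by
    refine Polynomial.funext fun c => ?_
    rw [hp, Polynomial.eval_finset_sum, Polynomial.eval_zero]
    have h1 := hQ L A (fun i J => c ^ a i * t i J)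
    rw [act_scale, hev, hev, Finset.mul_sum] at h1
    rw [← sub_eq_zero, ← Finset.sum_sub_distrib] at h1
    rw [← h1]
    refine Finset.sum_congr rfl fun e _ => ?_
    rw [Polynomial.eval_mul, Polynomial.eval_C, Polynomial.eval_pow, Polynomial.eval_X]
    ring
  by_cases he : e ∈ S
  · have h1 : p.coeff e = aeval (pt (act A t))
      (weightedHomogeneousComponent (fun x : Ix m n => a x.1) e Q) - A.det ^ W * aeval (pt t)
      (weightedHomogeneousComponent (fun x : Ix m n => a x.1) e Q) := by
      rw [hp, Polynomial.finset_sum_coeff]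
      rw [Finset.sum_eq_single e]
      · rw [Polynomial.coeff_C_mul, Polynomial.coeff_X_pow, if_pos rfl, mul_one]
      · intro b _ hb
        rw [Polynomial.coeff_C_mul, Polynomial.coeff_X_pow, if_neg (Ne.symm hb), mul_zero]
      · intro h
        exact absurd he h
    rw [hp0, Polynomial.coeff_zero] at h1
    exact sub_eq_zero.1 h1.symm
  · have h1 : weightedHomogeneousComponent (fun x : Ix m n => a x.1) e Q = 0 := by
      by_contra h
      apply he
      rw [hS, Set.Finite.mem_toFinset]
      exact h
    rw [h1, map_zero, map_zero, mul_zero]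

end Pool.Agent.N133.TB
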