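import Pool.Agent.N133.TB.Null
import Pool.Agent.TH466.QG.Equiv

/-!
Project TB: the invariant distribution.
-/

set_option autoImplicit false
set_option linter.overlappingInstances false
set_option linter.unusedSectionVars false

open MvPolynomial FF Pool.Agent.W619.PQ Pool.Agent.Y174 Pool.Agent.TH466.QG

namespace Pool.Agent.N133.TB

section

variable {K V : Type} [Field K] [AddCommGroup V] [Module K V] {n : ℕ}

theorem lvl_coord {f : Fin n → V} {w : Fin n → ℝ} {a : ℝ} {x : V} (hx : x ∈ lvl K f w a) :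
    ∃ c : Fin n → K, (∀ l, ¬ w l ≤ a → c l = 0) ∧ x = ∑ l, c l • f l := by
  classical
  unfold lvl at hx
  induction hx using Submodule.span_induction with
  | mem x hx =>
    obtain ⟨j, hj, rfl⟩ := hx
    refine ⟨Pi.single j 1, fun l hl => ?_, ?_⟩
    · rw [Pi.single_apply, if_neg]
      rintro rfl
      exact hl hj
    · rw [Finset.sum_eq_single j]
      · rw [Pi.single_eq_same, one_smul]
      · intro b _ hb
        rw [Pi.single_eq_of_ne hb, zero_smul]
      · intro h
        exact absurd (Finset.mem_univ j) h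
  | zero => exact ⟨0, fun _ _ => rfl, by simp⟩
  | add x y _ _ hx hy =>
    obtain ⟨c, hc, rfl⟩ := hx
    obtain ⟨c', hc', rfl⟩ := hy
    refine ⟨c + c', fun l hl => ?_, ?_⟩
    · rw [Pi.add_apply, hc l hl, hc' l hl, add_zero]
    · rw [← Finset.sum_add_distrib]
      refine Finset.sum_congr rfl fun l _ => ?_
      rw [Pi.add_apply, add_smul]
  | smul r x _ hx =>
    obtain ⟨c, hc, rfl⟩ := hx
    refine ⟨r • c, fun l hl => ?_, ?_⟩
    · rw [Pi.smul_apply, hc l hl, smul_zero]
    · rw [Finset.smul_sum]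
      refine Finset.sum_congr rfl fun l _ => ?_
      rw [Pi.smul_apply, smul_eq_mul, mul_smul]

/-- the multilinear forms vanish on the part of nonpositive weight -/
theorem vanish_lvl {ι : Type} {m : ι → ℕ}
    {T : (i : ι) → MultilinearMap K (fun _ : Fin (m i) => V) K} {f : Fin n → V} {w : Fin n → ℝ}
    {μ : ℝ} (hμ : 0 < μ) (h : WtBasis T f w μ) (i : ι) (D : Fin (m i) → V)
    (hD : ∀ j, D j ∈ lvl K f w 0) : T i D = 0 := by
  classical
  choose c hc hc' using fun j => lvl_coord (hD j)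
  have h1 : D = fun j => ∑ l, c j l • f l := funext hc'
  rw [h1, MultilinearMap.map_sum]
  refine Finset.sum_eq_zero fun I _ => ?_
  rw [MultilinearMap.map_smul_univ, smul_eq_mul]
  by_cases hI : ∀ s, w (I s) ≤ 0
  · rw [h.2.2.2 i I (lt_of_le_of_lt (Finset.sum_nonpos fun s _ => hI s) hμ), mul_zero]
  · push Not at hI
    obtain ⟨s, hs⟩ := hI
    rw [Finset.prod_eq_zero (Finset.mem_univ s) (hc s (I s) (not_le.2 hs)), zero_mul]

theorem lvl_ne_bot {f : Fin n → V} {w : Fin n → ℝ} (hn1 : 1 ≤ n) (hf : LinearIndependent K f)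
    (hw : ∑ j, w j = 0) : lvl K f w 0 ≠ ⊥ := by
  intro hbot
  have h1 : ∀ j, 0 < w j := by
    intro j
    by_contra hj
    have h2 : f j ∈ lvl K f w 0 := Submodule.subset_span ⟨j, not_lt.1 hj, rfl⟩
    rw [hbot, Submodule.mem_bot] at h2
    exact hf.ne_zero j h2
  have h2 : 0 < ∑ j, w j :=
    Finset.sum_pos (fun j _ => h1 j) ⟨⟨0, hn1⟩, Finset.mem_univ _⟩
  exact h2.ne' hw

theorem lvl_ne_top {f : Fin n → V} {w : Fin n → ℝ} (hf : LinearIndependent K f)
    (hw : ∑ j, w j = 0) (hw2 : ∑ j, w j ^ 2 = 1) : lvl K f w 0 ≠ ⊤ := by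
  classical
  intro htop
  obtain ⟨j, hj⟩ : ∃ j, 0 < w j := by
    by_contra hcon
    push Not at hcon
    have h1 : ∀ j, w j = 0 := fun j =>
      (Finset.sum_eq_zero_iff_of_nonpos fun i _ => hcon i).1 hw j (Finset.mem_univ j)
    simp [h1] at hw2
  have h1 : f j ∈ lvl K f w 0 := htop ▸ Submodule.mem_top
  obtain ⟨c, hc, hc'⟩ := lvl_coord h1
  have h2 : ∑ l, (c l - if l = j then 1 else 0) • f l = 0 := by
    simp only [sub_smul, Finset.sum_sub_distrib, ite_smul, one_smul, zero_smul,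
      Finset.sum_ite_eq', Finset.mem_univ, if_true]
    rw [← hc', sub_self]
  have h3 := Fintype.linearIndependent_iff.1 hf _ h2 j
  rw [hc j (not_le.2 hj), if_pos rfl] at h3
  norm_num at h3

end

section

variable {K : Type} [Field K] [Algebra ℂ K] {n : ℕ}

theorem pushD_add (φ : K ≃ₐ[ℂ] K) (D D' : Derivation ℂ K K) :
    pushD φ (D + D') = pushD φ D + pushD φ D' := by
  ext x
  simp [pushD_apply]

theorem pushD_smul (φ : K ≃ₐ[ℂ] K) (c : K) (D : Derivation ℂ K K) :
    pushD φ (c • D) = φ c • pushD φ D := by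
  ext x
  simp [pushD_apply]

theorem pushD_zero (φ : K ≃ₐ[ℂ] K) : pushD φ (0 : Derivation ℂ K K) = 0 := by
  ext x
  simp [pushD_apply]

theorem pushD_symm' (φ : K ≃ₐ[ℂ] K) (D : Derivation ℂ K K) :
    pushD φ (pushD φ.symm D) = D := by
  ext x
  simp [pushD_apply]

theorem pushD_update {m : ℕ} [DecidableEq (Fin m)] (φ : K ≃ₐ[ℂ] K)
    (D : Fin m → Derivation ℂ K K) (j : Fin m) (x : Derivation ℂ K K) :
    (fun s => pushD φ (Function.update D j x s)) =
      Function.update (fun s => pushD φ (D s)) j (pushD φ x) := by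
  funext s
  by_cases h : s = j
  · subst h
    simp
  · simp [Function.update_of_ne h]

/-- the pull-back of a tensor under an automorphism -/
noncomputable def pullT {m : ℕ} (φ : K ≃ₐ[ℂ] K)
    (T : MultilinearMap K (fun _ : Fin m => Derivation ℂ K K) K) :
    MultilinearMap K (fun _ : Fin m => Derivation ℂ K K) K where
  toFun D := φ.symm (T fun s => pushD φ (D s))
  map_update_add' D j x y := by
    rw [pushD_update, pushD_update, pushD_update, pushD_add, MultilinearMap.map_update_add, map_add]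
  map_update_smul' D j c x := by
    rw [pushD_update, pushD_update, pushD_smul, MultilinearMap.map_update_smul, smul_eq_mul,
      map_mul, AlgEquiv.symm_apply_apply, smul_eq_mul]

theorem pullT_apply {m : ℕ} (φ : K ≃ₐ[ℂ] K)
    (T : MultilinearMap K (fun _ : Fin m => Derivation ℂ K K) K)
    (D : Fin m → Derivation ℂ K K) :
    pullT φ T D = φ.symm (T fun s => pushD φ (D s)) := rfl

theorem divisorial_pullPl (φ : K ≃ₐ[ℂ] K) {v : Place ℂ K} (hv : IsDivisorial v n) :
    IsDivisorial (pullPl φ v) n := by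
  obtain ⟨y, hy⟩ := hv
  refine ⟨fun j => φ.symm (y j), fun p hp => ?_⟩
  have h1 : aeval (fun j => φ.symm (y j)) p = φ.symm (aeval y p) :=
    (MvPolynomial.comp_aeval_apply (φ := (φ.symm : K →ₐ[ℂ] K)) y p).symm
  obtain ⟨h2, h3⟩ := hy p hp
  rw [h1]
  refine ⟨(map_ne_zero_iff _ φ.symm.injective).2 h2, ?_⟩
  change v.ord (φ (φ.symm (aeval y p))) = 0
  rw [AlgEquiv.apply_symm_apply]
  exact h3

/-- the pull-back of a section is a section -/
theorem tensorOrb_pullT {δ : Place ℂ K → ℝ} (φ : K ≃ₐ[ℂ] K) (hφ : ∀ v, δ (pullPl φ v) = δ v)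
    {m : ℕ} {T : MultilinearMap K (fun _ : Fin m => Derivation ℂ K K) K}
    (hT : TensorOrb n δ T) : TensorOrb n δ (pullT φ T) := by
  intro v hv D S hD hS
  have hord : ∀ x, (pullPl φ.symm v).ord x = v.ord (φ.symm x) := fun x => rfl
  have hδ : δ (pullPl φ.symm v) = δ v := by
    rw [← hφ (pullPl φ.symm v)]
    congr 1
    ext x
    change v.ord (φ.symm (φ x)) = v.ord x
    rw [AlgEquiv.symm_apply_apply]
  have h1 := hT (pullPl φ.symm v) (divisorial_pullPl φ.symm hv) (fun s => pushD φ (D s)) S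
    (fun j f hf => by
      rw [reg_pullPl] at hf ⊢
      rw [pushD_apply, AlgEquiv.symm_apply_apply]
      exact hD j _ hf)
    (fun j hj f => by
      rw [reg_pullPl, pushD_apply, map_div₀, AlgEquiv.symm_apply_apply]
      exact hS j hj _)
  rw [hord, hδ] at h1
  rcases h1 with h1 | h1
  · left
    rw [pullT_apply, h1, map_zero]
  · right
    exact h1

/-- the family of the images of independent vector fields is independent -/
theorem indep_pushD (φ : K ≃ₐ[ℂ] K) {f : Fin n → Derivation ℂ K K}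
    (hf : LinearIndependent K f) : LinearIndependent K (fun j => pushD φ (f j)) := by
  rw [Fintype.linearIndependent_iff] at hf ⊢
  intro c hc i
  let Ψ : Derivation ℂ K K →+ Derivation ℂ K K :=
    { toFun := pushD φ.symm
      map_zero' := pushD_zero _
      map_add' := pushD_add _ }
  have h1 := congrArg Ψ hc
  rw [map_sum, map_zero] at h1
  have h2 : ∑ j, (φ.symm (c j)) • f j = 0 := by
    rw [← h1]
    refine Finset.sum_congr rfl fun j _ => ?_
    change _ = pushD φ.symm (c j • pushD φ (f j))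
    rw [pushD_smul, pushD_symm]
  have h3 := hf _ h2 i
  exact (map_eq_zero _).1 h3

theorem mem_push_lvl (φ : K ≃ₐ[ℂ] K) {f : Fin n → Derivation ℂ K K} {w : Fin n → ℝ} {a : ℝ}
    {D : Derivation ℂ K K} (hD : D ∈ lvl K f w a) :
    pushD φ D ∈ lvl K (fun j => pushD φ (f j)) w a := by
  unfold lvl at hD
  induction hD using Submodule.span_induction with
  | mem x hx =>
    obtain ⟨j, hj, rfl⟩ := hx
    exact Submodule.subset_span ⟨j, hj, rfl⟩
  | zero =>
    rw [pushD_zero]
    exact Submodule.zero_mem _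
  | add x y _ _ hx hy =>
    rw [pushD_add]
    exact Submodule.add_mem _ hx hy
  | smul r x _ hx =>
    rw [pushD_smul]
    exact Submodule.smul_mem _ _ hx

/-- **The invariant distribution.** -/
theorem tb_inv (hess : Algebra.EssFiniteType ℂ K) (hn : Algebra.trdeg ℂ K = n) (hn1 : 1 ≤ n)
    (δ : Place ℂ K → ℝ) (hκ : ¬ PairKod ℂ K n δ 0) (M : ℕ)
    (hM : ∃ m, 1 ≤ m ∧ m ≤ M ∧ ∃ T : MultilinearMap K (fun _ : Fin m => Derivation ℂ K K) K,
      TensorOrb n δ T ∧ T ≠ 0) :
    ∃ F : Submodule K (Derivation ℂ K K), F ≠ ⊥ ∧ F ≠ ⊤ ∧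
      (∀ φ : K ≃ₐ[ℂ] K, (∀ v, δ (pullPl φ v) = δ v) → ∀ D, pushD φ D ∈ F ↔ D ∈ F) ∧
      ∀ m, 1 ≤ m → m ≤ M → ∀ T : MultilinearMap K (fun _ : Fin m => Derivation ℂ K K) K,
        TensorOrb n δ T → ∀ D : Fin m → Derivation ℂ K K, (∀ j, D j ∈ F) → T D = 0 := by
  classical
  have hcz : CharZero K := charZero_of_injective_algebraMap (algebraMap ℂ K).injective
  obtain ⟨E, hE, hs⟩ := exists_frame hn
  have hfin : Module.Finite K (Derivation ℂ K K) :=
    ⟨⟨Finset.univ.image E, by rw [Finset.coe_image, Finset.coe_univ, Set.image_univ, hs]⟩⟩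
  -- finitely many tensors
  have hex : ∀ d : ℕ, ∃ b : Set (MultilinearMap K (fun _ : Fin d => Derivation ℂ K K) K),
      b ⊆ {T | TensorOrb n δ T} ∧ b.Finite ∧
        ∀ T, TensorOrb n δ T → T ∈ Submodule.span K b := by
    intro d
    obtain ⟨b, hb1, hb2, hb3⟩ := exists_linearIndependent K
      {T : MultilinearMap K (fun _ : Fin d => Derivation ℂ K K) K | TensorOrb n δ T}
    refine ⟨b, hb1, hb3.setFinite, ?_⟩
    rw [hb2]
    exact fun T hT => Submodule.subset_span hT
  choose b hb1 hb2 hb3 using hex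
  have hbf : ∀ d, Finite (b d) := fun d => (hb2 d).to_subtype
  let ι : Type := (i : Fin M) × b ((i : ℕ) + 1)
  let deg : ι → ℕ := fun i => (i.1 : ℕ) + 1
  let T : (i : ι) → MultilinearMap K (fun _ : Fin (deg i) => Derivation ℂ K K) K :=
    fun i => (i.2 : MultilinearMap K (fun _ : Fin ((i.1 : ℕ) + 1) => Derivation ℂ K K) K)
  have hT : ∀ i, TensorOrb n δ (T i) := fun i => hb1 _ i.2.2
  have hT0 : ∃ i, T i ≠ 0 := by
    by_contra hcon
    push Not at hcon
    obtain ⟨m, hm1, hmM, T0, hT0, hne⟩ := hM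
    obtain ⟨m', rfl⟩ : ∃ m', m = m' + 1 := ⟨m - 1, by omega⟩
    apply hne
    have h1 : T0 ∈ Submodule.span K (b (m' + 1)) := hb3 _ _ hT0
    have h2 : Submodule.span K (b (m' + 1)) = ⊥ := by
      rw [Submodule.span_eq_bot]
      intro T' hT'
      exact hcon ⟨⟨m', by omega⟩, ⟨T', hT'⟩⟩
    rw [h2, Submodule.mem_bot] at h1
    exact h1
  -- the semi-invariants vanish
  have hnull := alg_null (k := ℂ) t_sep' t_hm' hn1 (m := deg) (fun i => Nat.succ_pos _)
    (t := mapF (L := AlgebraicClosure K) (co T E)) (fun W Q hW hQ => by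
      by_contra h0
      apply hκ
      have h1 := t_sec ℂ K hess n hn1 hn δ ι deg T hT W Q hQ hW
      have h2 : aeval (fun x : Ix deg n => T x.1 (fun s => E (x.2 s))) Q ≠ 0 := by
        intro h
        apply h0
        have h3 := aeval_algebraMap_apply (AlgebraicClosure K)
          (fun x : Ix deg n => T x.1 (fun s => E (x.2 s))) Q
        rw [h, map_zero] at h3
        exact h3
      refine ⟨W, hW, fun _ => _, fun _ => h1, E, fun _ => h2, ?_⟩
      exact algebraicIndependent_empty_type_iff.2 (algebraMap ℂ K).injective)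
  obtain ⟨f, w, μ, hμ, hwt, huniq⟩ := canon hE hs T hT0 hnull
  -- the family of the images is another optimal basis
  have himg : ∀ φ : K ≃ₐ[ℂ] K, (∀ v, δ (pullPl φ v) = δ v) →
      lvl K (fun j => pushD φ (f j)) w 0 = lvl K f w 0 := by
    intro φ hφ
    refine (huniq (fun j => pushD φ (f j)) w μ ⟨indep_pushD φ hwt.1, hwt.2.1, hwt.2.2.1,
      fun i J hJ => ?_⟩).2 rfl 0
    have h1 : TensorOrb n δ (pullT φ (T i)) := tensorOrb_pullT φ hφ (hT i)
    have h2 : pullT φ (T i) ∈ Submodule.span K (b ((i.1 : ℕ) + 1)) := hb3 _ _ h1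
    have h3 : ∀ T' ∈ Submodule.span K (b ((i.1 : ℕ) + 1)), T' (fun s => f (J s)) = 0 := by
      intro T' hT'
      induction hT' using Submodule.span_induction with
      | mem x hx => exact hwt.2.2.2 ⟨i.1, ⟨x, hx⟩⟩ J hJ
      | zero => rfl
      | add x y _ _ hx hy => rw [MultilinearMap.add_apply, hx, hy, add_zero]
      | smul r x _ hx => rw [MultilinearMap.smul_apply, hx, smul_zero]
    have h4 := h3 _ h2
    rw [pullT_apply] at h4
    exact (map_eq_zero _).1 h4
  refine ⟨lvl K f w 0, lvl_ne_bot hn1 hwt.1 hwt.2.1, lvl_ne_top hwt.1 hwt.2.1 hwt.2.2.1, ?_, ?_⟩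
  · have hfwd : ∀ φ : K ≃ₐ[ℂ] K, (∀ v, δ (pullPl φ v) = δ v) → ∀ D, D ∈ lvl K f w 0 →
        pushD φ D ∈ lvl K f w 0 := by
      intro φ hφ D hD
      rw [← himg φ hφ]
      exact mem_push_lvl φ hD
    intro φ hφ D
    refine ⟨fun h => ?_, hfwd φ hφ D⟩
    have h1 := hfwd φ.symm (fun v => by
      rw [← hφ (pullPl φ.symm v)]
      congr 1
      ext x
      change v.ord (φ.symm (φ x)) = v.ord x
      rw [AlgEquiv.symm_apply_apply]) _ h
    rwa [pushD_symm] at h1
  · intro m hm1 hmM T0 hT0 D hD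
    obtain ⟨m', rfl⟩ : ∃ m', m = m' + 1 := ⟨m - 1, by omega⟩
    have h1 : T0 ∈ Submodule.span K (b (m' + 1)) := hb3 _ _ hT0
    have h3 : ∀ T' ∈ Submodule.span K (b (m' + 1)), T' D = 0 := by
      intro T' hT'
      induction hT' using Submodule.span_induction with
      | mem x hx => exact vanish_lvl hμ hwt ⟨⟨m', by omega⟩, ⟨x, hx⟩⟩ D hD
      | zero => rfl
      | add x y _ _ hx hy => rw [MultilinearMap.add_apply, hx, hy, add_zero]
      | smul r x _ hx => rw [MultilinearMap.smul_apply, hx, smul_zero]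
    exact h3 _ h1

end

end Pool.Agent.N133.TB
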