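import Pool.Agent.N133.TB.Stm4
import Pool.Agent.N133.TB.Kempf

/-!
Project TB, KEMPFC: the optimal filtration with thresholds is defined over the base field.
-/

set_option autoImplicit false
set_option linter.overlappingInstances false
set_option linter.unusedSectionVars false

open MvPolynomial

namespace Pool.Agent.N133.TB

namespace Kempfc

section

variable {ι : Type} {n : ℕ}

/-- an adapted basis has the same weights -/
theorem wtGeC_adapted {m : ι → ℕ} {L : Type} [Field L] {c : ι → ℝ} {t : Fam m n L}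
    {A B : Matrix (Fin n) (Fin n) L} {w : Fin n → ℝ} {μ : ℝ} (h : WtGeC c t A w μ)
    (hB : ∀ j, B j ∈ Filt A w (w j)) : WtGeC c t B w μ := by
  choose C hC hC' using fun j => Kempf.coord (hB j)
  have hBC : B = Matrix.of C * A := by
    ext j k
    rw [Matrix.mul_apply]
    have h1 := congrFun (hC' j) k
    rw [Finset.sum_apply] at h1
    rw [h1]
    rfl
  intro i J hJ
  rw [hBC, act_mul]
  show ∑ I : Fin (m i) → Fin n, (∏ s, C (J s) (I s)) * act A t i I = 0
  refine Finset.sum_eq_zero fun I _ => ?_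
  by_cases hI : ∀ s, w (I s) ≤ w (J s)
  · rw [h i I (lt_of_le_of_lt (Finset.sum_le_sum fun s _ => hI s) hJ), mul_zero]
  · push Not at hI
    obtain ⟨s, hs⟩ := hI
    rw [Finset.prod_eq_zero (Finset.mem_univ s) (hC (J s) (I s) (not_le.2 hs)), zero_mul]

end

end Kempfc

open Pool.Agent.N133.TB.Kempf Pool.Agent.N133.TB.Kempfc in
theorem t_kempfc : S_OPTC → S_UNIQC → S_GAL → S_KEMPFC := by
  intro hOPT hUNIQ hGAL K L _ _ _ _ _ ι _ m n t c hc ht hun
  have hT : ∃ i, 0 < c i ∧ (mapF t : Fam m n L) i ≠ 0 := by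
    obtain ⟨i, hi, hti⟩ := ht
    refine ⟨i, hi, fun h => hti ?_⟩
    funext J
    have h1 := congrFun h J
    exact (algebraMap K L).injective (h1.trans (map_zero _).symm)
  obtain ⟨A, w, μ, hμ, hopt⟩ := hOPT L ι m n (mapF t) c hc hT hun
  -- conjugates
  have hσ : ∀ σ : L ≃ₐ[K] L, OptimalC c (mapF t : Fam m n L) (A.map σ) w μ := by
    intro σ
    obtain ⟨h1, h2, h3, h4, h5⟩ := hopt
    refine ⟨?_, h2, h3, fun i J hJ => ?_, h5⟩
    · have h6 : (A.map σ).det = σ A.det := by
        have := (RingHom.map_det (σ : L →+* L) A).symm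
        exact this
      rw [h6]
      exact (map_ne_zero σ).2 h1
    · rw [act_map, h4 i J hJ, map_zero]
  have hst : ∀ (a : ℝ) (σ : L ≃ₐ[K] L), ∀ v ∈ Filt A w a, (fun j => σ (v j)) ∈ Filt A w a := by
    intro a σ v hv
    have h1 := filt_map σ A w a hv
    rwa [← hUNIQ L ι m n (mapF t) c hc hT A (A.map σ) w w μ hμ hopt (hσ σ) a] at h1
  have hV := fun a => hGAL K L n (Filt A w a) (hst a)
  obtain ⟨b, hb1, hb2⟩ := exists_basis A w hopt.1 hV Finset.univ
  obtain ⟨h1, h2, h3, h4, h5⟩ := hopt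
  refine ⟨Matrix.of b, w, μ, hμ, ?_, h2, h3, ?_, h5⟩
  · have hb3 : LinearIndependent K b := by
      rw [Finset.coe_univ] at hb2
      exact linearIndepOn_univ_iff.1 hb2
    have hb4 : IsUnit (Matrix.of b) := Matrix.linearIndependent_rows_iff_isUnit.1 hb3
    have hb5 : (Matrix.of b).det ≠ 0 :=
      isUnit_iff_ne_zero.1 ((Matrix.isUnit_iff_isUnit_det _).1 hb4)
    have h6 : ((Matrix.of b).map (algebraMap K L)).det = algebraMap K L (Matrix.of b).det :=
      (RingHom.map_det (algebraMap K L) (Matrix.of b)).symm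
    rw [h6]
    exact (map_ne_zero (algebraMap K L)).2 hb5
  · exact wtGeC_adapted h4 fun j => hb1 j (Finset.mem_univ j)

end Pool.Agent.N133.TB
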