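import Pool.Agent.N133.TB.Alg
import Pool.Agent.N133.OB15

/-!
Project TB: tensor differentials of pairs.
-/

set_option autoImplicit false
set_option linter.overlappingInstances false
set_option linter.unusedSectionVars false

open MvPolynomial FF Pool.Agent.W602.GT Pool.Agent.W603.LV Pool.Agent.W619.PQ Pool.Agent.Y172
  Pool.Agent.Y191 Pool.Agent.Y174 Pool.Agent.N133.OB

namespace Pool.Agent.N133.TB

/-- the pluricanonical form of a semi-invariant, at one place -/
def S_AT : Prop :=
  ∀ (k K : Type) [Field k] [Field K] [Algebra k K] [CharZero k], Algebra.EssFiniteType k K →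
    ∀ (n : ℕ) (_ : 1 ≤ n) (_ : Algebra.trdeg k K = n) (ι : Type) [Finite ι]
      (m : ι → ℕ) (T : (i : ι) → MultilinearMap K (fun _ : Fin (m i) => Derivation k K K) K)
      (W : ℕ) (Q : MvPolynomial (Ix m n) k), SemiInv k m n W Q → 1 ≤ W →
      IsPluriForm k K n W (fun D => aeval (fun x : Ix m n => T x.1 (fun s => D (x.2 s))) Q) ∧
      ∀ v : Place k K, IsDivisorial v n → ∀ c : ℝ,
        (∀ (i : ι) (D : Fin (m i) → Derivation k K K) (S : Finset (Fin (m i))),
          (∀ j f, v.Reg f → v.Reg (D j f)) → (∀ j, j ∉ S → ∀ f, v.Reg (D j f / f)) →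
            T i D = 0 ∨ -(S.card * c) ≤ (v.ord (T i D) : ℝ)) →
        ∀ D : Fin n → Derivation k K K, (∀ j f, v.Reg f → v.Reg (D j f)) →
          aeval (fun x : Ix m n => T x.1 (fun s => D (x.2 s))) Q = 0 ∨
            -(W * c) ≤ (v.ord (aeval (fun x : Ix m n => T x.1 (fun s => D (x.2 s))) Q) : ℝ)

section

variable {K : Type} [Field K] [Algebra ℂ K] {n N : ℕ} {y : Fin (N + 1) → K}

/-- `T` is a (reflexive) tensor differential of the pair `(X, Δ)`: along each prime divisor `P` of
`X`, if the vector fields `D j` are regular along `P` and, for `j` not in `S`, tangent to `P`, then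
`T D` has order at least `- |S| Δ P` along `P`. -/
def IsTensor (y : Fin (N + 1) → K) (Δ : Place ℂ K → ℚ) {m : ℕ}
    (T : MultilinearMap K (fun _ : Fin m => Derivation ℂ K K) K) : Prop :=
  ∀ P, IsPrimeDivisor y P → ∀ (D : Fin m → Derivation ℂ K K) (S : Finset (Fin m)),
    (∀ j, DerReg P (D j)) → (∀ j, j ∉ S → DerLog P (D j)) →
      T D = 0 ∨ -(S.card * Δ P) ≤ (P.ord (T D) : ℚ)

variable {ι : Type} {m : ι → ℕ}

/-- the coefficients of the tensor differentials for the vector fields `E j`, as elements of an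
algebraic closure of the function field -/
noncomputable def coef (T : (i : ι) → MultilinearMap K (fun _ : Fin (m i) => Derivation ℂ K K) K)
    (E : Fin n → Derivation ℂ K K) : Fam m n (AlgebraicClosure K) :=
  fun i J => algebraMap K (AlgebraicClosure K) (T i fun s => E (J s))

theorem aeval_coef (T : (i : ι) → MultilinearMap K (fun _ : Fin (m i) => Derivation ℂ K K) K)
    (E : Fin n → Derivation ℂ K K) (Q : MvPolynomial (Ix m n) ℂ) :
    aeval (pt (coef T E)) Q = algebraMap K (AlgebraicClosure K)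
      (aeval (fun x : Ix m n => T x.1 (fun s => E (x.2 s))) Q) :=
  aeval_algebraMap_apply (AlgebraicClosure K) (fun x : Ix m n => T x.1 (fun s => E (x.2 s))) Q

/-- linearly independent vector fields form a frame -/
theorem frame_of_indep (hn : Algebra.trdeg ℂ K = n) {E : Fin n → Derivation ℂ K K}
    (hE : LinearIndependent K E) : IsFrame E := by
  classical
  obtain ⟨x, E0, hx, hE0⟩ := exists_crd hn
  have hfr : ∀ G : Derivation ℂ K K, G = ∑ j, G (x j) • E0 j := fun G =>
    (Pool.Agent.W73.PG.PULL.expand x hx E0 hE0 G).symm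
  have hsp : Submodule.span K (Set.range E0) = ⊤ := by
    rw [eq_top_iff]
    intro G _
    rw [hfr G]
    exact Submodule.sum_mem _ fun j _ => Submodule.smul_mem _ _
      (Submodule.subset_span (Set.mem_range_self j))
  have hfin : Module.Finite K (Derivation ℂ K K) :=
    ⟨⟨Finset.univ.image E0, by rw [Finset.coe_image, Finset.coe_univ, Set.image_univ, hsp]⟩⟩
  have hle : Module.finrank K (Derivation ℂ K K) ≤ n := by
    have h1 := finrank_range_le_card (R := K) (b := E0)
    rw [Set.finrank, hsp, finrank_top, Fintype.card_fin] at h1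
    exact h1
  have hge : n ≤ Module.finrank K (Derivation ℂ K K) := by
    have h1 := hE.fintype_card_le_finrank
    rwa [Fintype.card_fin] at h1
  have htop := hE.span_eq_top_of_card_eq_finrank' (by rw [Fintype.card_fin]; omega)
  intro G
  have h2 : G ∈ Submodule.span K (Set.range E) := htop ▸ Submodule.mem_top
  obtain ⟨a, ha⟩ := (Submodule.mem_span_range_iff_exists_fun K).1 h2
  exact ⟨a, ha.symm⟩

/-- the semi-invariants of the tensor differentials are sections -/
theorem sec_of (hAT : S_AT) (hy : NormalModel y) (hn : Algebra.trdeg ℂ K = n) (hn1 : 1 ≤ n)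
    {Δ : Place ℂ K → ℚ} [Finite ι]
    {T : (i : ι) → MultilinearMap K (fun _ : Fin (m i) => Derivation ℂ K K) K}
    (hT : ∀ i, IsTensor y Δ (T i)) {W : ℕ} (hW : 1 ≤ W) {Q : MvPolynomial (Ix m n) ℂ}
    (hQ : SemiInv ℂ m n W Q) :
    IsSection y n W (W • Δ) (fun D => aeval (fun x : Ix m n => T x.1 (fun s => D (x.2 s))) Q) := by
  have hess : Algebra.EssFiniteType ℂ K := hy.ess
  obtain ⟨h1, h2⟩ := hAT ℂ K hess n hn1 hn ι m T W Q hQ hW
  refine ⟨h1, fun P hP D hD => ?_⟩
  have h3 := h2 P (hP.divisorial hy hn) (Δ P : ℝ) (fun i D S hD hS => by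
    rcases hT i P hP D S (fun j => hD j) (fun j hj => hS j hj) with h4 | h4
    · exact Or.inl h4
    · right
      exact_mod_cast h4) D hD
  rcases h3 with h3 | h3
  · exact Or.inl h3
  · right
    have e : (W • Δ) P = W * Δ P := by simp [Pi.smul_apply, nsmul_eq_mul]
    rw [e]
    exact_mod_cast h3

theorem act_smul_one {R : Type} [CommRing R] (c : R) (t : Fam m n R) (i : ι)
    (J : Fin (m i) → Fin n) : act (c • (1 : Matrix (Fin n) (Fin n) R)) t i J = c ^ m i * t i J := by
  classical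
  have h1 := congrFun (congrFun (act_one t) i) J
  conv_rhs => rw [← h1]
  simp only [act, Finset.mul_sum]
  refine Finset.sum_congr rfl fun I _ => ?_
  simp only [Matrix.smul_apply, smul_eq_mul, Finset.prod_mul_distrib, Finset.prod_const,
    Finset.card_univ, Fintype.card_fin]
  rw [mul_assoc]

theorem StableFam.act {L : Type} [Field L] {t : Fam m n L} (h : StableFam t)
    {B : Matrix (Fin n) (Fin n) L} (hB : B.det ≠ 0) : StableFam (TB.act B t) := by
  refine ⟨fun h0 => h.1 ?_, fun A hA w hw hJ => ?_⟩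
  · have h1 := act_inv hB t
    rw [h0, act_zero] at h1
    exact h1.symm
  · refine h.2 (A * B) ?_ w hw fun i J hs => ?_
    · rw [Matrix.det_mul]
      exact mul_ne_zero hA hB
    · rw [act_mul]
      exact hJ i J hs

theorem not_null {L : Type} [Field L] {t : Fam m n L} (h : StableFam t)
    {A : Matrix (Fin n) (Fin n) L} {w : Fin n → ℤ} (hA : A.det ≠ 0) (hw : ∑ i, w i = 0)
    (hJ : ∀ i J, ∑ s, w (J s) ≤ 0 → act A t i J = 0) : False := by
  have h1 := h.2 A hA w hw fun i J hs => hJ i J hs.le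
  have h2 : act A t = 0 := by
    funext i J
    refine hJ i J ?_
    rw [h1]
    simp
  have h3 := act_inv hA t
  rw [h2, act_zero] at h3
  exact h.1 h3.symm

/-- **Stable tensor differentials.** -/
theorem tb_main (hSEP : S_SEP) (hHM : S_HM) (hDESC : S_DESC) (hAT : S_AT) (hy : NormalModel y)
    (hn : Algebra.trdeg ℂ K = n) (hn1 : 1 ≤ n) {Δ : Place ℂ K → ℚ} (hΔ : Effective y Δ)
    (hLC : LogCanonical y n Δ) [Finite ι] (hm : ∀ i, 1 ≤ m i)
    {T : (i : ι) → MultilinearMap K (fun _ : Fin (m i) => Derivation ℂ K K) K}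
    (hT : ∀ i, IsTensor y Δ (T i)) {E : Fin n → Derivation ℂ K K} (hE : LinearIndependent K E)
    (hst : StableFam (coef T E)) :
    ∃ κ : ℕ, kodairaDim y n Δ = (κ : WithBot ℕ) ∧
      Algebra.trdeg ℂ (iitakaField y n Δ) = κ ∧ κ ≤ n ∧
      ∃ A : Matrix (Fin n) (Fin n) (AlgebraicClosure K), A.det ≠ 0 ∧
        ∀ i J, IsAlgebraic (iitakaField y n Δ) (act A (coef T E) i J) := by
  classical
  have hfr := frame_of_indep hn hE
  -- a nonzero section
  obtain ⟨W, Q, hW, hQ, hQ0⟩ : ∃ (W : ℕ) (Q : MvPolynomial (Ix m n) ℂ), 1 ≤ W ∧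
      SemiInv ℂ m n W Q ∧ aeval (pt (coef T E)) Q ≠ 0 := by
    by_contra hcon
    push Not at hcon
    obtain ⟨A, w, hA, hw, hJ⟩ := alg_null (k := ℂ) hSEP hHM hn1 hm (t := coef T E) hcon
    exact not_null hst hA hw hJ
  let ω : ∀ (W : ℕ) (Q : MvPolynomial (Ix m n) ℂ), (Fin n → Derivation ℂ K K) → K :=
    fun _ Q D => aeval (fun x : Ix m n => T x.1 (fun s => D (x.2 s))) Q
  have hωsec : ∀ W Q, 1 ≤ W → SemiInv ℂ m n W Q → IsSection y n W (W • Δ) (ω W Q) :=
    fun W Q hW hQ => sec_of hAT hy hn hn1 hT hW hQ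
  have hωE : ∀ W Q, aeval (pt (coef T E)) Q = algebraMap K (AlgebraicClosure K) (ω W Q E) :=
    fun W Q => aeval_coef T E Q
  have hη : ω W Q E ≠ 0 := fun h => hQ0 (by rw [hωE W, h, map_zero])
  have hη0 : ω W Q ≠ 0 := fun h => hη (congrFun h E)
  have hf0 : (1 : K) ∈ Ratio y n Δ := ratio_one hW (hωsec W Q hW hQ) hη0
  -- powers
  have hpow : ∀ (W Q), 1 ≤ W → SemiInv ℂ m n W Q → ∀ l : ℕ, 1 ≤ l →
      IsSection y n (l * W) ((l * W) • Δ) (fun D => ω W Q D ^ l) := by
    intro W Q hW hQ l hl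
    induction l, hl using Nat.le_induction with
    | base =>
      simp only [one_mul, pow_one]
      exact hωsec W Q hW hQ
    | succ l hl ih =>
      have h1 := sec_mul ih (hωsec W Q hW hQ)
      rw [← Nat.succ_mul] at h1
      simp only [pow_succ]
      exact h1
  -- the normalised coefficients
  have hNpos : 0 < n * W := Nat.mul_pos hn1 hW
  obtain ⟨μ, hμ⟩ := IsAlgClosed.exists_pow_nat_eq
    (algebraMap K (AlgebraicClosure K) (ω W Q E))⁻¹ hNpos
  have hh0 : algebraMap K (AlgebraicClosure K) (ω W Q E) ≠ 0 := by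
    rw [← hωE W]
    exact hQ0
  have hμ0 : μ ≠ 0 := by
    rintro rfl
    rw [zero_pow hNpos.ne'] at hμ
    exact inv_ne_zero hh0 hμ.symm
  obtain ⟨M, hM⟩ : ∃ M : Matrix (Fin n) (Fin n) (AlgebraicClosure K), M = μ • 1 := ⟨_, rfl⟩
  have hMdet : M.det = μ ^ n := by
    rw [hM, Matrix.det_smul, Matrix.det_one, mul_one, Fintype.card_fin]
  have hM0 : M.det ≠ 0 := by
    rw [hMdet]
    exact pow_ne_zero _ hμ0
  -- the values of the semi-invariants are algebraic over the Iitaka field
  have hval : ∀ W' Q', SemiInv ℂ m n W' Q' →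
      IsAlgebraic (iitakaField y n Δ) (aeval (pt (act M (coef T E))) Q') := by
    intro W' Q' hQ'
    rcases Nat.eq_zero_or_pos W' with hW' | hW'
    · subst hW'
      have h1 := hQ' (AlgebraicClosure K) (0 : Matrix (Fin n) (Fin n) _) (act M (coef T E))
      rw [zero_act hm, pow_zero, one_mul] at h1
      rw [← h1]
      have h2 : (pt (0 : Fam m n (AlgebraicClosure K))) =
          ⇑(algebraMap ℂ (AlgebraicClosure K)) ∘ (fun _ => (0 : ℂ)) := by
        funext x
        simp [pt]
      rw [h2, aeval_algebraMap_apply]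
      exact (isAlgebraic_algebraMap (R := ℂ) (A := AlgebraicClosure K) _).tower_top _
    · have h1 := hQ' (AlgebraicClosure K) M (coef T E)
      rw [hMdet, hωE W' Q'] at h1
      have h2 : (aeval (pt (act M (coef T E))) Q') ^ W =
          algebraMap K (AlgebraicClosure K) (ω W' Q' E ^ W / ω W Q E ^ W') := by
        have h3 : ((μ ^ n) ^ W') ^ W = ((algebraMap K (AlgebraicClosure K) (ω W Q E)) ^ W')⁻¹ := by
          have e0 : ((μ ^ n) ^ W') ^ W = (μ ^ (n * W)) ^ W' := by ring
          rw [e0, hμ, inv_pow]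
        rw [h1, mul_pow, h3, map_div₀, map_pow, map_pow, div_eq_mul_inv, mul_comm]
      have h3 : ω W' Q' E ^ W / ω W Q E ^ W' ∈ iitakaField y n Δ := by
        refine ratio_mem_iitaka ⟨W' * W, Nat.mul_pos hW' hW, fun D => ω W Q D ^ W', ?_, ?_, ?_⟩
        · exact hpow W Q hW hQ W' hW'
        · intro h
          exact pow_ne_zero W' hη (congrFun h E)
        · have h4 := hpow W' Q' hW' hQ' W hW
          rw [mul_comm W W'] at h4
          have h5 : (fun D => ω W' Q' E ^ W / ω W Q E ^ W' * ω W Q D ^ W') =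
              fun D => ω W' Q' D ^ W := by
            funext D
            choose a ha using fun i => hfr (D i)
            have e1 : (fun i => ∑ j, Matrix.of a i j • E j) = D := by
              funext i
              exact (ha i).symm
            have e2 := (hωsec W Q hW hQ).1 (Matrix.of a) E
            have e3 := (hωsec W' Q' hW' hQ').1 (Matrix.of a) E
            rw [e1] at e2 e3
            rw [e2, e3]
            have e4 : ω W Q E ^ W' ≠ 0 := pow_ne_zero _ hη
            rw [div_mul_eq_mul_div, div_eq_iff e4]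
            ring
          rw [h5]
          exact h4
      have h4 : IsAlgebraic (iitakaField y n Δ) ((aeval (pt (act M (coef T E))) Q') ^ W) := by
        rw [h2]
        exact isAlgebraic_algebraMap (R := iitakaField y n Δ) (A := AlgebraicClosure K)
          (⟨_, h3⟩ : iitakaField y n Δ)
      exact h4.of_pow hW
  -- the field of the algebraic elements
  let F := algebraicClosure (iitakaField y n Δ) (AlgebraicClosure K)
  have htow : IsScalarTower ℂ F (AlgebraicClosure K) := IsScalarTower.of_algebraMap_eq fun x => rfl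
  have hFalg : IsAlgClosed F :=
    (algebraicClosure.isAlgClosure (iitakaField y n Δ) (AlgebraicClosure K)).isAlgClosed
  obtain ⟨x', hx'⟩ := alg_spec hDESC (E := F) (L := AlgebraicClosure K)
    {P | ∃ W' Q', SemiInv ℂ m n W' Q' ∧ P = map (algebraMap ℂ F) Q'}
    (pt (act M (coef T E))) (by
      rintro P ⟨W', Q', hQ', rfl⟩
      refine ⟨⟨aeval (pt (act M (coef T E))) Q', ?_⟩, ?_⟩
      · exact mem_algebraicClosure_iff.2 (hval W' Q' hQ')
      · rw [aeval_map_algebraMap]
        rfl)
  let t₂ : Fam m n (AlgebraicClosure K) := fun i J => algebraMap F (AlgebraicClosure K) (x' ⟨i, J⟩)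
  obtain ⟨A, hA, hAt⟩ := alg_stable (k := ℂ) hSEP hHM hn1 (hst.act hM0) (t₂ := t₂) (by
    intro W' Q' hQ'
    have h1 := hx' _ ⟨W', Q', hQ', rfl⟩
    rw [aeval_map_algebraMap] at h1
    rw [h1, eval_map, ← aeval_def, ← aeval_algebraMap_apply]
    rfl)
  obtain ⟨d, r0, hd, hnd⟩ := iitaka_dim (y := y) hn Δ
  obtain ⟨β, G', hβ, -, hδ0, hdisc, hG'⟩ := exists_delta hy hn hΔ hLC (δ0 := fun _ => 0)
    (fun v => Or.inr ⟨1, le_rfl, by norm_num⟩)
    (fun P hP => by
      have := hΔ.1 P hP
      exact_mod_cast this) (G := ∅) (by simp) (fun v h => absurd rfl h)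
  obtain ⟨h1, -⟩ := kod_main hy hn hΔ hdisc hG' hf0 hd
  refine ⟨d, h1, hd, by omega, A⁻¹ * M, ?_, fun i J => ?_⟩
  · rw [Matrix.det_mul]
    exact mul_ne_zero (inv_det_ne hA) hM0
  · rw [act_mul, hAt, act_inv hA]
    exact mem_algebraicClosure_iff.1 (x' ⟨i, J⟩).2

/-- **Nonvanishing.** -/
theorem tb_null (hSEP : S_SEP) (hHM : S_HM) (hAT : S_AT) (hy : NormalModel y)
    (hn : Algebra.trdeg ℂ K = n) (hn1 : 1 ≤ n) {Δ : Place ℂ K → ℚ} (hΔ : Effective y Δ)
    (hLC : LogCanonical y n Δ) [Finite ι] (hm : ∀ i, 1 ≤ m i)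
    {T : (i : ι) → MultilinearMap K (fun _ : Fin (m i) => Derivation ℂ K K) K}
    (hT : ∀ i, IsTensor y Δ (T i)) (hκ : kodairaDim y n Δ = ⊥) (E : Fin n → Derivation ℂ K K) :
    ∃ (A : Matrix (Fin n) (Fin n) (AlgebraicClosure K)) (w : Fin n → ℤ), A.det ≠ 0 ∧
      ∑ i, w i = 0 ∧ ∀ i J, ∑ s, w (J s) ≤ 0 → act A (coef T E) i J = 0 := by
  classical
  refine alg_null (k := ℂ) hSEP hHM hn1 hm fun W Q hW hQ => ?_
  have h1 := sec_of hAT hy hn hn1 hT hW hQ
  by_contra h0
  have h2 : (fun D : Fin n → Derivation ℂ K K =>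
      aeval (fun x : Ix m n => T x.1 (fun s => D (x.2 s))) Q) ≠ 0 := by
    intro h
    apply h0
    rw [aeval_coef T E Q, congrFun h E]
    exact map_zero _
  have hf0 : (1 : K) ∈ Ratio y n Δ := ratio_one hW h1 h2
  obtain ⟨d, r0, hd, hnd⟩ := iitaka_dim (y := y) hn Δ
  obtain ⟨β, G', hβ, -, hδ0, hdisc, hG'⟩ := exists_delta hy hn hΔ hLC (δ0 := fun _ => 0)
    (fun v => Or.inr ⟨1, le_rfl, by norm_num⟩)
    (fun P hP => by
      have := hΔ.1 P hP
      exact_mod_cast this) (G := ∅) (by simp) (fun v h => absurd rfl h)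
  obtain ⟨h3, -⟩ := kod_main hy hn hΔ hdisc hG' hf0 hd
  rw [hκ] at h3
  exact WithBot.bot_ne_coe h3

end

end Pool.Agent.N133.TB
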