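import Pool.Agent.N133.TB.TwF

/-!
Project TB, fifth part: tensors with values in different divisors. The multigraded components of a
semi-invariant.
-/

set_option autoImplicit false
set_option linter.overlappingInstances false
set_option linter.unusedSectionVars false

open MvPolynomial FF Pool.Agent.W602.GT Pool.Agent.W603.LV Pool.Agent.W619.PQ Pool.Agent.Y172
  Pool.Agent.Y191 Pool.Agent.Y174 Pool.Agent.N133.OB

namespace Pool.Agent.N133.TB

section

variable {ι : Type} {m : ι → ℕ} {n : ℕ}

/-- the multigraded component of degree `d` -/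
noncomputable def mgc {k : Type} [Field k] (d : ι →₀ ℕ) (Q : MvPolynomial (Ix m n) k) :
    MvPolynomial (Ix m n) k :=
  weightedHomogeneousComponent (fun x : Ix m n => Finsupp.single x.1 1) d Q

/-- multigraded polynomials of degree `d` -/
def IsMg {k : Type} [Field k] (d : ι →₀ ℕ) (Q : MvPolynomial (Ix m n) k) : Prop :=
  IsWeightedHomogeneous (fun x : Ix m n => Finsupp.single x.1 1) Q d

theorem mgc_isMg {k : Type} [Field k] (d : ι →₀ ℕ) (Q : MvPolynomial (Ix m n) k) :
    IsMg d (mgc d Q) := weightedHomogeneousComponent_isWeightedHomogeneous d Q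

theorem IsMg.deg {k : Type} [Field k] {d : ι →₀ ℕ} {Q : MvPolynomial (Ix m n) k} (h : IsMg d Q)
    {e : Ix m n →₀ ℕ} (he : e ∈ Q.support) {M : Type} [AddCommMonoid M] (f : ι → M) :
    ∑ x ∈ e.support, e x • f x.1 = d.sum fun i c => c • f i := by
  classical
  have h1 := h (mem_support_iff.1 he)
  rw [Finsupp.weight_apply] at h1
  have h0 : (∑ x ∈ e.support, e x • (Finsupp.single x.1 1 : ι →₀ ℕ)) = d := h1
  rw [← h0]
  have h2 : ∀ g : Ix m n → (ι →₀ ℕ), (∑ x ∈ e.support, g x).sum (fun i c => c • f i) =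
      ∑ x ∈ e.support, (g x).sum fun i c => c • f i := by
    intro g
    exact (Finsupp.sum_finset_sum_index (fun i => zero_smul ℕ (f i))
      (fun i b c => add_smul b c (f i))).symm
  rw [h2]
  refine Finset.sum_congr rfl fun x _ => ?_
  rw [Finsupp.smul_single, smul_eq_mul, mul_one, Finsupp.sum_single_index (zero_smul ℕ (f x.1))]

theorem aeval_mg {k Ω : Type} [Field k] [Field Ω] [Algebra k Ω] (g : ι → Ω) (t : Fam m n Ω)
    {Q : MvPolynomial (Ix m n) k} {d : ι →₀ ℕ} (hQ : IsMg d Q) :
    aeval (pt (fun i J => g i * t i J : Fam m n Ω)) Q =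
      (d.prod fun i c => g i ^ c) * aeval (pt t) Q := by
  classical
  rw [aeval_def, aeval_def, eval₂_eq, eval₂_eq, Finset.mul_sum]
  refine Finset.sum_congr rfl fun e he => ?_
  have h1 := hQ.deg he (M := Additive Ω) (fun i => Additive.ofMul (g i))
  have h2 : ∏ x ∈ e.support, pt (fun i J => g i * t i J : Fam m n Ω) x ^ e x =
      (d.prod fun i c => g i ^ c) * ∏ x ∈ e.support, pt t x ^ e x := by
    have h3 : ∀ x, pt (fun i J => g i * t i J : Fam m n Ω) x ^ e x =
        g x.1 ^ e x * pt t x ^ e x := by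
      intro x
      simp only [pt]
      rw [mul_pow]
    simp only [h3]
    rw [Finset.prod_mul_distrib]
    congr 1
  rw [h2]
  ring

theorem homm [Finite ι] {k : Type} [Field k] [CharZero k] {W : ℕ} {Q : MvPolynomial (Ix m n) k}
    (hQ : SemiInv k m n W Q) (d : ι →₀ ℕ) : SemiInv k m n W (mgc d Q) := by
  classical
  intro L _ _ A t
  have hcL : CharZero L := charZero_of_injective_algebraMap (algebraMap k L).injective
  have hfin : (Function.support fun e => mgc e Q).Finite :=
    weightedHomogeneousComponent_finsupp Q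
  obtain ⟨S, hS⟩ : ∃ S : Finset (ι →₀ ℕ), S = hfin.toFinset := ⟨_, rfl⟩
  have hsum : Q = ∑ e ∈ S, mgc e Q := by
    rw [hS, ← finsum_eq_sum_of_support_subset _ (s := hfin.toFinset) (by simp)]
    exact (sum_weightedHomogeneousComponent _ Q).symm
  have hev : ∀ (c : ι → L) (t : Fam m n L), aeval (pt (fun i J => c i * t i J : Fam m n L)) Q =
      ∑ e ∈ S, (e.prod fun i b => c i ^ b) * aeval (pt t) (mgc e Q) := by
    intro c t
    conv_lhs => rw [hsum]
    rw [map_sum]
    exact Finset.sum_congr rfl fun e _ => aeval_mg c t (mgc_isMg e Q)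
  obtain ⟨p, hp⟩ : ∃ p : MvPolynomial ι L, p = ∑ e ∈ S, monomial e (aeval (pt (act A t))
      (mgc e Q) - A.det ^ W * aeval (pt t) (mgc e Q)) := ⟨_, rfl⟩
  have hp0 : p = 0 := by
    refine MvPolynomial.funext fun c => ?_
    rw [hp, map_sum, map_zero]
    have h1 := hQ L A (fun i J => c i * t i J)
    rw [act_scale, hev, hev, Finset.mul_sum] at h1
    rw [← sub_eq_zero, ← Finset.sum_sub_distrib] at h1
    rw [← h1]
    refine Finset.sum_congr rfl fun e _ => ?_
    rw [eval_monomial]
    ring
  by_cases he : d ∈ S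
  · have h1 : p.coeff d = aeval (pt (act A t)) (mgc d Q) - A.det ^ W * aeval (pt t) (mgc d Q) := by
      rw [hp, coeff_sum, Finset.sum_eq_single d]
      · rw [coeff_monomial, if_pos rfl]
      · intro b _ hb
        rw [coeff_monomial, if_neg hb]
      · intro h
        exact absurd he h
    rw [hp0, coeff_zero] at h1
    exact sub_eq_zero.1 h1.symm
  · have h1 : mgc d Q = 0 := by
      by_contra h
      apply he
      rw [hS, Set.Finite.mem_toFinset]
      exact h
    rw [h1, map_zero, map_zero, mul_zero]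

/-- the degree and the weight of a semi-invariant -/
theorem mg_weight [Finite ι] {k : Type} [Field k] [CharZero k] {W : ℕ}
    {Q : MvPolynomial (Ix m n) k} (hQ : SemiInv k m n W Q) {d : ι →₀ ℕ} (hd : IsMg d Q)
    (hQ0 : Q ≠ 0) : (d.sum fun i c => c * m i) = n * W := by
  classical
  have : Fintype (Ix m n) := Fintype.ofFinite _
  obtain ⟨e, he⟩ := support_nonempty.2 hQ0
  have h1 : ∀ i0 : Fin n, ∑ x, e x * Sec.cnt i0 x = W := fun i0 => Sec.weight i0 hQ he
  have h2 : ∀ x : Ix m n, ∑ i0 : Fin n, Sec.cnt i0 x = m x.1 := by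
    intro x
    unfold Sec.cnt
    rw [← Finset.card_eq_sum_card_fiberwise (f := x.2) (s := Finset.univ) (t := Finset.univ)
      (fun _ _ => Finset.mem_univ _)]
    simp
  have h3 := hd.deg he (M := ℕ) m
  simp only [smul_eq_mul] at h3
  rw [← h3]
  have h4 : ∑ x ∈ e.support, e x * m x.1 = ∑ x, e x * m x.1 :=
    Finset.sum_subset (Finset.subset_univ _) fun x _ hx => by
      rw [Finsupp.notMem_support_iff.1 hx, zero_mul]
  rw [h4]
  have h5 : ∀ x : Ix m n, e x * m x.1 = ∑ i0 : Fin n, e x * Sec.cnt i0 x := by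
    intro x
    rw [← Finset.mul_sum, h2]
  rw [Finset.sum_congr rfl fun x _ => h5 x, Finset.sum_comm,
    Finset.sum_congr rfl fun i0 _ => h1 i0]
  simp

end

end Pool.Agent.N133.TB
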