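import Pool.Agent.N133.TB.MgA

/-!
Project TB, fifth part: tensors with values in different divisors.
-/

set_option autoImplicit false
set_option linter.overlappingInstances false
set_option linter.unusedSectionVars false

open MvPolynomial FF Pool.Agent.W602.GT Pool.Agent.W603.LV Pool.Agent.W619.PQ Pool.Agent.Y172
  Pool.Agent.Y191 Pool.Agent.Y174 Pool.Agent.N133.OB

namespace Pool.Agent.N133.TB

section

open Pool.Agent.W619.PQ Pool.Agent.W619.PL Pool.Agent.W619.TW
  Pool.Agent.W603.LV Pool.Agent.W619.Y Pool.Agent.W824.PG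

variable {k K : Type} [Field k] [Field K] [Algebra k K] {ι : Type} {m : ι → ℕ} {n W : ℕ}

/-- the order of a multigraded semi-invariant of tensors with values in divisors along one prime
divisor -/
theorem secm [CharZero k] [Finite ι] (hess : Algebra.EssFiniteType k K)
    (htr : Algebra.trdeg k K = n) {v : Place k K} (hv : IsDivisorial v n) {c : ℝ} {l : ι → ℝ}
    {T : (i : ι) → MultilinearMap K (fun _ : Fin (m i) => Derivation k K K) K}
    (hT : ∀ i (D : Fin (m i) → Derivation k K K) (S : Finset (Fin (m i))),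
      (∀ j f, v.Reg f → v.Reg (D j f)) → (∀ j, j ∉ S → ∀ f, v.Reg (D j f / f)) →
        T i D = 0 ∨ -(S.card * c + l i) ≤ (v.ord (T i D) : ℝ))
    {Q : MvPolynomial (Ix m n) k} (hQ : SemiInv k m n W Q) {d : ι →₀ ℕ}
    (hQe : IsMg d Q) (D : Fin n → Derivation k K K)
    (hD : ∀ l f, v.Reg f → v.Reg (D l f)) :
    aeval (fun x : Ix m n => T x.1 (fun s => D (x.2 s))) Q = 0 ∨
      -(W * c + d.sum fun i b => b • l i) ≤
        (v.ord (aeval (fun x : Ix m n => T x.1 (fun s => D (x.2 s))) Q) : ℝ) := by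
  classical
  have : Fintype (Ix m n) := Fintype.ofFinite _
  obtain ⟨y, F, i0, hy, hF, ht, hyr, hpres⟩ := Pool.Agent.Y174.pFRAME k K n htr
    (fun y hy => fin_adj hess y hy) v hv
  have ht0 := ne_zero_of_ord ht
  have hlog : ∀ b, b ≠ i0 → ∀ f, v.Reg (F b f / f) := by
    intro b hb
    refine log_of_pres v _ (hpres b) ht0 ht ?_
    rw [hF, if_neg hb, zero_div]
    exact Or.inl rfl
  have h1 : D = fun i => ∑ j, (Matrix.of fun a b => D a (y b)) i j • F j := by
    funext i
    exact (Pool.Agent.W73.PG.PULL.expand y hy F hF (D i)).symm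
  have h2 : GeR v 0 (Matrix.of fun a b => D a (y b)).det := by
    have h3 := Ge.toR (Pool.Agent.W619.PQ.ge_det v (Matrix.of fun a b => D a (y b))
      fun a b => hD a _ (hyr b))
    simpa using h3
  have h3 : GeR v (-(W * c + d.sum fun i b => b • l i))
      (aeval (fun x : Ix m n => T x.1 (fun s => F (x.2 s))) Q) := by
    rw [aeval_def, eval₂_eq']
    refine Pool.Agent.Y174.OB.geR_sum _ _ _ fun μ hμ => ?_
    have hWt := Sec.weight i0 hQ hμ
    have hEt : ∑ x : Ix m n, (μ x : ℝ) * l x.1 = d.sum fun i b => b • l i := by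
      rw [← hQe.deg hμ l]
      rw [← Finset.sum_subset (Finset.subset_univ μ.support) fun x _ hx => by
        rw [Finsupp.notMem_support_iff.1 hx, Nat.cast_zero, zero_mul]]
      exact Finset.sum_congr rfl fun x _ => (nsmul_eq_mul _ _).symm
    have h4 : GeR v (∑ x : Ix m n, (μ x : ℝ) * (-(Sec.cnt i0 x * c + l x.1)))
        (∏ x : Ix m n, T x.1 (fun s => F (x.2 s)) ^ μ x) := by
      refine Pool.Agent.Y174.OB.geR_prod _ _ _ fun x _ => GeR.pow ?_ _
      exact hT x.1 (fun s => F (x.2 s)) (Finset.univ.filter fun s => x.2 s = i0)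
        (fun s f hf => hpres _ f hf) (fun s hs f => hlog _ (fun h => hs (by simp [h])) f)
    have h5 : GeR v 0 (algebraMap k K (coeff μ Q)) := by
      have h6 : Ge v 0 (algebraMap k K (coeff μ Q)) := Ge.const _
      have h7 := Ge.toR h6
      simpa using h7
    refine (h5.mul h4).mono (le_of_eq ?_)
    rw [← hWt, ← hEt, zero_add]
    push_cast
    rw [Finset.sum_mul, ← Finset.sum_add_distrib, ← Finset.sum_neg_distrib]
    refine Finset.sum_congr rfl fun x _ => ?_
    ring
  have h5 : aeval (fun x : Ix m n => T x.1 (fun s => D (x.2 s))) Q =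
      (Matrix.of fun a b => D a (y b)).det ^ W *
        aeval (fun x : Ix m n => T x.1 (fun s => F (x.2 s))) Q := by
    rw [← sec_pluri T hQ (Matrix.of fun a b => D a (y b)) F, ← h1]
  have h6 : GeR v (-(W * c + d.sum fun i b => b • l i))
      (aeval (fun x : Ix m n => T x.1 (fun s => D (x.2 s))) Q) := by
    rw [h5]
    refine ((GeR.pow h2 W).mul h3).mono (le_of_eq ?_)
    ring
  exact h6

end

section

variable {K : Type} [Field K] [Algebra ℂ K] {n N : ℕ} {y : Fin (N + 1) → K}

/-- `ω` is a section of the divisor `W (K_X + Δ) + M` on `X` -/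
def AdjSec (y : Fin (N + 1) → K) (n : ℕ) (Δ M : Place ℂ K → ℚ) (W : ℕ)
    (ω : (Fin n → Derivation ℂ K K) → K) : Prop :=
  IsPluri W ω ∧ ∀ P, IsPrimeDivisor y P → OrdGe P ω (-(W * Δ P + M P))

variable {ι : Type} {m : ι → ℕ}

theorem vl_adj (hy : NormalModel y) (hn : Algebra.trdeg ℂ K = n) (hn1 : 1 ≤ n)
    {Δ : Place ℂ K → ℚ} [Finite ι] {L : ι → Place ℂ K → ℚ}
    {T : (i : ι) → MultilinearMap K (fun _ : Fin (m i) => Derivation ℂ K K) K}
    (hT : ∀ i, IsTensorV y Δ (L i) (T i)) {W : ℕ} {Q : MvPolynomial (Ix m n) ℂ}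
    (hQ : SemiInv ℂ m n W Q) {d : ι →₀ ℕ} (hQd : IsMg d Q) :
    AdjSec y n Δ (d.sum fun i b => b • L i) W (vl T Q) := by
  have hess : Algebra.EssFiniteType ℂ K := hy.ess
  refine ⟨fun A E => sec_pluri T hQ A E, fun P hP D hD => ?_⟩
  have h3 := secm hess hn (hP.divisorial hy hn) (c := (Δ P : ℝ)) (l := fun i => (L i P : ℝ))
    (T := T) (fun i D' S hD' hS => by
      rcases hT i P hP D' S (fun j => hD' j) (fun j hj => hS j hj) with h4 | h4
      · exact Or.inl h4
      · right
        exact_mod_cast h4) hQ hQd D (fun j f hf => hD j f hf)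
  rcases h3 with h3 | h3
  · exact Or.inl h3
  · right
    have h4 : (d.sum fun i b => b • (L i P : ℝ)) =
        (((d.sum fun i b => b • L i) P : ℚ) : ℝ) := by
      rw [Finsupp.sum, Finsupp.sum, Finset.sum_apply]
      push_cast
      refine Finset.sum_congr rfl fun i _ => ?_
      simp
    rw [h4] at h3
    have h6 : ((-((W : ℚ) * Δ P + (d.sum fun i b => b • L i) P) : ℚ) : ℝ) ≤
        ((P.ord (vl T Q D) : ℚ) : ℝ) := by
      push_cast
      exact h3
    exact_mod_cast h6

/-- **Nonvanishing for tensors with values in divisors.** -/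
theorem mg_null (hy : NormalModel y) (hn : Algebra.trdeg ℂ K = n) (hn1 : 1 ≤ n)
    {Δ : Place ℂ K → ℚ} [Finite ι] {L : ι → Place ℂ K → ℚ} {c : ι → ℝ} (hc : ∀ i, 0 ≤ c i)
    {T : (i : ι) → MultilinearMap K (fun _ : Fin (m i) => Derivation ℂ K K) K}
    (hT : ∀ i, IsTensorV y Δ (L i) (T i)) (E : Fin n → Derivation ℂ K K)
    (hκ : ∀ (d : ι →₀ ℕ) (W : ℕ), (d.sum fun i b => b * m i) = n * W → (∃ i, d i ≠ 0 ∧ 0 < c i) →
      ∀ ω, AdjSec y n Δ (d.sum fun i b => b • L i) W ω → ω = 0) :
    NullC c (coef T E) := by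
  classical
  let g : ι → AlgebraicClosure K := fun i => if c i = 0 then 1 else 0
  obtain ⟨t0, ht0⟩ : ∃ t0 : Fam m n (AlgebraicClosure K), t0 = fun i J => g i * coef T E i J :=
    ⟨_, rfl⟩
  have hsame : ∀ (W : ℕ) (Q : MvPolynomial (Ix m n) ℂ), SemiInv ℂ m n W Q →
      aeval (pt (coef T E)) Q = aeval (pt t0) Q := by
    intro W Q hQ
    have h1 : Q = finsum fun e => mgc e Q := (sum_weightedHomogeneousComponent _ Q).symm
    have hfin : (Function.support fun e => mgc e Q).Finite :=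
      weightedHomogeneousComponent_finsupp Q
    have h2 : ∀ e, aeval (pt (coef T E)) (mgc e Q) = aeval (pt t0) (mgc e Q) := by
      intro e
      have hQe := mgc_isMg e Q
      have hQs := homm hQ e
      have h3 := aeval_mg g (coef T E) hQe
      rw [ht0, h3]
      by_cases he : ∃ i, e i ≠ 0 ∧ 0 < c i
      · obtain ⟨i, hi, hci⟩ := he
        have h4 : (e.prod fun i c => g i ^ c) = 0 := by
          refine Finset.prod_eq_zero (Finsupp.mem_support_iff.2 hi) ?_
          have hgi : g i = 0 := if_neg hci.ne'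
          change g i ^ e i = 0
          rw [hgi]
          exact zero_pow hi
        rw [h4, zero_mul]
        by_cases hQ0 : mgc e Q = 0
        · rw [hQ0, map_zero]
        · have h5 := hκ e W (mg_weight hQs hQe hQ0) ⟨i, hi, hci⟩ _ (vl_adj hy hn hn1 hT hQs hQe)
          rw [aeval_coef', congrFun h5 E]
          exact map_zero _
      · push Not at he
        have h4 : (e.prod fun i c => g i ^ c) = 1 := by
          refine Finset.prod_eq_one fun i hi => ?_
          have h5 : c i = 0 := le_antisymm (he i (Finsupp.mem_support_iff.1 hi)) (hc i)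
          have hgi : g i = 1 := if_pos h5
          change g i ^ e i = 1
          rw [hgi, one_pow]
        rw [h4, one_mul]
    rw [h1, finsum_eq_sum_of_support_subset _ (s := hfin.toFinset) (by simp), map_sum, map_sum]
    exact Finset.sum_congr rfl fun e _ => h2 e
  obtain ⟨z, hz1, hz2⟩ := t_sep' ℂ (AlgebraicClosure K) ι m n hn1 (coef T E) t0 hsame
  have hz : ∀ i, c i ≠ 0 → z i = 0 := by
    intro i hi
    funext J
    have h1 := hz2 (X (some ⟨i, J⟩)) (fun A => by
      have h2 : act A t0 i J = 0 := by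
        unfold act
        refine Finset.sum_eq_zero fun I _ => ?_
        have : g i = 0 := if_neg hi
        rw [ht0]
        simp only [this, zero_mul, mul_zero]
      simpa [pto, pt] using h2)
    simpa [pto, pt] using h1
  have hchar : CharZero (AlgebraicClosure K) :=
    charZero_of_injective_algebraMap (algebraMap ℂ (AlgebraicClosure K)).injective
  obtain ⟨A, B, w, hA, hB, hw, hJ, -⟩ := t_hm' (AlgebraicClosure K) ι m n hn1 (coef T E) z hz1
  refine ⟨A, w, hA, hw, fun i J => ⟨(hJ i J).1, fun hc' hs => ?_⟩⟩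
  rcases lt_or_eq_of_le hs with h1 | h1
  · exact (hJ i J).1 h1
  · refine ((hJ i J).2.2 h1).2 ?_
    unfold act
    refine Finset.sum_eq_zero fun I _ => ?_
    rw [hz i hc'.ne', Pi.zero_apply, mul_zero]

/-- **The multigraded nonvanishing theorem.** -/
theorem mg_can (hy : NormalModel y) (hn : Algebra.trdeg ℂ K = n) (hn1 : 1 ≤ n)
    {Δ : Place ℂ K → ℚ} [Fintype ι] {L : ι → Place ℂ K → ℚ} {c : ι → ℝ} (hc : ∀ i, 0 ≤ c i)
    {T : (i : ι) → MultilinearMap K (fun _ : Fin (m i) => Derivation ℂ K K) K}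
    (hT : ∀ i, IsTensorV y Δ (L i) (T i)) (hT0 : ∃ i, 0 < c i ∧ T i ≠ 0) :
    (∃ (d : ι → ℕ) (W : ℕ), (∃ i, d i ≠ 0 ∧ 0 < c i) ∧ ∑ i, d i * m i = n * W ∧
      ∃ ω, ω ≠ 0 ∧ AdjSec y n Δ (∑ i, d i • L i) W ω) ∨
    ∃ (f : Fin n → Derivation ℂ K K) (w : Fin n → ℝ) (μ : ℝ), 0 < μ ∧ WtBasisC c T f w μ ∧
      ∀ (f' : Fin n → Derivation ℂ K K) (w' : Fin n → ℝ) (μ' : ℝ), WtBasisC c T f' w' μ' →
        μ' ≤ μ ∧ (μ' = μ → ∀ b, lvl K f' w' b = lvl K f w b) := by
  classical
  by_cases hκ : ∃ (d : ι → ℕ) (W : ℕ), (∃ i, d i ≠ 0 ∧ 0 < c i) ∧ ∑ i, d i * m i = n * W ∧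
      ∃ ω, ω ≠ 0 ∧ AdjSec y n Δ (∑ i, d i • L i) W ω
  · exact Or.inl hκ
  · right
    obtain ⟨E, hE, hs⟩ := exists_frame hn
    have hcz : CharZero K := charZero_of_injective_algebraMap (algebraMap ℂ K).injective
    refine canonC t_optc u_uniqc u_kempfc hE hs hc T hT0
      (mg_null hy hn hn1 hc hT E fun d W hd hi ω hω => ?_)
    by_contra hω0
    refine hκ ⟨fun i => d i, W, hi, ?_, ω, hω0, ?_⟩
    · rw [← hd, Finsupp.sum_fintype _ _ (fun i => by rw [zero_mul])]
    · have h1 : (∑ i, d i • L i) = d.sum fun i b => b • L i :=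
        (Finsupp.sum_fintype d (fun i b => b • L i) (fun i => zero_smul ℕ (L i))).symm
      rw [h1]
      exact hω

end

end Pool.Agent.N133.TB
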