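import Pool.Agent.N133.TB.TwG

/-!
Project TB: tensors which vanish along a divisor and the Kodaira dimension.
-/

set_option autoImplicit false
set_option linter.overlappingInstances false
set_option linter.unusedSectionVars false

open MvPolynomial FF Pool.Agent.W602.GT Pool.Agent.W603.LV Pool.Agent.W619.PQ Pool.Agent.Y172
  Pool.Agent.Y191 Pool.Agent.Y174 Pool.Agent.N133.OB

namespace Pool.Agent.N133.TB

section

variable {K : Type} [Field K] [Algebra ℂ K] {n N : ℕ} {y : Fin (N + 1) → K}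

theorem FunSec.mul' {L M : Place ℂ K → ℚ} {f g : K} (hf : FunSec y L f)
    (hg : FunSec y M g) : FunSec y (L + M) (f * g) := by
  intro P hP
  by_cases hf0 : f = 0
  · left
    rw [hf0, zero_mul]
  by_cases hg0 : g = 0
  · left
    rw [hg0, mul_zero]
  right
  have h1 := (hf P hP).resolve_left hf0
  have h2 := (hg P hP).resolve_left hg0
  rw [P.ord_mul hf0 hg0, Pi.add_apply]
  push_cast
  linarith

theorem FunSec.pow' {L : Place ℂ K → ℚ} {f : K} (hf : FunSec y L f) (k : ℕ) :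
    FunSec y (k • L) (f ^ k) := by
  induction k with
  | zero =>
    rw [pow_zero]
    exact FunSec.one L
  | succ k ih =>
    rw [pow_succ, succ_nsmul]
    exact ih.mul' hf

/-- a section of `W (K_X + Δ) + M` as a function -/
theorem adj_fun (hn : Algebra.trdeg ℂ K = n) {Δ κ M : Place ℂ K → ℚ}
    {η : (Fin n → Derivation ℂ K K) → K} (hη : IsPluri 1 η)
    (hκ : ∀ P, IsPrimeDivisor y P → OrdEq P η (κ P)) {W : ℕ}
    {ω : (Fin n → Derivation ℂ K K) → K} (hω : AdjSec y n Δ M W ω)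
    {E : Fin n → Derivation ℂ K K} (hE : LinearIndependent K E) :
    FunSec y (W • (κ + Δ) + M) (ω E / η E ^ W) := by
  intro P hP
  obtain ⟨-, D, hD, hD0, hDord⟩ := hκ P hP
  have hfr := frame_of_indep hn hE
  choose A hA using fun i => hfr (D i)
  have e1 : (fun i => ∑ j, Matrix.of A i j • E j) = D := by
    funext i
    exact (hA i).symm
  have e2 := hη (Matrix.of A) E
  have e3 := hω.1 (Matrix.of A) E
  rw [e1, pow_one] at e2
  rw [e1] at e3
  have hdet : (Matrix.of A).det ≠ 0 := fun h => hD0 (by rw [e2, h, zero_mul])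
  have hfq : ω E / η E ^ W = ω D / η D ^ W := by
    rw [e2, e3, mul_pow, mul_div_mul_left _ _ (pow_ne_zero _ hdet)]
  rw [hfq]
  by_cases hv : ω D = 0
  · left
    rw [hv, zero_div]
  · right
    have h3 := (hω.2 P hP D hD).resolve_left hv
    rw [P.ord_div hv (pow_ne_zero _ hD0), P.ord_pow, Pi.add_apply, Pi.smul_apply, nsmul_eq_mul,
      Pi.add_apply]
    push_cast
    rw [hDord]
    linarith

/-- a section of `W D - b A`, `b > 0`: the Iitaka field of `A` is contained in the one of `D` -/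
theorem cp_field {D A : Place ℂ K → ℚ} {W : ℕ} (hW : 1 ≤ W) {b : ℚ} (hb : 0 < b) {φ : K}
    (hφ0 : φ ≠ 0) (hφ : FunSec y (W • D - b • A) φ) :
    ratioField y A ≤ ratioField y D ∧
    ((∃ e : ℕ, 1 ≤ e ∧ ∃ g, g ≠ 0 ∧ FunSec y (e • A) g) →
      ∃ e : ℕ, 1 ≤ e ∧ ∃ g, g ≠ 0 ∧ FunSec y (e • D) g) := by
  obtain ⟨b1, hb1⟩ : ∃ b1 : ℕ, (b1 : ℤ) = b.num :=
    ⟨b.num.toNat, Int.toNat_of_nonneg (Rat.num_pos.2 hb).le⟩
  have hb1p : 1 ≤ b1 := by
    have h1 := Rat.num_pos.2 hb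
    omega
  have hbb : (b.den : ℚ) * b = b1 := by
    have h1 := Rat.num_div_den b
    have h2 : (b.den : ℚ) ≠ 0 := by exact_mod_cast b.den_nz
    have h3 : (b1 : ℚ) = (b.num : ℚ) := by exact_mod_cast hb1
    rw [h3]
    nth_rewrite 2 [← h1]
    field_simp
  have key : ∀ (e : ℕ) (g h : K), FunSec y (e • A) g → FunSec y (e • A) h →
      FunSec y ((e * b.den * W) • D) (h * g ^ (b1 - 1) * φ ^ (e * b.den)) := by
    intro e g h hg hh
    have h1 := (hh.mul' (hg.pow' (b1 - 1))).mul' (hφ.pow' (e * b.den))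
    have h2 : e • A + (b1 - 1) • e • A + (e * b.den) • (W • D - b • A) =
        (e * b.den * W) • D := by
      funext P
      have h3 : ((b1 - 1 : ℕ) : ℚ) = b1 - 1 := by
        rw [Nat.cast_sub hb1p, Nat.cast_one]
      simp only [Pi.add_apply, Pi.smul_apply, Pi.sub_apply]
      simp only [nsmul_eq_mul, smul_eq_mul]
      push_cast
      rw [h3]
      have h4 : (e : ℚ) * A P + ((b1 : ℚ) - 1) * (e * A P) = e * (b1 * A P) := by ring
      rw [h4, ← hbb]
      ring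
    rw [h2] at h1
    exact h1
  have hmul : ∀ e : ℕ, 1 ≤ e → 1 ≤ e * b.den * W := fun e he =>
    Nat.mul_pos (Nat.mul_pos he b.den_pos) hW
  constructor
  · unfold ratioField
    refine IntermediateField.adjoin_le_iff.2 ?_
    rintro f ⟨e, he, g, hg0, hg, hfg⟩
    refine IntermediateField.subset_adjoin _ _ ⟨e * b.den * W, hmul e he,
      g * g ^ (b1 - 1) * φ ^ (e * b.den), ?_, key e g g hg hg, ?_⟩
    · exact mul_ne_zero (mul_ne_zero hg0 (pow_ne_zero _ hg0)) (pow_ne_zero _ hφ0)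
    · have h1 := key e g (f * g) hg hfg
      have h2 : f * g * g ^ (b1 - 1) * φ ^ (e * b.den) =
          f * (g * g ^ (b1 - 1) * φ ^ (e * b.den)) := by ring
      rw [h2] at h1
      exact h1
  · rintro ⟨e, he, g, hg0, hg⟩
    exact ⟨e * b.den * W, hmul e he, g * g ^ (b1 - 1) * φ ^ (e * b.den),
      mul_ne_zero (mul_ne_zero hg0 (pow_ne_zero _ hg0)) (pow_ne_zero _ hφ0), key e g g hg hg⟩

variable {ι : Type} {m : ι → ℕ}

/-- **Tensors which vanish along a divisor.** -/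
theorem cp_main (hy : NormalModel y) (hn : Algebra.trdeg ℂ K = n) (hn1 : 1 ≤ n)
    {Δ A κ : Place ℂ K → ℚ} {η : (Fin n → Derivation ℂ K K) → K} (hη : IsPluri 1 η) (hη0 : η ≠ 0)
    (hκ : ∀ P, IsPrimeDivisor y P → OrdEq P η (κ P)) [Fintype ι] (hm : ∀ i, 1 ≤ m i)
    {a : ι → ℚ} (ha : ∀ i, 0 < a i)
    {T : (i : ι) → MultilinearMap K (fun _ : Fin (m i) => Derivation ℂ K K) K}
    (hT : ∀ i, IsTensorV y Δ (-(a i • A)) (T i)) (hT0 : ∃ i, T i ≠ 0) :
    ((∃ (W : ℕ) (b : ℚ), 1 ≤ W ∧ 0 < b ∧ (∀ s : ℚ, (∀ i, s * m i ≤ a i) → s * (n * W) ≤ b) ∧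
        ∃ φ, φ ≠ 0 ∧ FunSec y (W • (κ + Δ) - b • A) φ) ∧
      ratioField y A ≤ ratioField y (κ + Δ) ∧
      ((∃ e : ℕ, 1 ≤ e ∧ ∃ g, g ≠ 0 ∧ FunSec y (e • A) g) →
        ∃ e : ℕ, 1 ≤ e ∧ ∃ g, g ≠ 0 ∧ FunSec y (e • (κ + Δ)) g)) ∨
    ∃ (f : Fin n → Derivation ℂ K K) (w : Fin n → ℝ) (μ : ℝ), 0 < μ ∧ WtBasis T f w μ ∧
      ∀ (f' : Fin n → Derivation ℂ K K) (w' : Fin n → ℝ) (μ' : ℝ), WtBasis T f' w' μ' →
        μ' ≤ μ ∧ (μ' = μ → ∀ b, lvl K f' w' b = lvl K f w b) := by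
  classical
  obtain ⟨E, hE, hs⟩ := exists_frame hn
  have hηE : η E ≠ 0 := fun h => hη0 (pluri_zero (frame_of_indep hn hE) hη h)
  rcases mg_can hy hn hn1 (c := fun _ => (1 : ℝ)) (fun _ => zero_le_one) hT
    (by obtain ⟨i, hi⟩ := hT0; exact ⟨i, one_pos, hi⟩) with h | h
  · left
    obtain ⟨d, W, ⟨i0, hi0, -⟩, hdW, ω, hω0, hω⟩ := h
    have hωE : ω E ≠ 0 := fun h => hω0 (pluri_zero (frame_of_indep hn hE) hω.1 h)
    have hW : 1 ≤ W := by
      by_contra hcon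
      have hW0 : W = 0 := by omega
      rw [hW0, mul_zero] at hdW
      have h1 := (Finset.sum_eq_zero_iff.1 hdW) i0 (Finset.mem_univ _)
      have h2 := hm i0
      rcases Nat.mul_eq_zero.1 h1 with h3 | h3
      · exact hi0 h3
      · omega
    obtain ⟨b, hbdef⟩ : ∃ b : ℚ, b = ∑ i, d i * a i := ⟨_, rfl⟩
    have hb : 0 < b := by
      rw [hbdef]
      refine Finset.sum_pos' (fun i _ => mul_nonneg (Nat.cast_nonneg _) (ha i).le)
        ⟨i0, Finset.mem_univ _, mul_pos ?_ (ha i0)⟩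
      exact_mod_cast Nat.pos_of_ne_zero hi0
    have hφ : FunSec y (W • (κ + Δ) - b • A) (ω E / η E ^ W) := by
      have h1 := adj_fun hn hη hκ hω hE
      have h2 : (∑ i, d i • (-(a i • A))) = -(b • A) := by
        rw [hbdef, Finset.sum_smul, ← Finset.sum_neg_distrib]
        refine Finset.sum_congr rfl fun i _ => ?_
        funext P
        simp only [Pi.smul_apply, Pi.neg_apply]
        simp only [nsmul_eq_mul, smul_eq_mul]
        ring
      rw [h2, ← sub_eq_add_neg] at h1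
      exact h1
    have hφ0 : ω E / η E ^ W ≠ 0 := div_ne_zero hωE (pow_ne_zero _ hηE)
    obtain ⟨h1, h2⟩ := cp_field hW hb hφ0 hφ
    refine ⟨⟨W, b, hW, hb, fun s hs => ?_, _, hφ0, hφ⟩, h1, h2⟩
    have h3 : (n * W : ℚ) = ∑ i, (d i : ℚ) * m i := by
      have h4 : ((∑ i, d i * m i : ℕ) : ℚ) = ((n * W : ℕ) : ℚ) := by rw [hdW]
      push_cast at h4
      exact h4.symm
    rw [h3, hbdef, Finset.mul_sum]
    refine Finset.sum_le_sum fun i _ => ?_
    have h4 := mul_le_mul_of_nonneg_left (hs i) (Nat.cast_nonneg (α := ℚ) (d i))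
    linarith
  · right
    have hiff : ∀ (f : Fin n → Derivation ℂ K K) (w : Fin n → ℝ) (μ : ℝ),
        WtBasisC (fun _ => (1 : ℝ)) T f w μ ↔ WtBasis T f w μ := by
      intro f w μ
      unfold WtBasisC WtBasis
      simp only [one_mul]
    obtain ⟨f, w, μ, hμ, hwt, hu⟩ := h
    refine ⟨f, w, μ, hμ, (hiff _ _ _).1 hwt, fun f' w' μ' h' => hu f' w' μ' ((hiff _ _ _).2 h')⟩

end

end Pool.Agent.N133.TB
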