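import Pool.Agent.N133.TB.MgC

/-!
Project TB: stable tensors on the cotangent bundle twisted by a divisor.
-/

set_option autoImplicit false
set_option linter.overlappingInstances false
set_option linter.unusedSectionVars false

open MvPolynomial FF Pool.Agent.W602.GT Pool.Agent.W603.LV Pool.Agent.W619.PQ Pool.Agent.Y172
  Pool.Agent.Y191 Pool.Agent.Y174 Pool.Agent.N133.OB

namespace Pool.Agent.N133.TB

section

variable {K : Type} [Field K] [Algebra ℂ K] {n N : ℕ} {y : Fin (N + 1) → K} {ι : Type}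
  {m : ι → ℕ}

/-- a semi-invariant as a section of a multiple of `K_X + Δ + n M` -/
theorem tm_sec (hy : NormalModel y) (hn : Algebra.trdeg ℂ K = n) (hn1 : 1 ≤ n)
    {Δ κ M : Place ℂ K → ℚ} {η : (Fin n → Derivation ℂ K K) → K} (hη : IsPluri 1 η)
    (hκ : ∀ P, IsPrimeDivisor y P → OrdEq P η (κ P)) [Finite ι]
    {T : (i : ι) → MultilinearMap K (fun _ : Fin (m i) => Derivation ℂ K K) K}
    (hT : ∀ i, IsTensorV y Δ (m i • M) (T i)) {W : ℕ} {Q : MvPolynomial (Ix m n) ℂ}
    (hQ : SemiInv ℂ m n W Q) {E : Fin n → Derivation ℂ K K} (hE : LinearIndependent K E) :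
    FunSec y (W • (κ + Δ + n • M)) (vl T Q E / η E ^ W) := by
  classical
  have : Fintype ι := Fintype.ofFinite _
  -- the multigraded components
  have hcomp : ∀ d : ι →₀ ℕ, FunSec y (W • (κ + Δ + n • M)) (vl T (mgc d Q) E / η E ^ W) := by
    intro d
    by_cases hQ0 : mgc d Q = 0
    · intro P _
      left
      unfold vl
      rw [hQ0, map_zero, zero_div]
    · have h1 := adj_fun hn hη hκ (vl_adj hy hn hn1 hT (homm hQ d) (mgc_isMg d Q)) hE
      have h2 := mg_weight (homm hQ d) (mgc_isMg d Q) hQ0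
      have h3 : (d.sum fun i b => b • m i • M) = W • n • M := by
        have h4 : (d.sum fun i b => b • m i • M) = (d.sum fun i b => b * m i) • M := by
          rw [Finsupp.sum, Finsupp.sum, Finset.sum_smul]
          exact Finset.sum_congr rfl fun i _ => (mul_smul _ _ _).symm
        rw [h4, h2, mul_comm, mul_smul]
      rw [h3] at h1
      have h5 : W • (κ + Δ) + W • n • M = W • (κ + Δ + n • M) := (smul_add _ _ _).symm
      rw [h5] at h1
      exact h1
  have hfin : (Function.support fun e => mgc e Q).Finite :=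
    weightedHomogeneousComponent_finsupp Q
  obtain ⟨S, hS⟩ : ∃ S : Finset (ι →₀ ℕ), S = hfin.toFinset := ⟨_, rfl⟩
  have hsum : Q = ∑ e ∈ S, mgc e Q := by
    rw [hS, ← finsum_eq_sum_of_support_subset _ (s := hfin.toFinset) (by simp)]
    exact (sum_weightedHomogeneousComponent _ Q).symm
  have hv : vl T Q E / η E ^ W = ∑ e ∈ S, vl T (mgc e Q) E / η E ^ W := by
    rw [← Finset.sum_div]
    congr 1
    unfold vl
    conv_lhs => rw [hsum]
    rw [map_sum]
  rw [hv]
  -- a sum of sections is a section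
  intro P hP
  have hadd : ∀ S' : Finset (ι →₀ ℕ), (∑ e ∈ S', vl T (mgc e Q) E / η E ^ W) = 0 ∨
      -((W • (κ + Δ + n • M)) P) ≤ (P.ord (∑ e ∈ S', vl T (mgc e Q) E / η E ^ W) : ℚ) := by
    intro S'
    induction S' using Finset.induction_on with
    | empty => exact Or.inl rfl
    | insert e S' he ih =>
      rw [Finset.sum_insert he]
      have h1 := hcomp e P hP
      rcases h1 with h1 | h1
      · rw [h1, zero_add]
        exact ih
      · rcases ih with h2 | h2
        · rw [h2, add_zero]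
          exact Or.inr h1
        · by_cases h0 : vl T (mgc e Q) E / η E ^ W + ∑ e ∈ S', vl T (mgc e Q) E / η E ^ W = 0
          · exact Or.inl h0
          · right
            by_cases ha : vl T (mgc e Q) E / η E ^ W = 0
            · rw [ha, zero_add]
              exact h2
            by_cases hb : (∑ e ∈ S', vl T (mgc e Q) E / η E ^ W) = 0
            · rw [hb, add_zero]
              exact h1
            have h3 := P.ord_add ha hb h0
            have h4 : ((min (P.ord (vl T (mgc e Q) E / η E ^ W))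
                (P.ord (∑ e ∈ S', vl T (mgc e Q) E / η E ^ W)) : ℤ) : ℚ) ≤
                (P.ord (vl T (mgc e Q) E / η E ^ W + ∑ e ∈ S', vl T (mgc e Q) E / η E ^ W) : ℚ) := by
              exact_mod_cast h3
            refine le_trans ?_ h4
            rw [Int.cast_min]
            exact le_min h1 h2
  exact hadd S

/-- **Stable tensors on the twisted cotangent bundle.** -/
theorem tm_stable (hy : NormalModel y) (hn : Algebra.trdeg ℂ K = n) (hn1 : 1 ≤ n)
    {Δ κ M : Place ℂ K → ℚ} {η : (Fin n → Derivation ℂ K K) → K} (hη : IsPluri 1 η) (hη0 : η ≠ 0)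
    (hκ : ∀ P, IsPrimeDivisor y P → OrdEq P η (κ P)) [Finite ι] (hm : ∀ i, 1 ≤ m i)
    {T : (i : ι) → MultilinearMap K (fun _ : Fin (m i) => Derivation ℂ K K) K}
    (hT : ∀ i, IsTensorV y Δ (m i • M) (T i))
    {E : Fin n → Derivation ℂ K K} (hE : LinearIndependent K E)
    (hst : StableFam (coef T E)) :
    (∃ e : ℕ, 1 ≤ e ∧ ∃ f, f ≠ 0 ∧ FunSec y (e • (κ + Δ + n • M)) f) ∧
    ∃ A : Matrix (Fin n) (Fin n) (AlgebraicClosure K), A.det ≠ 0 ∧ ∀ i J,
      IsAlgebraic (ratioField y (κ + Δ + n • M)) (act A (coef T E) i J) := by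
  classical
  obtain ⟨D0, hD0⟩ : ∃ D0, D0 = κ + Δ + n • M := ⟨_, rfl⟩
  have hηE : η E ≠ 0 := fun h => hη0 (pluri_zero (frame_of_indep hn hE) hη h)
  obtain ⟨W1, Q1, hW1, hQ1, hne1⟩ : ∃ (W : ℕ) (Q : MvPolynomial (Ix m n) ℂ), 1 ≤ W ∧
      SemiInv ℂ m n W Q ∧ aeval (pt (coef T E)) Q ≠ 0 := by
    by_contra hcon
    push Not at hcon
    obtain ⟨A, w, hA, hw, hJ⟩ := alg_null (k := ℂ) t_sep' t_hm' hn1 hm (t := coef T E)
      (fun W Q hW hQ => hcon W Q hW hQ)
    exact not_null hst hA hw hJ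
  let am := algebraMap K (AlgebraicClosure K)
  have hvl : ∀ Q, aeval (pt (coef T E)) Q = am (vl T Q E) := fun Q => aeval_coef' T E Q
  have hv0 : vl T Q1 E ≠ 0 := fun h => hne1 (by rw [hvl, h, map_zero])
  obtain ⟨f0, hf0def⟩ : ∃ f0, f0 = vl T Q1 E / η E ^ W1 := ⟨_, rfl⟩
  have hf0 : f0 ≠ 0 := by
    rw [hf0def]
    exact div_ne_zero hv0 (pow_ne_zero _ hηE)
  have hf0s : FunSec y (W1 • D0) f0 := by
    rw [hf0def, hD0]
    exact tm_sec hy hn hn1 hη hκ hT hQ1 hE
  rw [← hD0]
  refine ⟨⟨W1, hW1, f0, hf0, hf0s⟩, ?_⟩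
  -- the normalisation
  have hamη : am (η E) ≠ 0 := (map_ne_zero am).2 hηE
  have hamf : am f0 ≠ 0 := (map_ne_zero am).2 hf0
  obtain ⟨h, hh⟩ := IsAlgClosed.exists_pow_nat_eq (am f0)⁻¹ hW1
  have hh0 : h ≠ 0 := by
    rintro rfl
    rw [zero_pow (by omega)] at hh
    exact inv_ne_zero hamf hh.symm
  obtain ⟨μ, hμ⟩ := IsAlgClosed.exists_pow_nat_eq (h / am (η E)) hn1
  have hμ0 : μ ≠ 0 := by
    rintro rfl
    rw [zero_pow (by omega)] at hμ
    exact div_ne_zero hh0 hamη hμ.symm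
  obtain ⟨A0, hA0⟩ : ∃ A0 : Matrix (Fin n) (Fin n) (AlgebraicClosure K), A0 = μ • 1 := ⟨_, rfl⟩
  have hMdet : A0.det = μ ^ n := by
    rw [hA0, Matrix.det_smul, Matrix.det_one, mul_one, Fintype.card_fin]
  have hMh : A0.det * am (η E) = h := by
    rw [hMdet, hμ]
    field_simp
  have hM0 : A0.det ≠ 0 := by
    rw [hMdet]
    exact pow_ne_zero _ hμ0
  have hst' : StableFam (act A0 (coef T E)) := hst.act hM0
  have hform : ∀ W Q, SemiInv ℂ m n W Q →
      aeval (pt (act A0 (coef T E))) Q = h ^ W * am (vl T Q E / η E ^ W) := by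
    intro W Q hQ
    have h3 := hQ (AlgebraicClosure K) A0 (coef T E)
    rw [hvl] at h3
    rw [h3, map_div₀, map_pow, ← hMh]
    field_simp
    rw [mul_pow]
    ring
  have hval : ∀ W Q, SemiInv ℂ m n W Q →
      IsAlgebraic (ratioField y D0) (aeval (pt (act A0 (coef T E))) Q) := by
    intro W Q hQ
    obtain ⟨φ, hφ⟩ : ∃ φ, φ = vl T Q E / η E ^ W := ⟨_, rfl⟩
    have hφs : FunSec y (W • D0) φ := by
      rw [hφ, hD0]
      exact tm_sec hy hn hn1 hη hκ hT hQ hE
    have h4 : (aeval (pt (act A0 (coef T E))) Q) ^ W1 = am (φ ^ W1 / f0 ^ W) := by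
      have e5 : (h ^ W) ^ W1 = (am f0 ^ W)⁻¹ := by
        rw [← pow_mul, mul_comm W, pow_mul, hh, inv_pow]
      rw [hform W Q hQ, ← hφ, mul_pow, e5, map_div₀, map_pow, map_pow]
      rw [div_eq_mul_inv, mul_comm]
    have h5 : φ ^ W1 / f0 ^ W ∈ ratioField y D0 := by
      refine IntermediateField.subset_adjoin _ _ ⟨(W + 1) * W1,
        Nat.mul_pos (Nat.succ_pos _) hW1, f0 ^ (W + 1), pow_ne_zero _ hf0, hf0s.pow _, ?_⟩
      have h6 : φ ^ W1 / f0 ^ W * f0 ^ (W + 1) = φ ^ W1 * f0 := by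
        rw [pow_succ f0]
        field_simp
      rw [h6]
      have h7 := (hφs.pow W1).mul hf0s
      have h8 : W1 * W + W1 = (W + 1) * W1 := by ring
      rw [h8] at h7
      exact h7
    have h6 : IsAlgebraic (ratioField y D0) ((aeval (pt (act A0 (coef T E))) Q) ^ W1) := by
      rw [h4]
      exact isAlgebraic_algebraMap (R := ratioField y D0) (A := AlgebraicClosure K)
        (⟨_, h5⟩ : ratioField y D0)
    exact h6.of_pow hW1
  obtain ⟨A, hA, hAalg, -⟩ := alg_main3 (k := ℂ) (I := ratioField y D0) hn1 hst' hval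
  refine ⟨A * A0, ?_, fun i J => ?_⟩
  · rw [Matrix.det_mul]
    exact mul_ne_zero hA hM0
  · rw [act_mul]
    exact hAalg i J

end

end Pool.Agent.N133.TB
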