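import Pool.Agent.N133.TB.Can

/-!
Project TB: the canonical filtration of the vector fields on a pair with negative Kodaira dimension.
-/

set_option autoImplicit false
set_option linter.overlappingInstances false
set_option linter.unusedSectionVars false

open MvPolynomial FF Pool.Agent.W602.GT Pool.Agent.W603.LV Pool.Agent.W619.PQ Pool.Agent.Y172
  Pool.Agent.Y191 Pool.Agent.Y174 Pool.Agent.N133.OB

namespace Pool.Agent.N133.TB

section

variable {K : Type} [Field K] [Algebra ℂ K] {n : ℕ}

/-- a frame of vector fields -/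
theorem exists_frame (hn : Algebra.trdeg ℂ K = n) : ∃ E : Fin n → Derivation ℂ K K,
    LinearIndependent K E ∧ Submodule.span K (Set.range E) = ⊤ := by
  classical
  obtain ⟨x, E0, hx, hE0⟩ := exists_crd hn
  have hli : LinearIndependent K E0 := by
    rw [Fintype.linearIndependent_iff]
    intro g hg i
    have h1 := congrArg (fun D : Derivation ℂ K K => D (x i)) hg
    simp only [Derivation.coe_zero, Pi.zero_apply] at h1
    have h2 : (∑ j, g j • E0 j) (x i) = ∑ j, g j * E0 j (x i) := by
      have : (∑ j, g j • E0 j) (x i) = ∑ j, (g j • E0 j) (x i) := by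
        have h3 := congrFun (map_sum (Derivation.coeFnAddMonoidHom (R := ℂ) (A := K) (M := K))
          (fun j => g j • E0 j) Finset.univ) (x i)
        rw [Finset.sum_apply] at h3
        exact h3
      rw [this]
      rfl
    rw [h2] at h1
    simpa [hE0] using h1
  refine ⟨E0, hli, ?_⟩
  rw [eq_top_iff]
  intro G _
  obtain ⟨a, ha⟩ := frame_of_indep hn hli G
  rw [ha]
  exact Submodule.sum_mem _ fun j _ => Submodule.smul_mem _ _
    (Submodule.subset_span (Set.mem_range_self j))

variable {N : ℕ} {y : Fin (N + 1) → K} {ι : Type} {m : ι → ℕ}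

/-- **The canonical filtration of the vector fields on a pair with negative Kodaira dimension.** -/
theorem tb_can (hy : NormalModel y) (hn : Algebra.trdeg ℂ K = n) (hn1 : 1 ≤ n)
    {Δ : Place ℂ K → ℚ} (hΔ : Effective y Δ) (hLC : LogCanonical y n Δ) [Finite ι]
    (hm : ∀ i, 1 ≤ m i) {T : (i : ι) → MultilinearMap K (fun _ : Fin (m i) => Derivation ℂ K K) K}
    (hT : ∀ i, IsTensor y Δ (T i)) (hT0 : ∃ i, T i ≠ 0) :
    (∃ κ : ℕ, kodairaDim y n Δ = (κ : WithBot ℕ)) ∨
    ∃ (f : Fin n → Derivation ℂ K K) (w : Fin n → ℝ) (μ : ℝ), 0 < μ ∧ WtBasis T f w μ ∧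
      ∀ (f' : Fin n → Derivation ℂ K K) (w' : Fin n → ℝ) (μ' : ℝ), WtBasis T f' w' μ' →
        μ' ≤ μ ∧ (μ' = μ → ∀ a, lvl K f' w' a = lvl K f w a) := by
  rcases hk : kodairaDim y n Δ with _ | κ
  · right
    obtain ⟨E, hE, hs⟩ := exists_frame hn
    have hcz : CharZero K := charZero_of_injective_algebraMap (algebraMap ℂ K).injective
    exact canon hE hs T hT0
      (tb_null t_sep' t_hm' t_at hy hn hn1 hΔ hLC hm hT hk E)
  · exact Or.inl ⟨κ, rfl⟩

end

end Pool.Agent.N133.TB
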