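import Pool.Agent.N133.TB.Stm4
import Pool.Agent.N133.TB.Alg

/-!
Project TB: existence of an optimal weighted basis, with thresholds.
-/

set_option autoImplicit false
set_option linter.overlappingInstances false
set_option linter.unusedSectionVars false

namespace Pool.Agent.N133.TB

namespace Optc

variable {ι : Type} {m : ι → ℕ} {n : ℕ}

/-- the normalised weights -/
def CC (n : ℕ) : Set (Fin n → ℝ) := {w | ∑ i, w i = 0 ∧ ∑ i, w i ^ 2 = 1}

theorem compact_CC (n : ℕ) : IsCompact (CC n) := by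
  apply Metric.isCompact_of_isClosed_isBounded
  · apply IsClosed.inter
    · exact isClosed_eq (by fun_prop) continuous_const
    · exact isClosed_eq (by fun_prop) continuous_const
  · refine (Metric.isBounded_closedBall (x := (0 : Fin n → ℝ)) (r := 1)).subset ?_
    rintro w ⟨_, hw⟩
    rw [mem_closedBall_zero_iff, pi_norm_le_iff_of_nonneg zero_le_one]
    intro i
    have h1 : w i ^ 2 ≤ ∑ i, w i ^ 2 :=
      Finset.single_le_sum (f := fun i => w i ^ 2) (fun j _ => sq_nonneg _) (Finset.mem_univ i)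
    rw [hw] at h1
    rw [Real.norm_eq_abs]
    exact (sq_le_one_iff_abs_le_one _).1 h1

/-- the admissible weights -/
def KK (c : ι → ℝ) (S : Finset (Ix m n)) : Set (Fin n → ℝ) :=
  CC n ∩ ⋂ x ∈ S, {w | c x.1 = 0 → 0 ≤ ∑ s, w (x.2 s)}

theorem compact_KK (c : ι → ℝ) (S : Finset (Ix m n)) : IsCompact (KK c S) := by
  apply (compact_CC n).inter_right
  refine isClosed_biInter fun x _ => ?_
  by_cases hc : c x.1 = 0
  · have h1 : {w : Fin n → ℝ | c x.1 = 0 → 0 ≤ ∑ s, w (x.2 s)} =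
        {w : Fin n → ℝ | 0 ≤ ∑ s, w (x.2 s)} := by
      ext w
      simp [hc]
    rw [h1]
    exact isClosed_le continuous_const (by fun_prop)
  · have h1 : {w : Fin n → ℝ | c x.1 = 0 → 0 ≤ ∑ s, w (x.2 s)} = Set.univ := by
      ext w
      simp [hc]
    rw [h1]
    exact isClosed_univ

theorem mem_KK {c : ι → ℝ} {S : Finset (Ix m n)} {w : Fin n → ℝ} :
    w ∈ KK c S ↔ w ∈ CC n ∧ ∀ x ∈ S, c x.1 = 0 → 0 ≤ ∑ s, w (x.2 s) := by
  simp [KK]

open Classical in
/-- the smallest weight relative to the threshold -/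
noncomputable def gg (c : ι → ℝ) (S : Finset (Ix m n)) (w : Fin n → ℝ) : ℝ :=
  if h : (S.filter (fun x => 0 < c x.1)).Nonempty then
    (S.filter (fun x => 0 < c x.1)).inf' h (fun x => (∑ s, w (x.2 s)) / c x.1) else 0

theorem cont_gg (c : ι → ℝ) (S : Finset (Ix m n)) : Continuous (gg c S) := by
  classical
  unfold gg
  by_cases h : (S.filter (fun x => 0 < c x.1)).Nonempty
  · simp only [dif_pos h]
    exact Continuous.finset_inf'_apply h fun x _ => by fun_prop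
  · simp only [dif_neg h]
    exact continuous_const

theorem act_zero_at {L : Type} [Field L] {t : Fam m n L} {A : Matrix (Fin n) (Fin n) L}
    (hA : A.det ≠ 0) {i : ι} (h : ∀ J, act A t i J = 0) : t i = 0 := by
  rw [← act_inv hA t]
  funext J
  rw [act]
  simp [h]

end Optc

open Optc in
theorem t_optc : S_OPTC := by
  classical
  intro L _ ι _ m n t c hc ⟨i0, hci0, hti0⟩ ⟨A0, w0, hA0, hw0, h0⟩
  have : Fintype (Ix m n) := Fintype.ofFinite _
  let SA : Matrix (Fin n) (Fin n) L → Finset (Ix m n) := fun A =>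
    Finset.univ.filter fun x => act A t x.1 x.2 ≠ 0
  have hSA : ∀ A x, x ∈ SA A ↔ act A t x.1 x.2 ≠ 0 := fun A x => by simp [SA]
  have hne : ∀ A : Matrix (Fin n) (Fin n) L, A.det ≠ 0 →
      ((SA A).filter (fun x => 0 < c x.1)).Nonempty := by
    intro A hA
    by_contra hcon
    rw [Finset.not_nonempty_iff_eq_empty] at hcon
    apply hti0
    refine act_zero_at hA fun J => ?_
    by_contra h2
    have h3 : (⟨i0, J⟩ : Ix m n) ∈ (SA A).filter (fun x => 0 < c x.1) :=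
      Finset.mem_filter.2 ⟨(hSA A _).2 h2, hci0⟩
    rw [hcon] at h3
    exact absurd h3 (Finset.notMem_empty _)
  have hpos : ∀ x ∈ (SA A0).filter (fun x => 0 < c x.1), 0 < ∑ s, w0 (x.2 s) := by
    intro x hx
    rw [Finset.mem_filter] at hx
    by_contra hcon
    exact (hSA A0 x).1 hx.1 ((h0 x.1 x.2).2 hx.2 (not_lt.1 hcon))
  have hnn : ∀ x ∈ SA A0, 0 ≤ ∑ s, w0 (x.2 s) := by
    intro x hx
    by_contra hcon
    exact (hSA A0 x).1 hx ((h0 x.1 x.2).1 (not_le.1 hcon))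
  obtain ⟨x0, hx0⟩ := hne A0 hA0
  have hr0 : 0 < ∑ i, (w0 i : ℝ) ^ 2 := by
    rcases (Finset.sum_nonneg fun i _ => sq_nonneg (w0 i : ℝ) :
      (0 : ℝ) ≤ ∑ i, (w0 i : ℝ) ^ 2).lt_or_eq with h | h
    · exact h
    · exfalso
      have h1 := (Finset.sum_eq_zero_iff_of_nonneg fun i _ => sq_nonneg (w0 i : ℝ)).1 h.symm
      have h2 : ∀ i, w0 i = 0 := by
        intro i
        have := h1 i (Finset.mem_univ i)
        rw [sq_eq_zero_iff] at this
        exact_mod_cast this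
      have h3 := hpos x0 hx0
      rw [Finset.sum_eq_zero fun s _ => h2 _] at h3
      exact lt_irrefl _ h3
  set r : ℝ := Real.sqrt (∑ i, (w0 i : ℝ) ^ 2) with hr
  have hrp : 0 < r := Real.sqrt_pos.2 hr0
  have hr2 : r ^ 2 = ∑ i, (w0 i : ℝ) ^ 2 := Real.sq_sqrt hr0.le
  let u0 : Fin n → ℝ := fun i => (w0 i : ℝ) / r
  have hu0 : u0 ∈ CC n := by
    constructor
    · change ∑ i, (w0 i : ℝ) / r = 0
      rw [← Finset.sum_div]
      have : (∑ i, (w0 i : ℝ)) = 0 := by exact_mod_cast hw0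
      rw [this, zero_div]
    · change ∑ i, ((w0 i : ℝ) / r) ^ 2 = 1
      simp only [div_pow]
      rw [← Finset.sum_div, ← hr2, div_self (pow_pos hrp 2).ne']
  have hu0K : u0 ∈ KK c (SA A0) := by
    refine mem_KK.2 ⟨hu0, fun x hx _ => ?_⟩
    change 0 ≤ ∑ s, (w0 (x.2 s) : ℝ) / r
    rw [← Finset.sum_div]
    have h1 : (0 : ℝ) ≤ ∑ s, (w0 (x.2 s) : ℝ) := by exact_mod_cast hnn x hx
    positivity
  -- maximisers
  have hmax : ∀ S : Finset (Ix m n), ∃ w, (KK c S).Nonempty →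
      w ∈ KK c S ∧ ∀ w' ∈ KK c S, gg c S w' ≤ gg c S w := by
    intro S
    by_cases hS : (KK c S).Nonempty
    · obtain ⟨w, hw, hw2⟩ := (compact_KK c S).exists_isMaxOn hS (cont_gg c S).continuousOn
      exact ⟨w, fun _ => ⟨hw, fun w' hw' => hw2 hw'⟩⟩
    · exact ⟨0, fun h => absurd h hS⟩
  choose W hW using hmax
  obtain ⟨S, ⟨⟨A, hA, rfl⟩, hSK⟩, hS⟩ := Set.exists_max_image
    {S : Finset (Ix m n) | (∃ A : Matrix (Fin n) (Fin n) L, A.det ≠ 0 ∧ SA A = S) ∧
      (KK c S).Nonempty}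
    (fun S => gg c S (W S)) (Set.toFinite _) ⟨SA A0, ⟨A0, hA0, rfl⟩, u0, hu0K⟩
  obtain ⟨hW1, hW2⟩ := hW _ hSK
  rw [mem_KK] at hW1
  refine ⟨A, W (SA A), gg c (SA A) (W (SA A)), ?_, hA, hW1.1.1, hW1.1.2, ?_, ?_⟩
  · refine lt_of_lt_of_le ?_ (hS (SA A0) ⟨⟨A0, hA0, rfl⟩, u0, hu0K⟩)
    refine lt_of_lt_of_le ?_ ((hW (SA A0) ⟨u0, hu0K⟩).2 u0 hu0K)
    unfold gg
    rw [dif_pos (hne A0 hA0), Finset.lt_inf'_iff]
    intro x hx
    change 0 < (∑ s, (w0 (x.2 s) : ℝ) / r) / c x.1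
    rw [← Finset.sum_div]
    have h1 : (0 : ℝ) < ∑ s, (w0 (x.2 s) : ℝ) := by exact_mod_cast hpos x hx
    have h2 : 0 < c x.1 := (Finset.mem_filter.1 hx).2
    positivity
  · intro i J hJ
    by_contra hcon
    have hx : (⟨i, J⟩ : Ix m n) ∈ SA A := (hSA A _).2 hcon
    rcases (hc i).lt_or_eq with hci | hci
    · have h1 : gg c (SA A) (W (SA A)) ≤ (∑ s, W (SA A) (J s)) / c i := by
        unfold gg
        rw [dif_pos (hne A hA)]
        exact Finset.inf'_le (fun x : Ix m n => (∑ s, W (SA A) (x.2 s)) / c x.1)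
          (Finset.mem_filter.2 ⟨hx, hci⟩)
      rw [le_div_iff₀ hci, mul_comm] at h1
      exact absurd hJ (not_lt.2 h1)
    · have h1 := hW1.2 _ hx hci.symm
      rw [← hci, zero_mul] at hJ
      exact absurd hJ (not_lt.2 h1)
  · intro A' w' μ' hA' h1 h2 h3
    have hK' : w' ∈ KK c (SA A') := by
      refine mem_KK.2 ⟨⟨h1, h2⟩, fun x hx hcx => ?_⟩
      by_contra hcon
      refine (hSA A' x).1 hx (h3 x.1 x.2 ?_)
      rw [hcx, zero_mul]
      exact not_le.1 hcon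
    refine le_trans ?_ (hS (SA A') ⟨⟨A', hA', rfl⟩, w', hK'⟩)
    refine le_trans ?_ ((hW (SA A') ⟨w', hK'⟩).2 w' hK')
    unfold gg
    rw [dif_pos (hne A' hA')]
    apply Finset.le_inf'
    intro x hx
    rw [Finset.mem_filter] at hx
    rw [le_div_iff₀ hx.2, mul_comm]
    by_contra hcon
    exact (hSA A' x).1 hx.1 (h3 x.1 x.2 (not_le.1 hcon))

end Pool.Agent.N133.TB
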