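import Pool.Agent.N133.TB.Stm3
import Pool.Agent.N756.TB.Tan0

/-! Project TB, TAN: a vertical vector field which is regular along a vertical prime divisor is
tangent to it. -/

set_option autoImplicit false

open FF Pool.Agent.Y174

namespace Pool.Agent.N133.TB

theorem t_tan : S_TAN := by
  intro L K _ _ _ _ _ _ P Q e h F hF f
  exact Pool.Agent.N756.TB.tan_core P Q e h.1 h.2 F hF f

end Pool.Agent.N133.TB
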