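import Pool.Agent.N133.TB.Rel0
import Pool.Agent.N133.TB.Bd1
import Pool.Agent.N133.TB.Bd2
import Pool.Agent.N133.TB.Tan

/-!
Project TB: relative tensor differentials.
-/

set_option autoImplicit false
set_option linter.overlappingInstances false
set_option linter.unusedSectionVars false

open MvPolynomial FF Pool.Agent.W602.GT Pool.Agent.W603.LV Pool.Agent.W619.PQ Pool.Agent.Y172
  Pool.Agent.Y191 Pool.Agent.Y174 Pool.Agent.N133.OB

namespace Pool.Agent.N133.TB

theorem alg_mono {A B Ω : Type} [CommRing A] [Field B] [Field Ω] [Algebra A Ω] [Algebra B Ω]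
    (φ : A →+* B) (hφ : Function.Injective φ)
    (h : ∀ a, algebraMap B Ω (φ a) = algebraMap A Ω a) {z : Ω} (hz : IsAlgebraic A z) :
    IsAlgebraic B z := by
  obtain ⟨p, hp0, hp⟩ := hz
  refine ⟨p.map φ, (Polynomial.map_ne_zero_iff hφ).2 hp0, ?_⟩
  rw [Polynomial.aeval_def, Polynomial.eval₂_map]
  have : (algebraMap B Ω).comp φ = algebraMap A Ω := RingHom.ext h
  rw [this]
  exact hp

theorem reg_aeval {k K : Type} [Field k] [Field K] [Algebra k K] (w : Place k K) {σ : Type}
    {z : σ → K} (hz : ∀ i, w.Reg (z i)) (p : MvPolynomial σ k) : w.Reg (aeval z p) := by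
  induction p using MvPolynomial.induction_on with
  | C c =>
    rw [aeval_C]
    exact w.reg_const c
  | add p q hp hq =>
    rw [map_add]
    exact w.reg_add hp hq
  | mul_X p i hp =>
    rw [map_mul, aeval_X]
    exact w.reg_mul hp (hz i)

section

variable {L K : Type} [Field L] [Field K] [Algebra ℂ L] [Algebra ℂ K] [Algebra L K]
  [IsScalarTower ℂ L K] {N : ℕ} {y : Fin (N + 1) → K} {d r : ℕ} {ι : Type} {m : ι → ℕ}

/-- `T` is a relative tensor differential of the pair `(X, Δ)` over the base with the function field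
`L`: a multilinear form on the vertical rational vector fields (the derivations of `K` over `L`) such
that, for every prime divisor `P` of `X`, if the vector fields `D j` are regular along `P` and, for
`j` not in `S`, tangent to `P`, then `T D` has order at least `- |S| Δ P` along `P`. -/
def IsRelTensor (y : Fin (N + 1) → K) (Δ : Place ℂ K → ℚ) {m : ℕ}
    (T : MultilinearMap K (fun _ : Fin m => Derivation L K K) K) : Prop :=
  ∀ P, IsPrimeDivisor y P → ∀ (D : Fin m → Derivation L K K) (S : Finset (Fin m)),
    (∀ j f, P.Reg f → P.Reg (D j f)) → (∀ j, j ∉ S → ∀ f, P.Reg (D j f / f)) →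
      T D = 0 ∨ -(S.card * Δ P) ≤ (P.ord (T D) : ℚ)

/-- The fibration is a morphism of orbifolds from `(X, Δ)` to the base with the multiplicities `b`: if
the prime divisor `P` of `X` lies over the place `Q` of the base with multiplicity `e`, then
`1 - Δ P ≤ e (1 - b Q)`. -/
def OrbMor (L : Type) [Field L] [Algebra ℂ L] [Algebra L K] (y : Fin (N + 1) → K)
    (Δ : Place ℂ K → ℚ) (b : Place ℂ L → ℝ) : Prop :=
  ∀ P, IsPrimeDivisor y P → ∀ (Q : Place ℂ L) (e : ℕ), LiesOn P Q e →
    1 - (Δ P : ℝ) ≤ e * (1 - b Q)

/-- the coefficients of the relative tensor differentials for the vertical vector fields `E j`, as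
elements of an algebraic closure of the function field -/
noncomputable def coefR (T : (i : ι) → MultilinearMap K (fun _ : Fin (m i) => Derivation L K K) K)
    (E : Fin r → Derivation L K K) : Fam m r (AlgebraicClosure K) :=
  fun i J => algebraMap K (AlgebraicClosure K) (T i fun s => E (J s))

/-- the values of a semi-invariant -/
noncomputable def val (T : (i : ι) → MultilinearMap K (fun _ : Fin (m i) => Derivation L K K) K)
    (Q : MvPolynomial (Ix m r) ℂ) (F : Fin r → Derivation L K K) : K :=
  aeval (fun x : Ix m r => T x.1 (fun s => F (x.2 s))) Q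

theorem val_coefR (T : (i : ι) → MultilinearMap K (fun _ : Fin (m i) => Derivation L K K) K)
    (E : Fin r → Derivation L K K) (Q : MvPolynomial (Ix m r) ℂ) :
    aeval (pt (coefR T E)) Q = algebraMap K (AlgebraicClosure K) (val T Q E) :=
  aeval_algebraMap_apply (AlgebraicClosure K) (fun x : Ix m r => T x.1 (fun s => E (x.2 s))) Q

/-- the sections of the multiples of `K_X + Δ` -/
theorem rel_sec (hy : NormalModel y) (hr : 1 ≤ r) (hL : Algebra.trdeg ℂ L = d)
    (hn : Algebra.trdeg ℂ K = (d + r : ℕ)) {Δ : Place ℂ K → ℚ} {b : Place ℂ L → ℝ}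
    (hb : OrbMor L y Δ b) [Finite ι]
    {T : (i : ι) → MultilinearMap K (fun _ : Fin (m i) => Derivation L K K) K}
    (hT : ∀ i, IsRelTensor y Δ (T i)) {W s : ℕ} {Q : MvPolynomial (Ix m r) ℂ}
    (hQ : SemiInv ℂ m r W Q) {θ : (Fin d → Derivation ℂ L L) → L}
    (hθ : PairSec ℂ L d b {1} s 0 θ) {t : Fin d → L} (ht : IsTranscendenceBasis ℂ t)
    {x : Fin r → K} (hx : IsTranscendenceBasis L x) {G : Fin d → Derivation ℂ L L}
    (hG : ∀ i j, G i (t j) = if i = j then 1 else 0) {E : Fin r → Derivation L K K}
    (hE : ∀ i j, E i (x j) = if i = j then 1 else 0) :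
    IsSection y (d + r) (s * W) ((s * W) • Δ)
      (formOf (Fin.append (algebraMap L K ∘ t) x) (s * W)
        (val T Q E ^ s * algebraMap L K (θ G) ^ W)) := by
  classical
  have hess : Algebra.EssFiniteType ℂ K := hy.ess
  have hL0 : CharZero L := charZero_of_injective_algebraMap (algebraMap ℂ L).injective
  have hessL : Algebra.EssFiniteType L K := Algebra.EssFiniteType.of_comp ℂ L K
  have hQL := SemiInv.base (L := L) hQ
  have hρeq : ∀ F : Fin r → Derivation L K K,
      aeval (fun x : Ix m r => T x.1 (fun s => F (x.2 s))) (map (algebraMap ℂ L) Q) =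
        val T Q F := fun F => aeval_map_algebraMap _ _ _
  have hρ : IsPluriForm L K r W (val T Q) := by
    have h1 := sec_pluri T hQL
    simp only [hρeq] at h1
    exact h1
  refine ⟨isPluri_formOf _ _ _, fun P hP D hD => ?_⟩
  have hdiv := hP.divisorial hy hn
  have hkey : formOf (Fin.append (algebraMap L K ∘ t) x) (s * W)
        (val T Q E ^ s * algebraMap L K (θ G) ^ W) D = 0 ∨
      -((s * W : ℕ) * (Δ P : ℝ)) ≤ (P.ord (formOf (Fin.append (algebraMap L K ∘ t) x) (s * W)
        (val T Q E ^ s * algebraMap L K (θ G) ^ W) D) : ℝ) := by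
    by_cases htriv : ∀ f : L, f ≠ 0 → P.ord (algebraMap L K f) = 0
    · refine t_bd1 L K hess d r hr hL hn t ht x hx G hG E hE W s (val T Q) θ hρ hθ.1 P hdiv
        (Δ P) htriv ?_ D hD
      intro F hF
      obtain ⟨r', rfl⟩ : ∃ r', r = r' + 1 := ⟨r - 1, by omega⟩
      have h1 := sec_at hessL (trdeg_LK hL hn) (v := trivPl P htriv) (div_triv hL hdiv htriv)
        (c := (Δ P : ℝ)) (T := T) (fun i D S hD hS => by
          rcases hT i P hP D S (fun j f hf => hD j f hf) (fun j hj f => hS j hj f) with h4 | h4
          · exact Or.inl h4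
          · right
            change -((S.card : ℝ) * (Δ P : ℝ)) ≤ (P.ord (T i D) : ℝ)
            exact_mod_cast h4) hQL F (fun l f hf => hF l f hf)
      rw [hρeq] at h1
      exact h1
    · push Not at htriv
      obtain ⟨Q', e, hl⟩ := exists_liesOn P htriv
      refine t_bd2 L K hess d r hr hL hn t ht x hx G hG E hE W s (val T Q) θ hρ hθ.1 P hdiv
        (Δ P) (b Q') Q' e hl (hb P hP Q' e hl) ?_ ?_ D hD
      · intro F hF
        have h1 : P.Reg (val T Q F) := reg_aeval P (fun x => by
          rcases hT x.1 P hP (fun s => F (x.2 s)) ∅ (fun j f hf => hF _ f hf)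
            (fun j _ f => t_tan L K P Q' e hl _ (fun f hf => hF _ f hf) f) with h4 | h4
          · exact Or.inl h4
          · right
            simp only [Finset.card_empty, Nat.cast_zero, zero_mul, neg_zero] at h4
            exact_mod_cast h4) Q
        rcases h1 with h1 | h1
        · exact Or.inl h1
        · right
          exact_mod_cast h1
      · intro hQdiv H hH
        rcases hθ.2 Q' hQdiv H hH with h1 | ⟨s', hs', hs0, h1⟩
        · exact Or.inl h1
        · right
          simp only [Nat.cast_zero, zero_mul, zero_sub] at h1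
          exact h1
  rcases hkey with h | h
  · exact Or.inl h
  · right
    have e : ((s * W) • Δ) P = ((s * W : ℕ) : ℚ) * Δ P := by simp [Pi.smul_apply, nsmul_eq_mul]
    rw [e]
    have h2 : ((-(((s * W : ℕ) : ℚ) * Δ P) : ℚ) : ℝ) ≤
        ((P.ord (formOf (Fin.append (algebraMap L K ∘ t) x) (s * W)
          (val T Q E ^ s * algebraMap L K (θ G) ^ W) D) : ℚ) : ℝ) := by
      push_cast
      push_cast at h
      exact h
    exact_mod_cast h2

end

end Pool.Agent.N133.TB
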