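import Pool.Agent.N133.TB.At

/-!
Project TB: the restriction of a place to a subfield; families over a subfield.
-/

set_option autoImplicit false
set_option linter.overlappingInstances false
set_option linter.unusedSectionVars false

open MvPolynomial FF Pool.Agent.Y174

namespace Pool.Agent.N133.TB

section

variable {k L K : Type} [Field k] [Field L] [Field K] [Algebra k L] [Algebra k K] [Algebra L K]
  [IsScalarTower k L K]

/-- a place which is not trivial on the subfield lies over a place of the subfield -/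
theorem exists_liesOn (P : Place k K) (h : ∃ f : L, f ≠ 0 ∧ P.ord (algebraMap L K f) ≠ 0) :
    ∃ (Q : Place k L) (e : ℕ), LiesOn P Q e := by
  classical
  have hinj : ∀ f : L, f ≠ 0 → algebraMap L K f ≠ 0 := fun f hf => by simpa using hf
  let H : AddSubgroup ℤ :=
    { carrier := {z | ∃ f : L, f ≠ 0 ∧ P.ord (algebraMap L K f) = z}
      add_mem' := by
        rintro a b ⟨f, hf, rfl⟩ ⟨g, hg, rfl⟩
        exact ⟨f * g, mul_ne_zero hf hg, by rw [map_mul, P.ord_mul (hinj f hf) (hinj g hg)]⟩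
      zero_mem' := ⟨1, one_ne_zero, by rw [map_one, P.ord_one]⟩
      neg_mem' := by
        rintro a ⟨f, hf, rfl⟩
        exact ⟨f⁻¹, inv_ne_zero hf, by rw [map_inv₀, P.ord_inv]⟩ }
  obtain ⟨a, ha⟩ := Int.subgroup_cyclic H
  have hmem : ∀ f : L, f ≠ 0 → ∃ c : ℤ, P.ord (algebraMap L K f) = c * a := by
    intro f hf
    have h1 : P.ord (algebraMap L K f) ∈ H := ⟨f, hf, rfl⟩
    rw [ha, AddSubgroup.mem_closure_singleton] at h1
    obtain ⟨c, hc⟩ := h1
    exact ⟨c, by rw [← hc, smul_eq_mul]⟩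
  have ha0 : a ≠ 0 := by
    rintro rfl
    obtain ⟨f, hf, hf'⟩ := h
    obtain ⟨c, hc⟩ := hmem f hf
    exact hf' (by rw [hc, mul_zero])
  obtain ⟨e, he⟩ : ∃ e : ℕ, e = a.natAbs := ⟨_, rfl⟩
  have he0 : 0 < e := by omega
  have hmem' : ∀ f : L, f ≠ 0 → ∃ c : ℤ, P.ord (algebraMap L K f) = e * c := by
    intro f hf
    obtain ⟨c, hc⟩ := hmem f hf
    rcases Int.natAbs_eq a with h1 | h1
    · refine ⟨c, ?_⟩
      rw [hc, he, mul_comm]
      congr 1
    · refine ⟨-c, ?_⟩
      rw [hc, he]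
      rw [h1] at *
      simp only [Int.natAbs_neg, Int.natAbs_natCast] at *
      ring
  have hgen : ∃ f : L, f ≠ 0 ∧ P.ord (algebraMap L K f) = e := by
    have h1 : (e : ℤ) ∈ H := by
      rw [ha, AddSubgroup.mem_closure_singleton]
      rcases Int.natAbs_eq a with h1 | h1
      · exact ⟨1, by rw [one_smul, he]; exact h1⟩
      · refine ⟨-1, ?_⟩
        rw [neg_smul, one_smul, he]
        omega
    exact h1
  -- the place
  let o : L → ℤ := fun f => P.ord (algebraMap L K f) / e
  have ho : ∀ f, P.ord (algebraMap L K f) = e * o f := by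
    intro f
    by_cases hf : f = 0
    · subst hf
      simp only [o, map_zero, P.ord_zero, Int.zero_ediv, mul_zero]
    · obtain ⟨c, hc⟩ := hmem' f hf
      have : (e : ℤ) ≠ 0 := by exact_mod_cast he0.ne'
      simp only [o]
      rw [hc, Int.mul_ediv_cancel_left _ this]
  have hez : (0 : ℤ) < e := by exact_mod_cast he0
  refine ⟨{ ord := o
            ord_zero := ?_
            ord_mul := ?_
            ord_add := ?_
            ord_const := ?_
            surj := ?_ }, e, he0, ho⟩
  · simp only [o, map_zero, P.ord_zero, Int.zero_ediv]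
  · intro f g hf hg
    have h1 := P.ord_mul (hinj f hf) (hinj g hg)
    rw [← map_mul, ho, ho, ho, ← mul_add] at h1
    exact mul_left_cancel₀ hez.ne' h1
  · intro f g hf hg hfg
    have h1 := P.ord_add (hinj f hf) (hinj g hg) (by rw [← map_add]; exact hinj _ hfg)
    rw [← map_add, ho, ho, ho, ← mul_min_of_nonneg _ _ hez.le] at h1
    exact le_of_mul_le_mul_left h1 hez
  · intro c hc
    have h1 := P.ord_const hc
    rw [IsScalarTower.algebraMap_apply k L K, ho] at h1
    rcases mul_eq_zero.1 h1 with h2 | h2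
    · exact absurd h2 hez.ne'
    · exact h2
  · obtain ⟨f, hf, hf'⟩ := hgen
    refine ⟨f, hf, ?_⟩
    rw [ho] at hf'
    exact mul_left_cancel₀ hez.ne' (hf'.trans (mul_one _).symm)

variable {ι : Type} {m : ι → ℕ} {n : ℕ}

/-- extension of the field of the coefficients of a semi-invariant -/
theorem SemiInv.base {W : ℕ} {Q : MvPolynomial (Ix m n) k} (hQ : SemiInv k m n W Q) :
    SemiInv L m n W (map (algebraMap k L) Q) := by
  intro M _ _ A t
  letI : Algebra k M := ((algebraMap L M).comp (algebraMap k L)).toAlgebra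
  haveI : IsScalarTower k L M := IsScalarTower.of_algebraMap_eq fun _ => rfl
  rw [aeval_map_algebraMap, aeval_map_algebraMap]
  exact hQ M A t

end

section

variable {k I Ω : Type} [Field k] [Field I] [Field Ω] [CharZero k] [Algebra k I] [Algebra I Ω]
  [Algebra k Ω] [IsScalarTower k I Ω] [IsAlgClosed Ω] {ι : Type} [Finite ι] {m : ι → ℕ} {n : ℕ}

/-- **Stable families.** If the ratios of the semi-invariants are algebraic over the field `I`, then
the coefficients in a suitable basis are algebraic over `I`. -/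
theorem alg_main (hn1 : 1 ≤ n) (hm : ∀ i, 1 ≤ m i) {t : Fam m n Ω} (hst : StableFam t) {W : ℕ}
    (hW : 1 ≤ W) {Q : MvPolynomial (Ix m n) k} (hQ : SemiInv k m n W Q) (hQ0 : aeval (pt t) Q ≠ 0)
    (hrat : ∀ (W' : ℕ) (Q' : MvPolynomial (Ix m n) k), 1 ≤ W' → SemiInv k m n W' Q' →
      IsAlgebraic I (aeval (pt t) Q' ^ W / aeval (pt t) Q ^ W')) :
    ∃ A : Matrix (Fin n) (Fin n) Ω, A.det ≠ 0 ∧ ∀ i J, IsAlgebraic I (act A t i J) := by
  classical
  have hchar : CharZero Ω := charZero_of_injective_algebraMap (algebraMap k Ω).injective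
  have hNpos : 0 < n * W := Nat.mul_pos hn1 hW
  obtain ⟨μ, hμ⟩ := IsAlgClosed.exists_pow_nat_eq (aeval (pt t) Q)⁻¹ hNpos
  have hμ0 : μ ≠ 0 := by
    rintro rfl
    rw [zero_pow hNpos.ne'] at hμ
    exact inv_ne_zero hQ0 hμ.symm
  obtain ⟨M, hM⟩ : ∃ M : Matrix (Fin n) (Fin n) Ω, M = μ • 1 := ⟨_, rfl⟩
  have hMdet : M.det = μ ^ n := by
    rw [hM, Matrix.det_smul, Matrix.det_one, mul_one, Fintype.card_fin]
  have hM0 : M.det ≠ 0 := by
    rw [hMdet]
    exact pow_ne_zero _ hμ0
  have hval : ∀ W' Q', SemiInv k m n W' Q' → IsAlgebraic I (aeval (pt (act M t)) Q') := by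
    intro W' Q' hQ'
    rcases Nat.eq_zero_or_pos W' with hW' | hW'
    · subst hW'
      have h1 := hQ' Ω (0 : Matrix (Fin n) (Fin n) _) (act M t)
      rw [zero_act hm, pow_zero, one_mul] at h1
      rw [← h1]
      have h2 : (pt (0 : Fam m n Ω)) = ⇑(algebraMap k Ω) ∘ (fun _ => (0 : k)) := by
        funext x
        simp [pt]
      rw [h2, aeval_algebraMap_apply]
      exact (isAlgebraic_algebraMap (R := k) (A := Ω) _).tower_top _
    · have h1 := hQ' Ω M t
      rw [hMdet] at h1
      have h2 : (aeval (pt (act M t)) Q') ^ W = aeval (pt t) Q' ^ W / aeval (pt t) Q ^ W' := by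
        have h3 : ((μ ^ n) ^ W') ^ W = ((aeval (pt t) Q) ^ W')⁻¹ := by
          have e0 : ((μ ^ n) ^ W') ^ W = (μ ^ (n * W)) ^ W' := by ring
          rw [e0, hμ, inv_pow]
        rw [h1, mul_pow, h3, div_eq_mul_inv, mul_comm]
      have h4 : IsAlgebraic I ((aeval (pt (act M t)) Q') ^ W) := by
        rw [h2]
        exact hrat W' Q' hW' hQ'
      exact h4.of_pow hW
  let F := algebraicClosure I Ω
  have htow : IsScalarTower k F Ω := IsScalarTower.of_algebraMap_eq fun x => by
    have h1 := IsScalarTower.algebraMap_apply k I F x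
    rw [h1]
    exact IsScalarTower.algebraMap_apply k I Ω x
  have hFalg : IsAlgClosed F := (algebraicClosure.isAlgClosure I Ω).isAlgClosed
  obtain ⟨x', hx'⟩ := alg_spec t_desc (E := F) (L := Ω)
    {P | ∃ W' Q', SemiInv k m n W' Q' ∧ P = map (algebraMap k F) Q'}
    (pt (act M t)) (by
      rintro P ⟨W', Q', hQ', rfl⟩
      refine ⟨⟨aeval (pt (act M t)) Q', ?_⟩, ?_⟩
      · exact mem_algebraicClosure_iff.2 (hval W' Q' hQ')
      · rw [aeval_map_algebraMap]
        rfl)
  let t₂ : Fam m n Ω := fun i J => algebraMap F Ω (x' ⟨i, J⟩)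
  obtain ⟨A, hA, hAt⟩ := alg_stable (k := k) t_sep' t_hm' hn1 (hst.act hM0) (t₂ := t₂) (by
    intro W' Q' hQ'
    have h1 := hx' _ ⟨W', Q', hQ', rfl⟩
    rw [aeval_map_algebraMap] at h1
    rw [h1, eval_map, ← aeval_def, ← aeval_algebraMap_apply]
    rfl)
  refine ⟨A⁻¹ * M, ?_, fun i J => ?_⟩
  · rw [Matrix.det_mul]
    exact mul_ne_zero (inv_det_ne hA) hM0
  · rw [act_mul, hAt, act_inv hA]
    exact mem_algebraicClosure_iff.1 (x' ⟨i, J⟩).2

end

end Pool.Agent.N133.TB
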