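import Pool.Agent.N133.TB.Rel

/-!
Project TB: relative tensor differentials, the main theorem.
-/

set_option autoImplicit false
set_option linter.overlappingInstances false
set_option linter.unusedSectionVars false

open MvPolynomial FF Pool.Agent.W602.GT Pool.Agent.W603.LV Pool.Agent.W619.PQ Pool.Agent.Y172
  Pool.Agent.Y191 Pool.Agent.Y174 Pool.Agent.N133.OB

namespace Pool.Agent.N133.TB

/-- the number of the remaining elements of a transcendence basis -/
theorem ext_basis {I : Type} [Field I] [Algebra ℂ I] {d0 h : ℕ} (hd : Algebra.trdeg ℂ I = d0)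
    {g : Fin h → I} (hg : AlgebraicIndependent ℂ g) :
    ∃ (e : ℕ) (u : Fin e → I), d0 = h + e ∧ ∃ (S : Set I),
      IsTranscendenceBasis ℂ (Subtype.val : S → I) ∧ S ⊆ Set.range g ∪ Set.range u := by
  classical
  obtain ⟨S, hS1, hS2⟩ := exists_isTranscendenceBasis_superset (s := Set.range g) hg.coe_range
  have hinj : Function.Injective g := hg.injective
  have hcard : Cardinal.mk S = (d0 : Cardinal) := by rw [hS2.cardinalMk_eq_trdeg, hd]
  have hfin : Finite S := by
    rw [← Cardinal.lt_aleph0_iff_finite, hcard]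
    exact Cardinal.natCast_lt_aleph0
  have hSf : S.Finite := Set.toFinite S
  have hSn : S.ncard = d0 := by
    have h1 : (Nat.card S : Cardinal) = (d0 : Cardinal) := by
      rw [Nat.cast_card, hcard]
    exact_mod_cast h1
  have hgn : (Set.range g).ncard = h := by
    rw [← Set.image_univ, Set.ncard_image_of_injective _ hinj, Set.ncard_univ, Nat.card_eq_fintype_card,
      Fintype.card_fin]
  have hfin2 : Finite (S \ Set.range g : Set I) := (hSf.subset Set.diff_subset).to_subtype
  have hd2 : (S \ Set.range g).ncard + h = d0 := by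
    have h1 := Set.ncard_diff_add_ncard_of_subset hS1 hSf
    rw [hgn, hSn] at h1
    exact h1
  obtain ⟨σ⟩ : Nonempty (Fin (S \ Set.range g).ncard ≃ (S \ Set.range g : Set I)) :=
    ⟨(Finite.equivFin _).symm⟩
  refine ⟨(S \ Set.range g).ncard, fun j => (σ j : I), by omega, S, hS2, fun z hz => ?_⟩
  by_cases hzg : z ∈ Set.range g
  · exact Or.inl hzg
  · right
    refine ⟨σ.symm ⟨z, hz, hzg⟩, ?_⟩
    simp

/-- elements are algebraic over a field which contains a transcendence basis -/
theorem alg_basis {I K' R : Type} [Field I] [Field K'] [Algebra ℂ I] [Field R] [Algebra R K']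
    (ψ : I →+* K') {S : Set I} (hS : IsTranscendenceBasis ℂ (Subtype.val : S → I))
    (hR : ∀ z ∈ S, ψ z ∈ (algebraMap R K').range)
    (hRC : ∀ c : ℂ, ψ (algebraMap ℂ I c) ∈ (algebraMap R K').range) (w : I) :
    IsAlgebraic R (ψ w) := by
  have hmem : ∀ a ∈ Algebra.adjoin ℂ (Set.range (Subtype.val : S → I)),
      ψ a ∈ (algebraMap R K').range := by
    intro a ha
    induction ha using Algebra.adjoin_induction with
    | mem z hz =>
      obtain ⟨z', rfl⟩ := hz
      exact hR _ z'.2
    | algebraMap c => exact hRC c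
    | add a b _ _ h1 h2 =>
      rw [map_add]
      exact Subring.add_mem _ h1 h2
    | mul a b _ _ h1 h2 =>
      rw [map_mul]
      exact Subring.mul_mem _ h1 h2
  have halg : Algebra.IsAlgebraic (Algebra.adjoin ℂ (Set.range (Subtype.val : S → I))) I :=
    hS.isAlgebraic
  obtain ⟨p, hp0, hp⟩ := halg.isAlgebraic w
  let φ : Algebra.adjoin ℂ (Set.range (Subtype.val : S → I)) →+* K' :=
    ψ.comp (algebraMap (Algebra.adjoin ℂ (Set.range (Subtype.val : S → I))) I)
  have hφ : Function.Injective φ := ψ.injective.comp Subtype.val_injective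
  have h1 : p.map φ ∈ Polynomial.lifts (algebraMap R K') := by
    rw [Polynomial.lifts_iff_coeff_lifts]
    intro j
    rw [Polynomial.coeff_map]
    exact hmem _ (p.coeff j).2
  obtain ⟨q, hq⟩ := (Polynomial.mem_lifts _).1 h1
  refine ⟨q, ?_, ?_⟩
  · rintro rfl
    rw [Polynomial.map_zero] at hq
    exact hp0 ((Polynomial.map_eq_zero_iff hφ).1 hq.symm)
  · rw [Polynomial.aeval_def, Polynomial.eval₂_eq_eval_map, hq, ← Polynomial.eval₂_eq_eval_map]
    have h2 := Polynomial.hom_eval₂ p (algebraMap (Algebra.adjoin ℂ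
      (Set.range (Subtype.val : S → I))) I) ψ w
    rw [← Polynomial.aeval_def, hp, map_zero] at h2
    exact h2.symm

section

variable {L K : Type} [Field L] [Field K] [Algebra ℂ L] [Algebra ℂ K] [Algebra L K]
  [IsScalarTower ℂ L K] {N : ℕ} {y : Fin (N + 1) → K} {d r : ℕ} {ι : Type} {m : ι → ℕ}

/-- **Relative tensor differentials** with respect to dual coordinates. -/
theorem rel_main0 (hy : NormalModel y) (hr : 1 ≤ r) (hL : Algebra.trdeg ℂ L = d)
    (hn : Algebra.trdeg ℂ K = (d + r : ℕ)) {Δ : Place ℂ K → ℚ} (hΔ : Effective y Δ)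
    (hLC : LogCanonical y (d + r) Δ) {b : Place ℂ L → ℝ} (hb : OrbMor L y Δ b) {h : ℕ}
    (hB : PairKod ℂ L d b h) [Finite ι] (hm : ∀ i, 1 ≤ m i)
    {T : (i : ι) → MultilinearMap K (fun _ : Fin (m i) => Derivation L K K) K}
    (hT : ∀ i, IsRelTensor y Δ (T i)) {x : Fin r → K} (hx : IsTranscendenceBasis L x)
    {E : Fin r → Derivation L K K} (hE : ∀ i j, E i (x j) = if i = j then 1 else 0)
    (hss : ¬ ∃ (A : Matrix (Fin r) (Fin r) (AlgebraicClosure K)) (w : Fin r → ℤ), A.det ≠ 0 ∧
      ∑ i, w i = 0 ∧ ∀ i J, ∑ s, w (J s) ≤ 0 → act A (coefR T E) i J = 0) :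
    ∃ (e : ℕ) (u : Fin e → K), kodairaDim y (d + r) Δ = ((h + e : ℕ) : WithBot ℕ) ∧
      (StableFam (coefR T E) → ∃ A : Matrix (Fin r) (Fin r) (AlgebraicClosure K), A.det ≠ 0 ∧
        ∀ i J, IsAlgebraic (IntermediateField.adjoin L (Set.range u))
          (act A (coefR T E) i J)) := by
  classical
  have hess : Algebra.EssFiniteType ℂ K := hy.ess
  have hL0 : CharZero L := charZero_of_injective_algebraMap (algebraMap ℂ L).injective
  have hK0 : CharZero K := charZero_of_injective_algebraMap (algebraMap ℂ K).injective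
  obtain ⟨t, ht⟩ := Pool.Agent.W636.PG.exists_basis ℂ L d hL
  obtain ⟨G, hG⟩ := Pool.Agent.W636.PG.exists_duals ℂ L d t ht
  have hZ := basis_append ht hx
  obtain ⟨Z, hZd⟩ : ∃ Z : Fin (d + r) → K, Z = Fin.append (algebraMap L K ∘ t) x := ⟨_, rfl⟩
  rw [← hZd] at hZ
  obtain ⟨DZ, hDZ⟩ := Pool.Agent.W636.PG.exists_duals ℂ K (d + r) Z hZ
  have hform : ∀ (M : ℕ) (a : K), formOf Z M a DZ = a := by
    intro M a
    unfold formOf
    have h1 : (Matrix.of fun i b => DZ i (Z b)) = 1 := by
      ext i j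
      rw [Matrix.of_apply, hDZ, Matrix.one_apply]
    rw [h1, Matrix.det_one, one_pow, mul_one]
  have hformne : ∀ (M : ℕ) {a : K}, a ≠ 0 → formOf Z M a ≠ 0 := by
    intro M a ha h0
    have h1 := hform M a
    rw [h0] at h1
    exact ha h1.symm
  -- a semi-invariant which does not vanish
  obtain ⟨W, Q, hW, hQ, hQ0⟩ : ∃ (W : ℕ) (Q : MvPolynomial (Ix m r) ℂ), 1 ≤ W ∧
      SemiInv ℂ m r W Q ∧ aeval (pt (coefR T E)) Q ≠ 0 := by
    by_contra hcon
    push Not at hcon
    exact hss (alg_null (k := ℂ) t_sep' t_hm' hr hm (t := coefR T E) hcon)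
  have hval : ∀ Q : MvPolynomial (Ix m r) ℂ, aeval (pt (coefR T E)) Q =
      algebraMap K (AlgebraicClosure K) (val T Q E) := fun Q => val_coefR T E Q
  have ha0 : val T Q E ≠ 0 := fun h => hQ0 (by rw [hval, h, map_zero])
  -- the sections of the base
  obtain ⟨s, hs, θ, hθ, G0, hG0, hind⟩ := hB
  have hbase : ∀ l, θ l G0 = (Matrix.of fun i j => G0 i (t j)).det ^ s * θ l G := by
    intro l
    have h1 := (hθ l).1 (Matrix.of fun i j => G0 i (t j)) G
    have h2 : (fun i => ∑ j, (Matrix.of fun i j => G0 i (t j)) i j • G j) = G0 := by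
      funext i
      exact Pool.Agent.W73.PG.PULL.expand t ht G hG (G0 i)
    rw [h2] at h1
    exact h1
  have hθ0 : ∀ l, θ l G ≠ 0 := fun l h => hG0 l (by rw [hbase, h, mul_zero])
  have hdet0 : (Matrix.of fun i j => G0 i (t j)).det ^ s ≠ 0 := by
    intro h
    apply hG0 0
    rw [hbase, h, zero_mul]
  have hratio : ∀ l, θ l G0 / θ 0 G0 = θ l G / θ 0 G := by
    intro l
    rw [hbase l, hbase 0, mul_div_mul_left _ _ hdet0]
  -- the sections
  have hsec : ∀ (l : Fin (h + 1)) (W' : ℕ) (Q' : MvPolynomial (Ix m r) ℂ), SemiInv ℂ m r W' Q' →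
      IsSection y (d + r) (s * W') ((s * W') • Δ)
        (formOf Z (s * W') (val T Q' E ^ s * algebraMap L K (θ l G) ^ W')) := by
    intro l W' Q' hQ'
    rw [hZd]
    exact rel_sec hy hr hL hn hb hT hQ' (hθ l) ht hx hG hE
  have hLne : ∀ l, algebraMap L K (θ l G) ≠ 0 := fun l => by
    simpa using hθ0 l
  have hsW : 1 ≤ s * W := Nat.mul_pos hs hW
  have hf0 : (1 : K) ∈ Ratio y (d + r) Δ := ratio_one hsW (hsec 0 W Q hQ)
    (hformne _ (mul_ne_zero (pow_ne_zero _ ha0) (pow_ne_zero _ (hLne 0))))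
  -- the ratios of the base
  have hgI : ∀ l, algebraMap L K (θ l G0 / θ 0 G0) ∈ iitakaField y (d + r) Δ := by
    intro l
    rw [hratio]
    refine iitaka_closed ?_
    have h1 : (algebraMap L K (θ l G / θ 0 G)) ^ W ∈ iitakaField y (d + r) Δ := by
      refine ratio_mem_iitaka ⟨s * W, hsW, _, hsec 0 W Q hQ, hformne _
        (mul_ne_zero (pow_ne_zero _ ha0) (pow_ne_zero _ (hLne 0))), ?_⟩
      have h2 : (fun D => (algebraMap L K (θ l G / θ 0 G)) ^ W *
          formOf Z (s * W) (val T Q E ^ s * algebraMap L K (θ 0 G) ^ W) D) =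
          formOf Z (s * W) (val T Q E ^ s * algebraMap L K (θ l G) ^ W) := by
        funext D
        unfold formOf
        rw [map_div₀, div_pow]
        have h3 := pow_ne_zero W (hLne 0)
        field_simp
      rw [h2]
      exact hsec l W Q hQ
    have h3 : IsAlgebraic (iitakaField y (d + r) Δ) ((algebraMap L K (θ l G / θ 0 G)) ^ W) :=
      isAlgebraic_algebraMap (R := iitakaField y (d + r) Δ) (A := K)
        (⟨_, h1⟩ : iitakaField y (d + r) Δ)
    exact h3.of_pow hW
  -- the ratios of the semi-invariants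
  have hpow : ∀ (W' : ℕ) (Q' : MvPolynomial (Ix m r) ℂ), 1 ≤ W' → SemiInv ℂ m r W' Q' →
      ∀ l : ℕ, 1 ≤ l → IsSection y (d + r) (l * (s * W')) ((l * (s * W')) • Δ)
        (fun D => formOf Z (s * W') (val T Q' E ^ s * algebraMap L K (θ 0 G) ^ W') D ^ l) := by
    intro W' Q' hW' hQ' l hl
    induction l, hl using Nat.le_induction with
    | base =>
      simp only [one_mul, pow_one]
      exact hsec 0 W' Q' hQ'
    | succ l hl ih =>
      have h1 := sec_mul ih (hsec 0 W' Q' hQ')
      rw [← Nat.succ_mul] at h1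
      simp only [pow_succ]
      exact h1
  have hrat : ∀ (W' : ℕ) (Q' : MvPolynomial (Ix m r) ℂ), 1 ≤ W' → SemiInv ℂ m r W' Q' →
      IsAlgebraic (iitakaField y (d + r) Δ)
        (aeval (pt (coefR T E)) Q' ^ W / aeval (pt (coefR T E)) Q ^ W') := by
    intro W' Q' hW' hQ'
    have h1 : (val T Q' E ^ W / val T Q E ^ W') ^ s ∈ iitakaField y (d + r) Δ := by
      refine ratio_mem_iitaka ⟨W' * (s * W), Nat.mul_pos hW' hsW, _, hpow W Q hW hQ W' hW', ?_, ?_⟩
      · intro h0
        have h2 := congrFun h0 DZ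
        simp only [hform] at h2
        exact pow_ne_zero _ (mul_ne_zero (pow_ne_zero _ ha0) (pow_ne_zero _ (hLne 0))) h2
      · have h2 : (fun D => (val T Q' E ^ W / val T Q E ^ W') ^ s *
            formOf Z (s * W) (val T Q E ^ s * algebraMap L K (θ 0 G) ^ W) D ^ W') =
            fun D => formOf Z (s * W') (val T Q' E ^ s * algebraMap L K (θ 0 G) ^ W') D ^ W := by
          funext D
          unfold formOf
          have h3 := pow_ne_zero W' ha0
          have h4 : (val T Q' E ^ W / val T Q E ^ W') ^ s * val T Q E ^ (s * W') =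
              val T Q' E ^ (s * W) := by
            rw [mul_comm s W', pow_mul (val T Q E), ← mul_pow, div_mul_cancel₀ _ h3, ← pow_mul,
              mul_comm W s]
          have h5 : ∀ (a c q : K) (s W W' : ℕ), (a ^ s * c ^ W * q ^ (s * W)) ^ W' =
              a ^ (s * W') * (c ^ (W * W') * q ^ (s * W * W')) := by
            intro a c q s W W'
            rw [mul_pow, mul_pow, ← pow_mul, ← pow_mul, ← pow_mul, mul_assoc]
          rw [h5, h5, ← mul_assoc, h4, mul_comm W W', mul_assoc s W W', mul_comm W W',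
            mul_assoc s W' W]
        rw [h2]
        have h3 := hpow W' Q' hW' hQ' W hW
        rw [show W' * (s * W) = W * (s * W') by ring]
        exact h3
    have h2 : IsAlgebraic (iitakaField y (d + r) Δ)
        ((algebraMap K (AlgebraicClosure K) (val T Q' E ^ W / val T Q E ^ W')) ^ s) := by
      rw [← map_pow]
      exact isAlgebraic_algebraMap (R := iitakaField y (d + r) Δ) (A := AlgebraicClosure K)
        (⟨_, h1⟩ : iitakaField y (d + r) Δ)
    have h3 := h2.of_pow hs
    rw [map_div₀, map_pow, map_pow, ← hval, ← hval] at h3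
    exact h3
  -- the Kodaira dimension
  obtain ⟨d0, r0, hd, hnd⟩ := iitaka_dim (y := y) hn Δ
  obtain ⟨β, G', hβ, -, hδ0, hdisc, hG'⟩ := exists_delta hy hn hΔ hLC (δ0 := fun _ => 0)
    (fun v => Or.inr ⟨1, le_rfl, by norm_num⟩)
    (fun P hP => by
      have := hΔ.1 P hP
      exact_mod_cast this) (G := ∅) (by simp) (fun v h => absurd rfl h)
  obtain ⟨hkod, -⟩ := kod_main hy hn hΔ hdisc hG' hf0 hd
  -- the transcendence basis
  let g : Fin h → iitakaField y (d + r) Δ := fun l => ⟨_, hgI l.succ⟩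
  have hg : AlgebraicIndependent ℂ g := by
    have h1 : AlgebraicIndependent ℂ (fun l : Fin h => algebraMap L K (θ l.succ G0 / θ 0 G0)) := by
      have h2 := hind.map' (f := IsScalarTower.toAlgHom ℂ L K) (algebraMap L K).injective
      exact h2
    exact AlgebraicIndependent.of_comp (iitakaField y (d + r) Δ).val h1
  obtain ⟨e, u, hde, S, hS, hSsub⟩ := ext_basis hd hg
  refine ⟨e, fun j => (u j : K), by rw [hkod, hde], fun hst => ?_⟩
  obtain ⟨A, hA, hAalg⟩ := alg_main (k := ℂ) (I := iitakaField y (d + r) Δ) hr hm hst hW hQ hQ0 hrat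
  refine ⟨A, hA, fun i J => ?_⟩
  obtain ⟨R, hRdef⟩ : ∃ R : IntermediateField L K,
    R = IntermediateField.adjoin L (Set.range fun j => (u j : K)) := ⟨_, rfl⟩
  rw [← hRdef]
  have hIR : ∀ w : iitakaField y (d + r) Δ,
      IsAlgebraic R (algebraMap K (AlgebraicClosure K) (w : K)) := by
    intro w
    have h1 : IsAlgebraic R ((w : K)) := by
      refine alg_basis (R := R) ((iitakaField y (d + r) Δ).val : _ →+* K) hS ?_ ?_ w
      · intro z hz
        rcases hSsub hz with ⟨l, rfl⟩ | ⟨j, rfl⟩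
        · exact ⟨⟨_, R.algebraMap_mem (θ l.succ G0 / θ 0 G0)⟩, rfl⟩
        · refine ⟨⟨(u j : K), ?_⟩, rfl⟩
          rw [hRdef]
          exact IntermediateField.subset_adjoin _ _ ⟨j, rfl⟩
      · intro c
        refine ⟨⟨algebraMap L K (algebraMap ℂ L c), R.algebraMap_mem _⟩, ?_⟩
        change algebraMap L K (algebraMap ℂ L c) = algebraMap ℂ K c
        exact (IsScalarTower.algebraMap_apply ℂ L K c).symm
    exact h1.algebraMap
  let R1 := algebraicClosure R (AlgebraicClosure K)
  let ψ : iitakaField y (d + r) Δ →+* R1 :=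
    { toFun := fun w => ⟨algebraMap K (AlgebraicClosure K) (w : K),
        mem_algebraicClosure_iff.2 (hIR w)⟩
      map_one' := Subtype.ext (map_one _)
      map_mul' := fun a b => Subtype.ext (map_mul _ _ _)
      map_zero' := Subtype.ext (map_zero _)
      map_add' := fun a b => Subtype.ext (map_add _ _ _) }
  have h1 : IsAlgebraic R1 (act A (coefR T E) i J) :=
    alg_mono ψ ψ.injective (fun a => rfl) (hAalg i J)
  exact h1.restrictScalars R

end

end Pool.Agent.N133.TB
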