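import Pool.Agent.N133.TB.Rel2

/-!
Project TB: relative tensor differentials, any basis of the vertical vector fields.
-/

set_option autoImplicit false
set_option linter.overlappingInstances false
set_option linter.unusedSectionVars false

open MvPolynomial FF Pool.Agent.W602.GT Pool.Agent.W603.LV Pool.Agent.W619.PQ Pool.Agent.Y172
  Pool.Agent.Y191 Pool.Agent.Y174 Pool.Agent.N133.OB

namespace Pool.Agent.N133.TB

/-- Semistability (Hilbert-Mumford): no one-parameter group of the special linear group has only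
positive weights on `t`. -/
def SemistableFam {ι : Type} {m : ι → ℕ} {n : ℕ} {Ω : Type} [Field Ω] (t : Fam m n Ω) : Prop :=
  ∀ A : Matrix (Fin n) (Fin n) Ω, A.det ≠ 0 → ∀ w : Fin n → ℤ, ∑ i, w i = 0 →
    ¬ ∀ i J, ∑ s, w (J s) ≤ 0 → act A t i J = 0

section

variable {L K : Type} [Field L] [Field K] [Algebra ℂ L] [Algebra ℂ K] [Algebra L K]
  [IsScalarTower ℂ L K] {N : ℕ} {y : Fin (N + 1) → K} {d r : ℕ} {ι : Type} {m : ι → ℕ}

theorem rel_main (hy : NormalModel y) (hr : 1 ≤ r) (hL : Algebra.trdeg ℂ L = d)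
    (hn : Algebra.trdeg ℂ K = (d + r : ℕ)) {Δ : Place ℂ K → ℚ} (hΔ : Effective y Δ)
    (hLC : LogCanonical y (d + r) Δ) {b : Place ℂ L → ℝ} (hb : OrbMor L y Δ b) {h : ℕ}
    (hB : PairKod ℂ L d b h) [Finite ι] (hm : ∀ i, 1 ≤ m i)
    {T : (i : ι) → MultilinearMap K (fun _ : Fin (m i) => Derivation L K K) K}
    (hT : ∀ i, IsRelTensor y Δ (T i)) {E : Fin r → Derivation L K K}
    (hE : LinearIndependent K E) (hss : SemistableFam (coefR T E)) :
    ∃ (e : ℕ) (u : Fin e → K), kodairaDim y (d + r) Δ = ((h + e : ℕ) : WithBot ℕ) ∧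
      (StableFam (coefR T E) → ∃ A : Matrix (Fin r) (Fin r) (AlgebraicClosure K), A.det ≠ 0 ∧
        ∀ i J, IsAlgebraic (IntermediateField.adjoin L (Set.range u))
          (act A (coefR T E) i J)) := by
  classical
  have hL0 : CharZero L := charZero_of_injective_algebraMap (algebraMap ℂ L).injective
  obtain ⟨x, hx⟩ := Pool.Agent.W636.PG.exists_basis L K r (trdeg_LK hL hn)
  obtain ⟨E0, hE0⟩ := Pool.Agent.W636.PG.exists_duals L K r x hx
  let B0 : Matrix (Fin r) (Fin r) K := Matrix.of fun j l => E j (x l)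
  have hexp : ∀ j, ∑ l, B0 j l • E0 l = E j := fun j =>
    Pool.Agent.W73.PG.PULL.expand x hx E0 hE0 (E j)
  have hdet0 : B0.det ≠ 0 := by
    intro h0
    obtain ⟨v, hv, hv0⟩ := Matrix.exists_vecMul_eq_zero_iff.2 h0
    apply hv
    have h1 : ∑ j, v j • E j = 0 := by
      have h2 : ∀ j, v j • E j = ∑ l, (v j * B0 j l) • E0 l := by
        intro j
        rw [← hexp j, Finset.smul_sum]
        refine Finset.sum_congr rfl fun l _ => ?_
        rw [smul_smul]
      simp only [h2]
      rw [Finset.sum_comm]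
      refine Finset.sum_eq_zero fun l _ => ?_
      rw [← Finset.sum_smul]
      have h3 := congrFun hv0 l
      simp only [Matrix.vecMul, dotProduct, Pi.zero_apply] at h3
      rw [h3, zero_smul]
    exact funext fun j => Fintype.linearIndependent_iff.1 hE v h1 j
  let B : Matrix (Fin r) (Fin r) (AlgebraicClosure K) := B0.map (algebraMap K _)
  have hBdet : B.det ≠ 0 := by
    have h1 : B.det = algebraMap K (AlgebraicClosure K) B0.det := (RingHom.map_det _ B0).symm
    rw [h1]
    exact (map_ne_zero _).2 hdet0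
  have hco : coefR T E = act B (coefR T E0) := by
    funext i J
    have h1 : (fun s => E (J s)) = fun s => ∑ l, B0 (J s) l • E0 l := by
      funext s
      exact (hexp (J s)).symm
    have h2 : coefR T E i J = algebraMap K (AlgebraicClosure K) (T i fun s => E (J s)) := rfl
    rw [h2, h1, Sec.tens_lin]
    simp only [act, coefR, map_sum, map_mul, map_prod, B, Matrix.map_apply]
  have hco' : coefR T E0 = act B⁻¹ (coefR T E) := by
    rw [hco, act_inv hBdet]
  obtain ⟨e, u, h1, h2⟩ := rel_main0 hy hr hL hn hΔ hLC hb hB hm hT hx hE0 (by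
    rintro ⟨A, w, hA, hw, hJ⟩
    refine hss (A * B⁻¹) ?_ w hw fun i J hs => ?_
    · rw [Matrix.det_mul]
      exact mul_ne_zero hA (inv_det_ne hBdet)
    · rw [act_mul, ← hco']
      exact hJ i J hs)
  refine ⟨e, u, h1, fun hst => ?_⟩
  obtain ⟨A, hA, hAalg⟩ := h2 (by
    rw [hco']
    exact hst.act (inv_det_ne hBdet))
  refine ⟨A * B⁻¹, ?_, fun i J => ?_⟩
  · rw [Matrix.det_mul]
    exact mul_ne_zero hA (inv_det_ne hBdet)
  · rw [act_mul, ← hco']
    exact hAalg i J

end

end Pool.Agent.N133.TB
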