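import Pool.Agent.N133.TB.Stm4
import Pool.Agent.N133.TB.Sec

/-!
Project TB: the order of a semi-invariant of tensors with values in a divisor (helper34, after
helper901).
-/

set_option autoImplicit false
set_option linter.overlappingInstances false
set_option linter.unusedSectionVars false

open FF MvPolynomial Pool.Agent.W619.PQ Pool.Agent.W619.PL Pool.Agent.W619.TW
  Pool.Agent.W603.LV Pool.Agent.W619.Y Pool.Agent.W824.PG

namespace Pool.Agent.N133.TB

namespace Secv

section

open Pool.Agent.Y174 Sec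

variable {k K : Type} [Field k] [Field K] [Algebra k K] {ι : Type} {m : ι → ℕ} {n W e : ℕ}

theorem homWeight [Fintype (Ix m n)] {a : ι → ℕ} {Q : MvPolynomial (Ix m n) k}
    (hQ : IsWeightedHomogeneous (fun x : Ix m n => a x.1) Q e) {μ : Ix m n →₀ ℕ}
    (hμ : μ ∈ Q.support) : ∑ x, μ x * a x.1 = e := by
  have h := hQ (mem_support_iff.1 hμ)
  rw [Finsupp.weight_apply, Finsupp.sum_fintype _ _ (fun i => by rw [zero_smul])] at h
  exact h

/-- the order of a semi-invariant of tensors with values in a divisor along one prime divisor -/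
theorem sec_at [CharZero k] [Finite ι] (hess : Algebra.EssFiniteType k K)
    (htr : Algebra.trdeg k K = n) {v : Place k K} (hv : IsDivisorial v n) {c l : ℝ} {a : ι → ℕ}
    {T : (i : ι) → MultilinearMap K (fun _ : Fin (m i) => Derivation k K K) K}
    (hT : ∀ i (D : Fin (m i) → Derivation k K K) (S : Finset (Fin (m i))),
      (∀ j f, v.Reg f → v.Reg (D j f)) → (∀ j, j ∉ S → ∀ f, v.Reg (D j f / f)) →
        T i D = 0 ∨ -(S.card * c + a i * l) ≤ (v.ord (T i D) : ℝ))
    {Q : MvPolynomial (Ix m n) k} (hQ : SemiInv k m n W Q)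
    (hQe : IsWeightedHomogeneous (fun x : Ix m n => a x.1) Q e) (D : Fin n → Derivation k K K)
    (hD : ∀ l f, v.Reg f → v.Reg (D l f)) :
    aeval (fun x : Ix m n => T x.1 (fun s => D (x.2 s))) Q = 0 ∨
      -(W * c + e * l) ≤ (v.ord (aeval (fun x : Ix m n => T x.1 (fun s => D (x.2 s))) Q) : ℝ) := by
  classical
  have : Fintype (Ix m n) := Fintype.ofFinite _
  obtain ⟨y, F, i0, hy, hF, ht, hyr, hpres⟩ := Pool.Agent.Y174.pFRAME k K n htr
    (fun y hy => fin_adj hess y hy) v hv
  have ht0 := ne_zero_of_ord ht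
  have hlog : ∀ b, b ≠ i0 → ∀ f, v.Reg (F b f / f) := by
    intro b hb
    refine log_of_pres v _ (hpres b) ht0 ht ?_
    rw [hF, if_neg hb, zero_div]
    exact Or.inl rfl
  have h1 : D = fun i => ∑ j, (Matrix.of fun a b => D a (y b)) i j • F j := by
    funext i
    exact (Pool.Agent.W73.PG.PULL.expand y hy F hF (D i)).symm
  have h2 : GeR v 0 (Matrix.of fun a b => D a (y b)).det := by
    have h3 := Ge.toR (Pool.Agent.W619.PQ.ge_det v (Matrix.of fun a b => D a (y b))
      fun a b => hD a _ (hyr b))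
    simpa using h3
  have h3 : GeR v (-(W * c + e * l)) (aeval (fun x : Ix m n => T x.1 (fun s => F (x.2 s))) Q) := by
    rw [aeval_def, eval₂_eq']
    refine Pool.Agent.Y174.OB.geR_sum _ _ _ fun μ hμ => ?_
    have hWt := weight i0 hQ hμ
    have hEt := homWeight hQe hμ
    have h4 : GeR v (∑ x : Ix m n, (μ x : ℝ) * (-(cnt i0 x * c + a x.1 * l)))
        (∏ x : Ix m n, T x.1 (fun s => F (x.2 s)) ^ μ x) := by
      refine Pool.Agent.Y174.OB.geR_prod _ _ _ fun x _ => GeR.pow ?_ _
      exact hT x.1 (fun s => F (x.2 s)) (Finset.univ.filter fun s => x.2 s = i0)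
        (fun s f hf => hpres _ f hf) (fun s hs f => hlog _ (fun h => hs (by simp [h])) f)
    have h5 : GeR v 0 (algebraMap k K (coeff μ Q)) := by
      have h6 : Ge v 0 (algebraMap k K (coeff μ Q)) := Ge.const _
      have h7 := Ge.toR h6
      simpa using h7
    refine (h5.mul h4).mono (le_of_eq ?_)
    rw [← hWt, ← hEt, zero_add]
    push_cast
    rw [Finset.sum_mul, Finset.sum_mul, ← Finset.sum_add_distrib, ← Finset.sum_neg_distrib]
    refine Finset.sum_congr rfl fun x _ => ?_
    ring
  have h5 : aeval (fun x : Ix m n => T x.1 (fun s => D (x.2 s))) Q =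
      (Matrix.of fun a b => D a (y b)).det ^ W *
        aeval (fun x : Ix m n => T x.1 (fun s => F (x.2 s))) Q := by
    rw [← sec_pluri T hQ (Matrix.of fun a b => D a (y b)) F, ← h1]
  have h6 : GeR v (-(W * c + e * l))
      (aeval (fun x : Ix m n => T x.1 (fun s => D (x.2 s))) Q) := by
    rw [h5]
    refine ((GeR.pow h2 W).mul h3).mono (le_of_eq ?_)
    ring
  exact h6

end

end Secv

theorem t_secv : S_SECV := by
  intro k K _ _ _ _ hess n _ htr ι _ m T a W e Q hQ hQe v hv c l hT D hD
  exact Secv.sec_at hess htr hv hT hQ hQe D hD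

end Pool.Agent.N133.TB
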