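import Pool.Agent.Y174.BDefs

/-!
Project TB (tensor Bochner principle): definitions and statements.
-/

set_option autoImplicit false
set_option linter.overlappingInstances false
set_option linter.unusedSectionVars false

open MvPolynomial

namespace Pool.Agent.N133.TB

section

variable {ι : Type} {n : ℕ}

/-- families of tensors of degrees `m i`, given by their coefficients -/
abbrev Fam (m : ι → ℕ) (n : ℕ) (R : Type) : Type := (i : ι) → (Fin (m i) → Fin n) → R

/-- the set of the coefficients -/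
abbrev Ix (m : ι → ℕ) (n : ℕ) : Type := (i : ι) × (Fin (m i) → Fin n)

/-- the family as a point -/
def pt {m : ι → ℕ} {R : Type} (t : Fam m n R) : Ix m n → R := fun x => t x.1 x.2

/-- the family and a number as a point -/
def pto {m : ι → ℕ} {R : Type} (t : Fam m n R) (d : R) : Option (Ix m n) → R :=
  fun o => o.elim d (pt t)

/-- linear substitution: if `t i I = T i (e (I 0), e (I 1), ...)`, then `act A t` are the
coefficients for the vectors `f j = ∑ l, A j l • e l`. -/
def act {m : ι → ℕ} {R : Type} [CommRing R] (A : Matrix (Fin n) (Fin n) R) (t : Fam m n R) :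
    Fam m n R := fun i J => ∑ I : Fin (m i) → Fin n, (∏ s, A (J s) (I s)) * t i I

/-- `Q` is a semi-invariant of weight `W`. -/
def SemiInv (k : Type) [Field k] (m : ι → ℕ) (n W : ℕ) (Q : MvPolynomial (Ix m n) k) : Prop :=
  ∀ (L : Type) [Field L] [Algebra k L] (A : Matrix (Fin n) (Fin n) L) (t : Fam m n L),
    aeval (pt (act A t)) Q = A.det ^ W * aeval (pt t) Q

/-- `(z, 1)` is in the closure of the orbit of `(t, 1)` -/
def InCl {m : ι → ℕ} {L : Type} [Field L] (t z : Fam m n L) : Prop :=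
  ∀ P : MvPolynomial (Option (Ix m n)) L,
    (∀ g : Matrix (Fin n) (Fin n) L, eval (pto (act g t) g.det) P = 0) → eval (pto z 1) P = 0

/-- stability (Hilbert-Mumford): `t ≠ 0`, and no one-parameter group other than the trivial one of
the special linear group has only nonnegative weights on `t`. -/
def StableFam {m : ι → ℕ} {L : Type} [Field L] (t : Fam m n L) : Prop :=
  t ≠ 0 ∧ ∀ A : Matrix (Fin n) (Fin n) L, A.det ≠ 0 → ∀ w : Fin n → ℤ, ∑ i, w i = 0 →
    (∀ i J, ∑ s, w (J s) < 0 → act A t i J = 0) → w = 0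

end

/-- the linear functional with the values `l s` on the monomials -/
noncomputable def lam {n : ℕ} {R : Type} [CommRing R] (l : ((Fin n × Fin n) →₀ ℕ) → ℤ)
    (f : MvPolynomial (Fin n × Fin n) R) : R := ∑ s ∈ f.support, f.coeff s * (l s : R)

/-- LAM: the invariant integral (Cayley's omega process) -/
def S_LAM : Prop :=
  ∀ n M : ℕ, ∃ l : ((Fin n × Fin n) →₀ ℕ) → ℤ,
    (∀ (R : Type) [CommRing R] (f : MvPolynomial (Fin n × Fin n) R), f.IsHomogeneous (n * M) →
      ∀ h : Matrix (Fin n) (Fin n) R,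
        lam l (aeval (fun x : Fin n × Fin n =>
          (∑ j, X (x.1, j) * C (h j x.2) : MvPolynomial (Fin n × Fin n) R)) f) =
          h.det ^ M * lam l f) ∧
    lam l ((Matrix.of fun i j => (X (i, j) : MvPolynomial (Fin n × Fin n) ℤ)).det ^ M) ≠ 0

/-- SEP: families with the same semi-invariants have meeting orbit closures -/
def S_SEP : Prop :=
  ∀ (k L : Type) [Field k] [Field L] [Algebra k L] [CharZero k] [IsAlgClosed L] (ι : Type)
    [Finite ι] (m : ι → ℕ) (n : ℕ) (_ : 1 ≤ n) (t₁ t₂ : Fam m n L),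
    (∀ (W : ℕ) (Q : MvPolynomial (Ix m n) k), SemiInv k m n W Q →
      aeval (pt t₁) Q = aeval (pt t₂) Q) →
    ∃ z : Fam m n L, InCl t₁ z ∧ InCl t₂ z

/-- SMITH: elementary divisors over a valuation ring -/
def S_SMITH : Prop :=
  ∀ (F : Type) [Field F] (O : ValuationSubring F) (n : ℕ) (g : Matrix (Fin n) (Fin n) F),
    g.det ≠ 0 → ∃ (a b : Matrix (Fin n) (Fin n) O) (d : Fin n → F), IsUnit a.det ∧ IsUnit b.det ∧
      (∀ i, d i ≠ 0) ∧ g = a.map O.subtype * Matrix.diagonal d * b.map O.subtype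

/-- WT: integral weights -/
def S_WT : Prop :=
  ∀ (Γ : Type) [CommGroup Γ] [LinearOrder Γ] [IsOrderedMonoid Γ] (n N : ℕ) (γ : Fin n → Γ),
    ∃ w : Fin n → ℤ, ∀ c : Fin n → ℤ, (∀ i, |c i| ≤ N) →
      (1 < ∏ i, γ i ^ c i → 0 < ∑ i, w i * c i) ∧ (∏ i, γ i ^ c i = 1 → ∑ i, w i * c i = 0)

/-- VAL: a valuation ring with the given centre -/
def S_VAL : Prop :=
  ∀ (L F : Type) [Field L] [Field F] [Algebra L F] (σ : Type) (y : σ → F) (z : σ → L),
    (∀ P : MvPolynomial σ L, aeval y P = 0 → eval z P = 0) →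
    ∃ O : ValuationSubring F, (∀ c : L, algebraMap L F c ∈ O) ∧
      ∀ s, O.valuation (y s - algebraMap L F (z s)) < 1

/-- DESC: Nullstellensatz -/
def S_DESC : Prop :=
  ∀ (L Ω : Type) [Field L] [Field Ω] [Algebra L Ω] [IsAlgClosed L] (σ : Type) [Finite σ]
    (x : σ → Ω) (Z : Set (MvPolynomial σ L)) (q : MvPolynomial σ L), (∀ P ∈ Z, aeval x P = 0) →
    aeval x q ≠ 0 → ∃ x' : σ → L, (∀ P ∈ Z, eval x' P = 0) ∧ eval x' q ≠ 0

/-- HM: the criterion of Hilbert and Mumford -/
def S_HM : Prop :=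
  ∀ (L : Type) [Field L] [IsAlgClosed L] [CharZero L] (ι : Type) [Finite ι] (m : ι → ℕ) (n : ℕ)
    (_ : 1 ≤ n) (t z : Fam m n L), InCl t z →
    ∃ (A B : Matrix (Fin n) (Fin n) L) (w : Fin n → ℤ), A.det ≠ 0 ∧ B.det ≠ 0 ∧ ∑ i, w i = 0 ∧
      (∀ i J, (∑ s, w (J s) < 0 → act A t i J = 0) ∧ (0 < ∑ s, w (J s) → act B z i J = 0) ∧
        (∑ s, w (J s) = 0 → (act A t i J = 0 ↔ act B z i J = 0))) ∧
      (w = 0 → act A t = act B z)

section

open FF Pool.Agent.W619.PQ Pool.Agent.Y174

universe u v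

variable {k : Type v} {K : Type u} [Field k] [Field K] [Algebra k K]

/-- The `m`-linear tensor differential `T` on the variety of dimension `n` with function field `K` is
a section of the orbifold with the multiplicities `δ v`: along each prime divisor `v` over the
variety, if the vector fields `D j` are regular along `v` and, for `j` not in `S`, tangent to `v`,
then `T D` has order at least `- |S| δ v` along `v`. -/
def TensorOrb (n : ℕ) (δ : Place k K → ℝ) {m : ℕ}
    (T : MultilinearMap K (fun _ : Fin m => Derivation k K K) K) : Prop :=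
  ∀ v : Place k K, IsDivisorial v n → ∀ (D : Fin m → Derivation k K K) (S : Finset (Fin m)),
    (∀ j f, v.Reg f → v.Reg (D j f)) → (∀ j, j ∉ S → ∀ f, v.Reg (D j f / f)) →
      T D = 0 ∨ -(S.card * δ v) ≤ (v.ord (T D) : ℝ)

variable (k K)

/-- the ratios of the pluricanonical sections of the pair of the same weight -/
def PairRatio (n : ℕ) (δ : Place k K → ℝ) : Set K :=
  {f | ∃ (m : ℕ) (ω ω' : (Fin n → Derivation k K K) → K) (D : Fin n → Derivation k K K), 1 ≤ m ∧
    PairSec k K n δ {1} m 0 ω ∧ PairSec k K n δ {1} m 0 ω' ∧ ω' D ≠ 0 ∧ f = ω D / ω' D}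

end

/-- SEC: a semi-invariant of tensor differentials of a pair is a pluricanonical section -/
def S_SEC : Prop :=
  ∀ (k K : Type) [Field k] [Field K] [Algebra k K] [CharZero k], Algebra.EssFiniteType k K →
    ∀ (n : ℕ) (_ : 1 ≤ n) (_ : Algebra.trdeg k K = n) (δ : FF.Place k K → ℝ) (ι : Type) [Finite ι]
      (m : ι → ℕ) (T : (i : ι) → MultilinearMap K (fun _ : Fin (m i) => Derivation k K K) K),
      (∀ i, TensorOrb n δ (T i)) → ∀ (W : ℕ) (Q : MvPolynomial (Ix m n) k), SemiInv k m n W Q → 1 ≤ W →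
        Pool.Agent.Y174.PairSec k K n δ {1} W 0
          (fun D => aeval (fun x : Ix m n => T x.1 (fun s => D (x.2 s))) Q)

/-- RATIO: the Kodaira dimension is the transcendence degree of the field of the ratios -/
def S_RATIO : Prop :=
  ∀ (k K : Type) [Field k] [Field K] [Algebra k K] [CharZero k], Algebra.EssFiniteType k K →
    ∀ (n : ℕ) (_ : Algebra.trdeg k K = n) (δ : FF.Place k K → ℝ),
      Pool.Agent.Y174.PairKod k K n δ 0 → ∃ κ : ℕ, Pool.Agent.Y174.PairKod k K n δ κ ∧
        ¬ Pool.Agent.Y174.PairKod k K n δ (κ + 1) ∧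
        Algebra.trdeg k (IntermediateField.adjoin k (PairRatio k K n δ)) = κ

end Pool.Agent.N133.TB
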