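import Pool.Agent.N133.TB.Stm

/-!
Project TB, second part: the optimal filtration of an unstable family (Kempf). Definitions and
statements.
-/

set_option autoImplicit false
set_option linter.overlappingInstances false
set_option linter.unusedSectionVars false

open MvPolynomial

namespace Pool.Agent.N133.TB

section

variable {ι : Type} {n : ℕ}

/-- extension of scalars -/
def mapF {m : ι → ℕ} {K L : Type} [Field K] [Field L] [Algebra K L] (t : Fam m n K) : Fam m n L :=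
  fun i J => algebraMap K L (t i J)

/-- the family `t` has, in the basis given by the rows of `A`, only nonzero coefficients of weight at
least `μ` -/
def WtGe {m : ι → ℕ} {L : Type} [Field L] (t : Fam m n L) (A : Matrix (Fin n) (Fin n) L)
    (w : Fin n → ℝ) (μ : ℝ) : Prop := ∀ i J, ∑ s, w (J s) < μ → act A t i J = 0

/-- the filtration of the weighted basis: the span of the rows of `A` of weight at most `a` -/
def Filt {L : Type} [Field L] (A : Matrix (Fin n) (Fin n) L) (w : Fin n → ℝ) (a : ℝ) :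
    Submodule L (Fin n → L) := Submodule.span L {v | ∃ j, w j ≤ a ∧ v = A j}

/-- `(A, w)` is optimal for `t`: `∑ w = 0`, `∑ w ^ 2 = 1`, the weights of `t` are at least `μ`, and
no weighted basis with `∑ w = 0` and `∑ w ^ 2 = 1` is better. -/
def Optimal {m : ι → ℕ} {L : Type} [Field L] (t : Fam m n L) (A : Matrix (Fin n) (Fin n) L)
    (w : Fin n → ℝ) (μ : ℝ) : Prop :=
  A.det ≠ 0 ∧ ∑ i, w i = 0 ∧ ∑ i, w i ^ 2 = 1 ∧ WtGe t A w μ ∧
    ∀ (A' : Matrix (Fin n) (Fin n) L) (w' : Fin n → ℝ) (μ' : ℝ), A'.det ≠ 0 → ∑ i, w' i = 0 →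
      ∑ i, w' i ^ 2 = 1 → WtGe t A' w' μ' → μ' ≤ μ

end

/-- FLAG: two weighted bases have a common adapted basis -/
def S_FLAG : Prop :=
  ∀ (L : Type) [Field L] (n : ℕ) (A A' : Matrix (Fin n) (Fin n) L) (w w' : Fin n → ℝ),
    A.det ≠ 0 → A'.det ≠ 0 → ∃ (f : Matrix (Fin n) (Fin n) L) (σ σ' : Equiv.Perm (Fin n)),
      f.det ≠ 0 ∧ (∀ j, f j ∈ Filt A w (w (σ j))) ∧ ∀ j, f j ∈ Filt A' w' (w' (σ' j))

/-- OPT: an unstable family has an optimal weighted basis -/
def S_OPT : Prop :=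
  ∀ (L : Type) [Field L] (ι : Type) [Finite ι] (m : ι → ℕ) (n : ℕ) (t : Fam m n L), t ≠ 0 →
    (∃ (A : Matrix (Fin n) (Fin n) L) (w : Fin n → ℤ), A.det ≠ 0 ∧ ∑ i, w i = 0 ∧
      ∀ i J, ∑ s, w (J s) ≤ 0 → act A t i J = 0) →
    ∃ (A : Matrix (Fin n) (Fin n) L) (w : Fin n → ℝ) (μ : ℝ), 0 < μ ∧ Optimal t A w μ

/-- UNIQ: the filtration is unique -/
def S_UNIQ : Prop :=
  ∀ (L : Type) [Field L] (ι : Type) (m : ι → ℕ) (n : ℕ) (t : Fam m n L)
    (A A' : Matrix (Fin n) (Fin n) L) (w w' : Fin n → ℝ) (μ : ℝ), 0 < μ → Optimal t A w μ →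
    Optimal t A' w' μ → ∀ a, Filt A w a = Filt A' w' a

/-- GAL: Galois descent of a subspace -/
def S_GAL : Prop :=
  ∀ (K L : Type) [Field K] [Field L] [Algebra K L] [CharZero K] [IsAlgClosure K L] (n : ℕ)
    (V : Submodule L (Fin n → L)), (∀ σ : L ≃ₐ[K] L, ∀ v ∈ V, (fun j => σ (v j)) ∈ V) →
    V = Submodule.span L ((fun v : Fin n → K => fun j => algebraMap K L (v j)) ''
      {v | (fun j => algebraMap K L (v j)) ∈ V})

/-- KEMPF: the optimal filtration is defined over the base field -/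
def S_KEMPF : Prop :=
  ∀ (K L : Type) [Field K] [Field L] [Algebra K L] [CharZero K] [IsAlgClosure K L] (ι : Type)
    [Finite ι] (m : ι → ℕ) (n : ℕ) (t : Fam m n K), t ≠ 0 →
    (∃ (A : Matrix (Fin n) (Fin n) L) (w : Fin n → ℤ), A.det ≠ 0 ∧ ∑ i, w i = 0 ∧
      ∀ i J, ∑ s, w (J s) ≤ 0 → act A (mapF t) i J = 0) →
    ∃ (B : Matrix (Fin n) (Fin n) K) (w : Fin n → ℝ) (μ : ℝ), 0 < μ ∧
      Optimal (mapF t : Fam m n L) (B.map (algebraMap K L)) w μ

end Pool.Agent.N133.TB
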