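import Pool.Agent.N133.TB.Stm
import Pool.Agent.N133.OB9

/-!
Project TB, third part: fibrations. Statements.
-/

set_option autoImplicit false
set_option linter.overlappingInstances false
set_option linter.unusedSectionVars false

open MvPolynomial FF Pool.Agent.W619.PQ Pool.Agent.Y174 Pool.Agent.N133.OB

namespace Pool.Agent.N133.TB

/-- BD1: the product of a relative and a base form at a place which is trivial on the base -/
def S_BD1 : Prop :=
  ∀ (L K : Type) [Field L] [Field K] [Algebra ℂ L] [Algebra ℂ K] [Algebra L K]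
    [IsScalarTower ℂ L K], Algebra.EssFiniteType ℂ K → ∀ (d r : ℕ) (_ : 1 ≤ r)
    (_ : Algebra.trdeg ℂ L = d) (_ : Algebra.trdeg ℂ K = (d + r : ℕ)) (t : Fin d → L)
    (_ : IsTranscendenceBasis ℂ t) (x : Fin r → K) (_ : IsTranscendenceBasis L x)
    (G : Fin d → Derivation ℂ L L) (_ : ∀ i j, G i (t j) = if i = j then 1 else 0)
    (E : Fin r → Derivation L K K) (_ : ∀ i j, E i (x j) = if i = j then 1 else 0)
    (W s : ℕ) (ρ : (Fin r → Derivation L K K) → K) (θ : (Fin d → Derivation ℂ L L) → L),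
    IsPluriForm L K r W ρ → IsPluriForm ℂ L d s θ → ∀ P : Place ℂ K, IsDivisorial P (d + r) →
    ∀ c : ℝ, (∀ f : L, f ≠ 0 → P.ord (algebraMap L K f) = 0) →
    (∀ F : Fin r → Derivation L K K, (∀ j f, P.Reg f → P.Reg (F j f)) →
      ρ F = 0 ∨ -(W * c) ≤ (P.ord (ρ F) : ℝ)) →
    ∀ D : Fin (d + r) → Derivation ℂ K K, (∀ j f, P.Reg f → P.Reg (D j f)) →
      formOf (Fin.append (algebraMap L K ∘ t) x) (s * W)
          (ρ E ^ s * algebraMap L K (θ G) ^ W) D = 0 ∨
        -((s * W : ℕ) * c) ≤ (P.ord (formOf (Fin.append (algebraMap L K ∘ t) x) (s * W)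
          (ρ E ^ s * algebraMap L K (θ G) ^ W) D) : ℝ)

/-- BD2: the product of a relative and a base form at a place which lies over a place of the base -/
def S_BD2 : Prop :=
  ∀ (L K : Type) [Field L] [Field K] [Algebra ℂ L] [Algebra ℂ K] [Algebra L K]
    [IsScalarTower ℂ L K], Algebra.EssFiniteType ℂ K → ∀ (d r : ℕ) (_ : 1 ≤ r)
    (_ : Algebra.trdeg ℂ L = d) (_ : Algebra.trdeg ℂ K = (d + r : ℕ)) (t : Fin d → L)
    (_ : IsTranscendenceBasis ℂ t) (x : Fin r → K) (_ : IsTranscendenceBasis L x)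
    (G : Fin d → Derivation ℂ L L) (_ : ∀ i j, G i (t j) = if i = j then 1 else 0)
    (E : Fin r → Derivation L K K) (_ : ∀ i j, E i (x j) = if i = j then 1 else 0)
    (W s : ℕ) (ρ : (Fin r → Derivation L K K) → K) (θ : (Fin d → Derivation ℂ L L) → L),
    IsPluriForm L K r W ρ → IsPluriForm ℂ L d s θ → ∀ P : Place ℂ K, IsDivisorial P (d + r) →
    ∀ (c b : ℝ) (Q : Place ℂ L) (e : ℕ), LiesOn P Q e → 1 - c ≤ e * (1 - b) →
    (∀ F : Fin r → Derivation L K K, (∀ j f, P.Reg f → P.Reg (F j f)) →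
      ρ F = 0 ∨ 0 ≤ (P.ord (ρ F) : ℝ)) →
    (IsDivisorial Q d → ∀ H : Fin d → Derivation ℂ L L, (∀ j f, Q.Reg f → Q.Reg (H j f)) →
      θ H = 0 ∨ -(s * b) ≤ (Q.ord (θ H) : ℝ)) →
    ∀ D : Fin (d + r) → Derivation ℂ K K, (∀ j f, P.Reg f → P.Reg (D j f)) →
      formOf (Fin.append (algebraMap L K ∘ t) x) (s * W)
          (ρ E ^ s * algebraMap L K (θ G) ^ W) D = 0 ∨
        -((s * W : ℕ) * c) ≤ (P.ord (formOf (Fin.append (algebraMap L K ∘ t) x) (s * W)
          (ρ E ^ s * algebraMap L K (θ G) ^ W) D) : ℝ)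

/-- TAN: a vertical vector field which is regular along a vertical prime divisor is tangent to it -/
def S_TAN : Prop :=
  ∀ (L K : Type) [Field L] [Field K] [Algebra ℂ L] [Algebra ℂ K] [Algebra L K]
    [IsScalarTower ℂ L K] (P : Place ℂ K) (Q : Place ℂ L) (e : ℕ), LiesOn P Q e →
    ∀ F : Derivation L K K, (∀ f, P.Reg f → P.Reg (F f)) → ∀ f, P.Reg (F f / f)

end Pool.Agent.N133.TB
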