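import Pool.Agent.N133.TB.Stm2
import Mathlib.RingTheory.MvPolynomial.WeightedHomogeneous

/-!
Project TB, fourth part: tensors with values in a divisor. Definitions and statements.
-/

set_option autoImplicit false
set_option linter.overlappingInstances false
set_option linter.unusedSectionVars false

open MvPolynomial FF Pool.Agent.W619.PQ Pool.Agent.Y174

namespace Pool.Agent.N133.TB

/-- HOMD: the weighted homogeneous components of a semi-invariant are semi-invariants -/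
def S_HOMD : Prop :=
  ∀ (k : Type) [Field k] [CharZero k] (ι : Type) [Finite ι] (m : ι → ℕ) (n W : ℕ)
    (Q : MvPolynomial (Ix m n) k) (a : ι → ℕ) (e : ℕ), SemiInv k m n W Q →
    SemiInv k m n W (weightedHomogeneousComponent (fun x : Ix m n => a x.1) e Q)

/-- SECV: the order of a semi-invariant of tensors with values in the multiples of a divisor -/
def S_SECV : Prop :=
  ∀ (k K : Type) [Field k] [Field K] [Algebra k K] [CharZero k], Algebra.EssFiniteType k K →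
    ∀ (n : ℕ) (_ : 1 ≤ n) (_ : Algebra.trdeg k K = n) (ι : Type) [Finite ι] (m : ι → ℕ)
      (T : (i : ι) → MultilinearMap K (fun _ : Fin (m i) => Derivation k K K) K) (a : ι → ℕ)
      (W e : ℕ) (Q : MvPolynomial (Ix m n) k), SemiInv k m n W Q →
      IsWeightedHomogeneous (fun x : Ix m n => a x.1) Q e →
      ∀ v : Place k K, IsDivisorial v n → ∀ c l : ℝ,
        (∀ (i : ι) (D : Fin (m i) → Derivation k K K) (S : Finset (Fin (m i))),
          (∀ j f, v.Reg f → v.Reg (D j f)) → (∀ j, j ∉ S → ∀ f, v.Reg (D j f / f)) →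
            T i D = 0 ∨ -(S.card * c + a i * l) ≤ (v.ord (T i D) : ℝ)) →
        ∀ D : Fin n → Derivation k K K, (∀ j f, v.Reg f → v.Reg (D j f)) →
          aeval (fun x : Ix m n => T x.1 (fun s => D (x.2 s))) Q = 0 ∨
            -(W * c + e * l) ≤ (v.ord (aeval (fun x : Ix m n => T x.1 (fun s => D (x.2 s))) Q) : ℝ)

section

variable {ι : Type} {n : ℕ}

/-- the family `t` has, in the basis given by the rows of `A`, only nonzero coefficients of weight at
least `c i * μ` -/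
def WtGeC {m : ι → ℕ} {L : Type} [Field L] (c : ι → ℝ) (t : Fam m n L)
    (A : Matrix (Fin n) (Fin n) L) (w : Fin n → ℝ) (μ : ℝ) : Prop :=
  ∀ i J, ∑ s, w (J s) < c i * μ → act A t i J = 0

/-- `(A, w)` is optimal for `t` with the thresholds `c` -/
def OptimalC {m : ι → ℕ} {L : Type} [Field L] (c : ι → ℝ) (t : Fam m n L)
    (A : Matrix (Fin n) (Fin n) L) (w : Fin n → ℝ) (μ : ℝ) : Prop :=
  A.det ≠ 0 ∧ ∑ i, w i = 0 ∧ ∑ i, w i ^ 2 = 1 ∧ WtGeC c t A w μ ∧
    ∀ (A' : Matrix (Fin n) (Fin n) L) (w' : Fin n → ℝ) (μ' : ℝ), A'.det ≠ 0 → ∑ i, w' i = 0 →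
      ∑ i, w' i ^ 2 = 1 → WtGeC c t A' w' μ' → μ' ≤ μ

/-- a family which is unstable relative to its part with threshold `0` -/
def NullC {m : ι → ℕ} {L : Type} [Field L] (c : ι → ℝ) (t : Fam m n L) : Prop :=
  ∃ (A : Matrix (Fin n) (Fin n) L) (w : Fin n → ℤ), A.det ≠ 0 ∧ ∑ i, w i = 0 ∧
    ∀ i J, (∑ s, w (J s) < 0 → act A t i J = 0) ∧ (0 < c i → ∑ s, w (J s) ≤ 0 → act A t i J = 0)

end

/-- OPTC: existence of an optimal weighted basis -/
def S_OPTC : Prop :=
  ∀ (L : Type) [Field L] (ι : Type) [Finite ι] (m : ι → ℕ) (n : ℕ) (t : Fam m n L) (c : ι → ℝ),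
    (∀ i, 0 ≤ c i) → (∃ i, 0 < c i ∧ t i ≠ 0) → NullC c t →
    ∃ (A : Matrix (Fin n) (Fin n) L) (w : Fin n → ℝ) (μ : ℝ), 0 < μ ∧ OptimalC c t A w μ

/-- UNIQC: the filtration is unique -/
def S_UNIQC : Prop :=
  ∀ (L : Type) [Field L] (ι : Type) (m : ι → ℕ) (n : ℕ) (t : Fam m n L) (c : ι → ℝ),
    (∀ i, 0 ≤ c i) → (∃ i, 0 < c i ∧ t i ≠ 0) → ∀ (A A' : Matrix (Fin n) (Fin n) L)
    (w w' : Fin n → ℝ) (μ : ℝ), 0 < μ → OptimalC c t A w μ → OptimalC c t A' w' μ →
    ∀ a, Filt A w a = Filt A' w' a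

/-- KEMPFC: the optimal filtration is defined over the base field -/
def S_KEMPFC : Prop :=
  ∀ (K L : Type) [Field K] [Field L] [Algebra K L] [CharZero K] [IsAlgClosure K L] (ι : Type)
    [Finite ι] (m : ι → ℕ) (n : ℕ) (t : Fam m n K) (c : ι → ℝ), (∀ i, 0 ≤ c i) →
    (∃ i, 0 < c i ∧ t i ≠ 0) → NullC c (mapF t : Fam m n L) →
    ∃ (B : Matrix (Fin n) (Fin n) K) (w : Fin n → ℝ) (μ : ℝ), 0 < μ ∧
      OptimalC c (mapF t : Fam m n L) (B.map (algebraMap K L)) w μ

end Pool.Agent.N133.TB
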