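import Pool.Agent.N133.TB.TwG

/-!
Project TB: the invariant distribution for tensors with values in the multiples of the canonical
divisor.
-/

set_option autoImplicit false
set_option linter.overlappingInstances false
set_option linter.unusedSectionVars false

open MvPolynomial FF Pool.Agent.W602.GT Pool.Agent.W603.LV Pool.Agent.W619.PQ Pool.Agent.Y172
  Pool.Agent.Y191 Pool.Agent.Y174 Pool.Agent.N133.OB Pool.Agent.TH466.QG

namespace Pool.Agent.N133.TB

section

open Pool.Agent.W619.PQ Pool.Agent.W619.PL Pool.Agent.W619.TW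
  Pool.Agent.W603.LV Pool.Agent.W619.Y Pool.Agent.W824.PG

variable {K : Type} [Field K] [Algebra ℂ K] {n : ℕ}

/-- The tensor `T ⊗ η ^ a`, where `η` is a rational `n`-form, is a section of the orbifold with the
multiplicities `δ v`, with values in the `a`-fold log canonical divisor: along each prime divisor `v`
over the variety, if the vector fields `D j` and `B j` are regular along `v` and, for `j` not in `S`,
`D j` is tangent to `v`, then `T D * η B ^ a` has order at least `- (|S| + a) δ v` along `v`. -/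
def TensorTw (n : ℕ) (δ : Place ℂ K → ℝ) (η : (Fin n → Derivation ℂ K K) → K) (a : ℕ) {m : ℕ}
    (T : MultilinearMap K (fun _ : Fin m => Derivation ℂ K K) K) : Prop :=
  ∀ v : Place ℂ K, IsDivisorial v n → ∀ (D : Fin m → Derivation ℂ K K) (S : Finset (Fin m)),
    (∀ j f, v.Reg f → v.Reg (D j f)) → (∀ j, j ∉ S → ∀ f, v.Reg (D j f / f)) →
      ∀ B : Fin n → Derivation ℂ K K, (∀ j f, v.Reg f → v.Reg (B j f)) →
        T D * η B ^ a = 0 ∨ -((S.card + a) * δ v) ≤ (v.ord (T D * η B ^ a) : ℝ)

/-- the order of a rational form along a prime divisor -/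
theorem form_ord (hess : Algebra.EssFiniteType ℂ K) (hn : Algebra.trdeg ℂ K = n) {v : Place ℂ K}
    (hv : IsDivisorial v n) {η : (Fin n → Derivation ℂ K K) → K} (hη : IsPluriForm ℂ K n 1 η)
    (hη0 : η ≠ 0) : ∃ B : Fin n → Derivation ℂ K K, (∀ j f, v.Reg f → v.Reg (B j f)) ∧ η B ≠ 0 ∧
      ∀ D : Fin n → Derivation ℂ K K, (∀ j f, v.Reg f → v.Reg (D j f)) →
        η D = 0 ∨ v.ord (η B) ≤ v.ord (η D) := by
  classical
  obtain ⟨y, F, i0, hy, hF, ht, hyr, hpres⟩ := Pool.Agent.Y174.pFRAME ℂ K n hn
    (fun y hy => fin_adj hess y hy) v hv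
  have hexp : ∀ D : Fin n → Derivation ℂ K K, η D = (Matrix.of fun a b => D a (y b)).det * η F := by
    intro D
    have h1 : D = fun i => ∑ j, (Matrix.of fun a b => D a (y b)) i j • F j := by
      funext i
      exact (Pool.Agent.W73.PG.PULL.expand y hy F hF (D i)).symm
    have h2 := hη (Matrix.of fun a b => D a (y b)) F
    rw [← h1, pow_one] at h2
    exact h2
  have hF0 : η F ≠ 0 := by
    intro h
    apply hη0
    funext D
    rw [hexp D, h, mul_zero]
    rfl
  refine ⟨F, fun j f hf => hpres j f hf, hF0, fun D hD => ?_⟩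
  by_cases hd : (Matrix.of fun a b => D a (y b)).det = 0
  · left
    rw [hexp D, hd, zero_mul]
  · right
    rw [hexp D, v.ord_mul hd hF0]
    have h3 := Pool.Agent.W619.PQ.ge_det v (Matrix.of fun a b => D a (y b))
      fun a b => hD a _ (hyr b)
    have h4 : 0 ≤ v.ord (Matrix.of fun a b => D a (y b)).det := by
      rcases h3 with h3 | h3
      · exact absurd h3 hd
      · exact h3
    linarith

/-- the pull-back of a rational form under an automorphism -/
theorem form_pull (hn : Algebra.trdeg ℂ K = n) {η : (Fin n → Derivation ℂ K K) → K}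
    (hη : IsPluriForm ℂ K n 1 η) (hη0 : η ≠ 0) (φ : K ≃ₐ[ℂ] K) :
    ∃ g : K, g ≠ 0 ∧ ∀ B : Fin n → Derivation ℂ K K,
      φ.symm (η fun j => pushD φ (B j)) = g * η B := by
  classical
  obtain ⟨E, hE, hs⟩ := exists_frame hn
  have hpl : ∀ (A : Matrix (Fin n) (Fin n) K) (B : Fin n → Derivation ℂ K K),
      φ.symm (η fun j => pushD φ (∑ l, A j l • B l)) =
        A.det * φ.symm (η fun j => pushD φ (B j)) := by
    intro A B
    have h1 : (fun j => pushD φ (∑ l, A j l • B l)) =
        fun j => ∑ l, (A.map φ) j l • pushD φ (B l) := by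
      funext j
      let Ψ : Derivation ℂ K K →+ Derivation ℂ K K :=
        { toFun := pushD φ
          map_zero' := pushD_zero _
          map_add' := pushD_add _ }
      have h2 : pushD φ (∑ l, A j l • B l) = Ψ (∑ l, A j l • B l) := rfl
      rw [h2, map_sum]
      refine Finset.sum_congr rfl fun l _ => ?_
      change pushD φ (A j l • B l) = _
      rw [pushD_smul]
      rfl
    have h3 := hη (A.map φ) (fun l => pushD φ (B l))
    rw [h1, h3, map_mul, pow_one]
    congr 1
    have h4 : (A.map φ).det = φ A.det := by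
      have := (RingHom.map_det (φ : K →+* K) A).symm
      exact this
    rw [h4, AlgEquiv.symm_apply_apply]
  have hfr := frame_of_indep hn hE
  have hηE : η E ≠ 0 := by
    intro h
    apply hη0
    funext D
    choose A hA using fun i => hfr (D i)
    have h1 : D = fun i => ∑ j, Matrix.of A i j • E j := funext hA
    have h2 := hη (Matrix.of A) E
    rw [← h1, h, mul_zero] at h2
    exact h2
  have hex : ∀ B : Fin n → Derivation ℂ K K,
      φ.symm (η fun j => pushD φ (B j)) = (φ.symm (η fun j => pushD φ (E j)) / η E) * η B := by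
    intro B
    choose A hA using fun i => hfr (B i)
    have h1 : B = fun i => ∑ j, Matrix.of A i j • E j := funext hA
    have h2 := hη (Matrix.of A) E
    have h3 := hpl (Matrix.of A) E
    rw [← h1, pow_one] at h2
    have h4 : (fun j => pushD φ (B j)) = fun j => pushD φ (∑ l, Matrix.of A j l • E l) := by
      funext j
      rw [congrFun h1 j]
    rw [h4, h3, h2]
    field_simp
  refine ⟨_, ?_, hex⟩
  intro hg
  apply hη0
  funext B
  have h1 := hex (fun j => pushD φ.symm (B j))
  rw [hg, zero_mul] at h1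
  have h2 := (map_eq_zero _).1 h1
  have h3 : (fun j => pushD φ (pushD φ.symm (B j))) = B := by
    funext j
    exact pushD_symm' φ (B j)
  rw [h3] at h2
  exact h2

/-- the pull-back of a twisted tensor -/
theorem tensorTw_pullT {δ : Place ℂ K → ℝ} (φ : K ≃ₐ[ℂ] K) (hφ : ∀ v, δ (pullPl φ v) = δ v)
    {η : (Fin n → Derivation ℂ K K) → K} {g : K}
    (hg : ∀ B : Fin n → Derivation ℂ K K, φ.symm (η fun j => pushD φ (B j)) = g * η B) {a m : ℕ}
    {T : MultilinearMap K (fun _ : Fin m => Derivation ℂ K K) K}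
    (hT : TensorTw n δ η a T) : TensorTw n δ η a (g ^ a • pullT φ T) := by
  intro v hv D S hD hS B hB
  have hord : ∀ x, (pullPl φ.symm v).ord x = v.ord (φ.symm x) := fun x => rfl
  have hδ : δ (pullPl φ.symm v) = δ v := by
    rw [← hφ (pullPl φ.symm v)]
    congr 1
    ext x
    change v.ord (φ.symm (φ x)) = v.ord x
    rw [AlgEquiv.symm_apply_apply]
  have h1 := hT (pullPl φ.symm v) (divisorial_pullPl φ.symm hv) (fun s => pushD φ (D s)) S
    (fun j f hf => by
      rw [reg_pullPl] at hf ⊢
      rw [pushD_apply, AlgEquiv.symm_apply_apply]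
      exact hD j _ hf)
    (fun j hj f => by
      rw [reg_pullPl, pushD_apply, map_div₀, AlgEquiv.symm_apply_apply]
      exact hS j hj _)
    (fun s => pushD φ (B s))
    (fun j f hf => by
      rw [reg_pullPl] at hf ⊢
      rw [pushD_apply, AlgEquiv.symm_apply_apply]
      exact hB j _ hf)
  have h2 : (g ^ a • pullT φ T) D * η B ^ a =
      φ.symm ((T fun s => pushD φ (D s)) * (η fun s => pushD φ (B s)) ^ a) := by
    rw [map_mul, map_pow, hg B, MultilinearMap.smul_apply, smul_eq_mul, pullT_apply, mul_pow]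
    ring
  rw [h2]
  rw [hord, hδ] at h1
  rcases h1 with h1 | h1
  · left
    rw [h1, map_zero]
  · right
    exact h1

/-- **The invariant distribution for twisted tensors.** -/
theorem tv_inv (hess : Algebra.EssFiniteType ℂ K) (hn : Algebra.trdeg ℂ K = n) (hn1 : 1 ≤ n)
    (δ : Place ℂ K → ℝ) (hκ : ¬ PairKod ℂ K n δ 0) {η : (Fin n → Derivation ℂ K K) → K}
    (hη : IsPluriForm ℂ K n 1 η) (hη0 : η ≠ 0) (M A : ℕ)
    (hM : ∃ m a : ℕ, 1 ≤ m ∧ m ≤ M ∧ a ≤ A ∧
      ∃ T : MultilinearMap K (fun _ : Fin m => Derivation ℂ K K) K,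
        TensorTw n δ η a T ∧ T ≠ 0) :
    ∃ F : Submodule K (Derivation ℂ K K), F ≠ ⊥ ∧ F ≠ ⊤ ∧
      (∀ φ : K ≃ₐ[ℂ] K, (∀ v, δ (pullPl φ v) = δ v) → ∀ D, pushD φ D ∈ F ↔ D ∈ F) ∧
      ∀ m a : ℕ, 1 ≤ m → m ≤ M → a ≤ A →
        ∀ T : MultilinearMap K (fun _ : Fin m => Derivation ℂ K K) K,
          TensorTw n δ η a T → ∀ D : Fin m → Derivation ℂ K K, (∀ j, D j ∈ F) → T D = 0 := by
  classical
  have hcz : CharZero K := charZero_of_injective_algebraMap (algebraMap ℂ K).injective
  obtain ⟨E, hE, hs⟩ := exists_frame hn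
  have hηE : η E ≠ 0 := by
    intro h
    apply hη0
    funext D
    choose A hA using fun i => frame_of_indep hn hE (D i)
    have h1 : D = fun i => ∑ j, Matrix.of A i j • E j := funext hA
    have h2 := hη (Matrix.of A) E
    rw [← h1, h, mul_zero] at h2
    exact h2
  have hfin : Module.Finite K (Derivation ℂ K K) :=
    ⟨⟨Finset.univ.image E, by rw [Finset.coe_image, Finset.coe_univ, Set.image_univ, hs]⟩⟩
  -- finitely many tensors
  have hex : ∀ d e : ℕ, ∃ b : Set (MultilinearMap K (fun _ : Fin d => Derivation ℂ K K) K),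
      b ⊆ {T | TensorTw n δ η e T} ∧ b.Finite ∧
        ∀ T, TensorTw n δ η e T → T ∈ Submodule.span K b := by
    intro d e
    obtain ⟨b, hb1, hb2, hb3⟩ := exists_linearIndependent K
      {T : MultilinearMap K (fun _ : Fin d => Derivation ℂ K K) K | TensorTw n δ η e T}
    refine ⟨b, hb1, hb3.setFinite, ?_⟩
    rw [hb2]
    exact fun T hT => Submodule.subset_span hT
  choose b hb1 hb2 hb3 using hex
  have hbf : ∀ d e, Finite (b d e) := fun d e => (hb2 d e).to_subtype
  let ι : Type := (i : Fin M) × (j : Fin (A + 1)) × b ((i : ℕ) + 1) (j : ℕ)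
  let deg : ι → ℕ := fun i => (i.1 : ℕ) + 1
  let tw : ι → ℕ := fun i => (i.2.1 : ℕ)
  let T : (i : ι) → MultilinearMap K (fun _ : Fin (deg i) => Derivation ℂ K K) K :=
    fun i => (i.2.2 : MultilinearMap K (fun _ : Fin ((i.1 : ℕ) + 1) => Derivation ℂ K K) K)
  have hT : ∀ i, TensorTw n δ η (tw i) (T i) := fun i => hb1 _ _ i.2.2.2
  have hT0 : ∃ i, T i ≠ 0 := by
    by_contra hcon
    push Not at hcon
    obtain ⟨m, a0, hm1, hmM, haA, T0, hT0, hne⟩ := hM
    obtain ⟨m', rfl⟩ : ∃ m', m = m' + 1 := ⟨m - 1, by omega⟩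
    apply hne
    have h1 : T0 ∈ Submodule.span K (b (m' + 1) a0) := hb3 _ _ _ hT0
    have h2 : Submodule.span K (b (m' + 1) a0) = ⊥ := by
      rw [Submodule.span_eq_bot]
      intro T' hT'
      exact hcon ⟨⟨m', by omega⟩, ⟨a0, by omega⟩, ⟨T', hT'⟩⟩
    rw [h2, Submodule.mem_bot] at h1
    exact h1
  -- the semi-invariants vanish
  have hnull := alg_null (k := ℂ) t_sep' t_hm' hn1 (m := deg) (fun i => Nat.succ_pos _)
    (t := mapF (L := AlgebraicClosure K) (co T E)) (fun W Q hW hQ => by
      have hcomp : ∀ e, aeval (pt (mapF (L := AlgebraicClosure K) (co T E)))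
          (weightedHomogeneousComponent (fun x : Ix deg n => tw x.1) e Q) = 0 := by
        intro e
        obtain ⟨Qe, hQedef⟩ : ∃ Qe, Qe =
          weightedHomogeneousComponent (fun x : Ix deg n => tw x.1) e Q := ⟨_, rfl⟩
        have hQe : IsWeightedHomogeneous (fun x : Ix deg n => tw x.1) Qe e := by
          rw [hQedef]
          exact weightedHomogeneousComponent_isWeightedHomogeneous e Q
        have hQs : SemiInv ℂ deg n W Qe := by
          rw [hQedef]
          exact my_homd ℂ ι deg n W Q tw e hQ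
        rw [← hQedef]
        have hval : aeval (pt (mapF (L := AlgebraicClosure K) (co T E))) Qe =
            algebraMap K (AlgebraicClosure K) (vl T Qe E) := aeval_coef' T E Qe
        rw [hval]
        by_contra h0
        have hv0 : vl T Qe E ≠ 0 := fun h => h0 (by rw [h, map_zero])
        apply hκ
        refine ⟨W + e, by omega, fun _ D => vl T Qe D * η D ^ e, fun _ => ⟨fun A D => ?_,
          fun v hv D hD => ?_⟩, E, fun _ => mul_ne_zero hv0 (pow_ne_zero _ hηE), ?_⟩
        · have h1 := sec_pluri T hQs A D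
          have h2 := hη A D
          change vl T Qe _ * η _ ^ e = _
          have h3 : vl T Qe (fun i => ∑ j, A i j • D j) = A.det ^ W * vl T Qe D := h1
          rw [h3, h2]
          ring
        · obtain ⟨B, hB, hB0, hBm⟩ := form_ord hess hn hv hη hη0
          have h3 := t_secv ℂ K hess n hn1 hn ι deg T tw W e Qe hQs hQe v hv (δ v)
            (δ v + v.ord (η B)) (fun i D' S hD' hS => by
              rcases hT i v hv D' S hD' hS B hB with h4 | h4
              · exact Or.inl ((mul_eq_zero.1 h4).resolve_right (pow_ne_zero _ hB0))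
              · by_cases h5 : T i D' = 0
                · exact Or.inl h5
                · right
                  rw [v.ord_mul h5 (pow_ne_zero _ hB0), v.ord_pow] at h4
                  push_cast at h4
                  linarith) D hD
          by_cases h4 : vl T Qe D * η D ^ e = 0
          · exact Or.inl h4
          right
          refine ⟨1, by simp, one_ne_zero, ?_⟩
          have h5 : vl T Qe D ≠ 0 := left_ne_zero_of_mul h4
          have h6 : η D ^ e ≠ 0 := right_ne_zero_of_mul h4
          have h7 := h3.resolve_left h5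
          rw [v.ord_mul h5 h6, v.ord_pow]
          have h8 : (e : ℝ) * v.ord (η B) ≤ e * v.ord (η D) := by
            rcases Nat.eq_zero_or_pos e with he | he
            · rw [he, Nat.cast_zero, zero_mul, zero_mul]
            · have h9 : η D ≠ 0 := fun h => h6 (by rw [h, zero_pow (by omega)])
              have h10 := (hBm D hD).resolve_left h9
              have h11 : (v.ord (η B) : ℝ) ≤ v.ord (η D) := by exact_mod_cast h10
              exact mul_le_mul_of_nonneg_left h11 (Nat.cast_nonneg _)
          have h12 : -(W * δ v + e * (δ v + v.ord (η B))) ≤ (v.ord (vl T Qe D) : ℝ) := h7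
          push_cast
          rw [zero_mul, zero_sub]
          linarith
        · exact algebraicIndependent_empty_type_iff.2 (algebraMap ℂ K).injective
      have h1 : Q = finsum fun e =>
          weightedHomogeneousComponent (fun x : Ix deg n => tw x.1) e Q :=
        (sum_weightedHomogeneousComponent _ Q).symm
      have hfin : (Function.support fun e =>
          weightedHomogeneousComponent (fun x : Ix deg n => tw x.1) e Q).Finite :=
        weightedHomogeneousComponent_finsupp Q
      rw [h1, finsum_eq_sum_of_support_subset _ (s := hfin.toFinset) (by simp), map_sum]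
      exact Finset.sum_eq_zero fun e _ => hcomp e)
  obtain ⟨f, w, μ, hμ, hwt, huniq⟩ := canon hE hs T hT0 hnull
  -- the family of the images is another optimal basis
  have himg : ∀ φ : K ≃ₐ[ℂ] K, (∀ v, δ (pullPl φ v) = δ v) →
      lvl K (fun j => pushD φ (f j)) w 0 = lvl K f w 0 := by
    intro φ hφ
    obtain ⟨g, hg0, hg⟩ := form_pull hn hη hη0 φ
    refine (huniq (fun j => pushD φ (f j)) w μ ⟨indep_pushD φ hwt.1, hwt.2.1, hwt.2.2.1,
      fun i J hJ => ?_⟩).2 rfl 0
    have h1 : TensorTw n δ η (tw i) (g ^ tw i • pullT φ (T i)) :=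
      tensorTw_pullT φ hφ hg (hT i)
    have h2 : g ^ tw i • pullT φ (T i) ∈
        Submodule.span K (b ((i.1 : ℕ) + 1) (i.2.1 : ℕ)) := hb3 _ _ _ h1
    have h3 : ∀ T' ∈ Submodule.span K (b ((i.1 : ℕ) + 1) (i.2.1 : ℕ)),
        T' (fun s => f (J s)) = 0 := by
      intro T' hT'
      induction hT' using Submodule.span_induction with
      | mem x hx => exact hwt.2.2.2 ⟨i.1, i.2.1, ⟨x, hx⟩⟩ J hJ
      | zero => rfl
      | add x y _ _ hx hy => rw [MultilinearMap.add_apply, hx, hy, add_zero]
      | smul r x _ hx => rw [MultilinearMap.smul_apply, hx, smul_zero]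
    have h4 := h3 _ h2
    rw [MultilinearMap.smul_apply, smul_eq_mul] at h4
    have h5 := (mul_eq_zero.1 h4).resolve_left (pow_ne_zero _ hg0)
    rw [pullT_apply] at h5
    exact (map_eq_zero _).1 h5
  refine ⟨lvl K f w 0, lvl_ne_bot hn1 hwt.1 hwt.2.1, lvl_ne_top hwt.1 hwt.2.1 hwt.2.2.1, ?_, ?_⟩
  · have hfwd : ∀ φ : K ≃ₐ[ℂ] K, (∀ v, δ (pullPl φ v) = δ v) → ∀ D, D ∈ lvl K f w 0 →
        pushD φ D ∈ lvl K f w 0 := by
      intro φ hφ D hD
      rw [← himg φ hφ]
      exact mem_push_lvl φ hD
    intro φ hφ D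
    refine ⟨fun h => ?_, hfwd φ hφ D⟩
    have h1 := hfwd φ.symm (fun v => by
      rw [← hφ (pullPl φ.symm v)]
      congr 1
      ext x
      change v.ord (φ.symm (φ x)) = v.ord x
      rw [AlgEquiv.symm_apply_apply]) _ h
    rwa [pushD_symm] at h1
  · intro m a0 hm1 hmM haA T0 hT0 D hD
    obtain ⟨m', rfl⟩ : ∃ m', m = m' + 1 := ⟨m - 1, by omega⟩
    have h1 : T0 ∈ Submodule.span K (b (m' + 1) a0) := hb3 _ _ _ hT0
    have h3 : ∀ T' ∈ Submodule.span K (b (m' + 1) a0), T' D = 0 := by
      intro T' hT'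
      induction hT' using Submodule.span_induction with
      | mem x hx =>
        exact vanish_lvl hμ hwt ⟨⟨m', by omega⟩, ⟨a0, by omega⟩, ⟨x, hx⟩⟩ D hD
      | zero => rfl
      | add x y _ _ hx hy => rw [MultilinearMap.add_apply, hx, hy, add_zero]
      | smul r x _ hx => rw [MultilinearMap.smul_apply, hx, smul_zero]
    exact h3 _ h1

end

end Pool.Agent.N133.TB
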