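import Pool.Agent.N133.TB.Inv
import Pool.Agent.N133.TB.Rel0
import Pool.Agent.N133.TB.Stm4

/-!
Project TB: tensors with values in the multiples of a divisor.
-/

set_option autoImplicit false
set_option linter.overlappingInstances false
set_option linter.unusedSectionVars false

open MvPolynomial FF Pool.Agent.W602.GT Pool.Agent.W603.LV Pool.Agent.W619.PQ Pool.Agent.Y172
  Pool.Agent.Y191 Pool.Agent.Y174 Pool.Agent.N133.OB

namespace Pool.Agent.N133.TB

section

variable {K : Type} [Field K] [Algebra ℂ K] {n N : ℕ} {y : Fin (N + 1) → K}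

/-- `T` is a (reflexive) tensor differential of the pair `(X, Δ)` with values in the divisor `L`:
along each prime divisor `P` of `X`, if the vector fields `D j` are regular along `P` and, for `j` not
in `S`, tangent to `P`, then `T D` has order at least `- (|S| Δ P + L P)` along `P`. -/
def IsTensorV (y : Fin (N + 1) → K) (Δ L : Place ℂ K → ℚ) {m : ℕ}
    (T : MultilinearMap K (fun _ : Fin m => Derivation ℂ K K) K) : Prop :=
  ∀ P, IsPrimeDivisor y P → ∀ (D : Fin m → Derivation ℂ K K) (S : Finset (Fin m)),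
    (∀ j, DerReg P (D j)) → (∀ j, j ∉ S → DerLog P (D j)) →
      T D = 0 ∨ -(S.card * Δ P + L P) ≤ (P.ord (T D) : ℚ)

/-- `f` is a section of the divisor `L` on `X` -/
def FunSec (y : Fin (N + 1) → K) (L : Place ℂ K → ℚ) (f : K) : Prop :=
  ∀ P, IsPrimeDivisor y P → f = 0 ∨ -(L P) ≤ (P.ord f : ℚ)

/-- the divisor `K_X + Δ` is `ℚ`-linearly trivial: the multiple `r (K_X + Δ)` is generated by the
form `η` -/
def GenBy (y : Fin (N + 1) → K) (n : ℕ) (Δ : Place ℂ K → ℚ) (r : ℕ)
    (η : (Fin n → Derivation ℂ K K) → K) : Prop :=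
  IsPluri r η ∧ ∀ P, IsPrimeDivisor y P → OrdEq P η (-(r * Δ P))

variable {ι : Type} {m : ι → ℕ}

/-- the values of a semi-invariant -/
noncomputable def vl (T : (i : ι) → MultilinearMap K (fun _ : Fin (m i) => Derivation ℂ K K) K)
    (Q : MvPolynomial (Ix m n) ℂ) (D : Fin n → Derivation ℂ K K) : K :=
  aeval (fun x : Ix m n => T x.1 (fun s => D (x.2 s))) Q

theorem aeval_coef' (T : (i : ι) → MultilinearMap K (fun _ : Fin (m i) => Derivation ℂ K K) K)
    (E : Fin n → Derivation ℂ K K) (Q : MvPolynomial (Ix m n) ℂ) :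
    aeval (pt (coef T E)) Q = algebraMap K (AlgebraicClosure K) (vl T Q E) := aeval_coef T E Q

/-- the function which belongs to a semi-invariant -/
noncomputable def fq (T : (i : ι) → MultilinearMap K (fun _ : Fin (m i) => Derivation ℂ K K) K)
    (η : (Fin n → Derivation ℂ K K) → K) (r W : ℕ) (Q : MvPolynomial (Ix m n) ℂ)
    (E : Fin n → Derivation ℂ K K) : K := vl T Q E ^ r / η E ^ W

/-- the function which belongs to a semi-invariant is a section of a multiple of `L` -/
theorem fq_sec (hSV : S_SECV) (hy : NormalModel y) (hn : Algebra.trdeg ℂ K = n) (hn1 : 1 ≤ n)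
    {Δ L : Place ℂ K → ℚ} {r : ℕ} {η : (Fin n → Derivation ℂ K K) → K} (hη : GenBy y n Δ r η)
    [Finite ι] {a : ι → ℕ}
    {T : (i : ι) → MultilinearMap K (fun _ : Fin (m i) => Derivation ℂ K K) K}
    (hT : ∀ i, IsTensorV y Δ (a i • L) (T i)) {W e : ℕ} {Q : MvPolynomial (Ix m n) ℂ}
    (hQ : SemiInv ℂ m n W Q) (hQe : IsWeightedHomogeneous (fun x : Ix m n => a x.1) Q e)
    {E : Fin n → Derivation ℂ K K} (hE : LinearIndependent K E) :
    FunSec y ((r * e) • L) (fq T η r W Q E) := by
  intro P hP
  have hess : Algebra.EssFiniteType ℂ K := hy.ess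
  obtain ⟨-, D, hD, hD0, hDord⟩ := hη.2 P hP
  have hfr := frame_of_indep hn hE
  -- the two frames
  choose A hA using fun i => hfr (D i)
  have e1 : (fun i => ∑ j, Matrix.of A i j • E j) = D := by
    funext i
    exact (hA i).symm
  have e2 := hη.1 (Matrix.of A) E
  have e3 := sec_pluri T hQ (Matrix.of A) E
  rw [e1] at e2 e3
  have hdet : (Matrix.of A).det ^ r ≠ 0 := fun h => hD0 (by rw [e2, h, zero_mul])
  have hfq : fq T η r W Q E = vl T Q D ^ r / η D ^ W := by
    have e3' : vl T Q D = (Matrix.of A).det ^ W * vl T Q E := e3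
    unfold fq
    rw [e2, e3', mul_pow, mul_pow, ← pow_mul, ← pow_mul, mul_comm W r]
    rw [mul_div_mul_left _ _ (by rw [pow_mul]; exact pow_ne_zero _ hdet)]
  rw [hfq]
  have h3 := hSV ℂ K hess n hn1 hn ι m T a W e Q hQ hQe P (hP.divisorial hy hn) (Δ P : ℝ) (L P : ℝ)
    (fun i D' S hD' hS => by
      rcases hT i P hP D' S (fun j => hD' j) (fun j hj => hS j hj) with h4 | h4
      · exact Or.inl h4
      · right
        rw [Pi.smul_apply, nsmul_eq_mul] at h4
        exact_mod_cast h4) D (fun j f hf => hD j f hf)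
  by_cases hv : vl T Q D = 0
  · by_cases hr : r = 0
    · subst hr
      right
      rw [pow_zero, zero_mul, zero_smul, Pi.zero_apply, neg_zero]
      have h5 : η D ≠ 0 := hD0
      have h6 : (P.ord (1 / η D ^ W) : ℤ) = 0 := by
        rw [one_div, P.ord_inv, P.ord_pow]
        have h7 : (P.ord (η D) : ℚ) = 0 := by rw [hDord]; simp
        have h8 : P.ord (η D) = 0 := by exact_mod_cast h7
        rw [h8, mul_zero, neg_zero]
      rw [h6]
      simp
    · left
      rw [hv, zero_pow hr, zero_div]
  · right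
    rcases h3 with h3 | h3
    · exact absurd h3 hv
    · have h4 : P.ord (vl T Q D ^ r / η D ^ W) = r * P.ord (vl T Q D) - W * P.ord (η D) := by
        rw [P.ord_div (pow_ne_zero _ hv) (pow_ne_zero _ hD0), P.ord_pow, P.ord_pow]
      rw [h4]
      have h5 : -((W : ℚ) * Δ P + e * L P) ≤ (P.ord (vl T Q D) : ℚ) := by
        have h6 : ((-((W : ℚ) * Δ P + e * L P) : ℚ) : ℝ) ≤ ((P.ord (vl T Q D) : ℚ) : ℝ) := by
          push_cast
          exact h3
        exact_mod_cast h6
      rw [Pi.smul_apply, nsmul_eq_mul]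
      push_cast
      rw [hDord]
      have h7 : (0 : ℚ) ≤ r := Nat.cast_nonneg _
      nlinarith [mul_le_mul_of_nonneg_left h5 h7]

/-- the components of a semi-invariant of degree 0 and of positive degree -/
theorem aeval_zero_part {k R : Type} [Field k] [Field R] [Algebra k R] (a : ι → ℕ)
    (t : Fam m n R) {Q : MvPolynomial (Ix m n) k}
    (hQ : IsWeightedHomogeneous (fun x : Ix m n => a x.1) Q 0) :
    aeval (pt t) Q = aeval (pt (fun i J => if a i = 0 then t i J else 0)) Q := by
  classical
  rw [aeval_def, aeval_def, eval₂_eq, eval₂_eq]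
  refine Finset.sum_congr rfl fun d hd => ?_
  congr 1
  refine Finset.prod_congr rfl fun x hx => ?_
  have h1 := hQ (mem_support_iff.1 hd)
  have h2 : a x.1 = 0 := by
    rw [Finsupp.weight_apply, Finsupp.sum] at h1
    have h3 := (Finset.sum_eq_zero_iff.1 h1) x hx
    rw [smul_eq_mul, mul_eq_zero] at h3
    rcases h3 with h3 | h3
    · exact absurd h3 (Finsupp.mem_support_iff.1 hx)
    · exact h3
  simp only [pt, h2, if_true]

theorem aeval_pos_part {k R : Type} [Field k] [Field R] [Algebra k R] (a : ι → ℕ)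
    (t : Fam m n R) {Q : MvPolynomial (Ix m n) k} {e : ℕ} (he : e ≠ 0)
    (hQ : IsWeightedHomogeneous (fun x : Ix m n => a x.1) Q e) :
    aeval (pt (fun i J => if a i = 0 then t i J else 0)) Q = 0 := by
  classical
  rw [aeval_def, eval₂_eq]
  refine Finset.sum_eq_zero fun d hd => ?_
  have h1 := hQ (mem_support_iff.1 hd)
  obtain ⟨x, hx, hx0⟩ : ∃ x ∈ d.support, a x.1 ≠ 0 := by
    by_contra hcon
    push Not at hcon
    rw [Finsupp.weight_apply, Finsupp.sum] at h1
    refine he (h1.symm.trans (Finset.sum_eq_zero fun x hx => ?_))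
    rw [hcon x hx, smul_zero]
  rw [Finset.prod_eq_zero hx, mul_zero]
  simp only [pt, hx0, if_false]
  exact zero_pow (Finsupp.mem_support_iff.1 hx)

/-- **Nonvanishing for tensors with values in the multiples of a divisor.** -/
theorem tw_null (hHD : S_HOMD) (hSV : S_SECV) (hy : NormalModel y) (hn : Algebra.trdeg ℂ K = n)
    (hn1 : 1 ≤ n) {Δ L : Place ℂ K → ℚ} {r : ℕ} (hr : 1 ≤ r)
    {η : (Fin n → Derivation ℂ K K) → K} (hη : GenBy y n Δ r η) (hη0 : η ≠ 0)
    [Finite ι] {a : ι → ℕ}
    {T : (i : ι) → MultilinearMap K (fun _ : Fin (m i) => Derivation ℂ K K) K}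
    (hT : ∀ i, IsTensorV y Δ (a i • L) (T i)) {E : Fin n → Derivation ℂ K K}
    (hE : LinearIndependent K E)
    (hκ : ∀ e : ℕ, 1 ≤ e → ∀ f, FunSec y (e • L) f → f = 0) :
    NullC (fun i => (a i : ℝ)) (coef T E) := by
  classical
  have hηE : η E ≠ 0 := fun h => hη0 (pluri_zero (frame_of_indep hn hE) hη.1 h)
  let t0 : Fam m n (AlgebraicClosure K) := fun i J => if a i = 0 then coef T E i J else 0
  have hsame : ∀ (W : ℕ) (Q : MvPolynomial (Ix m n) ℂ), SemiInv ℂ m n W Q →
      aeval (pt (coef T E)) Q = aeval (pt t0) Q := by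
    intro W Q hQ
    have h1 : Q = finsum fun e => weightedHomogeneousComponent (fun x : Ix m n => a x.1) e Q :=
      (sum_weightedHomogeneousComponent _ Q).symm
    have hfin : (Function.support fun e =>
        weightedHomogeneousComponent (fun x : Ix m n => a x.1) e Q).Finite :=
      weightedHomogeneousComponent_finsupp Q
    have h2 : ∀ e, aeval (pt (coef T E))
        (weightedHomogeneousComponent (fun x : Ix m n => a x.1) e Q) =
        aeval (pt t0) (weightedHomogeneousComponent (fun x : Ix m n => a x.1) e Q) := by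
      intro e
      have hQe := weightedHomogeneousComponent_isWeightedHomogeneous
        (w := fun x : Ix m n => a x.1) e Q
      by_cases he : e = 0
      · subst he
        exact aeval_zero_part a (coef T E) hQe
      · rw [aeval_pos_part a (coef T E) he hQe]
        have hQs := hHD ℂ ι m n W Q a e hQ
        have h3 := fq_sec hSV hy hn hn1 hη hT hQs hQe hE
        have h4 := hκ (r * e) (Nat.mul_pos hr (Nat.pos_of_ne_zero he)) _ h3
        unfold fq at h4
        rw [div_eq_zero_iff] at h4
        rcases h4 with h4 | h4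
        · rw [aeval_coef', pow_eq_zero_iff (by omega)] at *
          rw [h4, map_zero]
        · exact absurd h4 (pow_ne_zero _ hηE)
    rw [h1, finsum_eq_sum_of_support_subset _ (s := hfin.toFinset) (by simp), map_sum, map_sum]
    exact Finset.sum_congr rfl fun e _ => h2 e
  obtain ⟨z, hz1, hz2⟩ := t_sep' ℂ (AlgebraicClosure K) ι m n hn1 (coef T E) t0 hsame
  have hz : ∀ i, a i ≠ 0 → z i = 0 := by
    intro i hi
    funext J
    have h1 := hz2 (X (some ⟨i, J⟩)) (fun g => by
      have h2 : act g t0 i J = 0 := by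
        unfold act
        refine Finset.sum_eq_zero fun I _ => ?_
        simp only [t0, hi, if_false, mul_zero]
      simpa [pto, pt] using h2)
    simpa [pto, pt] using h1
  have hchar : CharZero (AlgebraicClosure K) :=
    charZero_of_injective_algebraMap (algebraMap ℂ (AlgebraicClosure K)).injective
  obtain ⟨A, B, w, hA, hB, hw, hJ, -⟩ := t_hm' (AlgebraicClosure K) ι m n hn1 (coef T E) z hz1
  refine ⟨A, w, hA, hw, fun i J => ⟨(hJ i J).1, fun hc hs => ?_⟩⟩
  have hi : a i ≠ 0 := by
    intro h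
    have hc' : (0 : ℝ) < (a i : ℝ) := hc
    rw [h, Nat.cast_zero] at hc'
    exact lt_irrefl _ hc'
  rcases lt_or_eq_of_le hs with h1 | h1
  · exact (hJ i J).1 h1
  · refine ((hJ i J).2.2 h1).2 ?_
    unfold act
    refine Finset.sum_eq_zero fun I _ => ?_
    rw [hz i hi, Pi.zero_apply, mul_zero]

end

end Pool.Agent.N133.TB
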