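import Pool.Agent.N133.TB.TwA

/-!
Project TB: the canonical filtration of a family of multilinear forms with thresholds.
-/

set_option autoImplicit false
set_option linter.overlappingInstances false
set_option linter.unusedSectionVars false

open MvPolynomial FF Pool.Agent.W602.GT Pool.Agent.W603.LV Pool.Agent.W619.PQ Pool.Agent.Y172
  Pool.Agent.Y191 Pool.Agent.Y174 Pool.Agent.N133.OB

namespace Pool.Agent.N133.TB

section

variable {K V : Type} [Field K] [AddCommGroup V] [Module K V] {ι : Type} {m : ι → ℕ} {n : ℕ}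

/-- `f` is a basis with weights `w`, `∑ w = 0`, `∑ w ^ 2 = 1`, and the coefficients of the
multilinear form `T i` of weight less than `c i * μ` vanish. -/
def WtBasisC (c : ι → ℝ) (T : (i : ι) → MultilinearMap K (fun _ : Fin (m i) => V) K)
    (f : Fin n → V) (w : Fin n → ℝ) (μ : ℝ) : Prop :=
  LinearIndependent K f ∧ ∑ j, w j = 0 ∧ ∑ j, w j ^ 2 = 1 ∧
    ∀ (i : ι) (J : Fin (m i) → Fin n), ∑ s, w (J s) < c i * μ → T i (fun s => f (J s)) = 0

theorem wtc_iff {E : Fin n → V} (hE : LinearIndependent K E)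
    (hs : Submodule.span K (Set.range E) = ⊤) (c : ι → ℝ)
    (T : (i : ι) → MultilinearMap K (fun _ : Fin (m i) => V) K) (f : Fin n → V)
    (w : Fin n → ℝ) (μ : ℝ) : WtBasisC c T f w μ ↔
      (Matrix.of fun j => (crd hE hs).equivFun (f j)).det ≠ 0 ∧ ∑ j, w j = 0 ∧ ∑ j, w j ^ 2 = 1 ∧
        WtGeC c (co T E) (Matrix.of fun j => (crd hE hs).equivFun (f j)) w μ := by
  classical
  have h1 : LinearIndependent K f ↔
      (Matrix.of fun j => (crd hE hs).equivFun (f j)).det ≠ 0 := by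
    have e1 : LinearIndependent K (fun j => (crd hE hs).equivFun (f j)) ↔
        LinearIndependent K f := by
      have := LinearMap.linearIndependent_iff (v := f)
        ((crd hE hs).equivFun : V →ₗ[K] (Fin n → K)) (LinearEquiv.ker _)
      exact this
    rw [← e1]
    have e2 : (LinearIndependent K (Matrix.of fun j => (crd hE hs).equivFun (f j)).row) ↔
        IsUnit (Matrix.of fun j => (crd hE hs).equivFun (f j)) :=
      Matrix.linearIndependent_rows_iff_isUnit
    rw [Matrix.isUnit_iff_isUnit_det, isUnit_iff_ne_zero] at e2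
    exact e2
  have h2 : ∀ j, f j = ∑ l, (Matrix.of fun j => (crd hE hs).equivFun (f j)) j l • E l := by
    intro j
    have := (crd hE hs).sum_equivFun (f j)
    rw [eq_comm] at this
    refine this.trans ?_
    refine Finset.sum_congr rfl fun l _ => ?_
    simp [crd]
  unfold WtBasisC WtGeC
  rw [h1]
  have h3 : ∀ i (J : Fin (m i) → Fin n), act (Matrix.of fun j => (crd hE hs).equivFun (f j))
      (co T E) i J = T i (fun s => f (J s)) := by
    intro i J
    rw [act_co]
    congr 1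
    funext s
    exact (h2 (J s)).symm
  simp only [h3]

/-- **The canonical filtration, with thresholds.** -/
theorem canonC (hO : S_OPTC) (hU : S_UNIQC) (hKC : S_KEMPFC) [CharZero K] [Finite ι]
    {E : Fin n → V} (hE : LinearIndependent K E)
    (hs : Submodule.span K (Set.range E) = ⊤) {c : ι → ℝ} (hc : ∀ i, 0 ≤ c i)
    (T : (i : ι) → MultilinearMap K (fun _ : Fin (m i) => V) K) (hT0 : ∃ i, 0 < c i ∧ T i ≠ 0)
    (hnull : NullC c (mapF (co T E) : Fam m n (AlgebraicClosure K))) :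
    ∃ (f : Fin n → V) (w : Fin n → ℝ) (μ : ℝ), 0 < μ ∧ WtBasisC c T f w μ ∧
      ∀ (f' : Fin n → V) (w' : Fin n → ℝ) (μ' : ℝ), WtBasisC c T f' w' μ' → μ' ≤ μ ∧
        (μ' = μ → ∀ a, lvl K f' w' a = lvl K f w a) := by
  classical
  have ht0 : ∃ i, 0 < c i ∧ co T E i ≠ 0 := by
    obtain ⟨i, hi, hTi⟩ := hT0
    refine ⟨i, hi, fun h0 => hTi ?_⟩
    refine Module.Basis.ext_multilinear (fun _ => crd hE hs) fun J => ?_
    have h1 := congrFun h0 J
    have h2 : (fun s => (crd hE hs) (J s)) = fun s => E (J s) := by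
      funext s
      simp [crd]
    rw [h2]
    exact h1
  obtain ⟨B, w, μ, hμ, hopt⟩ := hKC K (AlgebraicClosure K) ι m n (co T E) c hc ht0 hnull
  have hmap : ∀ (B : Matrix (Fin n) (Fin n) K) (w : Fin n → ℝ) (μ : ℝ),
      WtGeC c (mapF (co T E) : Fam m n (AlgebraicClosure K)) (B.map (algebraMap K _)) w μ ↔
        WtGeC c (co T E) B w μ := by
    intro B w μ
    have e : ∀ i J, act (B.map (algebraMap K (AlgebraicClosure K)))
        (mapF (co T E) : Fam m n (AlgebraicClosure K)) i J =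
        algebraMap K (AlgebraicClosure K) (act B (co T E) i J) := by
      intro i J
      simp only [act, mapF, map_sum, map_mul, map_prod, Matrix.map_apply]
    unfold WtGeC
    constructor
    · intro h i J hJ
      have := h i J hJ
      rw [e] at this
      exact (map_eq_zero _).1 this
    · intro h i J hJ
      rw [e, h i J hJ, map_zero]
  have hdet : ∀ B : Matrix (Fin n) (Fin n) K,
      (B.map (algebraMap K (AlgebraicClosure K))).det = algebraMap K _ B.det := fun B =>
    (RingHom.map_det _ B).symm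
  have hB : OptimalC c (co T E) B w μ := by
    obtain ⟨h1, h2, h3, h4, h5⟩ := hopt
    refine ⟨fun h => h1 (by rw [hdet, h, map_zero]), h2, h3, (hmap _ _ _).1 h4, ?_⟩
    intro A' w' μ' hA' hw' hw2 hge
    refine h5 (A'.map (algebraMap K _)) w' μ' ?_ hw' hw2 ((hmap _ _ _).2 hge)
    rw [hdet]
    exact (map_ne_zero _).2 hA'
  let f : Fin n → V := fun j => (crd hE hs).equivFun.symm (B j)
  have hfB : (Matrix.of fun j => (crd hE hs).equivFun (f j)) = B := by
    ext j l
    exact congrFun ((crd hE hs).equivFun.apply_symm_apply (B j)) l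
  have hwf : WtBasisC c T f w μ := by
    rw [wtc_iff hE hs, hfB]
    exact ⟨hB.1, hB.2.1, hB.2.2.1, hB.2.2.2.1⟩
  refine ⟨f, w, μ, hμ, hwf, fun f' w' μ' h' => ?_⟩
  rw [wtc_iff hE hs] at h'
  obtain ⟨h1, h2, h3, h4⟩ := h'
  refine ⟨hB.2.2.2.2 _ w' μ' h1 h2 h3 h4, ?_⟩
  rintro rfl a
  have hB' : OptimalC c (co T E) (Matrix.of fun j => (crd hE hs).equivFun (f' j)) w' μ' :=
    ⟨h1, h2, h3, h4, hB.2.2.2.2⟩
  have h5 := hU K ι m n (co T E) c hc ht0 _ _ w' w μ' hμ hB' hB a
  have h6 := lvl_filt hE hs f' w' a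
  have h7 := lvl_filt hE hs f w a
  rw [hfB] at h7
  rw [h5, ← h7] at h6
  exact Submodule.map_injective_of_injective (crd hE hs).equivFun.injective h6

end

section

variable {K : Type} [Field K] [Algebra ℂ K] {n N : ℕ} {y : Fin (N + 1) → K} {ι : Type}
  {m : ι → ℕ}

/-- **Tensors with values in the multiples of a divisor on a variety with trivial canonical
class.** -/
theorem tw_can (hHD : S_HOMD) (hSV : S_SECV) (hO : S_OPTC) (hU : S_UNIQC) (hKC : S_KEMPFC)
    (hy : NormalModel y) (hn : Algebra.trdeg ℂ K = n) (hn1 : 1 ≤ n) {Δ L : Place ℂ K → ℚ} {r : ℕ}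
    (hr : 1 ≤ r) {η : (Fin n → Derivation ℂ K K) → K} (hη : GenBy y n Δ r η) (hη0 : η ≠ 0)
    [Finite ι] {a : ι → ℕ}
    {T : (i : ι) → MultilinearMap K (fun _ : Fin (m i) => Derivation ℂ K K) K}
    (hT : ∀ i, IsTensorV y Δ (a i • L) (T i)) (hT0 : ∃ i, 1 ≤ a i ∧ T i ≠ 0) :
    (∃ e : ℕ, 1 ≤ e ∧ ∃ f, f ≠ 0 ∧ FunSec y (e • L) f) ∨
    ∃ (f : Fin n → Derivation ℂ K K) (w : Fin n → ℝ) (μ : ℝ), 0 < μ ∧
      WtBasisC (fun i => (a i : ℝ)) T f w μ ∧
      ∀ (f' : Fin n → Derivation ℂ K K) (w' : Fin n → ℝ) (μ' : ℝ),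
        WtBasisC (fun i => (a i : ℝ)) T f' w' μ' →
        μ' ≤ μ ∧ (μ' = μ → ∀ b, lvl K f' w' b = lvl K f w b) := by
  classical
  by_cases hκ : ∃ e : ℕ, 1 ≤ e ∧ ∃ f, f ≠ 0 ∧ FunSec y (e • L) f
  · exact Or.inl hκ
  · right
    obtain ⟨E, hE, hs⟩ := exists_frame hn
    have hcz : CharZero K := charZero_of_injective_algebraMap (algebraMap ℂ K).injective
    refine canonC hO hU hKC hE hs (fun i => Nat.cast_nonneg _) T ?_
      (tw_null hHD hSV hy hn hn1 hr hη hη0 hT hE fun e he f hf => ?_)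
    · obtain ⟨i, hi, hTi⟩ := hT0
      exact ⟨i, by exact_mod_cast hi, hTi⟩
    · by_contra hf0
      exact hκ ⟨e, he, f, hf0, hf⟩

end

end Pool.Agent.N133.TB
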