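import Pool.Agent.N133.TB.TwB

/-!
Project TB: the canonical isotropic distribution on a symplectic variety.
-/

set_option autoImplicit false
set_option linter.overlappingInstances false
set_option linter.unusedSectionVars false

open MvPolynomial FF Pool.Agent.W602.GT Pool.Agent.W603.LV Pool.Agent.W619.PQ Pool.Agent.Y172
  Pool.Agent.Y191 Pool.Agent.Y174 Pool.Agent.N133.OB Pool.Agent.TH466.QG

namespace Pool.Agent.N133.TB

section

variable {K V : Type} [Field K] [AddCommGroup V] [Module K V] {n : ℕ}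

theorem finrank_lvl {f : Fin n → V} (hf : LinearIndependent K f) (w : Fin n → ℝ) (a : ℝ) :
    Module.finrank K (lvl K f w a) = Nat.card {j : Fin n // w j ≤ a} := by
  classical
  have h1 : {v | ∃ j, w j ≤ a ∧ v = f j} = Set.range fun j : {j : Fin n // w j ≤ a} => f j := by
    ext v
    constructor
    · rintro ⟨j, hj, rfl⟩
      exact ⟨⟨j, hj⟩, rfl⟩
    · rintro ⟨j, rfl⟩
      exact ⟨j.1, j.2, rfl⟩
  unfold lvl
  have h2 : LinearIndependent K (fun j : {j : Fin n // w j ≤ a} => f j) :=
    hf.comp _ Subtype.val_injective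
  rw [h1, finrank_span_eq_card h2, Nat.card_eq_fintype_card]

/-- a bilinear form as a bilinear map -/
def bil (σ : MultilinearMap K (fun _ : Fin 2 => V) K) : V →ₗ[K] V →ₗ[K] K :=
  LinearMap.mk₂ K (fun x y => σ ![x, y]) (fun x x' y => σ.cons_add ![y] x x')
    (fun c x y => σ.cons_smul ![y] c x)
    (fun x y y' => by
      have hupd : ∀ z : V, Function.update ![x, y] 1 z = ![x, z] := by
        intro z
        funext s
        fin_cases s <;> rfl
      have h1 := σ.map_update_add ![x, y] 1 y y'
      rw [hupd, hupd, hupd] at h1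
      exact h1)
    (fun c x y => by
      have hupd : ∀ z : V, Function.update ![x, y] 1 z = ![x, z] := by
        intro z
        funext s
        fin_cases s <;> rfl
      have h1 := σ.map_update_smul ![x, y] 1 c y
      rw [hupd, hupd] at h1
      exact h1)

theorem bil_apply (σ : MultilinearMap K (fun _ : Fin 2 => V) K) (x y : V) :
    bil σ x y = σ ![x, y] := rfl

theorem bil_sum (σ : MultilinearMap K (fun _ : Fin 2 => V) K) (f : Fin n → V)
    (c c' : Fin n → K) : bil σ (∑ i, c i • f i) (∑ j, c' j • f j) =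
      ∑ i, c i * ∑ j, c' j * σ ![f i, f j] := by
  have h1 : bil σ (∑ i, c i • f i) = ∑ i, c i • bil σ (f i) := by
    rw [map_sum]
    simp only [map_smul]
  rw [h1, LinearMap.sum_apply]
  refine Finset.sum_congr rfl fun i _ => ?_
  rw [LinearMap.smul_apply, smul_eq_mul, map_sum]
  congr 1
  refine Finset.sum_congr rfl fun j _ => ?_
  rw [map_smul, smul_eq_mul, bil_apply]

/-- the weights of a nondegenerate form -/
theorem perm_weights {σ : MultilinearMap K (fun _ : Fin 2 => V) K} {f : Fin n → V}
    {w : Fin n → ℝ} (hf : LinearIndependent K f) (hs : Submodule.span K (Set.range f) = ⊤)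
    (hnd : ∀ D : V, (∀ D' : V, σ ![D, D'] = 0) → D = 0) (hw : ∑ j, w j = 0)
    (hσ : ∀ i j, w i + w j < 0 → σ ![f i, f j] = 0) :
    ∃ π : Equiv.Perm (Fin n), ∀ i, w (π i) = - w i := by
  classical
  let S : Matrix (Fin n) (Fin n) K := Matrix.of fun i j => bil σ (f i) (f j)
  have hdet : S.det ≠ 0 := by
    intro h0
    obtain ⟨v, hv, hv0⟩ := Matrix.exists_vecMul_eq_zero_iff.2 h0
    apply hv
    have h1 : ∑ i, v i • f i = 0 := by
      refine hnd _ fun D' => ?_
      have h2 : bil σ (∑ i, v i • f i) = 0 := by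
        refine LinearMap.ext_on_range (v := f) hs fun j => ?_
        rw [map_sum, LinearMap.sum_apply, LinearMap.zero_apply]
        have h3 := congrFun hv0 j
        simp only [Matrix.vecMul, dotProduct, Pi.zero_apply] at h3
        rw [← h3]
        refine Finset.sum_congr rfl fun i _ => ?_
        rw [map_smul, LinearMap.smul_apply, smul_eq_mul]
        rfl
      rw [← bil_apply, h2, LinearMap.zero_apply]
    exact funext fun j => Fintype.linearIndependent_iff.1 hf v h1 j
  obtain ⟨π, hπ⟩ : ∃ π : Equiv.Perm (Fin n), ∀ i, S (π i) i ≠ 0 := by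
    by_contra hcon
    push Not at hcon
    apply hdet
    rw [Matrix.det_apply]
    refine Finset.sum_eq_zero fun π _ => ?_
    obtain ⟨i, hi⟩ := hcon π
    have h4 : ∏ j, S (π j) j = 0 := Finset.prod_eq_zero (Finset.mem_univ i) hi
    rw [h4, smul_zero]
  refine ⟨π, ?_⟩
  have h1 : ∀ i, 0 ≤ w (π i) + w i := by
    intro i
    by_contra hcon
    exact hπ i (hσ (π i) i (not_le.1 hcon))
  have h2 : ∑ i, (w (π i) + w i) = 0 := by
    rw [Finset.sum_add_distrib, Equiv.sum_comp π w, hw, add_zero]
  have h3 := (Finset.sum_eq_zero_iff_of_nonneg fun i _ => h1 i).1 h2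
  intro i
  have := h3 i (Finset.mem_univ i)
  linarith

/-- the two distributions -/
theorem two_dist {σ : MultilinearMap K (fun _ : Fin 2 => V) K} {f : Fin n → V}
    {w : Fin n → ℝ} (hf : LinearIndependent K f) (hs : Submodule.span K (Set.range f) = ⊤)
    (hnd : ∀ D : V, (∀ D' : V, σ ![D, D'] = 0) → D = 0) (hw : ∑ j, w j = 0)
    (hw2 : ∑ j, w j ^ 2 = 1) (hσ : ∀ i j, w i + w j < 0 → σ ![f i, f j] = 0) :
    ∃ b : ℝ, b < 0 ∧ lvl K f w b ≠ ⊥ ∧ lvl K f w b ≤ lvl K f w 0 ∧
      Module.finrank K (lvl K f w b) + Module.finrank K (lvl K f w 0) = n ∧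
      ∀ D ∈ lvl K f w b, ∀ D' ∈ lvl K f w 0, σ ![D, D'] = 0 ∧ σ ![D', D] = 0 := by
  classical
  obtain ⟨π, hπ⟩ := perm_weights hf hs hnd hw hσ
  -- the largest negative weight
  obtain ⟨j0, hj0⟩ : ∃ j, w j < 0 := by
    by_contra hcon
    push Not at hcon
    have h1 : ∀ j, w j = 0 := fun j =>
      (Finset.sum_eq_zero_iff_of_nonneg fun i _ => hcon i).1 hw j (Finset.mem_univ j)
    simp [h1] at hw2
  obtain ⟨j1, hj1, hmax⟩ := Finset.exists_max_image (Finset.univ.filter fun j => w j < 0) w
    ⟨j0, by simp [hj0]⟩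
  have hj1' : w j1 < 0 := by simpa using hj1
  have hlt : ∀ j, w j ≤ w j1 ↔ w j < 0 := by
    intro j
    refine ⟨fun h => lt_of_le_of_lt h hj1', fun h => hmax j (by simp [h])⟩
  refine ⟨w j1, hj1', ?_, ?_, ?_, ?_⟩
  · intro hbot
    have h2 : f j1 ∈ lvl K f w (w j1) := Submodule.subset_span ⟨j1, le_rfl, rfl⟩
    rw [hbot, Submodule.mem_bot] at h2
    exact hf.ne_zero j1 h2
  · refine Submodule.span_mono ?_
    rintro v ⟨j, hj, rfl⟩
    exact ⟨j, hj.trans hj1'.le, rfl⟩
  · rw [finrank_lvl hf, finrank_lvl hf]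
    have e1 : Nat.card {j : Fin n // w j ≤ w j1} = Nat.card {j : Fin n // ¬ w j ≤ 0} := by
      refine Nat.card_congr ⟨fun j => ⟨π j.1, ?_⟩, fun j => ⟨π.symm j.1, ?_⟩, ?_, ?_⟩
      · have h1 := (hlt j.1).1 j.2
        rw [hπ, not_le]
        linarith
      · have h1 := hπ (π.symm j.1)
        rw [Equiv.apply_symm_apply] at h1
        have h2 := j.2
        rw [not_le] at h2
        rw [hlt]
        linarith
      · intro j
        simp
      · intro j
        simp
    rw [e1, Nat.card_eq_fintype_card, Nat.card_eq_fintype_card, add_comm,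
      Fintype.card_subtype_compl, Fintype.card_fin]
    have h3 : Fintype.card {j : Fin n // w j ≤ 0} ≤ n := by
      have := Fintype.card_subtype_le (fun j : Fin n => w j ≤ 0)
      rwa [Fintype.card_fin] at this
    omega
  · intro D hD D' hD'
    obtain ⟨c, hc, rfl⟩ := lvl_coord hD
    obtain ⟨c', hc', rfl⟩ := lvl_coord hD'
    have key : ∀ i j, w i ≤ w j1 → w j ≤ 0 → σ ![f i, f j] = 0 ∧ σ ![f j, f i] = 0 := by
      intro i j hi hj
      constructor
      · exact hσ i j (by linarith)
      · exact hσ j i (by linarith)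
    constructor
    · rw [← bil_apply, bil_sum]
      refine Finset.sum_eq_zero fun i _ => ?_
      by_cases hi : w i ≤ w j1
      · rw [Finset.sum_eq_zero, mul_zero]
        intro j _
        by_cases hj : w j ≤ 0
        · rw [(key i j hi hj).1, mul_zero]
        · rw [hc' j hj, zero_mul]
      · rw [hc i hi, zero_mul]
    · rw [← bil_apply, bil_sum]
      refine Finset.sum_eq_zero fun j _ => ?_
      by_cases hj : w j ≤ 0
      · rw [Finset.sum_eq_zero, mul_zero]
        intro i _
        by_cases hi : w i ≤ w j1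
        · rw [(key i j hi hj).2, mul_zero]
        · rw [hc i hi, zero_mul]
      · rw [hc' j hj, zero_mul]

end

end Pool.Agent.N133.TB
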