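import Pool.Agent.N133.TB.TwC

/-!
Project TB: the invariance of the canonical isotropic distribution.
-/

set_option autoImplicit false
set_option linter.overlappingInstances false
set_option linter.unusedSectionVars false

open MvPolynomial FF Pool.Agent.W602.GT Pool.Agent.W603.LV Pool.Agent.W619.PQ Pool.Agent.Y172
  Pool.Agent.Y191 Pool.Agent.Y174 Pool.Agent.N133.OB Pool.Agent.TH466.QG

namespace Pool.Agent.N133.TB

section

variable {K : Type} [Field K] [Algebra ℂ K] {n N : ℕ} {y : Fin (N + 1) → K}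

/-- The birational automorphism of `X` given by the automorphism `φ` of the function field is an
isomorphism in codimension one, preserves the divisor `L` up to linear equivalence, and the form `σ`
up to a factor. -/
def PreservesLS (y : Fin (N + 1) → K) (L : Place ℂ K → ℚ)
    (σ : MultilinearMap K (fun _ : Fin 2 => Derivation ℂ K K) K) (φ : K ≃ₐ[ℂ] K) : Prop :=
  (∀ P, IsPrimeDivisor y (pullPl φ P) ↔ IsPrimeDivisor y P) ∧
  (∃ g : K, g ≠ 0 ∧ ∀ P, IsPrimeDivisor y P → L (pullPl φ P) = L P + P.ord g) ∧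
  ∃ c : K, pullT φ σ = c • σ

theorem pull_pull (φ : K ≃ₐ[ℂ] K) (P : Place ℂ K) : pullPl φ (pullPl φ.symm P) = P := by
  ext x
  change P.ord (φ.symm (φ x)) = P.ord x
  rw [AlgEquiv.symm_apply_apply]

/-- the pull-back of a tensor with values in a multiple of the divisor -/
theorem tensorV_pullT {L : Place ℂ K → ℚ} (φ : K ≃ₐ[ℂ] K)
    (h1 : ∀ P, IsPrimeDivisor y (pullPl φ P) ↔ IsPrimeDivisor y P) {g : K} (hg0 : g ≠ 0)
    (hg : ∀ P, IsPrimeDivisor y P → L (pullPl φ P) = L P + P.ord g) {a m : ℕ}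
    {T : MultilinearMap K (fun _ : Fin m => Derivation ℂ K K) K}
    (hT : IsTensorV y 0 (a • L) T) :
    IsTensorV y 0 (a • L) ((φ.symm g ^ a)⁻¹ • pullT φ T) := by
  intro P hP D S hD hS
  have hP' : IsPrimeDivisor y (pullPl φ.symm P) := by
    rw [← h1, pull_pull]
    exact hP
  have hLP : L P = L (pullPl φ.symm P) + P.ord (φ.symm g) := by
    have := hg _ hP'
    rw [pull_pull] at this
    exact this
  have hgs : φ.symm g ≠ 0 := (map_ne_zero_iff _ φ.symm.injective).2 hg0
  have h2 := hT _ hP' (fun s => pushD φ (D s)) S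
    (fun j f hf => by
      rw [reg_pullPl] at hf ⊢
      rw [pushD_apply, AlgEquiv.symm_apply_apply]
      exact hD j _ hf)
    (fun j hj f => by
      rw [reg_pullPl, pushD_apply, map_div₀, AlgEquiv.symm_apply_apply]
      exact hS j hj _)
  rw [MultilinearMap.smul_apply, smul_eq_mul]
  rcases h2 with h2 | h2
  · left
    rw [pullT_apply, h2, map_zero, mul_zero]
  · by_cases h0 : pullT φ T D = 0
    · left
      rw [h0, mul_zero]
    · right
      rw [P.ord_mul (inv_ne_zero (pow_ne_zero _ hgs)) h0, P.ord_inv, P.ord_pow]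
      simp only [Pi.zero_apply, mul_zero, zero_add, Pi.smul_apply, nsmul_eq_mul] at h2 ⊢
      have h3 : ((pullPl φ.symm P).ord (T fun s => pushD φ (D s)) : ℚ) =
          (P.ord (pullT φ T D) : ℚ) := rfl
      rw [h3] at h2
      rw [hLP]
      push_cast
      linarith

/-- **The canonical isotropic distribution.** -/
theorem tw_inv (hHD : S_HOMD) (hSV : S_SECV) (hO : S_OPTC) (hU : S_UNIQC) (hKC : S_KEMPFC)
    (hy : NormalModel y) (hn : Algebra.trdeg ℂ K = n) (hn1 : 1 ≤ n) {L : Place ℂ K → ℚ} {r : ℕ}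
    (hr : 1 ≤ r) {η : (Fin n → Derivation ℂ K K) → K} (hη : GenBy y n 0 r η) (hη0 : η ≠ 0)
    {σ : MultilinearMap K (fun _ : Fin 2 => Derivation ℂ K K) K} (hσ : IsTensorV y 0 0 σ)
    (hnd : ∀ D, (∀ D', σ ![D, D'] = 0) → D = 0) (M A : ℕ)
    (hM : ∃ m a : ℕ, 1 ≤ m ∧ m ≤ M ∧ 1 ≤ a ∧ a ≤ A ∧
      ∃ T : MultilinearMap K (fun _ : Fin m => Derivation ℂ K K) K,
        IsTensorV y 0 (a • L) T ∧ T ≠ 0) :
    (∃ e : ℕ, 1 ≤ e ∧ ∃ f, f ≠ 0 ∧ FunSec y (e • L) f) ∨
    ∃ F C : Submodule K (Derivation ℂ K K), F ≠ ⊥ ∧ F ≤ C ∧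
      Module.finrank K F + Module.finrank K C = n ∧
      (∀ D ∈ F, ∀ D' ∈ C, σ ![D, D'] = 0 ∧ σ ![D', D] = 0) ∧
      (∀ m a : ℕ, 1 ≤ m → m ≤ M → 1 ≤ a → a ≤ A →
        ∀ T : MultilinearMap K (fun _ : Fin m => Derivation ℂ K K) K, IsTensorV y 0 (a • L) T →
          ∀ D : Fin m → Derivation ℂ K K, (∀ j, D j ∈ C) → T D = 0) ∧
      ∀ φ : K ≃ₐ[ℂ] K, PreservesLS y L σ φ → ∀ D, (D ∈ F → pushD φ D ∈ F) ∧
        (D ∈ C → pushD φ D ∈ C) := by
  classical
  obtain ⟨E, hE, hs⟩ := exists_frame hn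
  have hfin : Module.Finite K (Derivation ℂ K K) :=
    ⟨⟨Finset.univ.image E, by rw [Finset.coe_image, Finset.coe_univ, Set.image_univ, hs]⟩⟩
  -- finitely many tensors
  have hex : ∀ d e : ℕ, ∃ b : Set (MultilinearMap K (fun _ : Fin d => Derivation ℂ K K) K),
      b ⊆ {T | IsTensorV y 0 (e • L) T} ∧ b.Finite ∧
        ∀ T, IsTensorV y 0 (e • L) T → T ∈ Submodule.span K b := by
    intro d e
    obtain ⟨b, hb1, hb2, hb3⟩ := exists_linearIndependent K
      {T : MultilinearMap K (fun _ : Fin d => Derivation ℂ K K) K | IsTensorV y 0 (e • L) T}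
    refine ⟨b, hb1, hb3.setFinite, ?_⟩
    rw [hb2]
    exact fun T hT => Submodule.subset_span hT
  choose b hb1 hb2 hb3 using hex
  have hbf : ∀ d e, Finite (b d e) := fun d e => (hb2 d e).to_subtype
  let ι : Type := Option ((i : Fin M) × (j : Fin A) × b ((i : ℕ) + 1) ((j : ℕ) + 1))
  let deg : ι → ℕ := fun i => match i with
    | none => 2
    | some x => (x.1 : ℕ) + 1
  let a : ι → ℕ := fun i => match i with
    | none => 0
    | some x => (x.2.1 : ℕ) + 1
  let T : (i : ι) → MultilinearMap K (fun _ : Fin (deg i) => Derivation ℂ K K) K :=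
    fun i => match i with
    | none => σ
    | some x =>
      (x.2.2 : MultilinearMap K (fun _ : Fin ((x.1 : ℕ) + 1) => Derivation ℂ K K) K)
  have hT : ∀ i, IsTensorV y 0 (a i • L) (T i) := by
    intro i
    match i with
    | none =>
      have : a none • L = 0 := zero_smul _ _
      rw [this]
      exact hσ
    | some x => exact hb1 _ _ x.2.2.2
  have hT0 : ∃ i, 1 ≤ a i ∧ T i ≠ 0 := by
    by_contra hcon
    push Not at hcon
    obtain ⟨m, a0, hm1, hmM, ha1, haA, T0, hT0, hne⟩ := hM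
    obtain ⟨m', rfl⟩ : ∃ m', m = m' + 1 := ⟨m - 1, by omega⟩
    obtain ⟨a', rfl⟩ : ∃ a', a0 = a' + 1 := ⟨a0 - 1, by omega⟩
    apply hne
    have h1 : T0 ∈ Submodule.span K (b (m' + 1) (a' + 1)) := hb3 _ _ _ hT0
    have h2 : Submodule.span K (b (m' + 1) (a' + 1)) = ⊥ := by
      rw [Submodule.span_eq_bot]
      intro T' hT'
      exact hcon (some ⟨⟨m', by omega⟩, ⟨a', by omega⟩, ⟨T', hT'⟩⟩) (Nat.succ_pos _)
    rw [h2, Submodule.mem_bot] at h1
    exact h1
  rcases tw_can hHD hSV hO hU hKC hy hn hn1 hr hη hη0 hT hT0 with h | h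
  · exact Or.inl h
  right
  obtain ⟨f, w, μ, hμ, hwt, huniq⟩ := h
  have hfs : Submodule.span K (Set.range f) = ⊤ := by
    rw [eq_top_iff]
    intro G _
    obtain ⟨c, hc⟩ := frame_of_indep hn hwt.1 G
    rw [hc]
    exact Submodule.sum_mem _ fun j _ => Submodule.smul_mem _ _
      (Submodule.subset_span (Set.mem_range_self j))
  have hσf : ∀ i j, w i + w j < 0 → σ ![f i, f j] = 0 := by
    intro i j hij
    have h1 := hwt.2.2.2 none ![i, j] (by
      have e1 : ∑ s : Fin (deg none), w ((![i, j] : Fin 2 → Fin n) s) = w i + w j := by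
        change ∑ s : Fin 2, w ((![i, j] : Fin 2 → Fin n) s) = w i + w j
        rw [Fin.sum_univ_two]
        rfl
      rw [e1]
      have e2 : ((a none : ℕ) : ℝ) = 0 := Nat.cast_zero
      change w i + w j < ((a none : ℕ) : ℝ) * μ
      rw [e2, zero_mul]
      exact hij)
    have e3 : (fun s : Fin 2 => f ((![i, j] : Fin 2 → Fin n) s)) = ![f i, f j] := by
      funext s
      fin_cases s <;> rfl
    rw [← e3]
    exact h1
  obtain ⟨b0, hb0, hne, hle, hdim, hσ2⟩ := two_dist hwt.1 hfs hnd hwt.2.1 hwt.2.2.1 hσf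
  -- another optimal basis
  have himg : ∀ φ : K ≃ₐ[ℂ] K, PreservesLS y L σ φ → ∀ x : ℝ,
      lvl K (fun j => pushD φ (f j)) w x = lvl K f w x := by
    intro φ hφ x
    obtain ⟨h1, ⟨g, hg0, hg⟩, c, hc⟩ := hφ
    refine (huniq (fun j => pushD φ (f j)) w μ ⟨indep_pushD φ hwt.1, hwt.2.1, hwt.2.2.1,
      fun i J hJ => ?_⟩).2 rfl x
    match i with
    | none =>
      have h2 := hwt.2.2.2 none J hJ
      have h3 : pullT φ σ (fun s => f (J s)) = 0 := by
        rw [hc, MultilinearMap.smul_apply]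
        change c • (T none fun s => f (J s)) = 0
        rw [h2, smul_zero]
      rw [pullT_apply] at h3
      exact (map_eq_zero _).1 h3
    | some z =>
      have h2 : IsTensorV y 0 (((z.2.1 : ℕ) + 1) • L)
          ((φ.symm g ^ ((z.2.1 : ℕ) + 1))⁻¹ • pullT φ (T (some z))) :=
        tensorV_pullT φ h1 hg0 hg (hT (some z))
      have h3 := hb3 _ _ _ h2
      have h4 : ∀ T' ∈ Submodule.span K (b ((z.1 : ℕ) + 1) ((z.2.1 : ℕ) + 1)),
          T' (fun s => f (J s)) = 0 := by
        intro T' hT'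
        induction hT' using Submodule.span_induction with
        | mem u hu => exact hwt.2.2.2 (some ⟨z.1, z.2.1, ⟨u, hu⟩⟩) J hJ
        | zero => rfl
        | add x y _ _ hx hy => rw [MultilinearMap.add_apply, hx, hy, add_zero]
        | smul r x _ hx => rw [MultilinearMap.smul_apply, hx, smul_zero]
      have h5 := h4 _ h3
      rw [MultilinearMap.smul_apply, smul_eq_mul] at h5
      have hgs : (φ.symm g ^ ((z.2.1 : ℕ) + 1))⁻¹ ≠ 0 :=
        inv_ne_zero (pow_ne_zero _ ((map_ne_zero_iff _ φ.symm.injective).2 hg0))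
      have h6 := (mul_eq_zero.1 h5).resolve_left hgs
      rw [pullT_apply] at h6
      exact (map_eq_zero _).1 h6
  have hinv : ∀ φ : K ≃ₐ[ℂ] K, PreservesLS y L σ φ → ∀ (x : ℝ) (D : Derivation ℂ K K),
      D ∈ lvl K f w x → pushD φ D ∈ lvl K f w x := by
    intro φ hφ x D hD
    rw [← himg φ hφ]
    exact mem_push_lvl φ hD
  refine ⟨lvl K f w b0, lvl K f w 0, hne, hle, hdim, hσ2, ?_, fun φ hφ D =>
    ⟨hinv φ hφ b0 D, hinv φ hφ 0 D⟩⟩
  intro m a0 hm1 hmM ha1 haA T0 hT0' D hD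
  obtain ⟨m', rfl⟩ : ∃ m', m = m' + 1 := ⟨m - 1, by omega⟩
  obtain ⟨a', rfl⟩ : ∃ a', a0 = a' + 1 := ⟨a0 - 1, by omega⟩
  have h1 : T0 ∈ Submodule.span K (b (m' + 1) (a' + 1)) := hb3 _ _ _ hT0'
  have h3 : ∀ T' ∈ Submodule.span K (b (m' + 1) (a' + 1)), T' D = 0 := by
    intro T' hT'
    induction hT' using Submodule.span_induction with
    | mem u hu =>
      -- the coefficients of nonpositive weight vanish
      choose c hc hc' using fun j => lvl_coord (hD j)
      have h5 : D = fun j => ∑ l, c j l • f l := funext hc'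
      rw [h5, MultilinearMap.map_sum]
      refine Finset.sum_eq_zero fun I _ => ?_
      rw [MultilinearMap.map_smul_univ, smul_eq_mul]
      by_cases hI : ∀ s, w (I s) ≤ 0
      · have h6 := hwt.2.2.2 (some ⟨⟨m', by omega⟩, ⟨a', by omega⟩, ⟨u, hu⟩⟩) I (by
          refine lt_of_le_of_lt (Finset.sum_nonpos fun s _ => hI s) ?_
          have e2 : (0 : ℝ) < (((a' + 1 : ℕ)) : ℝ) := by exact_mod_cast Nat.succ_pos a'
          exact mul_pos e2 hμ)
        have h7 : u (fun s => f (I s)) = 0 := h6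
        rw [h7, mul_zero]
      · push Not at hI
        obtain ⟨s, hs⟩ := hI
        rw [Finset.prod_eq_zero (Finset.mem_univ s) (hc s (I s) (not_le.2 hs)), zero_mul]
    | zero => rfl
    | add x y _ _ hx hy => rw [MultilinearMap.add_apply, hx, hy, add_zero]
    | smul r x _ hx => rw [MultilinearMap.smul_apply, hx, smul_zero]
  exact h3 _ h1

end

end Pool.Agent.N133.TB
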