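import Pool.Agent.N133.TB.TwA

/-!
Project TB: stable tensors with values in the multiples of a divisor.
-/

set_option autoImplicit false
set_option linter.overlappingInstances false
set_option linter.unusedSectionVars false

open MvPolynomial FF Pool.Agent.W602.GT Pool.Agent.W603.LV Pool.Agent.W619.PQ Pool.Agent.Y172
  Pool.Agent.Y191 Pool.Agent.Y174 Pool.Agent.N133.OB

namespace Pool.Agent.N133.TB

section

variable {k I Ω : Type} [Field k] [Field I] [Field Ω] [CharZero k] [Algebra k I] [Algebra I Ω]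
  [Algebra k Ω] [IsScalarTower k I Ω] [IsAlgClosed Ω] {ι : Type} [Finite ι] {m : ι → ℕ} {n : ℕ}

/-- If the semi-invariants of a stable family are algebraic over the field `I`, then the
coefficients in a suitable basis are algebraic over `I`. -/
theorem alg_main2 (hn1 : 1 ≤ n) {t : Fam m n Ω} (hst : StableFam t)
    (hval : ∀ W Q, SemiInv k m n W Q → IsAlgebraic I (aeval (pt t) Q)) :
    ∃ A : Matrix (Fin n) (Fin n) Ω, A.det ≠ 0 ∧ ∀ i J, IsAlgebraic I (act A t i J) := by
  classical
  have hchar : CharZero Ω := charZero_of_injective_algebraMap (algebraMap k Ω).injective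
  let F := algebraicClosure I Ω
  have htow : IsScalarTower k F Ω := IsScalarTower.of_algebraMap_eq fun x => by
    have h1 := IsScalarTower.algebraMap_apply k I F x
    rw [h1]
    exact IsScalarTower.algebraMap_apply k I Ω x
  have hFalg : IsAlgClosed F := (algebraicClosure.isAlgClosure I Ω).isAlgClosed
  obtain ⟨x', hx'⟩ := alg_spec t_desc (E := F) (L := Ω)
    {P | ∃ W' Q', SemiInv k m n W' Q' ∧ P = map (algebraMap k F) Q'} (pt t) (by
      rintro P ⟨W', Q', hQ', rfl⟩
      refine ⟨⟨aeval (pt t) Q', ?_⟩, ?_⟩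
      · exact mem_algebraicClosure_iff.2 (hval W' Q' hQ')
      · rw [aeval_map_algebraMap]
        rfl)
  let t₂ : Fam m n Ω := fun i J => algebraMap F Ω (x' ⟨i, J⟩)
  obtain ⟨A, hA, hAt⟩ := alg_stable (k := k) t_sep' t_hm' hn1 hst (t₂ := t₂) (by
    intro W' Q' hQ'
    have h1 := hx' _ ⟨W', Q', hQ', rfl⟩
    rw [aeval_map_algebraMap] at h1
    rw [h1, eval_map, ← aeval_def, ← aeval_algebraMap_apply]
    rfl)
  refine ⟨A⁻¹, inv_det_ne hA, fun i J => ?_⟩
  rw [hAt, act_inv hA]
  exact mem_algebraicClosure_iff.1 (x' ⟨i, J⟩).2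

end

section

variable {ι : Type} {m : ι → ℕ} {n : ℕ} {Ω : Type} [Field Ω]

theorem act_scale (c : ι → Ω) (A : Matrix (Fin n) (Fin n) Ω) (t : Fam m n Ω) :
    act A (fun i J => c i * t i J : Fam m n Ω) = fun i J => c i * act A t i J := by
  funext i J
  unfold act
  rw [Finset.mul_sum]
  refine Finset.sum_congr rfl fun I _ => ?_
  ring

theorem StableFam.scale {t : Fam m n Ω} (h : StableFam t) {c : ι → Ω} (hc : ∀ i, c i ≠ 0) :
    StableFam (fun i J => c i * t i J : Fam m n Ω) := by
  refine ⟨fun h0 => h.1 ?_, fun A hA w hw hJ => h.2 A hA w hw fun i J hs => ?_⟩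
  · funext i J
    have h1 := congrFun (congrFun h0 i) J
    exact (mul_eq_zero.1 h1).resolve_left (hc i)
  · have h1 := hJ i J hs
    rw [act_scale] at h1
    exact (mul_eq_zero.1 h1).resolve_left (hc i)

theorem aeval_scale {k : Type} [Field k] [Algebra k Ω] (a : ι → ℕ) (g : Ω) (t : Fam m n Ω)
    {Q : MvPolynomial (Ix m n) k} {e : ℕ}
    (hQ : IsWeightedHomogeneous (fun x : Ix m n => a x.1) Q e) :
    aeval (pt (fun i J => g ^ a i * t i J : Fam m n Ω)) Q = g ^ e * aeval (pt t) Q := by
  classical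
  rw [aeval_def, aeval_def, eval₂_eq, eval₂_eq, Finset.mul_sum]
  refine Finset.sum_congr rfl fun d hd => ?_
  have h1 := hQ (mem_support_iff.1 hd)
  rw [Finsupp.weight_apply, Finsupp.sum] at h1
  have h2 : ∏ x ∈ d.support, pt (fun i J => g ^ a i * t i J : Fam m n Ω) x ^ d x =
      g ^ e * ∏ x ∈ d.support, pt t x ^ d x := by
    have h3 : ∀ x, pt (fun i J => g ^ a i * t i J : Fam m n Ω) x ^ d x =
        g ^ (d x • a x.1) * pt t x ^ d x := by
      intro x
      simp only [pt]
      rw [mul_pow, ← pow_mul, smul_eq_mul, mul_comm (a x.1)]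
    simp only [h3]
    rw [Finset.prod_mul_distrib, Finset.prod_pow_eq_pow_sum, h1]
  rw [h2]
  ring

end

section

variable {K : Type} [Field K] [Algebra ℂ K] {n N : ℕ} {y : Fin (N + 1) → K}

theorem FunSec.mul {L : Place ℂ K → ℚ} {p q : ℕ} {f g : K} (hf : FunSec y (p • L) f)
    (hg : FunSec y (q • L) g) : FunSec y ((p + q) • L) (f * g) := by
  intro P hP
  by_cases hf0 : f = 0
  · left
    rw [hf0, zero_mul]
  by_cases hg0 : g = 0
  · left
    rw [hg0, mul_zero]
  right
  have h1 := (hf P hP).resolve_left hf0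
  have h2 := (hg P hP).resolve_left hg0
  rw [P.ord_mul hf0 hg0]
  simp only [Pi.smul_apply, nsmul_eq_mul] at h1 h2 ⊢
  push_cast
  linarith

theorem FunSec.one (L : Place ℂ K → ℚ) : FunSec y (0 • L) 1 := by
  intro P _
  right
  rw [P.ord_one, zero_smul]
  simp

theorem FunSec.pow {L : Place ℂ K → ℚ} {p : ℕ} {f : K} (hf : FunSec y (p • L) f) (k : ℕ) :
    FunSec y ((k * p) • L) (f ^ k) := by
  induction k with
  | zero =>
    rw [pow_zero, zero_mul]
    exact FunSec.one L
  | succ k ih =>
    rw [pow_succ, Nat.succ_mul]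
    exact ih.mul hf

/-- the quotients of two sections of a multiple of `L` -/
def RatioL (y : Fin (N + 1) → K) (L : Place ℂ K → ℚ) : Set K :=
  {f | ∃ e : ℕ, 1 ≤ e ∧ ∃ g, g ≠ 0 ∧ FunSec y (e • L) g ∧ FunSec y (e • L) (f * g)}

/-- the field generated by the quotients of two sections of a multiple of `L`; its transcendence
degree is the Iitaka dimension of `L` -/
noncomputable def ratioField (y : Fin (N + 1) → K) (L : Place ℂ K → ℚ) : IntermediateField ℂ K :=
  IntermediateField.adjoin ℂ (RatioL y L)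

variable {ι : Type} {m : ι → ℕ}

/-- a family whose semi-invariants of positive degree vanish is relatively unstable -/
theorem null_of_vanish (hHD : S_HOMD) (hn1 : 1 ≤ n) [Finite ι] {a : ι → ℕ}
    {t : Fam m n (AlgebraicClosure K)}
    (hv : ∀ (W e : ℕ) (Q : MvPolynomial (Ix m n) ℂ), 1 ≤ e → SemiInv ℂ m n W Q →
      IsWeightedHomogeneous (fun x : Ix m n => a x.1) Q e → aeval (pt t) Q = 0) :
    NullC (fun i => (a i : ℝ)) t := by
  classical
  let t0 : Fam m n (AlgebraicClosure K) := fun i J => if a i = 0 then t i J else 0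
  have hsame : ∀ (W : ℕ) (Q : MvPolynomial (Ix m n) ℂ), SemiInv ℂ m n W Q →
      aeval (pt t) Q = aeval (pt t0) Q := by
    intro W Q hQ
    have h1 : Q = finsum fun e => weightedHomogeneousComponent (fun x : Ix m n => a x.1) e Q :=
      (sum_weightedHomogeneousComponent _ Q).symm
    have hfin : (Function.support fun e =>
        weightedHomogeneousComponent (fun x : Ix m n => a x.1) e Q).Finite :=
      weightedHomogeneousComponent_finsupp Q
    have h2 : ∀ e, aeval (pt t)
        (weightedHomogeneousComponent (fun x : Ix m n => a x.1) e Q) =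
        aeval (pt t0) (weightedHomogeneousComponent (fun x : Ix m n => a x.1) e Q) := by
      intro e
      have hQe := weightedHomogeneousComponent_isWeightedHomogeneous
        (w := fun x : Ix m n => a x.1) e Q
      by_cases he : e = 0
      · subst he
        exact aeval_zero_part a t hQe
      · rw [aeval_pos_part a t he hQe]
        exact hv W e _ (Nat.pos_of_ne_zero he) (hHD ℂ ι m n W Q a e hQ) hQe
    rw [h1, finsum_eq_sum_of_support_subset _ (s := hfin.toFinset) (by simp), map_sum, map_sum]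
    exact Finset.sum_congr rfl fun e _ => h2 e
  obtain ⟨z, hz1, hz2⟩ := t_sep' ℂ (AlgebraicClosure K) ι m n hn1 t t0 hsame
  have hz : ∀ i, a i ≠ 0 → z i = 0 := by
    intro i hi
    funext J
    have h1 := hz2 (X (some ⟨i, J⟩)) (fun g => by
      have h2 : act g t0 i J = 0 := by
        unfold act
        refine Finset.sum_eq_zero fun I _ => ?_
        simp only [t0, hi, if_false, mul_zero]
      simpa [pto, pt] using h2)
    simpa [pto, pt] using h1
  have hchar : CharZero (AlgebraicClosure K) :=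
    charZero_of_injective_algebraMap (algebraMap ℂ (AlgebraicClosure K)).injective
  obtain ⟨A, B, w, hA, hB, hw, hJ, -⟩ := t_hm' (AlgebraicClosure K) ι m n hn1 t z hz1
  refine ⟨A, w, hA, hw, fun i J => ⟨(hJ i J).1, fun hc hs => ?_⟩⟩
  have hi : a i ≠ 0 := by
    intro h
    have hc' : (0 : ℝ) < (a i : ℝ) := hc
    rw [h, Nat.cast_zero] at hc'
    exact lt_irrefl _ hc'
  rcases lt_or_eq_of_le hs with h1 | h1
  · exact (hJ i J).1 h1
  · refine ((hJ i J).2.2 h1).2 ?_
    unfold act
    refine Finset.sum_eq_zero fun I _ => ?_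
    rw [hz i hi, Pi.zero_apply, mul_zero]

/-- **Stable tensors with values in the multiples of a divisor.** -/
theorem tw_stable (hHD : S_HOMD) (hSV : S_SECV) (hy : NormalModel y)
    (hn : Algebra.trdeg ℂ K = n) (hn1 : 1 ≤ n) {Δ L : Place ℂ K → ℚ} {r : ℕ} (hr : 1 ≤ r)
    {η : (Fin n → Derivation ℂ K K) → K} (hη : GenBy y n Δ r η) (hη0 : η ≠ 0)
    [Finite ι] {a : ι → ℕ}
    {T : (i : ι) → MultilinearMap K (fun _ : Fin (m i) => Derivation ℂ K K) K}
    (hT : ∀ i, IsTensorV y Δ (a i • L) (T i)) (hT0 : ∃ i, 1 ≤ a i ∧ T i ≠ 0)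
    {E : Fin n → Derivation ℂ K K} (hE : LinearIndependent K E)
    (hst : StableFam (coef T E)) :
    (∃ e : ℕ, 1 ≤ e ∧ ∃ f, f ≠ 0 ∧ FunSec y (e • L) f) ∧
    ∃ (u : AlgebraicClosure K) (A : Matrix (Fin n) (Fin n) (AlgebraicClosure K)), u ≠ 0 ∧
      A.det ≠ 0 ∧ ∀ i J, IsAlgebraic (ratioField y L) (u ^ a i * act A (coef T E) i J) := by
  classical
  have hηE : η E ≠ 0 := fun h => hη0 (pluri_zero (frame_of_indep hn hE) hη.1 h)
  -- a semi-invariant of positive degree
  obtain ⟨W0, e0, Q0, he0, hQ0, hQe0, hne⟩ : ∃ (W e : ℕ) (Q : MvPolynomial (Ix m n) ℂ), 1 ≤ e ∧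
      SemiInv ℂ m n W Q ∧ IsWeightedHomogeneous (fun x : Ix m n => a x.1) Q e ∧
      aeval (pt (coef T E)) Q ≠ 0 := by
    by_contra hcon
    push Not at hcon
    obtain ⟨A, w, hA, hw, hJ⟩ := null_of_vanish (K := K) hHD hn1 (a := a)
      (t := coef T E) (fun W e Q he hQ hQe => hcon W e Q he hQ hQe)
    have hw0 : w = 0 := hst.2 A hA w hw fun i J hs => (hJ i J).1 hs
    obtain ⟨i, hi, hTi⟩ := hT0
    have h1 : ∀ J, act A (coef T E) i J = 0 := by
      intro J
      refine (hJ i J).2 (by
        change (0 : ℝ) < (a i : ℝ)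
        exact_mod_cast hi) ?_
      rw [hw0]
      simp
    -- the coefficients of `T i` vanish
    have h2 : ∀ J, coef T E i J = 0 := by
      intro J
      have h3 := congrFun (congrFun (act_inv hA (coef T E)) i) J
      rw [← h3]
      unfold act
      refine Finset.sum_eq_zero fun I _ => ?_
      have h4 : (∑ x, (∏ s, A (I s) (x s)) * coef T E i x) = 0 := h1 I
      rw [h4, mul_zero]
    apply hTi
    obtain ⟨-, hsp⟩ : LinearIndependent K E ∧ Submodule.span K (Set.range E) = ⊤ := by
      refine ⟨hE, ?_⟩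
      rw [eq_top_iff]
      intro G _
      obtain ⟨c, hc⟩ := frame_of_indep hn hE G
      rw [hc]
      exact Submodule.sum_mem _ fun j _ => Submodule.smul_mem _ _
        (Submodule.subset_span (Set.mem_range_self j))
    refine Module.Basis.ext_multilinear (fun _ => crd hE hsp) fun J => ?_
    have h5 : (fun s => (crd hE hsp) (J s)) = fun s => E (J s) := by
      funext s
      simp [crd]
    rw [h5]
    exact (map_eq_zero _).1 (h2 J)
  -- the functions
  let am := algebraMap K (AlgebraicClosure K)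
  have hvl : ∀ Q, aeval (pt (coef T E)) Q = am (vl T Q E) := fun Q => aeval_coef' T E Q
  have hv0 : vl T Q0 E ≠ 0 := fun h => hne (by rw [hvl, h, map_zero])
  obtain ⟨f0, hf0def⟩ : ∃ f0, f0 = fq T η r W0 Q0 E := ⟨_, rfl⟩
  have hf0 : f0 ≠ 0 := by
    rw [hf0def]
    exact div_ne_zero (pow_ne_zero _ hv0) (pow_ne_zero _ hηE)
  have hf0s : FunSec y ((r * e0) • L) f0 := by
    rw [hf0def]
    exact fq_sec hSV hy hn hn1 hη hT hQ0 hQe0 hE
  have hre : 1 ≤ r * e0 := Nat.mul_pos hr he0
  refine ⟨⟨r * e0, hre, f0, hf0, hf0s⟩, ?_⟩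
  -- the normalisations
  obtain ⟨μ, hμ⟩ := IsAlgClosed.exists_pow_nat_eq (am (η E))⁻¹ (Nat.mul_pos hn1 hr)
  obtain ⟨g, hg⟩ := IsAlgClosed.exists_pow_nat_eq (am f0)⁻¹ hre
  have hamη : am (η E) ≠ 0 := (map_ne_zero am).2 hηE
  have hamf : am f0 ≠ 0 := (map_ne_zero am).2 hf0
  have hμ0 : μ ≠ 0 := by
    rintro rfl
    rw [zero_pow (Nat.mul_pos hn1 hr).ne'] at hμ
    exact inv_ne_zero hamη hμ.symm
  have hg0 : g ≠ 0 := by
    rintro rfl
    rw [zero_pow (by omega)] at hg
    exact inv_ne_zero hamf hg.symm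
  obtain ⟨M, hM⟩ : ∃ M : Matrix (Fin n) (Fin n) (AlgebraicClosure K), M = μ • 1 := ⟨_, rfl⟩
  have hMdet : M.det = μ ^ n := by
    rw [hM, Matrix.det_smul, Matrix.det_one, mul_one, Fintype.card_fin]
  have hM0 : M.det ≠ 0 := by
    rw [hMdet]
    exact pow_ne_zero _ hμ0
  let t' : Fam m n (AlgebraicClosure K) := fun i J => g ^ a i * act M (coef T E) i J
  have hst' : StableFam t' := (hst.act hM0).scale fun i => pow_ne_zero _ hg0
  have hval : ∀ W Q, SemiInv ℂ m n W Q → IsAlgebraic (ratioField y L) (aeval (pt t') Q) := by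
    intro W Q hQ
    have hcomp : ∀ e, IsAlgebraic (ratioField y L) (aeval (pt t')
        (weightedHomogeneousComponent (fun x : Ix m n => a x.1) e Q)) := by
      intro e
      obtain ⟨Qe, hQedef⟩ : ∃ Qe, Qe = weightedHomogeneousComponent (fun x : Ix m n => a x.1) e Q :=
        ⟨_, rfl⟩
      have hQe : IsWeightedHomogeneous (fun x : Ix m n => a x.1) Qe e := by
        rw [hQedef]
        exact weightedHomogeneousComponent_isWeightedHomogeneous e Q
      have hQs : SemiInv ℂ m n W Qe := by
        rw [hQedef]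
        exact hHD ℂ ι m n W Q a e hQ
      rw [← hQedef]
      have h1 : aeval (pt t') Qe = g ^ e * (μ ^ n) ^ W * am (vl T Qe E) := by
        have h2 := aeval_scale a g (act M (coef T E)) hQe
        have h3 := hQs (AlgebraicClosure K) M (coef T E)
        rw [hMdet, hvl] at h3
        rw [h3, ← mul_assoc] at h2
        exact h2
      have h4 : (aeval (pt t') Qe) ^ (r * e0) =
          am (fq T η r W Qe E ^ e0 / f0 ^ e) := by
        have e1 : (g ^ e) ^ (r * e0) = ((am f0)⁻¹) ^ e := by
          rw [← hg, ← pow_mul, ← pow_mul, mul_comm]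
        have e2 : ((μ ^ n) ^ W) ^ (r * e0) = ((am (η E))⁻¹) ^ (W * e0) := by
          rw [← hμ]
          ring
        rw [h1, mul_pow, mul_pow, e1, e2]
        unfold fq
        rw [map_div₀, map_pow, map_pow, map_div₀, map_pow, map_pow, div_pow, inv_pow, inv_pow,
          ← pow_mul, ← pow_mul]
        rw [div_eq_mul_inv, div_eq_mul_inv]
        ring
      have h5 : fq T η r W Qe E ^ e0 / f0 ^ e ∈ ratioField y L := by
        refine IntermediateField.subset_adjoin _ _ ⟨(e + 1) * (r * e0),
          Nat.mul_pos (Nat.succ_pos _) hre, f0 ^ (e + 1), pow_ne_zero _ hf0, hf0s.pow _, ?_⟩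
        have h6 : fq T η r W Qe E ^ e0 / f0 ^ e * f0 ^ (e + 1) = fq T η r W Qe E ^ e0 * f0 := by
          rw [pow_succ]
          field_simp
        rw [h6]
        have h7 := ((fq_sec hSV hy hn hn1 hη hT hQs hQe hE).pow e0).mul hf0s
        have h8 : e0 * (r * e) + r * e0 = (e + 1) * (r * e0) := by ring
        rw [h8] at h7
        exact h7
      have h6 : IsAlgebraic (ratioField y L) ((aeval (pt t') Qe) ^ (r * e0)) := by
        rw [h4]
        exact isAlgebraic_algebraMap (R := ratioField y L) (A := AlgebraicClosure K)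
          (⟨_, h5⟩ : ratioField y L)
      exact h6.of_pow hre
    have h1 : Q = finsum fun e => weightedHomogeneousComponent (fun x : Ix m n => a x.1) e Q :=
      (sum_weightedHomogeneousComponent _ Q).symm
    have hfin : (Function.support fun e =>
        weightedHomogeneousComponent (fun x : Ix m n => a x.1) e Q).Finite :=
      weightedHomogeneousComponent_finsupp Q
    rw [h1, finsum_eq_sum_of_support_subset _ (s := hfin.toFinset) (by simp), map_sum]
    rw [← mem_algebraicClosure_iff]
    exact sum_mem fun e _ => mem_algebraicClosure_iff.2 (hcomp e)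
  obtain ⟨A, hA, hAalg⟩ := alg_main2 (k := ℂ) (I := ratioField y L) hn1 hst' hval
  refine ⟨g, A * M, hg0, ?_, fun i J => ?_⟩
  · rw [Matrix.det_mul]
    exact mul_ne_zero hA hM0
  · have h1 := hAalg i J
    have h2 : act A t' i J = g ^ a i * act (A * M) (coef T E) i J := by
      rw [act_mul]
      exact congrFun (congrFun (act_scale (fun i => g ^ a i) A (act M (coef T E))) i) J
    rw [h2] at h1
    exact h1

end

end Pool.Agent.N133.TB
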