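import Pool.Agent.N133.TB.Stm4
import Pool.Agent.N133.TB.Uniq

/-!
Project TB, fourth part: uniqueness of the optimal filtration with thresholds (helper323, after
the proof of `t_uniq` by helper424).
-/

set_option autoImplicit false
set_option linter.overlappingInstances false
set_option linter.unusedSectionVars false

namespace Pool.Agent.N133.TB

section

variable {ι : Type} {n : ℕ} {m : ι → ℕ} {L : Type} [Field L]

/-- the weights in an adapted basis, with thresholds -/
theorem Uniqc.wtGe_adapted {c : ι → ℝ} {t : Fam m n L} {A f : Matrix (Fin n) (Fin n) L}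
    {w u : Fin n → ℝ} {μ : ℝ}
    (hf : ∀ j, f j ∈ Filt A w (u j)) (h : WtGeC c t A w μ) : WtGeC c t f u μ := by
  choose B hB1 hB2 using fun j => exists_coef (hf j)
  have hfB : f = (Matrix.of B) * A := by
    ext j k
    rw [Matrix.mul_apply]
    exact hB2 j k
  intro i J hJ
  rw [hfB, act_mul]
  show ∑ I : Fin (m i) → Fin n, (∏ s, Matrix.of B (J s) (I s)) * act A t i I = 0
  refine Finset.sum_eq_zero fun I _ => ?_
  by_cases hI : ∀ s, w (I s) ≤ u (J s)
  · rw [h i I (lt_of_le_of_lt (Finset.sum_le_sum fun s _ => hI s) hJ), mul_zero]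
  · push Not at hI
    obtain ⟨s, hs⟩ := hI
    rw [Finset.prod_eq_zero (Finset.mem_univ s) (hB1 _ _ hs), zero_mul]

end

theorem t_uniqc : S_FLAG → S_UNIQC := by
  intro hflag L _ ι m n t c hc0 hct A A' w w' μ hμ h h' a
  obtain ⟨hA, hw0, hw2, hWt, hopt⟩ := h
  obtain ⟨hA', hw0', hw2', hWt', hopt'⟩ := h'
  obtain ⟨f, σ, σ', hf, hfA, hfA'⟩ := hflag L n A A' w w' hA hA'
  obtain ⟨u, hu⟩ : ∃ u : Fin n → ℝ, u = fun j => w (σ j) := ⟨_, rfl⟩
  obtain ⟨u', hu'⟩ : ∃ u' : Fin n → ℝ, u' = fun j => w' (σ' j) := ⟨_, rfl⟩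
  have hu0 : ∑ i, u i = 0 := by
    rw [hu, Equiv.sum_comp σ w]
    exact hw0
  have hu0' : ∑ i, u' i = 0 := by
    rw [hu', Equiv.sum_comp σ' w']
    exact hw0'
  have hu2 : ∑ i, u i ^ 2 = 1 := by
    rw [hu, Equiv.sum_comp σ fun i => w i ^ 2]
    exact hw2
  have hu2' : ∑ i, u' i ^ 2 = 1 := by
    rw [hu', Equiv.sum_comp σ' fun i => w' i ^ 2]
    exact hw2'
  have hWu : WtGeC c t f u μ :=
    Uniqc.wtGe_adapted (A := A) (w := w) (by rw [hu]; exact hfA) hWt
  have hWu' : WtGeC c t f u' μ :=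
    Uniqc.wtGe_adapted (A := A') (w := w') (by rw [hu']; exact hfA') hWt'
  have hsum : ∀ i (J : Fin (m i) → Fin n), ∑ s, (u (J s) + u' (J s)) < 2 * (c i * μ) →
      act f t i J = 0 := by
    intro i J hJ
    rw [Finset.sum_add_distrib] at hJ
    rcases lt_or_ge (∑ s, u (J s)) (c i * μ) with h1 | h1
    · exact hWu i J h1
    · exact hWu' i J (by linarith)
  have huu : u = u' := by
    by_contra hne
    obtain ⟨S, hS⟩ : ∃ S, S = ∑ i, (u i + u' i) ^ 2 := ⟨_, rfl⟩
    have hS0 : 0 ≤ S := by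
      rw [hS]
      exact Finset.sum_nonneg fun i _ => sq_nonneg _
    have hD : 0 < ∑ i, (u i - u' i) ^ 2 := by
      obtain ⟨i, hi⟩ := Function.ne_iff.1 hne
      refine Finset.sum_pos' (fun i _ => sq_nonneg _) ⟨i, Finset.mem_univ i, ?_⟩
      exact lt_of_le_of_ne (sq_nonneg _) (Ne.symm (pow_ne_zero 2 (sub_ne_zero.2 hi)))
    have hSD : S + ∑ i, (u i - u' i) ^ 2 = 4 := by
      rw [hS, ← Finset.sum_add_distrib]
      have : ∀ i ∈ Finset.univ, (u i + u' i) ^ 2 + (u i - u' i) ^ 2 =
          2 * u i ^ 2 + 2 * u' i ^ 2 := fun i _ => by ring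
      rw [Finset.sum_congr rfl this, Finset.sum_add_distrib, ← Finset.mul_sum, ← Finset.mul_sum,
        hu2, hu2']
      norm_num
    rcases hS0.eq_or_lt with h0 | h0
    · -- `u + u' = 0`
      obtain ⟨i₀, hi₀, hti₀⟩ := hct
      apply hti₀
      have h1 : ∀ i, u i + u' i = 0 := by
        intro i
        rw [hS] at h0
        have h2 := (Finset.sum_eq_zero_iff_of_nonneg fun i _ => sq_nonneg (u i + u' i)).1 h0.symm i
          (Finset.mem_univ i)
        exact pow_eq_zero_iff (two_ne_zero) |>.1 h2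
      have h3 : act f t i₀ = 0 := by
        funext J
        apply hsum
        rw [Finset.sum_eq_zero fun s _ => h1 (J s)]
        have := mul_pos hi₀ hμ
        linarith
      have h4 : act f⁻¹ (act f t) i₀ = 0 := by
        funext J
        show ∑ I : Fin (m i₀) → Fin n, (∏ s, f⁻¹ (J s) (I s)) * act f t i₀ I = 0
        exact Finset.sum_eq_zero fun I _ => by rw [h3]; exact mul_zero _
      have h5 := congrFun (act_inv hf t) i₀
      rw [← h5]
      exact h4
    · have hc : 0 < Real.sqrt S := Real.sqrt_pos.2 h0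
      have hc2 : Real.sqrt S < 2 := by
        rw [Real.sqrt_lt' two_pos]
        linarith
      have hcs : Real.sqrt S ^ 2 = S := Real.sq_sqrt hS0
      have h1 := hopt f (fun i => (u i + u' i) / Real.sqrt S) (2 * μ / Real.sqrt S) hf ?_ ?_ ?_
      · rw [div_le_iff₀ hc] at h1
        nlinarith
      · rw [← Finset.sum_div, Finset.sum_add_distrib, hu0, hu0', add_zero, zero_div]
      · have : ∀ i ∈ Finset.univ, ((u i + u' i) / Real.sqrt S) ^ 2 = (u i + u' i) ^ 2 / S :=
          fun i _ => by rw [div_pow, hcs]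
        rw [Finset.sum_congr rfl this, ← Finset.sum_div, ← hS, div_self h0.ne']
      · intro i J hJ
        apply hsum
        rw [← Finset.sum_div] at hJ
        have h2 : c i * (2 * μ / Real.sqrt S) = 2 * (c i * μ) / Real.sqrt S := by ring
        rw [h2, div_lt_div_iff_of_pos_right hc] at hJ
        exact hJ
  rw [← filt_adapted hA hf hfA a, ← filt_adapted hA' hf hfA' a, ← hu, ← hu', huu]

end Pool.Agent.N133.TB
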