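import Pool.Agent.N133.TB.TwD
import Pool.Agent.N133.TB.HomdM
import Pool.Agent.N133.TB.Secv
import Pool.Agent.N133.TB.Optc
import Pool.Agent.N133.TB.Uniqc
import Pool.Agent.N133.TB.Kempfc
import Pool.Agent.N133.TB.Flag
import Pool.Agent.N133.TB.Gal

/-!
Project TB, fourth part: the theorems on tensors with values in the multiples of a divisor.
-/

set_option autoImplicit false
set_option linter.overlappingInstances false
set_option linter.unusedSectionVars false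

open MvPolynomial FF Pool.Agent.W602.GT Pool.Agent.W603.LV Pool.Agent.W619.PQ Pool.Agent.Y172
  Pool.Agent.Y191 Pool.Agent.Y174 Pool.Agent.N133.OB Pool.Agent.TH466.QG

namespace Pool.Agent.N133.TB

theorem u_uniqc : S_UNIQC := t_uniqc t_flag

theorem u_kempfc : S_KEMPFC := t_kempfc t_optc u_uniqc t_gal

section

variable {K : Type} [Field K] [Algebra ℂ K] {n N : ℕ} {y : Fin (N + 1) → K} {ι : Type}
  {m : ι → ℕ}

theorem tw_can' (hy : NormalModel y) (hn : Algebra.trdeg ℂ K = n) (hn1 : 1 ≤ n)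
    {Δ L : Place ℂ K → ℚ} {r : ℕ} (hr : 1 ≤ r) {η : (Fin n → Derivation ℂ K K) → K}
    (hη : GenBy y n Δ r η) (hη0 : η ≠ 0) [Finite ι] {a : ι → ℕ}
    {T : (i : ι) → MultilinearMap K (fun _ : Fin (m i) => Derivation ℂ K K) K}
    (hT : ∀ i, IsTensorV y Δ (a i • L) (T i)) (hT0 : ∃ i, 1 ≤ a i ∧ T i ≠ 0) :
    (∃ e : ℕ, 1 ≤ e ∧ ∃ f, f ≠ 0 ∧ FunSec y (e • L) f) ∨
    ∃ (f : Fin n → Derivation ℂ K K) (w : Fin n → ℝ) (μ : ℝ), 0 < μ ∧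
      WtBasisC (fun i => (a i : ℝ)) T f w μ ∧
      ∀ (f' : Fin n → Derivation ℂ K K) (w' : Fin n → ℝ) (μ' : ℝ),
        WtBasisC (fun i => (a i : ℝ)) T f' w' μ' →
        μ' ≤ μ ∧ (μ' = μ → ∀ b, lvl K f' w' b = lvl K f w b) :=
  tw_can my_homd t_secv t_optc u_uniqc u_kempfc hy hn hn1 hr hη hη0 hT hT0

theorem tw_inv' (hy : NormalModel y) (hn : Algebra.trdeg ℂ K = n) (hn1 : 1 ≤ n)
    {L : Place ℂ K → ℚ} {r : ℕ} (hr : 1 ≤ r) {η : (Fin n → Derivation ℂ K K) → K}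
    (hη : GenBy y n 0 r η) (hη0 : η ≠ 0)
    {σ : MultilinearMap K (fun _ : Fin 2 => Derivation ℂ K K) K} (hσ : IsTensorV y 0 0 σ)
    (hnd : ∀ D, (∀ D', σ ![D, D'] = 0) → D = 0) (M A : ℕ)
    (hM : ∃ m a : ℕ, 1 ≤ m ∧ m ≤ M ∧ 1 ≤ a ∧ a ≤ A ∧
      ∃ T : MultilinearMap K (fun _ : Fin m => Derivation ℂ K K) K,
        IsTensorV y 0 (a • L) T ∧ T ≠ 0) :
    (∃ e : ℕ, 1 ≤ e ∧ ∃ f, f ≠ 0 ∧ FunSec y (e • L) f) ∨
    ∃ F C : Submodule K (Derivation ℂ K K), F ≠ ⊥ ∧ F ≤ C ∧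
      Module.finrank K F + Module.finrank K C = n ∧
      (∀ D ∈ F, ∀ D' ∈ C, σ ![D, D'] = 0 ∧ σ ![D', D] = 0) ∧
      (∀ m a : ℕ, 1 ≤ m → m ≤ M → 1 ≤ a → a ≤ A →
        ∀ T : MultilinearMap K (fun _ : Fin m => Derivation ℂ K K) K, IsTensorV y 0 (a • L) T →
          ∀ D : Fin m → Derivation ℂ K K, (∀ j, D j ∈ C) → T D = 0) ∧
      ∀ φ : K ≃ₐ[ℂ] K, PreservesLS y L σ φ → ∀ D, (D ∈ F → pushD φ D ∈ F) ∧
        (D ∈ C → pushD φ D ∈ C) :=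
  tw_inv my_homd t_secv t_optc u_uniqc u_kempfc hy hn hn1 hr hη hη0 hσ hnd M A hM

end

end Pool.Agent.N133.TB
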