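import Pool.Agent.N133.TB.MgB

/-!
Project TB: stable tensors with values in the multiples of `K_X + Δ`.
-/

set_option autoImplicit false
set_option linter.overlappingInstances false
set_option linter.unusedSectionVars false

open MvPolynomial FF Pool.Agent.W602.GT Pool.Agent.W603.LV Pool.Agent.W619.PQ Pool.Agent.Y172
  Pool.Agent.Y191 Pool.Agent.Y174 Pool.Agent.N133.OB

namespace Pool.Agent.N133.TB

section

variable {k I Ω : Type} [Field k] [Field I] [Field Ω] [CharZero k] [Algebra k I] [Algebra I Ω]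
  [Algebra k Ω] [IsScalarTower k I Ω] [IsAlgClosed Ω] {ι : Type} [Finite ι] {m : ι → ℕ} {n : ℕ}

/-- If the semi-invariants of a stable family are algebraic over the field `I`, then the
coefficients in a suitable basis are algebraic over `I`; and the determinant of the change of basis
is a root of unity, if a semi-invariant of positive weight does not vanish. -/
theorem alg_main3 (hn1 : 1 ≤ n) {t : Fam m n Ω} (hst : StableFam t)
    (hval : ∀ W Q, SemiInv k m n W Q → IsAlgebraic I (aeval (pt t) Q)) :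
    ∃ A : Matrix (Fin n) (Fin n) Ω, A.det ≠ 0 ∧ (∀ i J, IsAlgebraic I (act A t i J)) ∧
      ∀ W Q, SemiInv k m n W Q → aeval (pt t) Q ≠ 0 → A.det ^ W = 1 := by
  classical
  have hchar : CharZero Ω := charZero_of_injective_algebraMap (algebraMap k Ω).injective
  let F := algebraicClosure I Ω
  have htow : IsScalarTower k F Ω := IsScalarTower.of_algebraMap_eq fun x => by
    have h1 := IsScalarTower.algebraMap_apply k I F x
    rw [h1]
    exact IsScalarTower.algebraMap_apply k I Ω x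
  have hFalg : IsAlgClosed F := (algebraicClosure.isAlgClosure I Ω).isAlgClosed
  obtain ⟨x', hx'⟩ := alg_spec t_desc (E := F) (L := Ω)
    {P | ∃ W' Q', SemiInv k m n W' Q' ∧ P = map (algebraMap k F) Q'} (pt t) (by
      rintro P ⟨W', Q', hQ', rfl⟩
      refine ⟨⟨aeval (pt t) Q', ?_⟩, ?_⟩
      · exact mem_algebraicClosure_iff.2 (hval W' Q' hQ')
      · rw [aeval_map_algebraMap]
        rfl)
  let t₂ : Fam m n Ω := fun i J => algebraMap F Ω (x' ⟨i, J⟩)
  have hsame : ∀ W' Q', SemiInv k m n W' Q' → aeval (pt t) Q' = aeval (pt t₂) Q' := by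
    intro W' Q' hQ'
    have h1 := hx' _ ⟨W', Q', hQ', rfl⟩
    rw [aeval_map_algebraMap] at h1
    rw [h1, eval_map, ← aeval_def, ← aeval_algebraMap_apply]
    rfl
  obtain ⟨A, hA, hAt⟩ := alg_stable (k := k) t_sep' t_hm' hn1 hst (t₂ := t₂) hsame
  refine ⟨A⁻¹, inv_det_ne hA, fun i J => ?_, fun W Q hQ h0 => ?_⟩
  · rw [hAt, act_inv hA]
    exact mem_algebraicClosure_iff.1 (x' ⟨i, J⟩).2
  · have h1 := hQ Ω A t₂
    rw [← hAt, ← hsame W Q hQ] at h1
    have h2 : A.det ^ W = 1 := by
      have h3 : (A.det ^ W - 1) * aeval (pt t) Q = 0 := by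
        rw [sub_mul, one_mul, ← h1, sub_self]
      exact sub_eq_zero.1 ((mul_eq_zero.1 h3).resolve_right h0)
    have h4 : A⁻¹.det * A.det = 1 := by
      rw [← Matrix.det_mul, Matrix.nonsing_inv_mul _ (isUnit_iff_ne_zero.2 hA), Matrix.det_one]
    have h5 : (A⁻¹.det * A.det) ^ W = 1 := by rw [h4, one_pow]
    rw [mul_pow, h2, mul_one] at h5
    exact h5

end

section

variable {K : Type} [Field K] [Algebra ℂ K] {n N : ℕ} {y : Fin (N + 1) → K} {ι : Type}
  {m : ι → ℕ}

/-- a semi-invariant as a section of a multiple of `K_X + Δ` -/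
theorem tq_sec (hy : NormalModel y) (hn : Algebra.trdeg ℂ K = n) (hn1 : 1 ≤ n)
    {Δ κ : Place ℂ K → ℚ} {η : (Fin n → Derivation ℂ K K) → K} (hη : IsPluri 1 η)
    (hκ : ∀ P, IsPrimeDivisor y P → OrdEq P η (κ P))
    [Finite ι] {a : ι → ℕ}
    {T : (i : ι) → MultilinearMap K (fun _ : Fin (m i) => Derivation ℂ K K) K}
    (hT : ∀ i, IsTensorV y Δ (a i • (κ + Δ)) (T i)) {W e : ℕ} {Q : MvPolynomial (Ix m n) ℂ}
    (hQ : SemiInv ℂ m n W Q) (hQe : IsWeightedHomogeneous (fun x : Ix m n => a x.1) Q e)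
    {E : Fin n → Derivation ℂ K K} (hE : LinearIndependent K E) :
    FunSec y ((W + e) • (κ + Δ)) (vl T Q E / η E ^ W) := by
  intro P hP
  have hess : Algebra.EssFiniteType ℂ K := hy.ess
  obtain ⟨-, D, hD, hD0, hDord⟩ := hκ P hP
  have hfr := frame_of_indep hn hE
  choose A hA using fun i => hfr (D i)
  have e1 : (fun i => ∑ j, Matrix.of A i j • E j) = D := by
    funext i
    exact (hA i).symm
  have e2 := hη (Matrix.of A) E
  have e3 := sec_pluri T hQ (Matrix.of A) E
  rw [e1, pow_one] at e2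
  rw [e1] at e3
  have hdet : (Matrix.of A).det ≠ 0 := fun h => hD0 (by rw [e2, h, zero_mul])
  have hfq : vl T Q E / η E ^ W = vl T Q D / η D ^ W := by
    have e3' : vl T Q D = (Matrix.of A).det ^ W * vl T Q E := e3
    rw [e2, e3', mul_pow, mul_div_mul_left _ _ (pow_ne_zero _ hdet)]
  rw [hfq]
  have h3 := t_secv ℂ K hess n hn1 hn ι m T a W e Q hQ hQe P (hP.divisorial hy hn) (Δ P : ℝ)
    ((κ + Δ) P : ℝ) (fun i D' S hD' hS => by
      rcases hT i P hP D' S (fun j => hD' j) (fun j hj => hS j hj) with h4 | h4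
      · exact Or.inl h4
      · right
        rw [Pi.smul_apply, nsmul_eq_mul] at h4
        exact_mod_cast h4) D (fun j f hf => hD j f hf)
  by_cases hv : vl T Q D = 0
  · left
    rw [hv, zero_div]
  · right
    rcases h3 with h3 | h3
    · exact absurd h3 hv
    · rw [P.ord_div hv (pow_ne_zero _ hD0), P.ord_pow]
      have h5 : -((W : ℚ) * Δ P + e * (κ + Δ) P) ≤ (P.ord (vl T Q D) : ℚ) := by
        have h6 : ((-((W : ℚ) * Δ P + e * (κ + Δ) P) : ℚ) : ℝ) ≤
            ((P.ord (vl T Q D) : ℚ) : ℝ) := by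
          push_cast
          exact h3
        exact_mod_cast h6
      rw [Pi.smul_apply, nsmul_eq_mul]
      push_cast
      rw [hDord]
      rw [Pi.add_apply] at h5 ⊢
      linarith

/-- **Stable tensors with values in the multiples of `K_X + Δ`.** -/
theorem tq_stable (hy : NormalModel y)
    (hn : Algebra.trdeg ℂ K = n) (hn1 : 1 ≤ n) {Δ κ : Place ℂ K → ℚ}
    {η : (Fin n → Derivation ℂ K K) → K} (hη : IsPluri 1 η) (hη0 : η ≠ 0)
    (hκ : ∀ P, IsPrimeDivisor y P → OrdEq P η (κ P))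
    [Finite ι] (hm : ∀ i, 1 ≤ m i) {a : ι → ℕ}
    {T : (i : ι) → MultilinearMap K (fun _ : Fin (m i) => Derivation ℂ K K) K}
    (hT : ∀ i, IsTensorV y Δ (a i • (κ + Δ)) (T i))
    {E : Fin n → Derivation ℂ K K} (hE : LinearIndependent K E)
    (hst : StableFam (coef T E)) :
    (∃ e : ℕ, 1 ≤ e ∧ ∃ f, f ≠ 0 ∧ FunSec y (e • (κ + Δ)) f) ∧
    ∃ A : Matrix (Fin n) (Fin n) (AlgebraicClosure K), A.det ≠ 0 ∧ ∀ i J,
      IsAlgebraic (ratioField y (κ + Δ))
        ((A.det * algebraMap K (AlgebraicClosure K) (η E)) ^ a i * act A (coef T E) i J) := by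
  classical
  have hηE : η E ≠ 0 := fun h => hη0 (pluri_zero (frame_of_indep hn hE) hη h)
  -- a semi-invariant of positive weight
  obtain ⟨W1, Q1, hW1, hQ1, hne1⟩ : ∃ (W : ℕ) (Q : MvPolynomial (Ix m n) ℂ), 1 ≤ W ∧
      SemiInv ℂ m n W Q ∧ aeval (pt (coef T E)) Q ≠ 0 := by
    by_contra hcon
    push Not at hcon
    obtain ⟨A, w, hA, hw, hJ⟩ := alg_null (k := ℂ) t_sep' t_hm' hn1 hm (t := coef T E)
      (fun W Q hW hQ => hcon W Q hW hQ)
    exact not_null hst hA hw hJ
  obtain ⟨e0, hne0⟩ : ∃ e, aeval (pt (coef T E))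
      (weightedHomogeneousComponent (fun x : Ix m n => a x.1) e Q1) ≠ 0 := by
    by_contra hcon
    push Not at hcon
    apply hne1
    have h1 : Q1 = finsum fun e => weightedHomogeneousComponent (fun x : Ix m n => a x.1) e Q1 :=
      (sum_weightedHomogeneousComponent _ Q1).symm
    have hfin : (Function.support fun e =>
        weightedHomogeneousComponent (fun x : Ix m n => a x.1) e Q1).Finite :=
      weightedHomogeneousComponent_finsupp Q1
    rw [h1, finsum_eq_sum_of_support_subset _ (s := hfin.toFinset) (by simp), map_sum]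
    exact Finset.sum_eq_zero fun e _ => hcon e
  obtain ⟨Q0, hQ0def⟩ : ∃ Q0, Q0 = weightedHomogeneousComponent (fun x : Ix m n => a x.1) e0 Q1 :=
    ⟨_, rfl⟩
  have hQe0 : IsWeightedHomogeneous (fun x : Ix m n => a x.1) Q0 e0 := by
    rw [hQ0def]
    exact weightedHomogeneousComponent_isWeightedHomogeneous e0 Q1
  have hQ0 : SemiInv ℂ m n W1 Q0 := by
    rw [hQ0def]
    exact my_homd ℂ ι m n W1 Q1 a e0 hQ1
  rw [← hQ0def] at hne0
  -- the functions
  let am := algebraMap K (AlgebraicClosure K)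
  have hvl : ∀ Q, aeval (pt (coef T E)) Q = am (vl T Q E) := fun Q => aeval_coef' T E Q
  have hv0 : vl T Q0 E ≠ 0 := fun h => hne0 (by rw [hvl, h, map_zero])
  obtain ⟨f0, hf0def⟩ : ∃ f0, f0 = vl T Q0 E / η E ^ W1 := ⟨_, rfl⟩
  have hf0 : f0 ≠ 0 := by
    rw [hf0def]
    exact div_ne_zero hv0 (pow_ne_zero _ hηE)
  have hf0s : FunSec y ((W1 + e0) • (κ + Δ)) f0 := by
    rw [hf0def]
    exact tq_sec hy hn hn1 hη hκ hT hQ0 hQe0 hE
  have hre : 1 ≤ W1 + e0 := by omega
  refine ⟨⟨W1 + e0, hre, f0, hf0, hf0s⟩, ?_⟩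
  -- the normalisation
  have hamη : am (η E) ≠ 0 := (map_ne_zero am).2 hηE
  have hamf : am f0 ≠ 0 := (map_ne_zero am).2 hf0
  obtain ⟨h, hh⟩ := IsAlgClosed.exists_pow_nat_eq (am f0)⁻¹ hre
  have hh0 : h ≠ 0 := by
    rintro rfl
    rw [zero_pow (by omega)] at hh
    exact inv_ne_zero hamf hh.symm
  obtain ⟨μ, hμ⟩ := IsAlgClosed.exists_pow_nat_eq (h / am (η E)) hn1
  have hμ0 : μ ≠ 0 := by
    rintro rfl
    rw [zero_pow (by omega)] at hμ
    exact div_ne_zero hh0 hamη hμ.symm
  obtain ⟨M, hM⟩ : ∃ M : Matrix (Fin n) (Fin n) (AlgebraicClosure K), M = μ • 1 := ⟨_, rfl⟩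
  have hMdet : M.det = μ ^ n := by
    rw [hM, Matrix.det_smul, Matrix.det_one, mul_one, Fintype.card_fin]
  have hMh : M.det * am (η E) = h := by
    rw [hMdet, hμ]
    field_simp
  have hM0 : M.det ≠ 0 := by
    rw [hMdet]
    exact pow_ne_zero _ hμ0
  let t' : Fam m n (AlgebraicClosure K) := fun i J => h ^ a i * act M (coef T E) i J
  have hst' : StableFam t' := (hst.act hM0).scale fun i => pow_ne_zero _ hh0
  have hform : ∀ W e Q, SemiInv ℂ m n W Q →
      IsWeightedHomogeneous (fun x : Ix m n => a x.1) Q e →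
      aeval (pt t') Q = h ^ (W + e) * am (vl T Q E / η E ^ W) := by
    intro W e Q hQ hQe
    have h2 := aeval_scale a h (act M (coef T E)) hQe
    have h3 := hQ (AlgebraicClosure K) M (coef T E)
    rw [hvl] at h3
    rw [h3] at h2
    have h4 : aeval (pt t') Q = h ^ e * (M.det ^ W * am (vl T Q E)) := h2
    rw [h4, map_div₀, map_pow, pow_add, ← hMh]
    field_simp
    rw [mul_pow]
    ring
  have hval : ∀ W Q, SemiInv ℂ m n W Q →
      IsAlgebraic (ratioField y (κ + Δ)) (aeval (pt t') Q) := by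
    intro W Q hQ
    have hcomp : ∀ e, IsAlgebraic (ratioField y (κ + Δ)) (aeval (pt t')
        (weightedHomogeneousComponent (fun x : Ix m n => a x.1) e Q)) := by
      intro e
      obtain ⟨Qe, hQedef⟩ : ∃ Qe, Qe = weightedHomogeneousComponent (fun x : Ix m n => a x.1) e Q :=
        ⟨_, rfl⟩
      have hQe : IsWeightedHomogeneous (fun x : Ix m n => a x.1) Qe e := by
        rw [hQedef]
        exact weightedHomogeneousComponent_isWeightedHomogeneous e Q
      have hQs : SemiInv ℂ m n W Qe := by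
        rw [hQedef]
        exact my_homd ℂ ι m n W Q a e hQ
      rw [← hQedef]
      obtain ⟨φ, hφ⟩ : ∃ φ, φ = vl T Qe E / η E ^ W := ⟨_, rfl⟩
      have hφs : FunSec y ((W + e) • (κ + Δ)) φ := by
        rw [hφ]
        exact tq_sec hy hn hn1 hη hκ hT hQs hQe hE
      have h4 : (aeval (pt t') Qe) ^ (W1 + e0) = am (φ ^ (W1 + e0) / f0 ^ (W + e)) := by
        have e5 : (h ^ (W + e)) ^ (W1 + e0) = (am f0 ^ (W + e))⁻¹ := by
          rw [← pow_mul, mul_comm (W + e), pow_mul, hh, inv_pow]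
        rw [hform W e Qe hQs hQe, ← hφ, mul_pow, e5, map_div₀, map_pow, map_pow]
        rw [div_eq_mul_inv, mul_comm]
      have h5 : φ ^ (W1 + e0) / f0 ^ (W + e) ∈ ratioField y (κ + Δ) := by
        refine IntermediateField.subset_adjoin _ _ ⟨(W + e + 1) * (W1 + e0),
          Nat.mul_pos (Nat.succ_pos _) hre, f0 ^ (W + e + 1), pow_ne_zero _ hf0, hf0s.pow _, ?_⟩
        have h6 : φ ^ (W1 + e0) / f0 ^ (W + e) * f0 ^ (W + e + 1) = φ ^ (W1 + e0) * f0 := by
          rw [pow_succ f0]
          field_simp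
        rw [h6]
        have h7 := (hφs.pow (W1 + e0)).mul hf0s
        have h8 : (W1 + e0) * (W + e) + (W1 + e0) = (W + e + 1) * (W1 + e0) := by ring
        rw [h8] at h7
        exact h7
      have h6 : IsAlgebraic (ratioField y (κ + Δ)) ((aeval (pt t') Qe) ^ (W1 + e0)) := by
        rw [h4]
        exact isAlgebraic_algebraMap (R := ratioField y (κ + Δ)) (A := AlgebraicClosure K)
          (⟨_, h5⟩ : ratioField y (κ + Δ))
      exact h6.of_pow hre
    have h1 : Q = finsum fun e => weightedHomogeneousComponent (fun x : Ix m n => a x.1) e Q :=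
      (sum_weightedHomogeneousComponent _ Q).symm
    have hfin : (Function.support fun e =>
        weightedHomogeneousComponent (fun x : Ix m n => a x.1) e Q).Finite :=
      weightedHomogeneousComponent_finsupp Q
    rw [h1, finsum_eq_sum_of_support_subset _ (s := hfin.toFinset) (by simp), map_sum]
    rw [← mem_algebraicClosure_iff]
    exact sum_mem fun e _ => mem_algebraicClosure_iff.2 (hcomp e)
  obtain ⟨A, hA, hAalg, hAdet⟩ := alg_main3 (k := ℂ) (I := ratioField y (κ + Δ)) hn1 hst' hval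
  have hroot : A.det ^ W1 = 1 := by
    refine hAdet W1 Q0 hQ0 ?_
    rw [hform W1 e0 Q0 hQ0 hQe0]
    exact mul_ne_zero (pow_ne_zero _ hh0) ((map_ne_zero am).2
      (div_ne_zero hv0 (pow_ne_zero _ hηE)))
  have hdalg : IsAlgebraic (ratioField y (κ + Δ)) A.det := by
    refine IsAlgebraic.of_pow hW1 ?_
    rw [hroot]
    exact isAlgebraic_one
  refine ⟨A * M, ?_, fun i J => ?_⟩
  · rw [Matrix.det_mul]
    exact mul_ne_zero hA hM0
  · have h1 := hAalg i J
    have h2 : act A t' i J = h ^ a i * act (A * M) (coef T E) i J := by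
      rw [act_mul]
      exact congrFun (congrFun (act_scale (fun i => h ^ a i) A (act M (coef T E))) i) J
    rw [h2] at h1
    have h3 : ((A * M).det * am (η E)) ^ a i * act (A * M) (coef T E) i J =
        A.det ^ a i * (h ^ a i * act (A * M) (coef T E) i J) := by
      rw [Matrix.det_mul, mul_assoc, hMh, mul_pow]
      ring
    change IsAlgebraic (ratioField y (κ + Δ))
      (((A * M).det * am (η E)) ^ a i * act (A * M) (coef T E) i J)
    rw [h3]
    exact (hdalg.pow _).mul h1

end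

end Pool.Agent.N133.TB
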