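import Pool.Agent.N133.TB.TwF

/-!
Project TB: a criterion of stability for tensors on symplectic varieties.
-/

set_option autoImplicit false
set_option linter.overlappingInstances false
set_option linter.unusedSectionVars false

open MvPolynomial FF Pool.Agent.W602.GT Pool.Agent.W603.LV Pool.Agent.W619.PQ Pool.Agent.Y172
  Pool.Agent.Y191 Pool.Agent.Y174 Pool.Agent.N133.OB

namespace Pool.Agent.N133.TB

section

variable {K : Type} [Field K] [Algebra ℂ K] {n : ℕ}

/-- the multilinear form `T` on the vector fields, extended to the algebraic closure of the function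
field, in the coordinates given by the frame `E` -/
noncomputable def extT {m : ℕ} (E : Fin n → Derivation ℂ K K)
    (T : MultilinearMap K (fun _ : Fin m => Derivation ℂ K K) K) :
    MultilinearMap (AlgebraicClosure K) (fun _ : Fin m => Fin n → AlgebraicClosure K)
      (AlgebraicClosure K) :=
  ∑ J : Fin m → Fin n, algebraMap K (AlgebraicClosure K) (T fun s => E (J s)) •
    (MultilinearMap.mkPiAlgebra (AlgebraicClosure K) (Fin m) (AlgebraicClosure K)).compLinearMap
      (fun s => LinearMap.proj (J s))

theorem extT_apply {m : ℕ} (E : Fin n → Derivation ℂ K K)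
    (T : MultilinearMap K (fun _ : Fin m => Derivation ℂ K K) K)
    (x : Fin m → Fin n → AlgebraicClosure K) : extT E T x =
      ∑ J : Fin m → Fin n, (∏ s, x s (J s)) *
        algebraMap K (AlgebraicClosure K) (T fun s => E (J s)) := by
  unfold extT
  rw [MultilinearMap.sum_apply]
  refine Finset.sum_congr rfl fun J _ => ?_
  rw [MultilinearMap.smul_apply, MultilinearMap.compLinearMap_apply,
    MultilinearMap.mkPiAlgebra_apply, smul_eq_mul, mul_comm]
  rfl

theorem act_extT {ι : Type} {m : ι → ℕ} (E : Fin n → Derivation ℂ K K)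
    (T : (i : ι) → MultilinearMap K (fun _ : Fin (m i) => Derivation ℂ K K) K)
    (A : Matrix (Fin n) (Fin n) (AlgebraicClosure K)) (i : ι) (J : Fin (m i) → Fin n) :
    act A (coef T E) i J = extT E (T i) (fun s => A (J s)) := by
  rw [extT_apply]
  rfl

/-- the extension of a nondegenerate form is nondegenerate -/
theorem extT_nondeg {E : Fin n → Derivation ℂ K K} (hE : LinearIndependent K E)
    (hs : Submodule.span K (Set.range E) = ⊤)
    {σ : MultilinearMap K (fun _ : Fin 2 => Derivation ℂ K K) K}
    (hnd : ∀ D, (∀ D', σ ![D, D'] = 0) → D = 0) (x : Fin n → AlgebraicClosure K)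
    (hx : ∀ z, extT E σ ![x, z] = 0) : x = 0 := by
  classical
  let S : Matrix (Fin n) (Fin n) K := Matrix.of fun i j => σ ![E i, E j]
  have hdet : S.det ≠ 0 := by
    intro h0
    obtain ⟨v, hv, hv0⟩ := Matrix.exists_vecMul_eq_zero_iff.2 h0
    apply hv
    have h1 : ∑ i, v i • E i = 0 := by
      refine hnd _ fun D' => ?_
      have hD' : D' ∈ Submodule.span K (Set.range E) := by
        rw [hs]
        trivial
      obtain ⟨c, hc⟩ := (Submodule.mem_span_range_iff_exists_fun K).1 hD'
      rw [← hc, ← bil_apply, bil_sum]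
      have h2 : ∀ j, ∑ i, v i * S i j = 0 := fun j => congrFun hv0 j
      have h3 : ∑ i, v i * ∑ j, c j * σ ![E i, E j] = ∑ j, c j * ∑ i, v i * S i j := by
        simp only [Finset.mul_sum]
        rw [Finset.sum_comm]
        refine Finset.sum_congr rfl fun j _ => Finset.sum_congr rfl fun i _ => ?_
        change v i * (c j * σ ![E i, E j]) = c j * (v i * σ ![E i, E j])
        ring
      rw [h3]
      exact Finset.sum_eq_zero fun j _ => by rw [h2, mul_zero]
    funext i
    exact Fintype.linearIndependent_iff.1 hE v h1 i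
  have hdet' : (S.map (algebraMap K (AlgebraicClosure K))).det ≠ 0 := by
    have h1 : (S.map (algebraMap K (AlgebraicClosure K))).det = algebraMap K _ S.det :=
      (RingHom.map_det _ S).symm
    rw [h1]
    exact (map_ne_zero _).2 hdet
  by_contra hx0
  apply hdet'
  refine Matrix.exists_vecMul_eq_zero_iff.1 ⟨x, hx0, ?_⟩
  funext j
  have h1 := hx (Pi.single j 1)
  rw [extT_apply] at h1
  have h2 : ∀ J : Fin 2 → Fin n, (∏ s, (![x, Pi.single j 1] : Fin 2 → Fin n → _) s (J s)) *
      algebraMap K (AlgebraicClosure K) (σ fun s => E (J s)) =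
      x (J 0) * (Pi.single j (1 : AlgebraicClosure K) : Fin n → _) (J 1) *
        algebraMap K (AlgebraicClosure K) (S (J 0) (J 1)) := by
    intro J
    rw [Fin.prod_univ_two]
    have h3 : (fun s => E (J s)) = ![E (J 0), E (J 1)] := by
      funext s
      fin_cases s <;> rfl
    rw [h3]
    rfl
  rw [Finset.sum_congr rfl fun J _ => h2 J] at h1
  have h4 : ∑ J : Fin 2 → Fin n, x (J 0) *
      (Pi.single j (1 : AlgebraicClosure K) : Fin n → _) (J 1) *
        algebraMap K (AlgebraicClosure K) (S (J 0) (J 1)) =
      ∑ p : Fin n × Fin n, x p.1 * (Pi.single j (1 : AlgebraicClosure K) : Fin n → _) p.2 *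
        algebraMap K (AlgebraicClosure K) (S p.1 p.2) :=
    Fintype.sum_equiv (finTwoArrowEquiv (Fin n)) _ _ fun J => rfl
  rw [h4, Fintype.sum_prod_type] at h1
  change ∑ i, x i * algebraMap K (AlgebraicClosure K) (S i j) = 0
  rw [← h1]
  refine Finset.sum_congr rfl fun i _ => ?_
  rw [Finset.sum_eq_single j]
  · rw [Pi.single_eq_same, mul_one]
  · intro b _ hb
    rw [Pi.single_eq_of_ne hb, mul_zero, zero_mul]
  · intro h
    exact absurd (Finset.mem_univ j) h

variable {N : ℕ} {y : Fin (N + 1) → K} {ι : Type} {m : ι → ℕ}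

/-- **The isotropic criterion.** -/
theorem tw_sympl (hy : NormalModel y) (hn : Algebra.trdeg ℂ K = n) (hn1 : 1 ≤ n)
    {L : Place ℂ K → ℚ} {r : ℕ} (hr : 1 ≤ r) {η : (Fin n → Derivation ℂ K K) → K}
    (hη : GenBy y n 0 r η) (hη0 : η ≠ 0)
    {σ : MultilinearMap K (fun _ : Fin 2 => Derivation ℂ K K) K} (hσ : IsTensorV y 0 0 σ)
    (hnd : ∀ D, (∀ D', σ ![D, D'] = 0) → D = 0)
    [Finite ι] {a : ι → ℕ}
    {T : (i : ι) → MultilinearMap K (fun _ : Fin (m i) => Derivation ℂ K K) K}
    (hT : ∀ i, IsTensorV y 0 (a i • L) (T i)) (hT0 : ∃ i, 1 ≤ a i ∧ T i ≠ 0)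
    {E : Fin n → Derivation ℂ K K} (hE : LinearIndependent K E)
    (hcrit : ∀ F C : Submodule (AlgebraicClosure K) (Fin n → AlgebraicClosure K), F ≠ ⊥ → F ≤ C →
      Module.finrank (AlgebraicClosure K) F + Module.finrank (AlgebraicClosure K) C = n →
      (∀ x ∈ F, ∀ z ∈ C, extT E σ ![x, z] = 0 ∧ extT E σ ![z, x] = 0) →
      ∃ i, ∃ x : Fin (m i) → Fin n → AlgebraicClosure K,
        (∀ s, x s ∈ C) ∧ (∃ s, x s ∈ F) ∧ extT E (T i) x ≠ 0) :
    (∃ e : ℕ, 1 ≤ e ∧ ∃ f, f ≠ 0 ∧ FunSec y (e • L) f) ∧
    ∃ (u : AlgebraicClosure K) (A : Matrix (Fin n) (Fin n) (AlgebraicClosure K)), u ≠ 0 ∧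
      A.det ≠ 0 ∧ (∀ J : Fin 2 → Fin n,
        IsAlgebraic (ratioField y L) (extT E σ fun s => A (J s))) ∧
      ∀ i (J : Fin (m i) → Fin n),
        IsAlgebraic (ratioField y L) (u ^ a i * extT E (T i) fun s => A (J s)) := by
  classical
  have hs : Submodule.span K (Set.range E) = ⊤ := by
    rw [eq_top_iff]
    intro G _
    obtain ⟨c, hc⟩ := frame_of_indep hn hE G
    rw [hc]
    exact Submodule.sum_mem _ fun j _ => Submodule.smul_mem _ _
      (Submodule.subset_span (Set.mem_range_self j))
  let deg : Option ι → ℕ := fun i => match i with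
    | none => 2
    | some i => m i
  let a' : Option ι → ℕ := fun i => match i with
    | none => 0
    | some i => a i
  let T' : (i : Option ι) → MultilinearMap K (fun _ : Fin (deg i) => Derivation ℂ K K) K :=
    fun i => match i with
    | none => σ
    | some i => T i
  have hT' : ∀ i, IsTensorV y 0 (a' i • L) (T' i) := by
    intro i
    match i with
    | none =>
      have : a' none • L = 0 := zero_smul _ _
      rw [this]
      exact hσ
    | some i => exact hT i
  have hT0' : ∃ i, 1 ≤ a' i ∧ T' i ≠ 0 := by
    obtain ⟨i, h1, h2⟩ := hT0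
    exact ⟨some i, h1, h2⟩
  have hst : StableFam (coef T' E) := by
    refine ⟨?_, fun A hA w hw hJ => ?_⟩
    · intro h0
      obtain ⟨i, -, hi⟩ := hT0
      apply hi
      refine Module.Basis.ext_multilinear (fun _ => crd hE hs) fun J => ?_
      have h5 : (fun s => (crd hE hs) (J s)) = fun s => E (J s) := by
        funext s
        simp [crd]
      rw [h5]
      have h6 := congrFun (congrFun h0 (some i)) J
      exact (map_eq_zero _).1 h6
    · by_contra hw0
      -- the basis given by the rows of `A`
      have hf : LinearIndependent (AlgebraicClosure K) A.row :=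
        Matrix.linearIndependent_rows_iff_isUnit.2
          ((Matrix.isUnit_iff_isUnit_det _).2 (isUnit_iff_ne_zero.2 hA))
      obtain ⟨f, hfdef⟩ : ∃ f : Fin n → Fin n → AlgebraicClosure K, f = fun j => A j := ⟨_, rfl⟩
      have hf' : LinearIndependent (AlgebraicClosure K) f := by
        rw [hfdef]
        exact hf
      have hfs : Submodule.span (AlgebraicClosure K) (Set.range f) = ⊤ := by
        refine hf'.span_eq_top_of_card_eq_finrank' ?_
        rw [Fintype.card_fin, Module.finrank_fin_fun]
      -- the normalised weights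
      have hpos : (0 : ℝ) < ∑ j, (w j : ℝ) ^ 2 := by
        obtain ⟨j, hj⟩ : ∃ j, w j ≠ 0 := by
          by_contra hcon
          push Not at hcon
          exact hw0 (funext hcon)
        refine Finset.sum_pos' (fun _ _ => sq_nonneg _) ⟨j, Finset.mem_univ _, ?_⟩
        have : (w j : ℝ) ≠ 0 := by exact_mod_cast hj
        positivity
      obtain ⟨q, hqdef⟩ : ∃ q : ℝ, q = Real.sqrt (∑ j, (w j : ℝ) ^ 2) := ⟨_, rfl⟩
      have hq : 0 < q := by
        rw [hqdef]
        exact Real.sqrt_pos.2 hpos
      have hq2 : q ^ 2 = ∑ j, (w j : ℝ) ^ 2 := by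
        rw [hqdef]
        exact Real.sq_sqrt hpos.le
      obtain ⟨w', hw'⟩ : ∃ w' : Fin n → ℝ, w' = fun j => (w j : ℝ) / q := ⟨_, rfl⟩
      have hw1 : ∑ j, w' j = 0 := by
        rw [hw']
        simp only
        rw [← Finset.sum_div]
        have : ∑ j, (w j : ℝ) = 0 := by exact_mod_cast hw
        rw [this, zero_div]
      have hw2 : ∑ j, w' j ^ 2 = 1 := by
        rw [hw']
        simp only [div_pow]
        rw [← Finset.sum_div, ← hq2]
        exact div_self (pow_ne_zero _ hq.ne')
      have hσf : ∀ i j, w' i + w' j < 0 → extT E σ ![f i, f j] = 0 := by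
        intro i j hij
        have h1 : w i + w j < 0 := by
          rw [hw'] at hij
          simp only at hij
          rw [← add_div, div_lt_iff₀ hq, zero_mul] at hij
          exact_mod_cast hij
        have h2 := hJ none ![i, j] (by
          have e1 : ∑ s : Fin (deg none), w ((![i, j] : Fin 2 → Fin n) s) = w i + w j := by
            change ∑ s : Fin 2, w ((![i, j] : Fin 2 → Fin n) s) = w i + w j
            rw [Fin.sum_univ_two]
            rfl
          rw [e1]
          exact h1)
        rw [act_extT] at h2
        have h3 : (fun s : Fin 2 => A ((![i, j] : Fin 2 → Fin n) s)) = ![f i, f j] := by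
          rw [hfdef]
          funext s
          fin_cases s <;> rfl
        rw [← h3]
        exact h2
      obtain ⟨b0, hb0, hne, hle, hdim, hσ2⟩ := two_dist hf' hfs
        (fun x hx => extT_nondeg hE hs hnd x hx) hw1 hw2 hσf
      obtain ⟨i, x, hxC, ⟨s0, hxF⟩, hx0⟩ := hcrit (lvl (AlgebraicClosure K) f w' b0)
        (lvl (AlgebraicClosure K) f w' 0) hne hle hdim hσ2
      apply hx0
      -- the coordinates
      choose c hc hc' using fun s => lvl_coord (hxC s)
      obtain ⟨c0, hc0, hc0'⟩ := lvl_coord hxF
      obtain ⟨d, hd⟩ : ∃ d : Fin (m i) → Fin n → AlgebraicClosure K,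
          d = fun s => if s = s0 then c0 else c s := ⟨_, rfl⟩
      have hx : x = fun s => ∑ l, d s l • f l := by
        funext s
        rw [hd]
        by_cases h : s = s0
        · subst h
          simp only [if_true]
          exact hc0'
        · simp only [h, if_false]
          exact hc' s
      rw [hx, MultilinearMap.map_sum]
      refine Finset.sum_eq_zero fun I _ => ?_
      rw [MultilinearMap.map_smul_univ, smul_eq_mul]
      by_cases hI : ∀ s, d s (I s) ≠ 0
      · have h1 : ∀ s, w (I s) ≤ 0 := by
          intro s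
          have h2 := hI s
          rw [hd] at h2
          by_cases h : s = s0
          · subst h
            simp only [if_true] at h2
            have h3 : w' (I s) ≤ b0 := by
              by_contra h4
              exact h2 (hc0 _ h4)
            have h4 : w' (I s) ≤ 0 := h3.trans hb0.le
            rw [hw'] at h4
            simp only at h4
            rw [div_le_iff₀ hq, zero_mul] at h4
            exact_mod_cast h4
          · simp only [h, if_false] at h2
            have h4 : w' (I s) ≤ 0 := by
              by_contra h5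
              exact h2 (hc s _ h5)
            rw [hw'] at h4
            simp only at h4
            rw [div_le_iff₀ hq, zero_mul] at h4
            exact_mod_cast h4
        have h2 : w (I s0) < 0 := by
          have h2 := hI s0
          rw [hd] at h2
          simp only [if_true] at h2
          have h3 : w' (I s0) ≤ b0 := by
            by_contra h4
            exact h2 (hc0 _ h4)
          have h4 : w' (I s0) < 0 := lt_of_le_of_lt h3 hb0
          rw [hw'] at h4
          simp only at h4
          rw [div_lt_iff₀ hq, zero_mul] at h4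
          exact_mod_cast h4
        have h3 : ∑ s, w (I s) < 0 :=
          Finset.sum_neg' (fun s _ => h1 s) ⟨s0, Finset.mem_univ _, h2⟩
        have h4 := hJ (some i) I h3
        rw [act_extT] at h4
        have h5 : (extT E (T i) fun s => f (I s)) = 0 := by
          rw [hfdef]
          exact h4
        rw [h5, mul_zero]
      · push Not at hI
        obtain ⟨s, hs⟩ := hI
        rw [Finset.prod_eq_zero (Finset.mem_univ s) hs, zero_mul]
  obtain ⟨h1, u, A, hu, hA, halg⟩ := tw_stable my_homd t_secv hy hn hn1 hr hη hη0 hT' hT0' hE hst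
  refine ⟨h1, u, A, hu, hA, fun J => ?_, fun i J => ?_⟩
  · have h2 := halg none J
    rw [act_extT] at h2
    have h3 : a' none = 0 := rfl
    rw [h3, pow_zero, one_mul] at h2
    exact h2
  · have h2 := halg (some i) J
    rw [act_extT] at h2
    exact h2

end

end Pool.Agent.N133.TB
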